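import Mathlib

/-!
# Entropy of finite valued functions on a probability space

`ent P X = ∑ a, negMulLog (P (X = a))`, monotonicity, invariance under recoding, strong
subadditivity (all in kernel form: only the partitions matter).
-/

namespace Pool.Agent.HypEnt

set_option linter.unusedSectionVars false

open MeasureTheory Set Finset

/-- strong subadditivity, the two variable core (for measures of arbitrary mass) -/
theorem core_le {α β : Type*} [Fintype α] [Fintype β] (q : α → β → ℝ) (hq : ∀ a b, 0 ≤ q a b) :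
    (∑ a, ∑ b, Real.negMulLog (q a b)) + Real.negMulLog (∑ a, ∑ b, q a b) ≤
      (∑ a, Real.negMulLog (∑ b, q a b)) + ∑ b, Real.negMulLog (∑ a, q a b) := by
  set r : α → ℝ := fun a => ∑ b, q a b with hr
  set s : β → ℝ := fun b => ∑ a, q a b with hs
  set t : ℝ := ∑ a, ∑ b, q a b with ht
  have hr0 : ∀ a, 0 ≤ r a := fun a => Finset.sum_nonneg fun b _ => hq a b
  have hs0 : ∀ b, 0 ≤ s b := fun b => Finset.sum_nonneg fun a _ => hq a b
  have htr : t = ∑ a, r a := rfl
  have hts : t = ∑ b, s b := by rw [ht, Finset.sum_comm]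
  have ht0 : 0 ≤ t := Finset.sum_nonneg fun a _ => hr0 a
  have hqr : ∀ a b, q a b ≤ r a := fun a b =>
    Finset.single_le_sum (f := fun b => q a b) (fun b _ => hq a b) (Finset.mem_univ b)
  have hqs : ∀ a b, q a b ≤ s b := fun a b =>
    Finset.single_le_sum (f := fun a => q a b) (fun a _ => hq a b) (Finset.mem_univ a)
  have hrt : ∀ a, r a ≤ t := fun a =>
    Finset.single_le_sum (f := r) (fun a _ => hr0 a) (Finset.mem_univ a)
  rcases eq_or_lt_of_le ht0 with h0 | hpos
  · have hr' : ∀ a, r a = 0 := fun a => le_antisymm (h0 ▸ hrt a) (hr0 a)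
    have hq' : ∀ a b, q a b = 0 := fun a b => le_antisymm (hr' a ▸ hqr a b) (hq a b)
    simp [hq', ← h0]
  · have key : ∀ a b, q a b * (Real.log (r a) + Real.log (s b) - Real.log (q a b) - Real.log t) ≤
        r a * s b / t - q a b := by
      intro a b
      rcases eq_or_lt_of_le (hq a b) with h | h
      · rw [← h]
        simp only [zero_mul, sub_zero]
        exact div_nonneg (mul_nonneg (hr0 a) (hs0 b)) ht0
      · have hra : 0 < r a := h.trans_le (hqr a b)
        have hsb : 0 < s b := h.trans_le (hqs a b)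
        have e : Real.log (r a) + Real.log (s b) - Real.log (q a b) - Real.log t =
            Real.log (r a * s b / (q a b * t)) := by
          rw [Real.log_div (by positivity) (by positivity), Real.log_mul hra.ne' hsb.ne',
            Real.log_mul h.ne' hpos.ne']
          ring
        rw [e]
        have := Real.log_le_sub_one_of_pos (x := r a * s b / (q a b * t)) (by positivity)
        calc _ ≤ q a b * (r a * s b / (q a b * t) - 1) := by gcongr
          _ = r a * s b / t - q a b := by field_simp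
    have h1 := Finset.sum_le_sum fun a (_ : a ∈ Finset.univ) =>
      Finset.sum_le_sum fun b (_ : b ∈ Finset.univ) => key a b
    have h2 : ∑ a, ∑ b, (r a * s b / t - q a b) = 0 := by
      have : ∑ a, ∑ b, (r a * s b / t - q a b) = (∑ a, r a) * (∑ b, s b) / t - t := by
        rw [Finset.sum_mul_sum, ht]
        simp only [Finset.sum_sub_distrib, Finset.sum_div]
      rw [this, ← htr, ← hts]
      field_simp
      ring
    rw [h2] at h1
    have h3 : ∑ a, ∑ b, q a b * (Real.log (r a) + Real.log (s b) - Real.log (q a b) - Real.log t)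
        = (∑ a, ∑ b, Real.negMulLog (q a b)) + Real.negMulLog t -
          ((∑ a, Real.negMulLog (r a)) + ∑ b, Real.negMulLog (s b)) := by
      have e1 : ∑ a, ∑ b, q a b * Real.log (r a) = -∑ a, Real.negMulLog (r a) := by
        rw [← Finset.sum_neg_distrib]
        refine Finset.sum_congr rfl fun a _ => ?_
        rw [← Finset.sum_mul, Real.negMulLog]
        ring
      have e2 : ∑ a, ∑ b, q a b * Real.log (s b) = -∑ b, Real.negMulLog (s b) := by
        rw [Finset.sum_comm, ← Finset.sum_neg_distrib]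
        refine Finset.sum_congr rfl fun b _ => ?_
        rw [← Finset.sum_mul, Real.negMulLog]
        ring
      have e3 : ∑ a, ∑ b, q a b * Real.log (q a b) = -∑ a, ∑ b, Real.negMulLog (q a b) := by
        simp only [← Finset.sum_neg_distrib]
        refine Finset.sum_congr rfl fun a _ => Finset.sum_congr rfl fun b _ => ?_
        rw [Real.negMulLog]
        ring
      have e4 : ∑ a, ∑ b, q a b * Real.log t = -Real.negMulLog t := by
        simp only [← Finset.sum_mul]
        rw [Real.negMulLog]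
        ring
      have : ∀ a b, q a b * (Real.log (r a) + Real.log (s b) - Real.log (q a b) - Real.log t) =
          q a b * Real.log (r a) + q a b * Real.log (s b) - q a b * Real.log (q a b) -
            q a b * Real.log t := fun a b => by ring
      simp only [this, Finset.sum_add_distrib, Finset.sum_sub_distrib]
      rw [e1, e2, e3, e4]
      ring
    linarith

/-- subadditivity of `negMulLog` on nonnegative reals -/
theorem negMulLog_sum_le {β : Type*} (s : Finset β) (p : β → ℝ) (hp : ∀ b ∈ s, 0 ≤ p b) :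
    Real.negMulLog (∑ b ∈ s, p b) ≤ ∑ b ∈ s, Real.negMulLog (p b) := by
  unfold Real.negMulLog
  rw [neg_mul, Finset.sum_mul, ← Finset.sum_neg_distrib]
  refine Finset.sum_le_sum fun b hb => ?_
  rw [neg_mul]
  refine neg_le_neg ?_
  rcases eq_or_lt_of_le (hp b hb) with h | h
  · simp [← h]
  · exact mul_le_mul_of_nonneg_left
      (Real.log_le_log h (Finset.single_le_sum (f := p) hp hb)) h.le

variable {Ω : Type*} [MeasurableSpace Ω]

/-- all fibres are measurable -/
def FM {α : Type*} (X : Ω → α) : Prop := ∀ a, MeasurableSet (X ⁻¹' {a})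

/-- entropy of a finite valued function -/
noncomputable def ent (P : Measure Ω) {α : Type*} [Fintype α] (X : Ω → α) : ℝ :=
  ∑ a, Real.negMulLog (P.real (X ⁻¹' {a}))

variable {α β γ δ : Type*} [Fintype α] [Fintype β] [Fintype γ] [Fintype δ]

theorem FM.comp {X : Ω → α} (hX : FM X) (f : α → β) : FM (fun ω => f (X ω)) := by
  intro b
  have : (fun ω => f (X ω)) ⁻¹' {b} = ⋃ a ∈ {a | f a = b}, X ⁻¹' {a} := by
    ext ω; simp
  rw [this]
  exact MeasurableSet.biUnion (Set.to_countable _) fun a _ => hX a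

theorem FM.prodMk {X : Ω → α} {Y : Ω → β} (hX : FM X) (hY : FM Y) :
    FM (fun ω => (X ω, Y ω)) := by
  rintro ⟨a, b⟩
  have : (fun ω => (X ω, Y ω)) ⁻¹' {(a, b)} = X ⁻¹' {a} ∩ Y ⁻¹' {b} := by
    ext ω; simp [Prod.ext_iff]
  rw [this]
  exact (hX a).inter (hY b)

theorem real_comp (P : Measure Ω) [IsFiniteMeasure P] [DecidableEq β] {X : Ω → α} (hX : FM X)
    (f : α → β) (b : β) :
    P.real ((fun ω => f (X ω)) ⁻¹' {b}) =
      ∑ a ∈ Finset.univ.filter (fun a => f a = b), P.real (X ⁻¹' {a}) := by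
  have : (fun ω => f (X ω)) ⁻¹' {b} =
      ⋃ a ∈ Finset.univ.filter (fun a => f a = b), X ⁻¹' {a} := by
    ext ω; simp
  rw [this, measureReal_biUnion_finset]
  · intro a _ a' _ h
    exact Disjoint.preimage _ (by simpa using h)
  · intro a _
    exact hX a

theorem real_fst (P : Measure Ω) [IsFiniteMeasure P] {X : Ω → α} {Y : Ω → β} (hX : FM X)
    (hY : FM Y) (a : α) :
    P.real (X ⁻¹' {a}) = ∑ b, P.real ((fun ω => (X ω, Y ω)) ⁻¹' {(a, b)}) := by
  classical
  have := real_comp P (hX.prodMk hY) Prod.fst a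
  rw [show X ⁻¹' {a} = (fun ω => Prod.fst (X ω, Y ω)) ⁻¹' {a} from rfl, this]
  rw [show (Finset.univ.filter fun c : α × β => c.1 = a) =
    Finset.univ.map ⟨fun b => (a, b), fun _ _ h => (Prod.ext_iff.1 h).2⟩ from ?_,
    Finset.sum_map]
  · rfl
  · ext ⟨a', b⟩
    simp [eq_comm]

theorem ent_comp_le (P : Measure Ω) [IsFiniteMeasure P] {X : Ω → α} (hX : FM X) (f : α → β) :
    ent P (fun ω => f (X ω)) ≤ ent P X := by
  classical
  unfold ent
  calc _ ≤ ∑ b, ∑ a ∈ Finset.univ.filter (fun a => f a = b),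
        Real.negMulLog (P.real (X ⁻¹' {a})) := by
        refine Finset.sum_le_sum fun b _ => ?_
        rw [real_comp P hX f b]
        exact negMulLog_sum_le _ _ fun a _ => measureReal_nonneg
    _ = _ := Finset.sum_fiberwise _ _ _

/-- a function of `Y` has smaller entropy -/
theorem ent_mono (P : Measure Ω) [IsProbabilityMeasure P] {X : Ω → α} {Y : Ω → β}
    (hY : FM Y) (h : ∀ ω ω', Y ω = Y ω' → X ω = X ω') : ent P X ≤ ent P Y := by
  have hne : Nonempty Ω := P.nonempty_of_neZero
  have : Nonempty α := ⟨X hne.some⟩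
  obtain ⟨f, hf⟩ : ∃ f : β → α, X = f ∘ Y :=
    (Function.factorsThrough_iff X).1 fun ω ω' hh => h ω ω' hh
  rw [hf]
  exact ent_comp_le P hY f

/-- entropy only depends on the partition -/
theorem ent_congr (P : Measure Ω) [IsProbabilityMeasure P] {X : Ω → α} {Y : Ω → β}
    (hX : FM X) (hY : FM Y) (h : ∀ ω ω', X ω = X ω' ↔ Y ω = Y ω') : ent P X = ent P Y :=
  le_antisymm (ent_mono P hY fun ω ω' => (h ω ω').2) (ent_mono P hX fun ω ω' => (h ω ω').1)

/-- strong subadditivity -/
theorem ent_ssa (P : Measure Ω) [IsProbabilityMeasure P] {X : Ω → α} {Y : Ω → β} {Z : Ω → γ}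
    (hX : FM X) (hY : FM Y) (hZ : FM Z) :
    ent P (fun ω => (X ω, Y ω, Z ω)) + ent P Z ≤
      ent P (fun ω => (X ω, Z ω)) + ent P (fun ω => (Y ω, Z ω)) := by
  classical
  set p : α → β → γ → ℝ := fun a b c => P.real ((fun ω => (X ω, Y ω, Z ω)) ⁻¹' {(a, b, c)})
    with hp
  have hXYZ : FM (fun ω => (X ω, Y ω, Z ω)) := hX.prodMk (hY.prodMk hZ)
  have h1 : ent P (fun ω => (X ω, Y ω, Z ω)) = ∑ c, ∑ a, ∑ b, Real.negMulLog (p a b c) := by
    unfold ent
    rw [Fintype.sum_prod_type]
    simp only [Fintype.sum_prod_type]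
    calc _ = ∑ a, ∑ c, ∑ b, Real.negMulLog (p a b c) :=
          Finset.sum_congr rfl fun a _ => Finset.sum_comm
      _ = _ := Finset.sum_comm
  have m1 : ∀ a c, P.real ((fun ω => (X ω, Z ω)) ⁻¹' {(a, c)}) = ∑ b, p a b c := by
    intro a c
    have := real_fst P (hX.prodMk hZ) hY (a, c)
    rw [this]
    refine Finset.sum_congr rfl fun b _ => ?_
    simp only [hp]
    congr 1
    ext ω
    simp [Prod.ext_iff]
    tauto
  have m2 : ∀ b c, P.real ((fun ω => (Y ω, Z ω)) ⁻¹' {(b, c)}) = ∑ a, p a b c := by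
    intro b c
    have := real_fst P (hY.prodMk hZ) hX (b, c)
    rw [this]
    refine Finset.sum_congr rfl fun a _ => ?_
    simp only [hp]
    congr 1
    ext ω
    simp [Prod.ext_iff]
    tauto
  have m3 : ∀ c, P.real (Z ⁻¹' {c}) = ∑ a, ∑ b, p a b c := by
    intro c
    rw [real_fst P hZ hX c]
    refine Finset.sum_congr rfl fun a _ => ?_
    rw [← m1]
    congr 1
    ext ω
    simp [Prod.ext_iff]
    tauto
  have h2 : ent P (fun ω => (X ω, Z ω)) = ∑ c, ∑ a, Real.negMulLog (∑ b, p a b c) := by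
    unfold ent
    rw [Fintype.sum_prod_type, Finset.sum_comm]
    simp only [m1]
  have h3 : ent P (fun ω => (Y ω, Z ω)) = ∑ c, ∑ b, Real.negMulLog (∑ a, p a b c) := by
    unfold ent
    rw [Fintype.sum_prod_type, Finset.sum_comm]
    simp only [m2]
  have h4 : ent P Z = ∑ c, Real.negMulLog (∑ a, ∑ b, p a b c) := by
    unfold ent
    simp only [m3]
  rw [h1, h2, h3, h4, ← Finset.sum_add_distrib, ← Finset.sum_add_distrib]
  exact Finset.sum_le_sum fun c _ => core_le (fun a b => p a b c) fun a b => measureReal_nonneg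

/-- strong subadditivity, kernel form: `XYZ`, `XZ`, `YZ` are any functions with the right
partitions -/
theorem ent_ssa' (P : Measure Ω) [IsProbabilityMeasure P] {ε ζ : Type*} [Fintype ε] [Fintype ζ]
    {X : Ω → α} {Y : Ω → β} {Z : Ω → γ} {A : Ω → δ} {B : Ω → ε} {C : Ω → ζ}
    (hX : FM X) (hY : FM Y) (hZ : FM Z) (hA : FM A) (hB : FM B) (hC : FM C)
    (h1 : ∀ ω ω', A ω = A ω' ↔ X ω = X ω' ∧ Y ω = Y ω' ∧ Z ω = Z ω')
    (h2 : ∀ ω ω', B ω = B ω' ↔ X ω = X ω' ∧ Z ω = Z ω')
    (h3 : ∀ ω ω', C ω = C ω' ↔ Y ω = Y ω' ∧ Z ω = Z ω') :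
    ent P A + ent P Z ≤ ent P B + ent P C := by
  rw [ent_congr P hA (hX.prodMk (hY.prodMk hZ)) (fun ω ω' => by rw [h1]; simp [Prod.ext_iff]),
    ent_congr P hB (hX.prodMk hZ) (fun ω ω' => by rw [h2]; simp [Prod.ext_iff]),
    ent_congr P hC (hY.prodMk hZ) (fun ω ω' => by rw [h3]; simp [Prod.ext_iff])]
  exact ent_ssa P hX hY hZ

omit [Fintype α] in
theorem ent_nonneg (P : Measure Ω) [IsProbabilityMeasure P] [Fintype α] (X : Ω → α) :
    0 ≤ ent P X :=
  Finset.sum_nonneg fun _ _ => Real.negMulLog_nonneg measureReal_nonneg measureReal_le_one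

theorem sum_real (P : Measure Ω) [IsProbabilityMeasure P] {X : Ω → α} (hX : FM X) :
    ∑ a, P.real (X ⁻¹' {a}) = 1 := by
  rw [← measureReal_biUnion_finset]
  · have : (⋃ a ∈ (Finset.univ : Finset α), X ⁻¹' {a}) = Set.univ := by
      ext ω; simp
    rw [this]
    simp
  · intro a _ a' _ h
    exact Disjoint.preimage _ (by simpa using h)
  · intro a _
    exact hX a

/-- independent variables -/
theorem ent_indep (P : Measure Ω) [IsProbabilityMeasure P] {X : Ω → α} {Y : Ω → β}
    (hX : FM X) (hY : FM Y)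
    (h : ∀ a b, P.real (X ⁻¹' {a} ∩ Y ⁻¹' {b}) = P.real (X ⁻¹' {a}) * P.real (Y ⁻¹' {b})) :
    ent P (fun ω => (X ω, Y ω)) = ent P X + ent P Y := by
  unfold ent
  rw [Fintype.sum_prod_type]
  have e : ∀ a b, P.real ((fun ω => (X ω, Y ω)) ⁻¹' {(a, b)}) =
      P.real (X ⁻¹' {a}) * P.real (Y ⁻¹' {b}) := by
    intro a b
    rw [← h]
    congr 1
    ext ω
    simp [Prod.ext_iff]
  simp only [e, Real.negMulLog_mul, Finset.sum_add_distrib, ← Finset.sum_mul, ← Finset.mul_sum,
    sum_real P hX, sum_real P hY]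
  ring

/-- uniform bound -/
theorem ent_le_log_card (P : Measure Ω) [IsProbabilityMeasure P] {X : Ω → α} (hX : FM X) :
    ent P X ≤ Real.log (Fintype.card α) := by
  have hne : Nonempty Ω := P.nonempty_of_neZero
  have : Nonempty α := ⟨X hne.some⟩
  have hc : (0 : ℝ) < Fintype.card α := by exact_mod_cast Fintype.card_pos
  have h1 : ∀ a, Real.negMulLog (P.real (X ⁻¹' {a})) ≤
      P.real (X ⁻¹' {a}) * Real.log (Fintype.card α) + (1 / Fintype.card α - P.real (X ⁻¹' {a})) := by
    intro a
    set p := P.real (X ⁻¹' {a})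
    rcases eq_or_lt_of_le (show 0 ≤ p from measureReal_nonneg) with h | h
    · rw [← h]; simp; 
    · have := Real.log_le_sub_one_of_pos (x := 1 / (Fintype.card α * p)) (by positivity)
      rw [Real.log_div one_ne_zero (by positivity), Real.log_one, Real.log_mul hc.ne' h.ne'] at this
      have h2 := mul_le_mul_of_nonneg_left this h.le
      have h3 : p * (1 / (Fintype.card α * p) - 1) = 1 / Fintype.card α - p := by field_simp
      rw [h3] at h2
      rw [Real.negMulLog]
      linarith
  calc ent P X ≤ ∑ a, (P.real (X ⁻¹' {a}) * Real.log (Fintype.card α) +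
        (1 / Fintype.card α - P.real (X ⁻¹' {a}))) := Finset.sum_le_sum fun a _ => h1 a
    _ = _ := by
      rw [Finset.sum_add_distrib, Finset.sum_sub_distrib, ← Finset.sum_mul, sum_real P hX]
      simp

end Pool.Agent.HypEnt
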