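import Pool.Agent.Lib.HypVec.NoChoice

/-!
# H2 / HypVec: transport lemma and flows (MP_e30c56_detforest.md)

`Div f`: the function `f` on configurations is the divergence of a Borel flow,
`f w = ∑ j, (G j (alpha j w) - G j w)` with `G j` Borel.  `g (act v w) - g w` is such a function for
every list `v`, and a function which is positive on `Y K` is not (no sinkless choice).
-/

namespace HypVec

/-- divergences of Borel flows -/
def Div (f : Conf → ℝ) : Prop :=
  ∃ G : Fin 3 → Conf → ℝ, (∀ j, Measurable (G j)) ∧
    ∀ w, f w = ∑ j, (G j (alpha j w) - G j w)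

theorem Div.zero : Div (fun _ => 0) := ⟨fun _ _ => 0, fun _ => measurable_const, fun w => by simp⟩

theorem Div.add {f g : Conf → ℝ} (hf : Div f) (hg : Div g) : Div (fun w => f w + g w) := by
  obtain ⟨F, hF, hF'⟩ := hf
  obtain ⟨G, hG, hG'⟩ := hg
  refine ⟨fun j w => F j w + G j w, fun j => (hF j).add (hG j), fun w => ?_⟩
  show f w + g w = _
  rw [hF', hG', ← Finset.sum_add_distrib]
  exact Finset.sum_congr rfl fun j _ => by ring

theorem Div.const_mul {f : Conf → ℝ} (hf : Div f) (a : ℝ) : Div (fun w => a * f w) := by
  obtain ⟨F, hF, hF'⟩ := hf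
  refine ⟨fun j w => a * F j w, fun j => (hF j).const_mul a, fun w => ?_⟩
  show a * f w = _
  rw [hF', Finset.mul_sum]
  exact Finset.sum_congr rfl fun j _ => by ring

theorem Div.sum {ι : Type*} (s : Finset ι) {f : ι → Conf → ℝ} (hf : ∀ a ∈ s, Div (f a)) :
    Div (fun w => ∑ a ∈ s, f a w) := by
  classical
  induction s using Finset.induction_on with
  | empty => simpa using Div.zero
  | insert a s ha ih =>
    have h1 := (hf a (Finset.mem_insert_self a s)).add
      (ih fun b hb => hf b (Finset.mem_insert_of_mem hb))
    simpa [Finset.sum_insert ha] using h1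

theorem Div.congr {f g : Conf → ℝ} (hf : Div f) (h : ∀ w, f w = g w) : Div g := by
  obtain rfl : f = g := funext h
  exact hf

theorem Div.measurable {f : Conf → ℝ} (hf : Div f) : Measurable f := by
  obtain ⟨F, hF, hF'⟩ := hf
  have : f = fun w => ∑ j, (F j (alpha j w) - F j w) := funext hF'
  rw [this]
  exact Finset.measurable_sum _ fun j _ => ((hF j).comp (measurable_alpha j)).sub (hF j)

/-- one step -/
theorem Div.step {g : Conf → ℝ} (hg : Measurable g) (i : Fin 3) :
    Div (fun w => g (alpha i w) - g w) := by
  classical
  refine ⟨fun j w => if j = i then g w else 0, fun j => ?_, fun w => ?_⟩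
  · by_cases h : j = i
    · simpa [h] using hg
    · simp [h]
  · rw [Finset.sum_eq_single i]
    · simp
    · intro j _ hj
      simp [hj]
    · intro h
      exact absurd (Finset.mem_univ i) h

/-- **Transport lemma.** -/
theorem Div.act {g : Conf → ℝ} (hg : Measurable g) (v : L3) :
    Div (fun w => g (act v w) - g w) := by
  induction v with
  | nil => simpa using Div.zero
  | cons i v ih =>
    -- `h (alpha i w) = h w + (h (alpha i w) - h w)` with `h w = g (act v w) - g w`
    have h1 := Div.step (g := fun w => g (HypVec.act v w))
      (hg.comp (measurable_act v)) i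
    refine (ih.add h1).congr fun w => ?_
    show g (HypVec.act v w) - g w + (g (HypVec.act v (alpha i w)) - g (HypVec.act v w)) =
      g (HypVec.act v (alpha i w)) - g w
    ring

/-- The divergence of a Borel flow is not positive everywhere on `Y K`. -/
theorem Div.exists_nonpos (K : Keys) {f : Conf → ℝ} (hf : Div f) : ∃ x ∈ Y K, f x ≤ 0 := by
  classical
  by_contra hcon
  push Not at hcon
  obtain ⟨G, hG, hG'⟩ := hf
  let F : Fin 3 → Conf → ℝ := fun j w => G j (alpha j w) - G j w
  have hF : ∀ j, Measurable (F j) := fun j => ((hG j).comp (measurable_alpha j)).sub (hG j)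
  have hanti : ∀ j w, F j (alpha j w) = - F j w := by
    intro j w
    show G j (alpha j (alpha j w)) - G j (alpha j w) = -(G j (alpha j w) - G j w)
    rw [alpha_alpha]
    ring
  let c : Conf → Fin 3 := fun w => if 0 < F 0 w then 0 else if 0 < F 1 w then 1 else 2
  have hc : Measurable c := by
    refine Measurable.ite (measurableSet_lt measurable_const (hF 0)) measurable_const ?_
    exact Measurable.ite (measurableSet_lt measurable_const (hF 1)) measurable_const
      measurable_const
  have hpos : ∀ w ∈ Y K, ∀ i, c w = i → 0 < F i w := by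
    intro w hw i hi
    have hsum : 0 < F 0 w + F 1 w + F 2 w := by
      have := hcon w hw
      rw [hG', Fin.sum_univ_three] at this
      exact this
    by_cases h0 : 0 < F 0 w
    · have : c w = 0 := if_pos h0
      rw [this] at hi
      subst hi
      exact h0
    · by_cases h1 : 0 < F 1 w
      · have : c w = 1 := by
          show (if 0 < F 0 w then (0 : Fin 3) else if 0 < F 1 w then 1 else 2) = 1
          rw [if_neg h0, if_pos h1]
        rw [this] at hi
        subst hi
        exact h1
      · have : c w = 2 := by
          show (if 0 < F 0 w then (0 : Fin 3) else if 0 < F 1 w then 1 else 2) = 2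
          rw [if_neg h0, if_neg h1]
        rw [this] at hi
        subst hi
        linarith [not_lt.1 h0, not_lt.1 h1]
  obtain ⟨x, hx, i, h1, h2⟩ := no_choice K hc
  have h3 := hpos x hx i h1
  have h4 := hpos (alpha i x) (alpha_mem_Y hx i) i h2
  rw [hanti] at h4
  linarith

end HypVec
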