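import Mathlib

/-!
# Walsh functions on the coin flipping space

`cube W` is the fair coin product measure on `W → Bool` (`W` countable), `wal B` the Walsh
function of the finite set `B`, `coef f B = ∫ wal B * f`.  Parseval's identity for bounded
measurable functions, change of variables for permutations of `W`, vanishing of the even
coefficients of odd functions.
-/

namespace Pool.Agent.HypVec

open MeasureTheory Set
open scoped ENNReal symmDiff

/-- The sign of a bit. -/
def sg (b : Bool) : ℝ := if b then -1 else 1

@[simp] theorem sg_true : sg true = -1 := rfl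
@[simp] theorem sg_false : sg false = 1 := rfl

theorem sg_mul_self (b : Bool) : sg b * sg b = 1 := by cases b <;> simp

theorem sg_not (b : Bool) : sg (!b) = - sg b := by cases b <;> simp

theorem abs_sg (b : Bool) : |sg b| = 1 := by cases b <;> simp

/-- The fair coin. -/
noncomputable def coin : Measure Bool :=
  (2 : ℝ≥0∞)⁻¹ • (Measure.dirac false + Measure.dirac true)

instance : IsProbabilityMeasure coin := by
  constructor
  simp only [coin, Measure.smul_apply, Measure.add_apply, measure_univ, smul_eq_mul]
  rw [one_add_one_eq_two]
  exact ENNReal.inv_mul_cancel (by simp) (by simp)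

theorem coin_map_not : coin.map (fun b => !b) = coin := by
  have h : Measurable (fun b : Bool => !b) := measurable_of_countable _
  simp only [coin, Measure.map_smul, Measure.map_add _ _ h, Measure.map_dirac' h]
  simp [add_comm]

variable {W : Type*}

/-- The fair coin product measure. -/
noncomputable def cube (W : Type*) : Measure (W → Bool) := Measure.infinitePi (fun _ => coin)

instance : IsProbabilityMeasure (cube W) := by unfold cube; infer_instance

/-- Flip the bits of the set `s`. -/
noncomputable def flipOn (s : Set W) (v : W → Bool) : W → Bool :=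
  open Classical in fun w => if w ∈ s then !v w else v w

theorem measurable_flipOn (s : Set W) : Measurable (flipOn s) := by
  classical
  refine measurable_pi_lambda _ fun w => ?_
  by_cases h : w ∈ s
  · simp only [flipOn, h, if_true]
    exact (measurable_of_countable (fun b : Bool => !b)).comp (measurable_pi_apply w)
  · simp only [flipOn, h, if_false]
    exact measurable_pi_apply w

theorem flipOn_preserving (s : Set W) : MeasurePreserving (flipOn s) (cube W) (cube W) := by
  classical
  refine ⟨measurable_flipOn s, ?_⟩
  have h := Measure.infinitePi_map_pi (μ := fun _ : W => coin)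
    (f := fun (w : W) (b : Bool) => if w ∈ s then !b else b) (fun w => measurable_of_countable _)
  have h2 : (fun w : W => coin.map (fun b : Bool => if w ∈ s then !b else b)) =
      fun _ => coin := by
    funext w
    by_cases hw : w ∈ s
    · simp only [hw, if_true]; exact coin_map_not
    · simp only [hw, if_false]; exact Measure.map_id'
  rw [h2] at h
  exact h

/-- The change of variables by a permutation of the coordinates. -/
theorem perm_preserving (e : W ≃ W) :
    MeasurePreserving (fun v : W → Bool => v ∘ e) (cube W) (cube W) := by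
  refine ⟨measurable_pi_lambda _ fun w => measurable_pi_apply (e w), ?_⟩
  have h := Measure.infinitePi_map_piCongrLeft (μ := fun _ : W => coin) e.symm
  have h2 : (MeasurableEquiv.piCongrLeft (fun _ : W => Bool) e.symm : (W → Bool) → (W → Bool)) =
      fun v => v ∘ e := by
    funext v w
    simp [MeasurableEquiv.piCongrLeft, Equiv.piCongrLeft]
  rw [h2] at h
  exact h

theorem integral_comp_preserving {φ : (W → Bool) → (W → Bool)}
    (h : MeasurePreserving φ (cube W) (cube W)) {f : (W → Bool) → ℝ} (hf : Measurable f) :
    ∫ v, f (φ v) ∂(cube W) = ∫ v, f v ∂(cube W) := by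
  have := integral_map (μ := cube W) h.measurable.aemeasurable
    (f := f) hf.aestronglyMeasurable
  rw [h.map_eq] at this
  exact this.symm

/-- The Walsh function of a finite set. -/
def wal (B : Finset W) (v : W → Bool) : ℝ := ∏ b ∈ B, sg (v b)

@[simp] theorem wal_empty (v : W → Bool) : wal ∅ v = 1 := by simp [wal]

theorem wal_mul [DecidableEq W] (B C : Finset W) (v : W → Bool) :
    wal B v * wal C v = wal (B ∆ C) v := by
  have h1 : B ∪ C = (B ∆ C) ∪ (B ∩ C) := by
    ext x; simp [Finset.mem_symmDiff]; tauto
  have h2 : Disjoint (B ∆ C) (B ∩ C) := by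
    rw [Finset.disjoint_left]; intro x; simp [Finset.mem_symmDiff]; tauto
  have h3 : wal B v * wal C v = wal (B ∪ C) v * wal (B ∩ C) v := by
    unfold wal; rw [Finset.prod_union_inter]
  have h4 : wal (B ∪ C) v = wal (B ∆ C) v * wal (B ∩ C) v := by
    unfold wal; rw [h1, Finset.prod_union h2]
  have h5 : wal (B ∩ C) v * wal (B ∩ C) v = 1 := by
    unfold wal; rw [← Finset.prod_mul_distrib]
    exact Finset.prod_eq_one fun b _ => sg_mul_self _
  rw [h3, h4, mul_assoc, h5, mul_one]

theorem abs_wal (B : Finset W) (v : W → Bool) : |wal B v| = 1 := by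
  unfold wal
  rw [Finset.abs_prod]
  exact Finset.prod_eq_one fun b _ => abs_sg _

theorem wal_not (B : Finset W) (v : W → Bool) :
    wal B (fun w => !v w) = (-1) ^ B.card * wal B v := by
  unfold wal
  simp only [sg_not]
  rw [Finset.prod_neg]

theorem continuous_sg : Continuous sg := continuous_of_discreteTopology

theorem continuous_wal (B : Finset W) : Continuous (wal B) := by
  unfold wal
  exact continuous_finsetProd _ fun b _ => continuous_sg.comp (continuous_apply b)

theorem measurable_wal (B : Finset W) : Measurable (wal B) := by
  unfold wal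
  exact Finset.measurable_prod _ fun b _ =>
    (measurable_of_countable sg).comp (measurable_pi_apply b)

theorem wal_flip [DecidableEq W] (B : Finset W) {b : W} (hb : b ∈ B) (v : W → Bool) :
    wal B (flipOn {b} v) = - wal B v := by
  unfold wal
  rw [← Finset.mul_prod_erase B _ hb, ← Finset.mul_prod_erase B (fun w => sg (v w)) hb]
  have h1 : sg (flipOn {b} v b) = - sg (v b) := by simp [flipOn, sg_not]
  have h2 : ∏ x ∈ B.erase b, sg (flipOn {b} v x) = ∏ x ∈ B.erase b, sg (v x) := by
    apply Finset.prod_congr rfl
    intro x hx
    have : x ≠ b := Finset.ne_of_mem_erase hx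
    simp [flipOn, this]
  rw [h1, h2]; ring

theorem integral_wal [DecidableEq W] (B : Finset W) :
    ∫ v, wal B v ∂(cube W) = if B = ∅ then 1 else 0 := by
  split_ifs with h
  · subst h; simp
  · obtain ⟨b, hb⟩ := Finset.nonempty_iff_ne_empty.2 h
    have h1 : ∫ v, wal B (flipOn {b} v) ∂(cube W) = ∫ v, wal B v ∂(cube W) :=
      integral_comp_preserving (flipOn_preserving {b}) (measurable_wal B)
    simp only [wal_flip B hb, integral_neg] at h1
    linarith

/-! ### The Hilbert basis -/

section Basis

/-- The Walsh functions as continuous maps. -/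
def walC (B : Finset W) : C(W → Bool, ℝ) := ⟨wal B, continuous_wal B⟩

@[simp] theorem walC_apply (B : Finset W) (v : W → Bool) : walC B v = wal B v := rfl

theorem adjoin_eq_span : Subalgebra.toSubmodule (Algebra.adjoin ℝ (range (walC (W := W)))) =
    Submodule.span ℝ (range (walC (W := W))) := by
  classical
  apply Algebra.adjoin_eq_span_of_subset
  refine Subset.trans ?_ Submodule.subset_span
  intro x hx
  refine Submonoid.closure_induction (fun _ => id) ⟨∅, ?_⟩ ?_ hx
  · ext v; simp
  · rintro - - - - ⟨m, rfl⟩ ⟨n, rfl⟩
    refine ⟨m ∆ n, ?_⟩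
    ext v
    simp [wal_mul]

theorem separates : (Algebra.adjoin ℝ (range (walC (W := W)))).SeparatesPoints := by
  intro x y hxy
  obtain ⟨w, hw⟩ := Function.ne_iff.1 hxy
  refine ⟨_, ⟨walC {w}, Algebra.subset_adjoin ⟨{w}, rfl⟩, rfl⟩, ?_⟩
  simp only [walC_apply, wal, Finset.prod_singleton]
  cases hx : x w <;> cases hy : y w <;> simp_all <;> norm_num

theorem span_closure : (Submodule.span ℝ (range (walC (W := W)))).topologicalClosure = ⊤ := by
  rw [← adjoin_eq_span]
  exact congrArg Subalgebra.toSubmodule
    (ContinuousMap.subalgebra_topologicalClosure_eq_top_of_separatesPoints _ separates)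

variable [Countable W]

/-- The Walsh functions in `L²`. -/
noncomputable def walL (B : Finset W) : Lp ℝ 2 (cube W) :=
  ContinuousMap.toLp (E := ℝ) 2 (cube W) ℝ (walC B)

theorem coeFn_walL (B : Finset W) : walL B =ᵐ[cube W] wal B :=
  ContinuousMap.coeFn_toLp (cube W) (walC B)

theorem span_walL : (Submodule.span ℝ (range (walL (W := W)))).topologicalClosure = ⊤ := by
  have h := (ContinuousMap.toLp_denseRange ℝ (cube W) ℝ
    (p := 2) (by simp)).topologicalClosure_map_submodule (span_closure (W := W))
  rw [Submodule.map_span] at h
  rw [← h]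
  congr 2
  rw [← range_comp]
  rfl

theorem orthonormal_walL [DecidableEq W] : Orthonormal ℝ (walL (W := W)) := by
  rw [orthonormal_iff_ite]
  intro B C
  unfold walL
  rw [ContinuousMap.inner_toLp]
  have h : ∀ x, (walC C) x * (starRingEnd ℝ) ((walC B) x) = wal (B ∆ C) x := by
    intro x
    simp [← wal_mul, mul_comm]
  simp only [h, integral_wal]
  by_cases hBC : B = C
  · subst hBC; simp
  · have : B ∆ C ≠ ∅ := fun h => hBC (symmDiff_eq_bot.1 h)
    simp [hBC, this]

/-- The Walsh basis of `L²`. -/
noncomputable def basisL [DecidableEq W] : HilbertBasis (Finset W) ℝ (Lp ℝ 2 (cube W)) :=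
  HilbertBasis.mk orthonormal_walL span_walL.ge

theorem basisL_apply [DecidableEq W] (B : Finset W) : basisL B = walL B := by
  unfold basisL
  rw [HilbertBasis.coe_mk]

end Basis

/-- The Walsh coefficient of a real function. -/
noncomputable def coef (f : (W → Bool) → ℝ) (B : Finset W) : ℝ := ∫ v, wal B v * f v ∂(cube W)

theorem memLp_of_bdd {f : (W → Bool) → ℝ} (hf : Measurable f) {C : ℝ} (hC : ∀ v, |f v| ≤ C) :
    MemLp f 2 (cube W) :=
  MemLp.of_bound hf.aestronglyMeasurable C (Filter.Eventually.of_forall hC)

/-- **Parseval** for bounded measurable functions. -/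
theorem hasSum_coef_mul [Countable W] {f g : (W → Bool) → ℝ} (hf : Measurable f)
    (hg : Measurable g) {C : ℝ} (hCf : ∀ v, |f v| ≤ C) (hCg : ∀ v, |g v| ≤ C) :
    HasSum (fun B => coef f B * coef g B) (∫ v, f v * g v ∂(cube W)) := by
  classical
  have hf2 := memLp_of_bdd hf hCf
  have hg2 := memLp_of_bdd hg hCg
  have h := (basisL (W := W)).hasSum_inner_mul_inner (hf2.toLp f) (hg2.toLp g)
  have e1 : inner ℝ (hf2.toLp f) (hg2.toLp g) = ∫ v, f v * g v ∂(cube W) := by
    rw [L2.inner_def]
    apply integral_congr_ae
    filter_upwards [hf2.coeFn_toLp, hg2.coeFn_toLp] with v h1 h2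
    rw [h1, h2]
    simp [mul_comm]
  have e2 : ∀ (k : (W → Bool) → ℝ) (hk : MemLp k 2 (cube W)) (B : Finset W),
      inner ℝ (walL B) (hk.toLp k) = coef k B := by
    intro k hk B
    rw [L2.inner_def]
    apply integral_congr_ae
    filter_upwards [hk.coeFn_toLp, coeFn_walL B] with v h1 h2
    rw [h1, h2]
    simp [mul_comm]
  have e3 : (fun B => inner ℝ (hf2.toLp f) (basisL B) * inner ℝ (basisL B) (hg2.toLp g)) =
      fun B => coef f B * coef g B := by
    funext B
    rw [real_inner_comm, basisL_apply, e2, e2]
  rw [e1, e3] at h
  exact h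

/-- Coefficients after a permutation of the coordinates. -/
theorem coef_comp (e : W ≃ W) {f : (W → Bool) → ℝ} (hf : Measurable f) (B : Finset W) :
    coef (fun v => f (v ∘ e)) B = coef f (B.map e.symm.toEmbedding) := by
  unfold coef
  rw [← integral_comp_preserving (perm_preserving e)
    (f := fun v => wal (B.map e.symm.toEmbedding) v * f v)
    ((measurable_wal _).mul hf)]
  apply integral_congr_ae
  refine Filter.Eventually.of_forall fun v => ?_
  simp [wal]

/-- The even coefficients of an odd function vanish. -/
theorem coef_even {f : (W → Bool) → ℝ} (hf : Measurable f)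
    (ho : ∀ v, f (fun w => !v w) = - f v) {B : Finset W} (hB : Even B.card) : coef f B = 0 := by
  have hfl : flipOn (univ : Set W) = fun v w => !v w := by
    funext v w; simp [flipOn]
  have h := integral_comp_preserving (flipOn_preserving (univ : Set W))
    (f := fun v => wal B v * f v) ((measurable_wal _).mul hf)
  have h2 : ∀ v : W → Bool, wal B (flipOn univ v) * f (flipOn univ v) = -(wal B v * f v) := by
    intro v
    rw [hfl]
    simp only [ho, wal_not, hB.neg_one_pow]
    ring
  simp only [h2, integral_neg] at h
  unfold coef
  linarith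

/-- Measurability of the coefficients in a parameter. -/
theorem measurable_coef {X : Type*} [MeasurableSpace X] {f : X → (W → Bool) → ℝ}
    (hf : Measurable (Function.uncurry f)) (B : Finset W) :
    Measurable (fun x => coef (f x) B) := by
  unfold coef
  have h : StronglyMeasurable (Function.uncurry fun (x : X) (v : W → Bool) => wal B v * f x v) := by
    apply Measurable.stronglyMeasurable
    exact ((measurable_wal B).comp measurable_snd).mul hf
  exact (h.integral_prod_right (ν := cube W)).measurable

end Pool.Agent.HypVec
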