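import Pool.Agent.Lib.HypVec.Ent
import Pool.Agent.Lib.HypVec.WalshC

/-!
# Conditional entropies of functions of fair coins

`ι → Bool` with the fair coin measure `cube ι`, `G : (ι → Bool) → A` finite valued,
`hh G R = ent (G, restriction to R) - |R| log 2` = entropy of `G` given the bits in `R`.
Facts (i) - (viii) of section 6 of the page `MP_e30c56_F.md`.
-/

namespace Pool.Agent.HypEnt

set_option linter.unusedSectionVars false

open MeasureTheory Set Finset
open Pool.Agent.HypVec (cube flipOn flipOn_preserving perm_preserving)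

variable {ι : Type*} [DecidableEq ι]

/-- restriction to the finite set `R` -/
def rs (R : Finset ι) (o : ι → Bool) : R → Bool := fun i => o i

theorem rs_eq_iff {R : Finset ι} {o o' : ι → Bool} : rs R o = rs R o' ↔ ∀ i ∈ R, o i = o' i := by
  simp [rs, funext_iff]

/-- one coordinate -/
def ev (x : ι) (o : ι → Bool) : Bool := o x

theorem FM.of_measurable {A : Type*} [MeasurableSpace A] [MeasurableSingletonClass A]
    {Ω : Type*} [MeasurableSpace Ω] {X : Ω → A} (h : Measurable X) : FM X :=
  fun a => h (measurableSet_singleton a)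

theorem fm_rs (R : Finset ι) : FM (rs R : (ι → Bool) → (R → Bool)) :=
  FM.of_measurable (measurable_pi_lambda _ fun _ => measurable_pi_apply _)

theorem fm_ev (x : ι) : FM (ev x : (ι → Bool) → Bool) :=
  FM.of_measurable (measurable_pi_apply x)

variable {A B : Type*} [Fintype A] [Fintype B]

/-- entropy of `G` given the bits in `R` -/
noncomputable def hh (G : (ι → Bool) → A) (R : Finset ι) : ℝ :=
  ent (cube ι) (fun o => (G o, rs R o)) - R.card * Real.log 2

/-- (v) -/
theorem hh_empty {G : (ι → Bool) → A} (hG : FM G) : hh G ∅ = ent (cube ι) G := by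
  unfold hh
  rw [Finset.card_empty, Nat.cast_zero, zero_mul, sub_zero]
  refine ent_congr _ (hG.prodMk (fm_rs _)) hG fun o o' => ?_
  simp [Prod.ext_iff, rs_eq_iff]

theorem ent_const {Ω : Type*} [MeasurableSpace Ω] (P : Measure Ω) [IsProbabilityMeasure P]
    (a : A) : ent P (fun _ => a) = 0 := by
  classical
  unfold ent
  refine Finset.sum_eq_zero fun b _ => ?_
  by_cases h : a = b
  · subst h
    have : (fun _ : Ω => a) ⁻¹' {a} = Set.univ := by ext; simp
    rw [this]; simp
  · have : (fun _ : Ω => a) ⁻¹' {b} = ∅ := by ext; simp [h]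
    rw [this]; simp

theorem ent_pair_le {Ω : Type*} [MeasurableSpace Ω] (P : Measure Ω) [IsProbabilityMeasure P]
    {X : Ω → A} {Y : Ω → B} (hX : FM X) (hY : FM Y) :
    ent P (fun ω => (X ω, Y ω)) ≤ ent P X + ent P Y := by
  have hc : FM (fun _ : Ω => ()) := fun a => by
    have : (fun _ : Ω => ()) ⁻¹' {a} = Set.univ := by ext; simp
    rw [this]; exact MeasurableSet.univ
  have := ent_ssa' P (X := X) (Y := Y) (Z := fun _ => ()) (A := fun ω => (X ω, Y ω))
    (B := X) (C := Y) hX hY hc (hX.prodMk hY) hX hY (fun ω ω' => by simp [Prod.ext_iff])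
    (fun ω ω' => by simp) (fun ω ω' => by simp)
  rw [ent_const P ()] at this
  linarith

/-- entropy of one bit -/
theorem ent_ev_le (x : ι) : ent (cube ι) (ev x) ≤ Real.log 2 := by
  have := ent_le_log_card (cube ι) (fm_ev x)
  simpa using this

/-- (i) -/
theorem hh_insert_le {G : (ι → Bool) → A} (hG : FM G) {R : Finset ι} {x : ι} (hx : x ∉ R) :
    hh G (insert x R) ≤ hh G R := by
  have h1 : ent (cube ι) (fun o => (G o, rs (insert x R) o)) =
      ent (cube ι) (fun o => ((G o, rs R o), ev x o)) := by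
    refine ent_congr _ (hG.prodMk (fm_rs _)) ((hG.prodMk (fm_rs _)).prodMk (fm_ev x))
      fun o o' => ?_
    simp only [Prod.ext_iff, rs_eq_iff, Finset.mem_insert, forall_eq_or_imp, ev]
    tauto
  have h2 := ent_pair_le (cube ι) (hG.prodMk (fm_rs R)) (fm_ev x)
  have h3 := ent_ev_le x
  unfold hh
  rw [h1, Finset.card_insert_of_notMem hx]
  push_cast
  linarith

/-- (ii) -/
theorem hh_pair_sub {G : (ι → Bool) → A} {G' : (ι → Bool) → B} (hG : FM G) (hG' : FM G')
    {R : Finset ι} {x : ι} (hx : x ∉ R) :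
    hh G R - hh G (insert x R) ≤
      hh (fun o => (G o, G' o)) R - hh (fun o => (G o, G' o)) (insert x R) := by
  have := ent_ssa' (cube ι) (X := ev x) (Y := G') (Z := fun o => (G o, rs R o))
    (A := fun o => ((G o, G' o), rs (insert x R) o))
    (B := fun o => (G o, rs (insert x R) o)) (C := fun o => ((G o, G' o), rs R o))
    (fm_ev x) hG' (hG.prodMk (fm_rs R)) ((hG.prodMk hG').prodMk (fm_rs _))
    (hG.prodMk (fm_rs _)) ((hG.prodMk hG').prodMk (fm_rs _))
    (fun o o' => by
      simp only [Prod.ext_iff, rs_eq_iff, Finset.mem_insert, forall_eq_or_imp, ev]; tauto)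
    (fun o o' => by
      simp only [Prod.ext_iff, rs_eq_iff, Finset.mem_insert, forall_eq_or_imp, ev]; tauto)
    (fun o o' => by simp only [Prod.ext_iff, rs_eq_iff]; tauto)
  unfold hh
  rw [Finset.card_insert_of_notMem hx]
  push_cast
  linarith

/-- (iii) -/
theorem hh_submod {G : (ι → Bool) → A} (hG : FM G) {R : Finset ι} {x u : ι} (hx : x ∉ R)
    (hu : u ∉ R) (hxu : x ≠ u) :
    hh G R - hh G (insert x R) ≤ hh G (insert u R) - hh G (insert x (insert u R)) := by
  have := ent_ssa' (cube ι) (X := ev x) (Y := ev u) (Z := fun o => (G o, rs R o))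
    (A := fun o => (G o, rs (insert x (insert u R)) o))
    (B := fun o => (G o, rs (insert x R) o)) (C := fun o => (G o, rs (insert u R) o))
    (fm_ev x) (fm_ev u) (hG.prodMk (fm_rs R)) (hG.prodMk (fm_rs _))
    (hG.prodMk (fm_rs _)) (hG.prodMk (fm_rs _))
    (fun o o' => by
      simp only [Prod.ext_iff, rs_eq_iff, Finset.mem_insert, forall_eq_or_imp, ev]; tauto)
    (fun o o' => by
      simp only [Prod.ext_iff, rs_eq_iff, Finset.mem_insert, forall_eq_or_imp, ev]; tauto)
    (fun o o' => by
      simp only [Prod.ext_iff, rs_eq_iff, Finset.mem_insert, forall_eq_or_imp, ev]; tauto)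
  unfold hh
  rw [Finset.card_insert_of_notMem hx, Finset.card_insert_of_notMem hu,
    Finset.card_insert_of_notMem (by simp [hxu, hx]), Finset.card_insert_of_notMem hu]
  push_cast
  linarith

/-- measure preserving maps and entropy -/
theorem ent_comp_preserving {Ω : Type*} [MeasurableSpace Ω] {P : Measure Ω}
    {φ : Ω → Ω} (h : MeasurePreserving φ P P) {X : Ω → A} (hX : FM X) :
    ent P (fun ω => X (φ ω)) = ent P X := by
  unfold ent
  refine Finset.sum_congr rfl fun a _ => ?_
  rw [show (fun ω => X (φ ω)) ⁻¹' {a} = φ ⁻¹' (X ⁻¹' {a}) from rfl,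
    h.measureReal_preimage (hX a).nullMeasurableSet]

/-- (vii) -/
theorem hh_comp (e : ι ≃ ι) {G : (ι → Bool) → A} (hG : FM G) (R : Finset ι) :
    hh (fun o => G (o ∘ e)) (R.map e.toEmbedding) = hh G R := by
  have hm : MeasurePreserving (fun v : ι → Bool => v ∘ e) (cube ι) (cube ι) := perm_preserving e
  have hG' : FM (fun o : ι → Bool => G (o ∘ e)) := fun a => hm.measurable (hG a)
  unfold hh
  rw [Finset.card_map, ← ent_comp_preserving hm (X := fun o => (G o, rs R o))
    (hG.prodMk (fm_rs _))]
  congr 1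
  refine ent_congr _ (hG'.prodMk (fm_rs _)) (fun a => hm.measurable (hG.prodMk (fm_rs _) a))
    fun o o' => ?_
  simp only [Prod.ext_iff, rs_eq_iff, Finset.mem_map, Equiv.coe_toEmbedding,
    forall_exists_index, and_imp, forall_apply_eq_imp_iff₂, Function.comp_apply]

/-- events that do not depend on the coordinate `x` -/
theorem real_inter_ev (x : ι) (b : Bool) {E : Set (ι → Bool)} (hE : MeasurableSet E)
    (h : ∀ o, flipOn {x} o ∈ E ↔ o ∈ E) :
    (cube ι).real (E ∩ ev x ⁻¹' {b}) = (cube ι).real E / 2 := by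
  have hm := flipOn_preserving (W := ι) {x}
  have hev : ∀ o : ι → Bool, flipOn {x} o x = !o x := fun o => by simp [flipOn]
  have h1 : ∀ b, MeasurableSet (E ∩ ev x ⁻¹' {b}) := fun b => hE.inter (fm_ev x b)
  have h2 : (cube ι).real (E ∩ ev x ⁻¹' {!b}) = (cube ι).real (E ∩ ev x ⁻¹' {b}) := by
    rw [← hm.measureReal_preimage (h1 (!b)).nullMeasurableSet]
    congr 1
    ext o
    simp only [Set.mem_preimage, Set.mem_inter_iff, h, Set.mem_singleton_iff, ev, hev]
    cases o x <;> cases b <;> simp
  have h3 : E = (E ∩ ev x ⁻¹' {b}) ∪ (E ∩ ev x ⁻¹' {!b}) := by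
    ext o
    simp only [Set.mem_union, Set.mem_inter_iff, Set.mem_preimage, Set.mem_singleton_iff, ev]
    cases o x <;> cases b <;> simp
  have h4 : Disjoint (E ∩ ev x ⁻¹' {b}) (E ∩ ev x ⁻¹' {!b}) := by
    rw [Set.disjoint_left]
    rintro o ⟨_, ho⟩ ⟨_, ho'⟩
    simp only [Set.mem_preimage, Set.mem_singleton_iff] at ho ho'
    rw [ho] at ho'
    cases b <;> simp at ho'
  have h5 := measureReal_union (μ := cube ι) h4 (h1 (!b))
  rw [← h3, h2] at h5
  linarith

/-- (vi) -/
theorem hh_null {G : (ι → Bool) → A} (hG : FM G) {R : Finset ι} {x : ι} (hx : x ∉ R)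
    (h : ∀ o, G (flipOn {x} o) = G o) : hh G (insert x R) = hh G R := by
  have h1 : ent (cube ι) (fun o => (G o, rs (insert x R) o)) =
      ent (cube ι) (fun o => ((G o, rs R o), ev x o)) := by
    refine ent_congr _ (hG.prodMk (fm_rs _)) ((hG.prodMk (fm_rs _)).prodMk (fm_ev x))
      fun o o' => ?_
    simp only [Prod.ext_iff, rs_eq_iff, Finset.mem_insert, forall_eq_or_imp, ev]
    tauto
  have hev : ∀ b, (cube ι).real (ev x ⁻¹' {b}) = 1 / 2 := by
    intro b
    have := real_inter_ev x b (E := Set.univ) MeasurableSet.univ (by simp)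
    simpa using this
  have h2 : ent (cube ι) (fun o => ((G o, rs R o), ev x o)) =
      ent (cube ι) (fun o => (G o, rs R o)) + ent (cube ι) (ev x) := by
    refine ent_indep _ (hG.prodMk (fm_rs _)) (fm_ev x) fun a b => ?_
    rw [real_inter_ev x b ((hG.prodMk (fm_rs _)) a), hev]
    · ring
    · intro o
      simp only [Set.mem_preimage, Set.mem_singleton_iff, h]
      have : rs R (flipOn {x} o) = rs R o := by
        rw [rs_eq_iff]
        intro i hi
        have : i ≠ x := fun h => hx (h ▸ hi)
        simp [flipOn, this]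
      rw [this]
  have h3 : ent (cube ι) (ev x) = Real.log 2 := by
    unfold ent
    simp only [hev, Fintype.sum_bool, Real.negMulLog]
    rw [one_div, Real.log_inv]
    ring
  unfold hh
  rw [h1, h2, h3, Finset.card_insert_of_notMem hx]
  push_cast
  ring

/-- entropy of the bits in `R` -/
theorem ent_rs (R : Finset ι) : ent (cube ι) (rs R) = R.card * Real.log 2 := by
  have key : ∀ R : Finset ι, hh (fun _ : ι → Bool => ()) R = 0 := by
    have hc : FM (fun _ : ι → Bool => ()) := fun a => by
      have : (fun _ : ι → Bool => ()) ⁻¹' {a} = Set.univ := by ext; simp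
      rw [this]; exact MeasurableSet.univ
    intro R
    induction R using Finset.induction_on with
    | empty => rw [hh_empty hc]; exact ent_const _ ()
    | insert x R hx ih => rw [hh_null hc hx (fun _ => rfl), ih]
  have hc : FM (fun _ : ι → Bool => ()) := fun a => by
    have : (fun _ : ι → Bool => ()) ⁻¹' {a} = Set.univ := by ext; simp
    rw [this]; exact MeasurableSet.univ
  have h := key R
  unfold hh at h
  rw [ent_congr (cube ι) (X := fun o => ((), rs R o)) (Y := rs R) (hc.prodMk (fm_rs _)) (fm_rs _)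
    (fun o o' => by simp [Prod.ext_iff])] at h
  linarith

/-- (iv) -/
theorem hh_eq_zero {G : (ι → Bool) → A} (hG : FM G) {R : Finset ι}
    (h : ∀ o o', (∀ i ∈ R, o i = o' i) → G o = G o') : hh G R = 0 := by
  unfold hh
  rw [ent_congr (cube ι) (X := fun o => (G o, rs R o)) (Y := rs R) (hG.prodMk (fm_rs _)) (fm_rs _)
    (fun o o' => by
      simp only [Prod.ext_iff, rs_eq_iff]
      exact ⟨fun h => h.2, fun h' => ⟨h o o' h', h'⟩⟩), ent_rs]
  ring

/-- override the bits in `N` by those of `s` -/
def ov (N : Finset ι) (s : N → Bool) (o : ι → Bool) : ι → Bool :=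
  fun i => if h : i ∈ N then s ⟨i, h⟩ else o i

theorem measurable_ov (N : Finset ι) (s : N → Bool) : Measurable (ov N s) := by
  refine measurable_pi_lambda _ fun i => ?_
  by_cases h : i ∈ N
  · simp only [ov, h, dite_true]; exact measurable_const
  · simp only [ov, h, dite_false]; exact measurable_pi_apply i

theorem ov_mem {N : Finset ι} (s : N → Bool) (o : ι → Bool) {i : ι} (h : i ∈ N) :
    ov N s o i = s ⟨i, h⟩ := by simp [ov, h]

theorem ov_notMem {N : Finset ι} (s : N → Bool) (o : ι → Bool) {i : ι} (h : i ∉ N) :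
    ov N s o i = o i := by simp [ov, h]

theorem ov_self {N : Finset ι} (o : ι → Bool) : ov N (rs N o) o = o := by
  funext i
  by_cases h : i ∈ N
  · rw [ov_mem _ _ h]; rfl
  · rw [ov_notMem _ _ h]

/-- cylinder over `N` intersected with an event not depending on `N` -/
theorem real_inter_rs (N : Finset ι) (s : N → Bool) {E : Set (ι → Bool)} (hE : MeasurableSet E)
    (h : ∀ o o', (∀ i ∉ N, o i = o' i) → (o ∈ E ↔ o' ∈ E)) :
    (cube ι).real (E ∩ rs N ⁻¹' {s}) = (cube ι).real E / 2 ^ N.card := by
  have hsame : ∀ s' : N → Bool,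
      (cube ι).real (E ∩ rs N ⁻¹' {s'}) = (cube ι).real (E ∩ rs N ⁻¹' {s}) := by
    intro s'
    set T : Set ι := {i | ∃ h : i ∈ N, s ⟨i, h⟩ ≠ s' ⟨i, h⟩} with hT
    have hm := flipOn_preserving (W := ι) T
    rw [← hm.measureReal_preimage (hE.inter (fm_rs N s')).nullMeasurableSet]
    congr 1
    ext o
    have h1 : flipOn T o ∈ E ↔ o ∈ E := h _ _ fun i hi => by
      have : i ∉ T := fun ⟨h, _⟩ => hi h
      simp [flipOn, this]
    have h2 : rs N (flipOn T o) = s' ↔ rs N o = s := by
      simp only [funext_iff]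
      refine forall_congr' fun ⟨i, hi⟩ => ?_
      simp only [rs, flipOn]
      by_cases hh : s ⟨i, hi⟩ = s' ⟨i, hi⟩
      · have : i ∉ T := fun ⟨_, h'⟩ => h' hh
        rw [if_neg this, hh]
      · have : i ∈ T := ⟨hi, hh⟩
        rw [if_pos this]
        revert hh
        cases o i <;> cases s ⟨i, hi⟩ <;> cases s' ⟨i, hi⟩ <;> simp
    simp only [Set.mem_preimage, Set.mem_inter_iff, Set.mem_singleton_iff, h1, h2]
  have hsum : ∑ s' : N → Bool, (cube ι).real (E ∩ rs N ⁻¹' {s'}) = (cube ι).real E := by
    rw [← measureReal_biUnion_finset]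
    · congr 1
      ext o
      simp
    · intro a _ a' _ hne
      refine Disjoint.mono Set.inter_subset_right Set.inter_subset_right ?_
      exact Disjoint.preimage _ (by simpa using hne)
    · intro a _
      exact hE.inter (fm_rs N a)
  simp only [hsame, Finset.sum_const, Finset.card_univ, Fintype.card_pi, Fintype.card_bool,
    Finset.prod_const, nsmul_eq_mul, Fintype.card_coe] at hsum
  rw [← hsum]
  push_cast
  field_simp

theorem real_cyl (N : Finset ι) (s : N → Bool) {E : Set (ι → Bool)} (hE : MeasurableSet E) :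
    (cube ι).real (E ∩ rs N ⁻¹' {s}) = (cube ι).real (ov N s ⁻¹' E) / 2 ^ N.card := by
  rw [← real_inter_rs N s (measurable_ov N s hE)]
  · congr 1
    ext o
    simp only [Set.mem_inter_iff, Set.mem_preimage, Set.mem_singleton_iff]
    constructor
    · rintro ⟨h1, h2⟩
      refine ⟨?_, h2⟩
      rw [← h2, ov_self]
      exact h1
    · rintro ⟨h1, h2⟩
      refine ⟨?_, h2⟩
      rw [← h2, ov_self] at h1
      exact h1
  · intro o o' h
    have : ov N s o = ov N s o' := by
      funext i
      by_cases hi : i ∈ N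
      · rw [ov_mem _ _ hi, ov_mem _ _ hi]
      · rw [ov_notMem _ _ hi, ov_notMem _ _ hi, h i hi]
    simp only [Set.mem_preimage, this]

/-- (viii) the entropy given `N` and `R` is the average over the values on `N` -/
theorem hh_union {G : (ι → Bool) → A} (hG : FM G) {N R : Finset ι} (hd : Disjoint N R) :
    hh G (N ∪ R) = (∑ s : N → Bool, hh (fun o => G (ov N s o)) R) / 2 ^ N.card := by
  have hGs : ∀ s : N → Bool, FM (fun o => G (ov N s o)) := fun s a => measurable_ov N s (hG a)
  have e1 : ent (cube ι) (fun o => (G o, rs (N ∪ R) o)) =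
      ent (cube ι) (fun o => (rs N o, (G o, rs R o))) := by
    refine ent_congr _ (hG.prodMk (fm_rs _)) ((fm_rs _).prodMk (hG.prodMk (fm_rs _)))
      fun o o' => ?_
    simp only [Prod.ext_iff, rs_eq_iff, Finset.mem_union]
    constructor
    · rintro ⟨h1, h2⟩
      exact ⟨fun i hi => h2 i (Or.inl hi), h1, fun i hi => h2 i (Or.inr hi)⟩
    · rintro ⟨h1, h2, h3⟩
      exact ⟨h2, fun i hi => hi.elim (h1 i) (h3 i)⟩
  have e2 : ∀ (s : N → Bool) (a : A) (r : R → Bool),
      (cube ι).real ((fun o => (rs N o, (G o, rs R o))) ⁻¹' {(s, (a, r))}) =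
        (2 ^ N.card)⁻¹ * (cube ι).real ((fun o => (G (ov N s o), rs R o)) ⁻¹' {(a, r)}) := by
    intro s a r
    have h1 : (fun o => (rs N o, (G o, rs R o))) ⁻¹' {(s, (a, r))} =
        (fun o => (G o, rs R o)) ⁻¹' {(a, r)} ∩ rs N ⁻¹' {s} := by
      ext o
      simp only [Set.mem_preimage, Set.mem_singleton_iff, Prod.mk.injEq, Set.mem_inter_iff]
      tauto
    rw [h1, real_cyl N s (hG.prodMk (fm_rs R) (a, r))]
    have h2 : ov N s ⁻¹' ((fun o => (G o, rs R o)) ⁻¹' {(a, r)}) =
        (fun o => (G (ov N s o), rs R o)) ⁻¹' {(a, r)} := by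
      ext o
      simp only [Set.mem_preimage, Set.mem_singleton_iff, Prod.mk.injEq]
      have : rs R (ov N s o) = rs R o := by
        rw [rs_eq_iff]
        exact fun i hi => ov_notMem _ _ (Finset.disjoint_right.1 hd hi)
      rw [this]
    rw [h2, div_eq_inv_mul]
  have hn : (0 : ℝ) < 2 ^ N.card := by positivity
  have e3 : ent (cube ι) (fun o => (rs N o, (G o, rs R o))) =
      (∑ s : N → Bool, ent (cube ι) (fun o => (G (ov N s o), rs R o))) / 2 ^ N.card +
        N.card * Real.log 2 := by
    unfold ent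
    rw [Fintype.sum_prod_type]
    simp only [e2, Real.negMulLog_mul, Finset.sum_add_distrib, ← Finset.sum_mul,
      ← Finset.mul_sum]
    have h1 : ∀ s : N → Bool,
        ∑ c, (cube ι).real ((fun o => (G (ov N s o), rs R o)) ⁻¹' {c}) = 1 := fun s =>
      sum_real _ ((hGs s).prodMk (fm_rs R))
    simp only [h1]
    rw [Finset.sum_const, Finset.card_univ, Fintype.card_pi]
    simp only [Fintype.card_bool, Finset.prod_const, Finset.card_univ, Fintype.card_coe,
      nsmul_eq_mul]
    rw [Real.negMulLog, Real.log_inv, Real.log_pow]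
    push_cast
    field_simp
    ring
  have hcard : (N ∪ R).card = N.card + R.card := Finset.card_union_of_disjoint hd
  unfold hh
  rw [e1, e3, hcard, Finset.sum_sub_distrib]
  simp only [Finset.sum_const, Finset.card_univ, Fintype.card_pi, Fintype.card_bool,
    Finset.prod_const, Fintype.card_coe, nsmul_eq_mul]
  push_cast
  field_simp
  ring

end Pool.Agent.HypEnt
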