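import Pool.Agent.Lib.HypVec.Base

/-!
# H2 / HypVec: one forest which contains the forests of all `ySys K R`
-/

namespace HypVec

/-- infinitely many bits for each vertex and each type -/
abbrev MkN := W × (Fin 3 × ℕ) → Bool

/-- re-rooting of the marks -/
def reN (i : Fin 3) (o : MkN) : MkN := fun b => o (mv i b.1, b.2)

@[simp] theorem reN_reN (i : Fin 3) (o : MkN) : reN i (reN i o) = o := by
  funext b
  simp [reN]

/-- the first `R` bits -/
def rsN (R : ℕ) (o : MkN) : Mk R := fun b => o (b.1, (b.2.1, (b.2.2 : ℕ)))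

theorem rsN_reN (R : ℕ) (i : Fin 3) (o : MkN) : rsN R (reN i o) = re i (rsN R o) := rfl

/-- filling up with zeros -/
def exN (R : ℕ) (o : Mk R) : MkN := fun b =>
  if h : b.2.2 < R then o (b.1, (b.2.1, ⟨b.2.2, h⟩)) else false

theorem rsN_exN (R : ℕ) (o : Mk R) : rsN R (exN R o) = o := by
  funext b
  simp [rsN, exN]

theorem reN_exN (R : ℕ) (i : Fin 3) (o : Mk R) : reN i (exN R o) = exN R (re i o) := rfl

/-- the space of the union -/
abbrev UX (K : Keys) := ℕ × (Y K × MkN)

/-- crossing the edge `i` -/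
def uδ (K : Keys) (i : Fin 3) (z : UX K) : UX K :=
  (z.1, (wact (alphaY K) (gword i (rsN z.1 z.2.2)) z.2.1, reN i z.2.2))

theorem wact_uδ (K : Keys) (w : L3) (R : ℕ) (y : Y K) (o : MkN) :
    (wact (uδ K) w (R, (y, o))).2.1 = (wact (ySys K R).δ w (y, rsN R o)).1 := by
  induction w generalizing y o with
  | nil => rfl
  | cons i w ih =>
    rw [wact_cons, wact_cons]
    exact ih _ _

/-- the union of the systems `ySys K R` -/
def uSys (K : Keys) : Sys (UX K) where
  δ := uδ K
  inv i z := by
    refine Prod.ext rfl (Prod.ext ?_ (reN_reN i z.2.2))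
    have h := congrArg Prod.fst ((ySys K z.1).inv i (z.2.1, rsN z.1 z.2.2))
    exact h
  lab z := z.2.1.1.1
  free w hw h0 z := by
    have h := (ySys K z.1).free w hw h0 (z.2.1, rsN z.1 z.2.2)
    rw [wact_uδ K w z.1 z.2.1 z.2.2]
    exact h
  fin i z := (ySys K z.1).fin i (z.2.1, rsN z.1 z.2.2)

theorem measurable_rsN (R : ℕ) : Measurable (rsN R) :=
  measurable_pi_lambda _ fun _ => measurable_pi_apply _

theorem measurable_reN (i : Fin 3) : Measurable (reN i) :=
  measurable_pi_lambda _ fun _ => measurable_pi_apply _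

theorem measurable_uSys (K : Keys) (i : Fin 3) : Measurable ((uSys K).δ i) := by
  refine measurable_from_prod_countable_right fun R => ?_
  refine measurable_const.prodMk (Measurable.prodMk ?_ ((measurable_reN i).comp measurable_snd))
  have h : Measurable fun z : Y K × MkN => ((ySys K R).δ i (z.1, rsN R z.2)).1 :=
    measurable_fst.comp ((measurable_ySys K R i).comp
      (measurable_fst.prodMk ((measurable_rsN R).comp measurable_snd)))
  exact h

theorem measurable_uSys_lab (K : Keys) : Measurable (uSys K).lab :=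
  measurable_fst.comp (measurable_subtype_coe.comp (measurable_fst.comp measurable_snd))

/-- the forest of `ySys K R` inside the union -/
def emb (K : Keys) (R : ℕ) (z : Y K × Mk R) : UX K := (R, (z.1, exN R z.2))

theorem measurable_emb (K : Keys) (R : ℕ) : Measurable (emb K R) := by
  refine measurable_const.prodMk (measurable_fst.prodMk ?_)
  refine measurable_pi_lambda _ fun b => ?_
  by_cases h : b.2.2 < R
  · have e : (fun z : Y K × Mk R => exN R z.2 b) = fun z => z.2 (b.1, (b.2.1, ⟨b.2.2, h⟩)) := by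
      funext z
      simp [exN, h]
    rw [e]
    exact (measurable_pi_apply _).comp measurable_snd
  · have e : (fun z : Y K × Mk R => exN R z.2 b) = fun _ => false := by
      funext z
      simp [exN, h]
    rw [e]
    exact measurable_const

theorem emb_δ (K : Keys) (R : ℕ) (i : Fin 3) (z : Y K × Mk R) :
    emb K R ((ySys K R).δ i z) = (uSys K).δ i (emb K R z) := by
  refine Prod.ext rfl (Prod.ext ?_ rfl)
  show wact (alphaY K) (gword i z.2) z.1 = wact (alphaY K) (gword i (rsN R (exN R z.2))) z.1
  rw [rsN_exN]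

theorem emb_adj (K : Keys) (R : ℕ) {z z' : Y K × Mk R} (h : (ySys K R).gr.Adj z z') :
    (uSys K).gr.Adj (emb K R z) (emb K R z') := by
  obtain ⟨i, rfl⟩ := h
  exact ⟨i, (emb_δ K R i z).symm⟩

/-- hyperfiniteness, in the words of the problem -/
theorem Sys.hyperfinite {X : Type*} [MeasurableSpace X] [StandardBorelSpace X] (S : Sys X)
    (hδ : ∀ i, Measurable (S.δ i)) (hl : Measurable S.lab) :
    ∃ G' : ℕ → SimpleGraph X, (∀ n, MeasurableSet {p : X × X | (G' n).Adj p.1 p.2}) ∧
      (∀ n, G' n ≤ G' (n + 1)) ∧ (∀ n (C : (G' n).ConnectedComponent), C.supp.Finite) ∧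
      ∀ x y, S.gr.Adj x y ↔ ∃ n, (G' n).Adj x y := by
  refine ⟨S.gN, S.measurableSet_gN hδ hl, fun n => S.gN_mono (Nat.le_succ n), fun n C => ?_,
    S.gr_iff⟩
  induction C using SimpleGraph.ConnectedComponent.ind with
  | _ x =>
    refine (S.finite_reachable n x).subset fun y hy => ?_
    have h1 : (S.gN n).Reachable y x := SimpleGraph.ConnectedComponent.exact hy
    exact h1.symm

/-- the graph of the union: all properties of the forest -/
theorem uSys_facts (K : Keys) :
    MeasurableSet {p : UX K × UX K | (uSys K).gr.Adj p.1 p.2} ∧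
    (∀ x, ((uSys K).gr.neighborSet x).ncard = 3) ∧ (uSys K).gr.IsAcyclic ∧
    ∃ G' : ℕ → SimpleGraph (UX K), (∀ n, MeasurableSet {p : UX K × UX K | (G' n).Adj p.1 p.2}) ∧
      (∀ n, G' n ≤ G' (n + 1)) ∧ (∀ n (C : (G' n).ConnectedComponent), C.supp.Finite) ∧
      ∀ x y, (uSys K).gr.Adj x y ↔ ∃ n, (G' n).Adj x y :=
  ⟨(uSys K).measurableSet_gr (measurable_uSys K), (uSys K).ncard_neighborSet, (uSys K).isAcyclic,
    (uSys K).hyperfinite (measurable_uSys K) (measurable_uSys_lab K)⟩

end HypVec
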