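import Pool.Agent.Lib.HypVec.Space

/-!
# H2 / HypVec: LEMMA HT (page, section 3)

`T = {actX (i :: w) p | i :: w reduced}`. For `q = actX (i::w) p`: if `(i::w) ++ [j]` is reduced then
`alphaX j q ∈ T`; otherwise `i::w = w' ++ [j]` and `alphaX j q = actX w' p`, in `T` unless `w' = []`, which is the
exceptional case `j = i`, `q = alphaX i p`. `p ∉ T` by `freeX`.
-/

namespace HypVec

variable {K : Keys}

/-- one step from inside the half tree stays inside, unless it is the step back over the edge `i` -/
private theorem halfTree_step (p : X K) (i : Fin 3) (w : L3) (hw : IsW (i :: w)) (j : Fin 3) :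
    (∃ v : L3, IsW (i :: v) ∧ actX (i :: v) p = alphaX j (actX (i :: w) p)) ∨
      (j = i ∧ actX (i :: w) p = alphaX i p) := by
  by_cases h : IsW ((i :: w) ++ [j])
  · left
    refine ⟨w ++ [j], by simpa using h, ?_⟩
    have h2 : i :: (w ++ [j]) = (i :: w) ++ [j] := rfl
    rw [h2, actX_append]
    rfl
  · have hl : (i :: w).getLast (List.cons_ne_nil i w) = j := by
      by_contra hne
      apply h
      unfold IsW at hw ⊢
      rw [List.isChain_append]
      refine ⟨hw, List.isChain_singleton j, ?_⟩
      intro x hx y hy
      simp only [List.head?_cons, Option.mem_def, Option.some.injEq] at hy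
      rw [List.getLast?_eq_some_getLast (List.cons_ne_nil i w)] at hx
      simp only [Option.mem_def, Option.some.injEq] at hx
      rw [← hx, ← hy]
      exact hne
    have hv : (i :: w).dropLast ++ [j] = i :: w := by
      rw [← hl]
      exact List.dropLast_append_getLast (List.cons_ne_nil i w)
    have hq : alphaX j (actX (i :: w) p) = actX (i :: w).dropLast p := by
      conv_lhs => rw [← hv]
      rw [actX_append]
      simp
    cases hd : (i :: w).dropLast with
    | nil =>
      right
      rw [hd] at hv
      simp only [List.nil_append, List.cons.injEq] at hv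
      obtain ⟨h1, h2⟩ := hv
      refine ⟨h1, ?_⟩
      rw [← h2]
      rfl
    | cons k v =>
      left
      have hk : k = i := by
        rw [hd] at hv
        simp only [List.cons_append, List.cons.injEq] at hv
        exact hv.1
      subst hk
      refine ⟨v, ?_, ?_⟩
      · have : IsW ((k :: w).dropLast) := by
          unfold IsW at hw ⊢
          exact hw.dropLast
        rw [hd] at this
        exact this
      · rw [hq, hd]

theorem halfTree (p : X K) (i : Fin 3) : ∃ T : Set (X K), p ∉ T ∧ alphaX i p ∈ T ∧
    ∀ (q : X K) (j : Fin 3), (q ∈ T ↔ alphaX j q ∈ T) ∨ (j = i ∧ (q = p ∨ q = alphaX i p)) := by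
  refine ⟨{q | ∃ w : L3, IsW (i :: w) ∧ actX (i :: w) p = q}, ?_, ?_, ?_⟩
  · rintro ⟨w, hw, hq⟩
    exact freeX p hw (by simp) hq
  · exact ⟨[], isW_single i, rfl⟩
  · intro q j
    have key : ∀ q : X K, (∃ w : L3, IsW (i :: w) ∧ actX (i :: w) p = q) →
        (∃ w : L3, IsW (i :: w) ∧ actX (i :: w) p = alphaX j q) ∨ (j = i ∧ q = alphaX i p) := by
      rintro q ⟨w, hw, rfl⟩
      exact halfTree_step p i w hw j
    by_cases hex : j = i ∧ (q = p ∨ q = alphaX i p)
    · exact Or.inr hex
    · left
      constructor
      · intro h
        rcases key q h with h1 | h1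
        · exact h1
        · exact absurd ⟨h1.1, Or.inr h1.2⟩ hex
      · intro h
        rcases key _ h with h1 | h1
        · rw [alphaX_alphaX] at h1
          exact h1
        · refine absurd ⟨h1.1, Or.inl ?_⟩ hex
          have h2 := congrArg (alphaX j) h1.2
          rw [alphaX_alphaX, h1.1, alphaX_alphaX] at h2
          exact h2

end HypVec
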