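import Pool.Agent.Lib.HypVec.FinalGraph
import Pool.Agent.Lib.HypVec.HalfTree

/-!
# H2 / HypVec: the final graph is acyclic (page, section 3)

Every edge is a bridge: for every edge `u v` there is a set `S` with `u ∈ S`, `v ∉ S` and no other edge between
`S` and its complement. For `T ⊆ X`: `Z_T = {z | z.base ∈ T}` is crossed only by edges base `y` - base
`alpha_j y` (plain), mid `j` at `y` - base `alpha_j y`, with exactly one of `y`, `alpha_j y` in `T`;
`Z'_T = {base y | y ∈ T} ∪ {mid j y, hang j t y | alpha_j y ∈ T}` is crossed only by base `y` - base `alpha_j y`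
and base `y` - mid `j` at `y`. With `T = halfTree p i` this treats all edges except those in the hanging trees:
mid `i` - hang `i []` at `p`: `S = {hang i t at p}`; hang `i t` - hang `i (b::t)` at `p`:
`S = {hang i t' at p | (b::t) is a suffix of t'}`.
-/

namespace HypVec

/-- criterion for bridges -/
theorem isBridge_of_set {V : Type*} (G : SimpleGraph V) {u v : V} (_h : G.Adj u v) (S : Set V)
    (hu : u ∈ S) (hv : v ∉ S) (hS : ∀ a b, G.Adj a b → a ∈ S → b ∉ S → a = u ∧ b = v) :
    G.IsBridge s(u, v) := by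
  rw [SimpleGraph.isBridge_iff, SimpleGraph.reachable_iff_reflTransGen]
  intro hr
  have key : ∀ x, Relation.ReflTransGen (G.deleteEdges {s(u, v)}).Adj u x → x ∈ S := by
    intro x hx
    induction hx with
    | refl => exact hu
    | @tail a b _ hab ih =>
      by_contra hb
      rw [SimpleGraph.deleteEdges_adj] at hab
      obtain ⟨h1, h2⟩ := hS a b hab.1 ih hb
      exact hab.2 (by rw [h1, h2]; exact Set.mem_singleton _)
  exact hv (key v hr)

variable {K : Keys}

/-- the edges of the final graph, one orientation of each -/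
private inductive Edg : X K × Tag → X K × Tag → Prop
  | bb (p : X K) (i : Fin 3) : plain i p → Edg (p, .base) (alphaX i p, .base)
  | bm (p : X K) (i : Fin 3) : ¬ plain i p → low i p → Edg (p, .base) (p, .mid i)
  | mb (p : X K) (i : Fin 3) : ¬ plain i p → low i p → Edg (p, .mid i) (alphaX i p, .base)
  | mh (p : X K) (i : Fin 3) : Edg (p, .mid i) (p, .hang i [])
  | hh (p : X K) (i : Fin 3) (t : List Bool) (b : Bool) : Edg (p, .hang i t) (p, .hang i (b :: t))

private theorem edg_of_nb (z : Z K) (k : Fin 3) : Edg z.1 (nb z k).1 ∨ Edg (nb z k).1 z.1 := by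
  obtain ⟨⟨p, g⟩, h⟩ := z
  show Edg (p, g) (nbR p g k) ∨ Edg (nbR p g k) (p, g)
  rcases g with _ | i | ⟨i, t⟩
  · by_cases h1 : plain k p
    · left
      have : nbR p .base k = (alphaX k p, .base) := by simp [nbR, h1]
      rw [this]
      exact .bb p k h1
    · by_cases h2 : low k p
      · left
        have : nbR p .base k = (p, .mid k) := by simp [nbR, h1, h2]
        rw [this]
        exact .bm p k h1 h2
      · right
        have : nbR p .base k = (alphaX k p, .mid k) := by simp [nbR, h1, h2]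
        rw [this]
        have h3 := Edg.mb (alphaX k p) k (by rwa [plain_alphaX]) ((low_alphaX k p).2 h2)
        rwa [alphaX_alphaX] at h3
  · obtain ⟨h1, h2⟩ := h
    fin_cases k
    · exact Or.inr (.bm p i h1 h2)
    · exact Or.inl (.mb p i h1 h2)
    · exact Or.inl (.mh p i)
  · rcases t with _ | ⟨b, t⟩
    · fin_cases k
      · exact Or.inr (.mh p i)
      · exact Or.inl (.hh p i [] _)
      · exact Or.inl (.hh p i [] _)
    · fin_cases k
      · exact Or.inr (.hh p i t b)
      · exact Or.inl (.hh p i (b :: t) _)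
      · exact Or.inl (.hh p i (b :: t) _)

private theorem edg_of_adj {z z' : Z K} (h : (GS K).Adj z z') : Edg z.1 z'.1 ∨ Edg z'.1 z.1 := by
  obtain ⟨k, rfl⟩ := h
  exact edg_of_nb z k

private theorem bridge_of_raw {z z' : Z K} (h : (GS K).Adj z z') (P : X K × Tag → Prop)
    (hP : ∀ a b, Edg a b → (P a ↔ P b) ∨ (a = z.1 ∧ b = z'.1) ∨ (a = z'.1 ∧ b = z.1))
    (h1 : P z.1 ↔ ¬ P z'.1) : (GS K).IsBridge s(z, z') := by
  by_cases hz : P z.1
  · refine isBridge_of_set _ h {x | P x.1} hz (h1.1 hz) fun a b hab (ha : P a.1) (hb : ¬ P b.1) => ?_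
    rcases edg_of_adj hab with he | he
    · rcases hP _ _ he with h2 | ⟨h2, h3⟩ | ⟨h2, h3⟩
      · exact absurd (h2.1 ha) hb
      · exact ⟨Subtype.ext h2, Subtype.ext h3⟩
      · exact absurd (h3 ▸ hz) hb
    · rcases hP _ _ he with h2 | ⟨h2, h3⟩ | ⟨h2, h3⟩
      · exact absurd (h2.2 ha) hb
      · exact absurd (h2 ▸ hz) hb
      · exact ⟨Subtype.ext h3, Subtype.ext h2⟩
  · have hz' : P z'.1 := by
      by_contra hc
      exact hz (h1.2 hc)
    rw [Sym2.eq_swap]
    refine isBridge_of_set _ h.symm {x | P x.1} hz' hz fun a b hab (ha : P a.1) (hb : ¬ P b.1) => ?_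
    rcases edg_of_adj hab with he | he
    · rcases hP _ _ he with h2 | ⟨h2, h3⟩ | ⟨h2, h3⟩
      · exact absurd (h2.1 ha) hb
      · exact absurd (h3 ▸ hz') hb
      · exact ⟨Subtype.ext h2, Subtype.ext h3⟩
    · rcases hP _ _ he with h2 | ⟨h2, h3⟩ | ⟨h2, h3⟩
      · exact absurd (h2.2 ha) hb
      · exact ⟨Subtype.ext h3, Subtype.ext h2⟩
      · exact absurd (h2 ▸ hz') hb

/-- base or middle point or hanging point, as seen from the far end of the edge -/
private def farP (T : Set (X K)) : X K × Tag → Prop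
  | (y, .base) => y ∈ T
  | (y, .mid j) => alphaX j y ∈ T
  | (y, .hang j _) => alphaX j y ∈ T

private def hangP (p : X K) (i : Fin 3) (s : List Bool) : X K × Tag → Prop
  | (_, .base) => False
  | (_, .mid _) => False
  | (y, .hang j t) => y = p ∧ j = i ∧ s <:+ t

private theorem bridge_of_edg {z z' : Z K} (h : (GS K).Adj z z') (he : Edg z.1 z'.1) :
    (GS K).IsBridge s(z, z') := by
  obtain ⟨⟨p, g⟩, hz⟩ := z
  obtain ⟨⟨p', g'⟩, hz'⟩ := z'
  change Edg (p, g) (p', g') at he
  cases he with
  | bb _ i hpl =>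
    obtain ⟨T, hT1, hT2, hT3⟩ := halfTree p i
    refine bridge_of_raw h (fun x => x.1 ∈ T) ?_ ?_
    · intro a b hab
      cases hab with
      | bb y j hy =>
        rcases hT3 y j with h1 | ⟨rfl, rfl | rfl⟩
        · exact Or.inl h1
        · exact Or.inr (Or.inl ⟨rfl, rfl⟩)
        · exact Or.inr (Or.inr ⟨rfl, by rw [alphaX_alphaX]⟩)
      | bm y j h1 h2 => exact Or.inl Iff.rfl
      | mb y j h1 h2 =>
        rcases hT3 y j with h3 | ⟨rfl, rfl | rfl⟩
        · exact Or.inl h3
        · exact absurd hpl h1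
        · exact absurd ((plain_alphaX _ _).2 hpl) h1
      | mh y j => exact Or.inl Iff.rfl
      | hh y j t b => exact Or.inl Iff.rfl
    · exact ⟨fun h1 => absurd h1 hT1, fun h1 => absurd hT2 h1⟩
  | bm _ i hpl hlow =>
    obtain ⟨T, hT1, hT2, hT3⟩ := halfTree p i
    refine bridge_of_raw h (farP T) ?_ ?_
    · intro a b hab
      cases hab with
      | bb y j hy =>
        rcases hT3 y j with h1 | ⟨rfl, rfl | rfl⟩
        · exact Or.inl h1
        · exact absurd hy hpl
        · exact absurd ((plain_alphaX _ _).1 hy) hpl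
      | bm y j h1 h2 =>
        rcases hT3 y j with h3 | ⟨rfl, rfl | rfl⟩
        · exact Or.inl h3
        · exact Or.inr (Or.inl ⟨rfl, rfl⟩)
        · exact absurd hlow ((low_alphaX _ _).1 h2)
      | mb y j h1 h2 => exact Or.inl Iff.rfl
      | mh y j => exact Or.inl Iff.rfl
      | hh y j t b => exact Or.inl Iff.rfl
    · exact ⟨fun h1 => absurd h1 hT1, fun h1 => absurd hT2 h1⟩
  | mb _ i hpl hlow =>
    obtain ⟨T, hT1, hT2, hT3⟩ := halfTree p i
    refine bridge_of_raw h (fun x => x.1 ∈ T) ?_ ?_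
    · intro a b hab
      cases hab with
      | bb y j hy =>
        rcases hT3 y j with h1 | ⟨rfl, rfl | rfl⟩
        · exact Or.inl h1
        · exact absurd hy hpl
        · exact absurd ((plain_alphaX _ _).1 hy) hpl
      | bm y j h1 h2 => exact Or.inl Iff.rfl
      | mb y j h1 h2 =>
        rcases hT3 y j with h3 | ⟨rfl, rfl | rfl⟩
        · exact Or.inl h3
        · exact Or.inr (Or.inl ⟨rfl, rfl⟩)
        · exact absurd hlow ((low_alphaX _ _).1 h2)
      | mh y j => exact Or.inl Iff.rfl
      | hh y j t b => exact Or.inl Iff.rfl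
    · exact ⟨fun h1 => absurd h1 hT1, fun h1 => absurd hT2 h1⟩
  | mh _ i =>
    refine bridge_of_raw h (hangP p i []) ?_ ?_
    · intro a b hab
      cases hab with
      | bb y j hy => exact Or.inl Iff.rfl
      | bm y j h1 h2 => exact Or.inl Iff.rfl
      | mb y j h1 h2 => exact Or.inl Iff.rfl
      | mh y j =>
        by_cases h1 : y = p ∧ j = i
        · obtain ⟨rfl, rfl⟩ := h1
          exact Or.inr (Or.inl ⟨rfl, rfl⟩)
        · exact Or.inl ⟨fun h2 => h2.elim, fun h2 => h1 ⟨h2.1, h2.2.1⟩⟩
      | hh y j t b =>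
        exact Or.inl ⟨fun h2 => ⟨h2.1, h2.2.1, List.nil_suffix⟩, fun h2 => ⟨h2.1, h2.2.1, List.nil_suffix⟩⟩
    · exact ⟨fun h1 => h1.elim, fun h1 => absurd ⟨rfl, rfl, List.nil_suffix⟩ h1⟩
  | hh _ i t b =>
    refine bridge_of_raw h (hangP p i (b :: t)) ?_ ?_
    · intro a b' hab
      cases hab with
      | bb y j hy => exact Or.inl Iff.rfl
      | bm y j h1 h2 => exact Or.inl Iff.rfl
      | mb y j h1 h2 => exact Or.inl Iff.rfl
      | mh y j => exact Or.inl ⟨fun h2 => h2.elim, fun h2 => absurd (List.suffix_nil.1 h2.2.2) (by simp)⟩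
      | hh y j s c =>
        by_cases h1 : y = p ∧ j = i ∧ b :: t = c :: s
        · obtain ⟨rfl, rfl, h3⟩ := h1
          simp only [List.cons.injEq] at h3
          obtain ⟨rfl, rfl⟩ := h3
          exact Or.inr (Or.inl ⟨rfl, rfl⟩)
        · left
          constructor
          · rintro ⟨h2, h3, h4⟩
            exact ⟨h2, h3, h4.trans (List.suffix_cons c s)⟩
          · rintro ⟨h2, h3, h4⟩
            rcases List.suffix_cons_iff.1 h4 with h5 | h5
            · exact absurd ⟨h2, h3, h5⟩ h1
            · exact ⟨h2, h3, h5⟩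
    · refine ⟨fun h1 => ?_, fun h1 => absurd ⟨rfl, rfl, List.suffix_rfl⟩ h1⟩
      have h2 : (b :: t) <:+ t := h1.2.2
      have := h2.length_le
      simp at this

theorem isAcyclic_GS (K : Keys) : (GS K).IsAcyclic := by
  rw [SimpleGraph.isAcyclic_iff_forall_adj_isBridge]
  intro z z' h
  rcases edg_of_adj h with he | he
  · exact bridge_of_edg h he
  · rw [Sym2.eq_swap]
    exact bridge_of_edg h.symm he

end HypVec
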