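import Pool.Agent.Lib.HypVec.Choice

/-!
# Averages over the coin flips, split by whether two bits agree
-/

namespace Pool.Agent.HypVec

open MeasureTheory Set

variable {W : Type*}

/-- If `f ≥ s` where `v a ≠ v b` and `f ≥ t` where `v a = v b` then the average of `f` is at
least `(s + t) / 2`. -/
theorem avg_ge [DecidableEq W] {a b : W} (hab : a ≠ b) {f : (W → Bool) → ℝ} (hf : Measurable f)
    {C : ℝ} (hC : ∀ v, |f v| ≤ C) {s t : ℝ} (hs : ∀ v, v a ≠ v b → s ≤ f v)
    (ht : ∀ v, v a = v b → t ≤ f v) : (s + t) / 2 ≤ ∫ v, f v ∂(cube W) := by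
  have hi : ∀ g : (W → Bool) → ℝ, Measurable g → (∀ v, |g v| ≤ C) → Integrable g (cube W) :=
    fun g hg hgC => Integrable.of_bound hg.aestronglyMeasurable C
      (Filter.Eventually.of_forall hgC)
  have h1 := integral_comp_preserving (flipOn_preserving ({a} : Set W)) hf
  have h2 : ∀ v : W → Bool, s + t ≤ f v + f (flipOn {a} v) := by
    intro v
    have ha : flipOn ({a} : Set W) v a = !v a := by simp [flipOn]
    have hb : flipOn ({a} : Set W) v b = v b := by simp [flipOn, hab.symm]
    by_cases h : v a = v b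
    · have h3 : flipOn ({a} : Set W) v a ≠ flipOn ({a} : Set W) v b := by
        rw [ha, hb, h]; simp
      linarith [ht v h, hs _ h3]
    · have h3 : flipOn ({a} : Set W) v a = flipOn ({a} : Set W) v b := by
        rw [ha, hb]
        cases hva : v a <;> cases hvb : v b <;> simp_all
      linarith [hs v h, ht _ h3]
  have hi2 : Integrable (fun v => f (flipOn {a} v)) (cube W) :=
    hi _ (hf.comp (measurable_flipOn _)) fun v => hC _
  have h3 : ∫ _v, (s + t) ∂(cube W) ≤ ∫ v, (f v + f (flipOn {a} v)) ∂(cube W) :=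
    integral_mono (integrable_const _) ((hi f hf hC).add hi2) h2
  rw [integral_add (hi f hf hC) hi2, h1] at h3
  simp at h3
  linarith

end Pool.Agent.HypVec
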