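import Pool.Agent.Lib.HypVec.HalfWords

/-!
# H2 / HypVec: the randomised system over a system with labels

Every vertex `v` of the tree carries `R` fair bits for each type `i`, which code a half word with
first letter `i`.  Crossing the edge `i` of the tree moves the point of the base system along the
half word of the near end and back along the half word of the far end (along the letter `i` if the
two half words coincide).
-/

namespace HypVec

/-- index set of the bits -/
abbrev Bt (R : ℕ) := W × (Fin 3 × Fin R)

/-- the marks -/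
abbrev Mk (R : ℕ) := Bt R → Bool

/-- re-rooting of the index set -/
def reB (R : ℕ) (i : Fin 3) (b : Bt R) : Bt R := (mv i b.1, b.2)

@[simp] theorem reB_reB (R : ℕ) (i : Fin 3) (b : Bt R) : reB R i (reB R i b) = b := by
  simp [reB]

/-- re-rooting of the marks -/
def re {R : ℕ} (i : Fin 3) (o : Mk R) : Mk R := fun b => o (reB R i b)

@[simp] theorem re_re {R : ℕ} (i : Fin 3) (o : Mk R) : re i (re i o) = o := by
  funext b
  simp [re]

/-- the half word of type `i` at the vertex `v` -/
def hwd {R : ℕ} (i : Fin 3) (v : W) (o : Mk R) : L3 := hw i (List.ofFn fun k => o (v, (i, k)))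

theorem hwd_re {R : ℕ} (i j : Fin 3) (v : W) (o : Mk R) : hwd i v (re j o) = hwd i (mv j v) o := rfl

/-- the word along which the base point moves when the edge `i` is crossed -/
def gword {R : ℕ} (i : Fin 3) (o : Mk R) : L3 :=
  if hwd i rt o = hwd i (nbr i) o then [i] else hwd i rt o ++ (hwd i (nbr i) o).reverse

theorem gword_re {R : ℕ} (i : Fin 3) (o : Mk R) : gword i (re i o) = (gword i o).reverse := by
  unfold gword
  rw [hwd_re, hwd_re, mv_rt, mv_nbr]
  by_cases h : hwd i rt o = hwd i (nbr i) o
  · rw [if_pos h, if_pos h.symm]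
    rfl
  · rw [if_neg h, if_neg fun h' => h h'.symm]
    simp

section Ext

variable {X : Type*} (S : Sys X) (R : ℕ)

/-- crossing the edge `i` -/
def extδ (i : Fin 3) (z : X × Mk R) : X × Mk R := (wact S.δ (gword i z.2) z.1, re i z.2)

theorem extδ_inv (i : Fin 3) (z : X × Mk R) : extδ S R i (extδ S R i z) = z := by
  refine Prod.ext ?_ ?_
  · show wact S.δ (gword i (re i z.2)) (wact S.δ (gword i z.2) z.1) = z.1
    rw [gword_re]
    exact wact_reverse S.δ S.inv _ _
  · exact re_re i z.2

/-- the reduced form of `gword` -/
theorem exists_red_gword (i : Fin 3) (o : Mk R) :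
    ∃ r : L3, IsW r ∧ r.head? = some i ∧ r.getLast? = some i ∧
      ∀ x, wact S.δ r x = wact S.δ (gword i o) x := by
  unfold gword
  by_cases h : hwd i rt o = hwd i (nbr i) o
  · rw [if_pos h]
    exact ⟨[i], isW_single i, rfl, rfl, fun _ => rfl⟩
  · rw [if_neg h]
    exact exists_red S.δ S.inv i (R + 1) _ _ (by simp [hwd, hw_length]) (by simp [hwd, hw_length])
      (isW_hw _ _) (isW_hw _ _) (hw_head _ _) (hw_head _ _) h

theorem exists_red_wact (w : L3) (hw : w.IsChain (· ≠ ·)) (z : X × Mk R) :
    ∃ r : L3, IsW r ∧ r.head? = w.head? ∧ (wact (extδ S R) w z).1 = wact S.δ r z.1 := by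
  induction w generalizing z with
  | nil => exact ⟨[], isW_nil, rfl, rfl⟩
  | cons i w ih =>
    rw [List.isChain_cons] at hw
    obtain ⟨r', h1, h2, h3⟩ := ih hw.2 (extδ S R i z)
    obtain ⟨r, h4, h5, h6, h7⟩ := exists_red_gword S R i z.2
    have hr : r ≠ [] := by
      rintro rfl
      simp at h5
    refine ⟨r ++ r', ?_, ?_, ?_⟩
    · unfold IsW at *
      rw [List.isChain_append]
      refine ⟨h4, h1, fun a ha b hb => ?_⟩
      rw [h6] at ha
      rw [h2] at hb
      cases ha
      exact hw.1 b hb
    · rw [List.head?_append_of_ne_nil _ hr, h5]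
      rfl
    · rw [wact_cons, h3, wact_append, h7]
      rfl

theorem lab_wact_eventually (w : L3) (x : X) : ∃ N, ∀ m, N ≤ m → S.lab (wact S.δ w x) m = S.lab x m := by
  induction w generalizing x with
  | nil => exact ⟨0, fun m _ => rfl⟩
  | cons i w ih =>
    obtain ⟨N, hN⟩ := ih (S.δ i x)
    obtain ⟨N', hN'⟩ := S.fin i x
    refine ⟨max N N', fun m hm => ?_⟩
    rw [wact_cons, hN m (le_trans (le_max_left _ _) hm), hN' m (le_trans (le_max_right _ _) hm)]

/-- the randomised system -/
def Sys.ext : Sys (X × Mk R) where
  δ := extδ S R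
  inv := extδ_inv S R
  lab z := S.lab z.1
  free w hw h0 z := by
    obtain ⟨r, h1, h2, h3⟩ := exists_red_wact S R w hw z
    rw [h3]
    refine S.free r h1 ?_ z.1
    rintro rfl
    cases w with
    | nil => exact h0 rfl
    | cons i w => simp at h2
  fin i z := lab_wact_eventually S (gword i z.2) z.1

theorem measurable_wact [MeasurableSpace X] (hδ : ∀ i, Measurable (S.δ i)) (w : L3) :
    Measurable (wact S.δ w) := by
  induction w with
  | nil => exact measurable_id
  | cons i w ih => exact ih.comp (hδ i)

theorem measurable_re (i : Fin 3) : Measurable (re (R := R) i) :=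
  measurable_pi_lambda _ fun _ => measurable_pi_apply _

theorem measurableSet_hwd (i : Fin 3) (v : W) (p : L3) : MeasurableSet {o : Mk R | hwd i v o = p} := by
  have h : {o : Mk R | hwd i v o = p} = (fun (o : Mk R) (k : Fin R) => o (v, (i, k))) ⁻¹'
      {b : Fin R → Bool | hw i (List.ofFn b) = p} := rfl
  rw [h]
  exact (measurable_pi_lambda _ fun k => measurable_pi_apply _) (Set.toFinite _).measurableSet

theorem measurableSet_gword (i : Fin 3) (p : L3) : MeasurableSet {o : Mk R | gword i o = p} := by
  have h : {o : Mk R | gword i o = p} =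
      (fun (o : Mk R) => ((fun k : Fin R => o (rt, (i, k))), (fun k : Fin R => o (nbr i, (i, k))))) ⁻¹'
      {b : (Fin R → Bool) × (Fin R → Bool) | (if hw i (List.ofFn b.1) = hw i (List.ofFn b.2) then [i]
        else hw i (List.ofFn b.1) ++ (hw i (List.ofFn b.2)).reverse) = p} := rfl
  rw [h]
  exact ((measurable_pi_lambda _ fun k => measurable_pi_apply _).prodMk
    (measurable_pi_lambda _ fun k => measurable_pi_apply _)) (Set.toFinite _).measurableSet

theorem measurable_extδ [MeasurableSpace X] (hδ : ∀ i, Measurable (S.δ i)) (i : Fin 3) :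
    Measurable (extδ S R i) := by
  refine Measurable.prodMk ?_ ((measurable_re R i).comp measurable_snd)
  let _ : MeasurableSpace L3 := ⊤
  have h1 : Measurable (fun z : X × Mk R => gword i z.2) := by
    refine measurable_to_countable' fun p => ?_
    exact measurable_snd (measurableSet_gword R i p)
  have h2 : Measurable (fun q : L3 × X => wact S.δ q.1 q.2) :=
    measurable_from_prod_countable_right fun w => measurable_wact S hδ w
  exact h2.comp (h1.prodMk measurable_fst)

end Ext

end HypVec
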