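import Pool.Agent.Lib.HypVec.GenGame
import Pool.Agent.Lib.BorelDet.Main

/-!
# No Borel sinkless choice on the keyed configurations
-/

namespace Pool.Agent.HypVec

/-- A function depending only on the first `n` coordinates (in a discrete space) is continuous. -/
theorem continuous_of_dep {M α : Type*} [TopologicalSpace M] [DiscreteTopology M]
    [TopologicalSpace α] (g : (ℕ → M) → α) (n : ℕ)
    (h : ∀ x y : ℕ → M, (∀ i, i < n → x i = y i) → g x = g y) : Continuous g := by
  apply IsLocallyConstant.continuous
  rw [IsLocallyConstant.iff_exists_open]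
  intro x
  refine ⟨⋂ i ∈ Finset.range n, (fun y : ℕ → M => y i) ⁻¹' {x i}, ?_, ?_, ?_⟩
  · exact isOpen_biInter_finset fun i _ =>
      (isOpen_discrete _).preimage (continuous_apply i)
  · simp
  · intro y hy
    apply h
    intro i hi
    have := Set.mem_iInter₂.1 hy i (Finset.mem_range.2 hi)
    exact this

theorem continuous_conf {E : Type} (fst : E → Fin 3) (lev : E → ℕ) (i : Fin 3) (s : List Bool) :
    Continuous (conf fst lev i s : (ℕ → Move E) → Conf E) := by
  refine Continuous.prodMk (continuous_pi fun m => ?_) (continuous_pi fun e => ?_)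
  · apply continuous_of_dep _ (m + 1)
    intro x y h
    exact infl_congr fun k hk => by rw [h k (by omega)]
  · apply continuous_of_dep _ (2 * (lev e - 1) + 2)
    intro x y h
    by_cases he : fst e = i
    · simp only [if_pos he]
      rw [h _ (by omega)]
    · simp only [if_neg he]
      rw [h _ (by omega)]

theorem flip_flip (m : ℕ) (l : ℕ → Bool) : flip m (flip m l) = l := by
  funext j
  unfold flip
  by_cases h : j = m
  · subst h; simp
  · rw [Function.update_of_ne h, Function.update_of_ne h]

theorem flip_of_ne {m j : ℕ} (h : j ≠ m) (l : ℕ → Bool) : flip m l j = l j := by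
  unfold flip
  rw [Function.update_of_ne h]

theorem flip_self (m : ℕ) (l : ℕ → Bool) : flip m l m = !l m := by
  unfold flip
  rw [Function.update_self]

theorem alpha_alpha {E : Type} {tau : Fin 3 → E → E} {root : Fin 3 → E}
    (htau : ∀ i e, tau i (tau i e) = e) (hroot : ∀ i, tau i (root i) = root i) (i : Fin 3)
    (x : Conf E) : alpha tau root i (alpha tau root i x) = x := by
  refine Prod.ext ?_ ?_
  · show flip (x.2 (tau i (root i))) (flip (x.2 (root i)) x.1) = x.1
    rw [hroot, flip_flip]
  · funext e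
    show x.2 (tau i (tau i e)) = x.2 e
    rw [htau]

/-- The first player wins the game of type `i` with the target set `D` of his opponent: either
the first wrong edge (in the order of levels, edges with first letter `i` coming first in each
level) has first letter `≠ i`, or there is no wrong edge and the configuration is not in `D`. -/
def PWin {E : Type} (fst : E → Fin 3) (lev : E → ℕ) (OK : E → Conf E → Prop) (D : Set (Conf E))
    (i : Fin 3) (x : Conf E) : Prop :=
  (∃ e, fst e ≠ i ∧ ¬ OK e x ∧
    ∀ e', (lev e' < lev e ∨ (lev e' = lev e ∧ fst e' = i)) → OK e' x) ∨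
  ((∀ e, OK e x) ∧ x ∉ D)

theorem measurableSet_pWin {E : Type} [Countable E] (fst : E → Fin 3) (lev : E → ℕ)
    {OK : E → Conf E → Prop} (hOK : ∀ e, MeasurableSet {x | OK e x}) {D : Set (Conf E)}
    (hD : MeasurableSet D) (i : Fin 3) : MeasurableSet {x | PWin fst lev OK D i x} := by
  have h : {x : Conf E | PWin fst lev OK D i x} =
      (⋃ e, ⋃ (_ : fst e ≠ i), ({x | OK e x}ᶜ ∩
          ⋂ e', ⋂ (_ : lev e' < lev e ∨ (lev e' = lev e ∧ fst e' = i)), {x | OK e' x})) ∪
      ((⋂ e, {x | OK e x}) ∩ Dᶜ) := by
    ext x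
    simp only [PWin, Set.mem_ofPred_eq, Set.mem_union, Set.mem_iUnion, Set.mem_inter_iff,
      Set.mem_compl_iff, Set.mem_iInter, exists_prop, ne_eq]
  rw [h]
  refine MeasurableSet.union ?_ ?_
  · exact MeasurableSet.iUnion fun e => MeasurableSet.iUnion fun _ =>
      (hOK e).compl.inter (MeasurableSet.iInter fun e' => MeasurableSet.iInter fun _ => hOK e')
  · exact (MeasurableSet.iInter fun e => hOK e).inter hD.compl

/-- The second player has a winning strategy in the game of type `i` with initial string `s` and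
target set `D`. -/
def QWins {E : Type} (fst : E → Fin 3) (lev : E → ℕ) (OK : E → Conf E → Prop) (D : Set (Conf E))
    (i : Fin 3) (s : List Bool) : Prop :=
  ∃ t : List (Move E) → Move E, ∀ r : ℕ → Move E,
    (∀ k, r (2 * k + 1) = t ((List.range (2 * k + 1)).map r)) →
      ¬ PWin fst lev OK D i (conf fst lev i s r)

theorem QWins.mono {E : Type} {fst : E → Fin 3} {lev : E → ℕ} {OK : E → Conf E → Prop}
    {D D' : Set (Conf E)} {i : Fin 3} {s : List Bool} (h : QWins fst lev OK D i s)
    (hD : D ⊆ D') : QWins fst lev OK D' i s := by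
  obtain ⟨t, ht⟩ := h
  refine ⟨t, fun r hr hP => ht r hr ?_⟩
  rcases hP with h1 | ⟨h1, h2⟩
  · exact Or.inl h1
  · exact Or.inr ⟨h1, fun h3 => h2 (hD h3)⟩

/-- Put the string `u` in front of the first move of a history. -/
def pushHead {E : Type} (u : List Bool) : List (Move E) → List (Move E)
  | [] => []
  | m :: l => mkMove (u ++ ext m) m.lab :: l

/-- The second player also wins with a longer initial string. -/
theorem QWins.append {E : Type} {fst : E → Fin 3} {lev : E → ℕ} {OK : E → Conf E → Prop}
    {D : Set (Conf E)} {i : Fin 3} {s : List Bool} (h : QWins fst lev OK D i s)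
    (u : List Bool) : QWins fst lev OK D i (s ++ u) := by
  obtain ⟨t, ht⟩ := h
  refine ⟨fun l => t (pushHead u l), fun r hr => ?_⟩
  let r' : ℕ → Move E := fun j => if j = 0 then mkMove (u ++ ext (r 0)) (r 0).lab else r j
  have h0 : r' 0 = mkMove (u ++ ext (r 0)) (r 0).lab := rfl
  have hs : ∀ j, r' (j + 1) = r (j + 1) := fun j => by
    show (if j + 1 = 0 then _ else r (j + 1)) = _
    rw [if_neg (by omega)]
  have hmap : ∀ k, (List.range (k + 1)).map r' = pushHead u ((List.range (k + 1)).map r) := by
    intro k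
    rw [List.range_succ_eq_map]
    simp only [List.map_cons, List.map_map, pushHead, h0]
    congr 1
  have hcat : ∀ k, s ++ cat (fun j => ext (r' j)) (k + 1) =
      s ++ u ++ cat (fun j => ext (r j)) (k + 1) := by
    intro k
    induction k with
    | zero =>
      show s ++ ([] ++ ext (r' 0)) = s ++ u ++ ([] ++ ext (r 0))
      rw [h0, ext_mkMove (by simp [ext_ne_nil])]
      simp
    | succ k ih =>
      rw [cat_succ, cat_succ (fun j => ext (r j)), ← List.append_assoc, ← List.append_assoc, ih,
        hs]
  have hconf : conf fst lev i s r' = conf fst lev i (s ++ u) r := by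
    refine Prod.ext ?_ ?_
    · funext m
      show (s ++ cat (fun j => ext (r' j)) (m + 1)).getD m false =
        (s ++ u ++ cat (fun j => ext (r j)) (m + 1)).getD m false
      rw [hcat]
    · funext e
      have hl : ∀ j, (r' j).lab = (r j).lab := by
        intro j
        cases j with
        | zero => rfl
        | succ j => rw [hs]
      show (if fst e = i then (r' (2 * (lev e - 1))).lab e
        else (r' (2 * (lev e - 1) + 1)).lab e) =
          (if fst e = i then (r (2 * (lev e - 1))).lab e
        else (r (2 * (lev e - 1) + 1)).lab e)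
      rw [hl, hl]
  rw [← hconf]
  apply ht
  intro k
  rw [hs, hr k, hmap]

section Main

variable {E : Type} (fst : E → Fin 3) (lev : E → ℕ)
    (tau : Fin 3 → E → E) (root : Fin 3 → E)
    (htau : ∀ i e, tau i (tau i e) = e) (hroot : ∀ i, tau i (root i) = root i)
    (hfst : ∀ i, fst (root i) = i) (hlev : ∀ i, lev (root i) = 1) (hlev1 : ∀ e, 1 ≤ lev e)
    (hup : ∀ i e, fst e ≠ i → fst (tau i e) = i ∧ lev (tau i e) = lev e + 1)
    (hdown : ∀ i e, fst e = i → e ≠ root i → fst (tau i e) ≠ i)
    (typ : ℕ → Fin 3) (key : ℕ → ℕ → Bool)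
    (hkey : ∀ (s : List Bool) (i : Fin 3), ∃ N, s.length ≤ N ∧ typ N = i ∧
      ∀ m, m < N → key N m = s.getD m false)
    (OK : E → Conf E → Prop)
    (hOKtau : ∀ i e x, fst e ≠ i → (OK (tau i e) x ↔ OK e (alpha tau root i x)))
    (hOKroot : ∀ i x, typ (x.2 (root i)) = i →
      (∀ m, m < x.2 (root i) → x.1 m = key (x.2 (root i)) m) → OK (root i) x)

include htau hroot hfst hlev hlev1 hup hdown hkey hOKtau hOKroot in
/-- Two target sets of the second player (same type, same initial string) are joined. -/
theorem QWins.joined {D D' : Set (Conf E)} {i : Fin 3} {s : List Bool}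
    (hD : QWins fst lev OK D i s) (hD' : QWins fst lev OK D' i s) :
    ∃ x : Conf E, (∀ e, OK e x) ∧ x ∈ D ∧ alpha tau root i x ∈ D' := by
  classical
  obtain ⟨t, ht⟩ := hD
  obtain ⟨t', ht'⟩ := hD'
  obtain ⟨N, hN, hNi, hNk⟩ := hkey s i
  obtain ⟨r, r', hr, hr', hrr, hx2, hx1⟩ :=
    exists_mirror fst lev tau root htau hroot hfst hlev hlev1 hup hdown i s N hN t t'
  have hx := ht r hr
  have hx' := ht' r' hr'
  set x := conf fst lev i s r with hxdef
  set x' := conf fst lev i s r' with hx'def
  have hback : alpha tau root i x' = x := by rw [hrr, alpha_alpha htau hroot]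
  have hroot0 : OK (root i) x := by
    apply hOKroot
    · rw [hx2]; exact hNi
    · intro m hm
      rw [hx2] at hm ⊢
      rw [hx1 m hm, hNk m hm]
  have hx2' : x'.2 (root i) = N := by
    rw [hrr]
    show x.2 (tau i (root i)) = N
    rw [hroot, hx2]
  have hroot1 : OK (root i) x' := by
    apply hOKroot
    · rw [hx2']; exact hNi
    · intro m hm
      rw [hx2'] at hm ⊢
      rw [hrr]
      show flip (x.2 (root i)) x.1 m = _
      rw [hx2, flip_of_ne (by omega), hx1 m hm, hNk m hm]
  -- the edges with first letter `i` are the edges of the other configuration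
  have hPx : ∀ (k : ℕ), (∀ e, fst e ≠ i → lev e < k → OK e x') →
      ∀ e, fst e = i → lev e ≤ k → OK e x := by
    intro k hk e he hek
    by_cases her : e = root i
    · rw [her]; exact hroot0
    · have h1 := hdown i e he her
      have h2 := (hup i _ h1).2
      rw [htau] at h2
      have h3 := (hOKtau i (tau i e) x h1).2 (by
        rw [← hrr]
        exact hk _ h1 (by omega))
      rwa [htau] at h3
  have hPx' : ∀ (k : ℕ), (∀ e, fst e ≠ i → lev e < k → OK e x) →
      ∀ e, fst e = i → lev e ≤ k → OK e x' := by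
    intro k hk e he hek
    by_cases her : e = root i
    · rw [her]; exact hroot1
    · have h1 := hdown i e he her
      have h2 := (hup i _ h1).2
      rw [htau] at h2
      have h3 := (hOKtau i (tau i e) x' h1).2 (by
        rw [hback]
        exact hk _ h1 (by omega))
      rwa [htau] at h3
  have hS : ∀ (k : ℕ) (e : E), fst e ≠ i → lev e = k → OK e x ∧ OK e x' := by
    intro k
    induction k using Nat.strong_induction_on with
    | _ k ih =>
      intro e he hek
      have ih1 : ∀ e, fst e ≠ i → lev e < k → OK e x := fun e he' h => (ih _ h e he' rfl).1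
      have ih2 : ∀ e, fst e ≠ i → lev e < k → OK e x' := fun e he' h => (ih _ h e he' rfl).2
      constructor
      · by_contra hcon
        refine hx (Or.inl ⟨e, he, hcon, fun e' he' => ?_⟩)
        by_cases hei : fst e' = i
        · exact hPx k ih2 e' hei (by omega)
        · exact ih1 e' hei (by
            rcases he' with h | h
            · omega
            · exact absurd h.2 hei)
      · by_contra hcon
        refine hx' (Or.inl ⟨e, he, hcon, fun e' he' => ?_⟩)
        by_cases hei : fst e' = i
        · exact hPx' k ih1 e' hei (by omega)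
        · exact ih2 e' hei (by
            rcases he' with h | h
            · omega
            · exact absurd h.2 hei)
  have hall : ∀ e, OK e x := by
    intro e
    by_cases hei : fst e = i
    · exact hPx (lev e) (fun e' he' _ => (hS _ e' he' rfl).2) e hei le_rfl
    · exact (hS _ e hei rfl).1
  have hall' : ∀ e, OK e x' := by
    intro e
    by_cases hei : fst e = i
    · exact hPx' (lev e) (fun e' he' _ => (hS _ e' he' rfl).1) e hei le_rfl
    · exact (hS _ e hei rfl).2
  refine ⟨x, hall, ?_, ?_⟩
  · by_contra hcx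
    exact hx (Or.inr ⟨hall, hcx⟩)
  · rw [← hrr]
    by_contra hcx
    exact hx' (Or.inr ⟨hall', hcx⟩)

/-- If three target sets cover the keyed configurations then the second player wins with one of
them, after some extension of any given string. -/
theorem QWins.exists_of_cover [Countable E] {OK : E → Conf E → Prop}
    (hOK : ∀ e, MeasurableSet {x | OK e x}) (D : Fin 3 → Set (Conf E))
    (hD : ∀ i, MeasurableSet (D i)) (hcov : ∀ x : Conf E, (∀ e, OK e x) → ∃ i, x ∈ D i)
    (s0 : List Bool) : ∃ (i : Fin 3) (u : List Bool), QWins fst lev OK (D i) i (s0 ++ u) := by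
  classical
  by_contra hA
  push Not at hA
  have hB : ∀ (i : Fin 3) (s : List Bool), ∃ σ : List (Move E) → Move E,
      (∃ u, s = s0 ++ u) → ∀ r : ℕ → Move E,
        (∀ k, r (2 * k) = σ ((List.range (2 * k)).map r)) →
          PWin fst lev OK (D i) i (conf fst lev i s r) := by
    intro i s
    have hm : @MeasurableSet _ (borel (ℕ → Move E))
        ((conf fst lev i s) ⁻¹' {x | PWin fst lev OK (D i) i x}) := by
      let _ : MeasurableSpace (ℕ → Move E) := borel (ℕ → Move E)
      have : BorelSpace (ℕ → Move E) := ⟨rfl⟩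
      exact (continuous_conf fst lev i s).measurable (measurableSet_pWin fst lev hOK (hD i) i)
    rcases Pool.Agent.BorelDet.Main.borel_determinacy _ hm with ⟨σ, hσ⟩ | ⟨τ, hτ⟩
    · exact ⟨σ, fun _ => hσ⟩
    · refine ⟨fun _ => Classical.arbitrary _, ?_⟩
      rintro ⟨u, rfl⟩
      exact absurd ⟨τ, hτ⟩ (hA i u)
  choose σ hσ using hB
  obtain ⟨x, hx⟩ := exists_joint fst lev s0 σ
  have hP : ∀ i, PWin fst lev OK (D i) i x := by
    intro i
    obtain ⟨u, r, hr, hrx⟩ := hx i
    rw [← hrx]
    exact hσ i (s0 ++ u) ⟨u, rfl⟩ r hr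
  by_cases hall : ∀ e, OK e x
  · obtain ⟨i, hi⟩ := hcov x hall
    rcases hP i with ⟨e, _, he, _⟩ | ⟨_, h⟩
    · exact he (hall e)
    · exact h hi
  · push Not at hall
    have hex : ∃ k, ∃ e, ¬ OK e x ∧ lev e = k := by
      obtain ⟨e, he⟩ := hall
      exact ⟨_, e, he, rfl⟩
    obtain ⟨e, he, hek⟩ := Nat.find_spec hex
    rcases hP (fst e) with ⟨e1, h1, h2, h3⟩ | ⟨h, _⟩
    · have hle : Nat.find hex ≤ lev e1 := Nat.find_min' hex ⟨e1, h2, rfl⟩
      exact he (h3 e (by omega))
    · exact he (h e)

end Main

/-- **The determinacy obstruction in full** (after Marks).  For a Borel map `f` from the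
configurations to a finite set `X` there are three families of subsets of `X`, closed under
supersets, such that every cover of `X` by three sets has a member in the corresponding family,
and any two members of the same family `F i` are joined by an edge of type `i`. -/
theorem exists_families {E : Type} [Countable E] (fst : E → Fin 3) (lev : E → ℕ)
    (tau : Fin 3 → E → E) (root : Fin 3 → E)
    (htau : ∀ i e, tau i (tau i e) = e) (hroot : ∀ i, tau i (root i) = root i)
    (hfst : ∀ i, fst (root i) = i) (hlev : ∀ i, lev (root i) = 1) (hlev1 : ∀ e, 1 ≤ lev e)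
    (hup : ∀ i e, fst e ≠ i → fst (tau i e) = i ∧ lev (tau i e) = lev e + 1)
    (hdown : ∀ i e, fst e = i → e ≠ root i → fst (tau i e) ≠ i)
    (typ : ℕ → Fin 3) (key : ℕ → ℕ → Bool)
    (hkey : ∀ (s : List Bool) (i : Fin 3), ∃ N, s.length ≤ N ∧ typ N = i ∧
      ∀ m, m < N → key N m = s.getD m false)
    (OK : E → Conf E → Prop) (hOK : ∀ e, MeasurableSet {x | OK e x})
    (hOKtau : ∀ i e x, fst e ≠ i → (OK (tau i e) x ↔ OK e (alpha tau root i x)))
    (hOKroot : ∀ i x, typ (x.2 (root i)) = i →
      (∀ m, m < x.2 (root i) → x.1 m = key (x.2 (root i)) m) → OK (root i) x)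
    {X : Type*} [Finite X] (f : Conf E → X) (hf : ∀ S : Set X, MeasurableSet (f ⁻¹' S)) :
    ∃ F : Fin 3 → Set (Set X), (∀ i S S', S ∈ F i → S ⊆ S' → S' ∈ F i) ∧
      (∀ B : Fin 3 → Set X, (∀ x, ∃ i, x ∈ B i) → ∃ i, B i ∈ F i) ∧
      (∀ i S S', S ∈ F i → S' ∈ F i →
        ∃ x : Conf E, (∀ e, OK e x) ∧ f x ∈ S ∧ f (alpha tau root i x) ∈ S') := by
  classical
  let Fam : List Bool → Set (Fin 3 × Set X) := fun s =>
    {p | QWins fst lev OK (f ⁻¹' p.2) p.1 s}
  have hmono : ∀ s u, Fam s ⊆ Fam (s ++ u) := fun s u p hp => QWins.append hp u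
  obtain ⟨M, ⟨s, hs⟩, hM⟩ := (Set.toFinite (Set.range Fam)).exists_maximal ⟨_, ⟨[], rfl⟩⟩
  have hstab : ∀ u, Fam (s ++ u) ⊆ Fam s := by
    intro u
    have h1 := hmono s u
    rw [hs] at h1 ⊢
    exact hM ⟨_, rfl⟩ h1
  refine ⟨fun i => {S | (i, S) ∈ Fam s}, ?_, ?_, ?_⟩
  · intro i S S' hS hSS'
    exact QWins.mono hS (Set.preimage_mono hSS')
  · intro B hB
    obtain ⟨i, u, h⟩ := QWins.exists_of_cover fst lev hOK (fun i => f ⁻¹' (B i))
      (fun i => hf _) (fun x _ => hB (f x)) s
    exact ⟨i, hstab u h⟩
  · intro i S S' hS hS'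
    exact QWins.joined fst lev tau root htau hroot hfst hlev hlev1 hup hdown typ key hkey OK
      hOKtau hOKroot hS hS'

/-- **No Borel sinkless choice** (Marks; Conley, Jackson, Marks, Seward, Tucker-Drob), for
configurations all of whose edges are keyed. -/
theorem exists_sink {E : Type} [Countable E] (fst : E → Fin 3) (lev : E → ℕ)
    (tau : Fin 3 → E → E) (root : Fin 3 → E)
    (htau : ∀ i e, tau i (tau i e) = e) (hroot : ∀ i, tau i (root i) = root i)
    (hfst : ∀ i, fst (root i) = i) (hlev : ∀ i, lev (root i) = 1) (hlev1 : ∀ e, 1 ≤ lev e)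
    (hup : ∀ i e, fst e ≠ i → fst (tau i e) = i ∧ lev (tau i e) = lev e + 1)
    (hdown : ∀ i e, fst e = i → e ≠ root i → fst (tau i e) ≠ i)
    (typ : ℕ → Fin 3) (key : ℕ → ℕ → Bool)
    (hkey : ∀ (s : List Bool) (i : Fin 3), ∃ N, s.length ≤ N ∧ typ N = i ∧
      ∀ m, m < N → key N m = s.getD m false)
    (OK : E → Conf E → Prop) (hOK : ∀ e, MeasurableSet {x | OK e x})
    (hOKtau : ∀ i e x, fst e ≠ i → (OK (tau i e) x ↔ OK e (alpha tau root i x)))
    (hOKroot : ∀ i x, typ (x.2 (root i)) = i →
      (∀ m, m < x.2 (root i) → x.1 m = key (x.2 (root i)) m) → OK (root i) x)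
    (c : Conf E → Fin 3) (hc : Measurable c) :
    ∃ (x : Conf E) (i : Fin 3), (∀ e, OK e x) ∧ c x = i ∧ c (alpha tau root i x) = i := by
  obtain ⟨i, u, h⟩ := QWins.exists_of_cover fst lev hOK (fun i => {x | c x = i})
    (fun i => hc (MeasurableSet.singleton i)) (fun x _ => ⟨c x, rfl⟩) []
  obtain ⟨x, h1, h2, h3⟩ := QWins.joined fst lev tau root htau hroot hfst hlev hlev1 hup hdown
    typ key hkey OK hOKtau hOKroot h h
  exact ⟨x, i, h1, h2, h3⟩

/-- Types and keys: every finite string and every type occurs. -/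
theorem exists_keys : ∃ (typ : ℕ → Fin 3) (key : ℕ → ℕ → Bool),
    ∀ (s : List Bool) (i : Fin 3), ∃ N, s.length ≤ N ∧ typ N = i ∧
      ∀ m, m < N → key N m = s.getD m false := by
  let d : ℕ → List Bool × Fin 3 := fun n =>
    (Encodable.decode (α := List Bool × Fin 3) n.unpair.1).getD ([], 0)
  refine ⟨fun n => (d n).2, fun n m => (d n).1.getD m false, fun s i => ?_⟩
  refine ⟨Nat.pair (Encodable.encode (s, i)) s.length, Nat.right_le_pair _ _, ?_, ?_⟩
  · simp [d]
  · intro m _
    simp [d]

end Pool.Agent.HypVec
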