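import Pool.Agent.Lib.HypVec.Label
import Pool.Agent.Lib.HypVec.Sinkless

/-!
# H2 / HypVec: THEOREM A (page, section 2): no Borel sinkless choice on `Y`

The game half is `Pool.Agent.HypVec.exists_sink` (Lib/HypVec/Sinkless.lean, Borel determinacy included).
-/

namespace HypVec

theorem alpha_eq_gen (i : Fin 3) (x : Conf) : Pool.Agent.HypVec.alpha tau ed i x = alpha i x := rfl

theorem hd_tau (i : Fin 3) (e : E) (h : hd e ≠ i) :
    hd (tau i e) = i ∧ (tau i e).1.length = e.1.length + 1 := by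
  rw [tau_of_hd_ne i e h]
  constructor
  · simp [hd, consE]
  · simp [consE]

theorem hd_tau_down (i : Fin 3) (e : E) (h : hd e = i) (h0 : e ≠ ed i) : hd (tau i e) ≠ i := by
  rcases eq_ed_or_consE i e h with h1 | ⟨e', h', h1, -⟩
  · exact absurd h1 h0
  · rw [h1, tau_consE]
    exact h'

theorem no_choice (K : Keys) {c : Conf → Fin 3} (hc : Measurable c) :
    ∃ x ∈ Y K, ∃ i, c x = i ∧ c (alpha i x) = i := by
  obtain ⟨x, i, hx, h1, h2⟩ := Pool.Agent.HypVec.exists_sink (E := E) hd (fun e => e.1.length) tau ed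
    tau_tau tau_ed hd_ed (fun i => by simp [ed])
    (fun e => List.length_pos_iff.2 e.2.1) hd_tau hd_tau_down K.typ K.key
    (fun s i => K.dense s i) (fun e x => OK K x e) (measurableSet_OK K)
    (fun i e x h => by
      show OK K x (tau i e) ↔ OK K (alpha i x) e
      rw [tau_of_hd_ne i e h]
      have := OK_consE K i e h (alpha i x)
      rwa [alpha_alpha] at this)
    (fun i x h1 h2 => (OK_ed K i x).2 ⟨h1, h2⟩) c hc
  exact ⟨x, (mem_Y_iff K x).2 hx, i, h1, h2⟩

end HypVec
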