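import Pool.Agent.Lib.HypVec.Free
import Pool.Agent.Lib.HypVec.NoChoice
import Pool.Agent.Lib.HypVec.Forest

/-!
# H2 / HypVec: the base system on `Y K` and its randomised extension
-/

namespace HypVec

/-- `alpha i` on `Y K` -/
def alphaY (K : Keys) (i : Fin 3) (x : Y K) : Y K := ⟨alpha i x.1, alpha_mem_Y x.2 i⟩

theorem wact_alphaY (K : Keys) (w : L3) (x : Y K) : (wact (alphaY K) w x).1 = act w x.1 := by
  induction w generalizing x with
  | nil => rfl
  | cons i w ih => exact ih _

/-- the base system -/
def baseSys (K : Keys) : Sys (Y K) where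
  δ := alphaY K
  inv i x := Subtype.ext (alpha_alpha i x.1)
  lab x := x.1.1
  free w hw h0 x := by
    rw [wact_alphaY]
    exact free x.2 hw h0
  fin i x := by
    refine ⟨x.1.2 (ed i) + 1, fun m hm => ?_⟩
    exact flip_ne (by omega) x.1.1

theorem measurable_alphaY (K : Keys) (i : Fin 3) : Measurable (alphaY K i) :=
  ((measurable_alpha i).comp measurable_subtype_coe).subtype_mk

theorem measurable_baseSys_lab (K : Keys) : Measurable (baseSys K).lab :=
  measurable_fst.comp measurable_subtype_coe

instance (K : Keys) : StandardBorelSpace (Y K) := (measurableSet_Y K).standardBorel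

/-- Theorem A on the subtype -/
theorem no_choiceY (K : Keys) {c : Y K → Fin 3} (hc : Measurable c) :
    ∃ x i, c x = i ∧ c (alphaY K i x) = i := by
  classical
  let c' : Conf → Fin 3 := fun x => if h : x ∈ Y K then c ⟨x, h⟩ else 0
  have hc' : Measurable c' := by
    refine Measurable.dite (s := Y K) ?_ measurable_const (measurableSet_Y K)
    exact hc
  obtain ⟨x, hx, i, h1, h2⟩ := no_choice K hc'
  refine ⟨⟨x, hx⟩, i, ?_, ?_⟩
  · simpa [c', hx] using h1
  · have h3 := alpha_mem_Y hx i
    simpa [c', h3, alphaY] using h2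

/-- the randomised system -/
def ySys (K : Keys) (R : ℕ) : Sys (Y K × Mk R) := (baseSys K).ext R

theorem measurable_ySys (K : Keys) (R : ℕ) (i : Fin 3) : Measurable ((ySys K R).δ i) :=
  measurable_extδ (baseSys K) R (measurable_alphaY K) i

theorem measurable_ySys_lab (K : Keys) (R : ℕ) : Measurable (ySys K R).lab :=
  (measurable_baseSys_lab K).comp measurable_fst

example (K : Keys) (R : ℕ) : StandardBorelSpace (Y K × Mk R) := inferInstance

end HypVec
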