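import Pool.Agent.Lib.HypVec.WalshC

/-!
# The analytic half: a sinkless choice from anticorrelated odd vector fields

`W` is a countable set with involutions `e i` (`i : Fin 3`) and disjoint sets `st i` such that
`e i b ∈ st i ↔ b ∉ st i`.  If `F x : (W → Bool) → ℝ^D` are odd unit vector fields with
`∫ ⟪F x v, F (α i x) (v ∘ e i)⟫ ≥ sig`, `sig² > 8/9`, then there is a measurable choice
`c : X → Fin 3` such that never `c x = i = c (α i x)`.
-/

namespace Pool.Agent.HypVec

open MeasureTheory Set

/-- Cauchy-Schwarz for sums. -/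
theorem hasSum_le_sqrt {ι : Type*} {p q c : ι → ℝ} {A B C : ℝ} (hp0 : ∀ i, 0 ≤ p i)
    (hq0 : ∀ i, 0 ≤ q i) (hc : ∀ i, c i ≤ Real.sqrt (p i) * Real.sqrt (q i))
    (hp : HasSum p A) (hq : HasSum q B) (hC : HasSum c C) :
    C ≤ Real.sqrt A * Real.sqrt B := by
  refine hasSum_le_of_sum_le hC fun s => ?_
  calc ∑ i ∈ s, c i ≤ ∑ i ∈ s, Real.sqrt (p i) * Real.sqrt (q i) :=
        Finset.sum_le_sum fun i _ => hc i
    _ ≤ Real.sqrt (∑ i ∈ s, Real.sqrt (p i) ^ 2) * Real.sqrt (∑ i ∈ s, Real.sqrt (q i) ^ 2) :=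
        Real.sum_mul_le_sqrt_mul_sqrt s _ _
    _ = Real.sqrt (∑ i ∈ s, p i) * Real.sqrt (∑ i ∈ s, q i) := by
        congr 2
        · exact Finset.sum_congr rfl fun i _ => Real.sq_sqrt (hp0 i)
        · exact Finset.sum_congr rfl fun i _ => Real.sq_sqrt (hq0 i)
    _ ≤ Real.sqrt A * Real.sqrt B := by
        apply mul_le_mul
        · exact Real.sqrt_le_sqrt (sum_le_hasSum s (fun i _ => hp0 i) hp)
        · exact Real.sqrt_le_sqrt (sum_le_hasSum s (fun i _ => hq0 i) hq)
        · exact Real.sqrt_nonneg _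
        · exact Real.sqrt_nonneg _

/-- The two point inequality behind the total variation bound. -/
theorem tv_num {A B s : ℝ} (hA0 : 0 ≤ A) (hA1 : A ≤ 1) (hB0 : 0 ≤ B) (hB1 : B ≤ 1) (hs0 : 0 ≤ s)
    (hs : s ≤ Real.sqrt A * Real.sqrt B + Real.sqrt (1 - A) * Real.sqrt (1 - B)) :
    (A - B) ^ 2 ≤ 1 - s ^ 2 := by
  set a := Real.sqrt A
  set b := Real.sqrt B
  set c := Real.sqrt (1 - A)
  set d := Real.sqrt (1 - B)
  have ha : a ^ 2 = A := Real.sq_sqrt hA0
  have hb : b ^ 2 = B := Real.sq_sqrt hB0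
  have hc : c ^ 2 = 1 - A := Real.sq_sqrt (by linarith)
  have hd : d ^ 2 = 1 - B := Real.sq_sqrt (by linarith)
  have h1 : A - B = (a * d - b * c) * (a * d + b * c) := by
    have : (a * d - b * c) * (a * d + b * c) = a ^ 2 * d ^ 2 - b ^ 2 * c ^ 2 := by ring
    rw [this, ha, hb, hc, hd]; ring
  have h2 : (a * b + c * d) ^ 2 + (a * d - b * c) ^ 2 = 1 := by
    have : (a * b + c * d) ^ 2 + (a * d - b * c) ^ 2 = (a ^ 2 + c ^ 2) * (b ^ 2 + d ^ 2) := by ring
    rw [this, ha, hb, hc, hd]; ring
  have h3 : (a * d + b * c) ^ 2 ≤ 1 := by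
    have : (a * d + b * c) ^ 2 + (a * b - c * d) ^ 2 = (a ^ 2 + c ^ 2) * (b ^ 2 + d ^ 2) := by ring
    have h4 : (a * d + b * c) ^ 2 + (a * b - c * d) ^ 2 = 1 := by
      rw [this, ha, hb, hc, hd]; ring
    nlinarith [sq_nonneg (a * b - c * d)]
  have h4 : s ^ 2 ≤ (a * b + c * d) ^ 2 := by
    apply pow_le_pow_left₀ hs0 hs
  have h5 : (A - B) ^ 2 = (a * d - b * c) ^ 2 * (a * d + b * c) ^ 2 := by rw [h1]; ring
  rw [h5]
  nlinarith [sq_nonneg (a * d - b * c), mul_le_mul_of_nonneg_left h3 (sq_nonneg (a * d - b * c))]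

theorem hasSum_comp_equiv {ι : Type*} (φ : ι ≃ ι) {k : ι → ℝ} {a : ℝ} (h : HasSum k a) :
    HasSum (fun i => k (φ i)) a := (Equiv.hasSum_iff φ (f := k)).2 h

variable {W : Type*}

/-- The sets with a strict majority in `S`. -/
def Maj (S : Set W) : Set (Finset W) :=
  {B | open Classical in B.card < 2 * (B.filter (· ∈ S)).card}

theorem Maj.disjoint {S S' : Set W} (h : Disjoint S S') {B : Finset W} (hB : B ∈ Maj S) :
    B ∉ Maj S' := by
  classical
  intro hB'
  simp only [Maj, mem_ofPred_eq] at hB hB'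
  have h1 : Disjoint (B.filter (· ∈ S)) (B.filter (· ∈ S')) := by
    rw [Finset.disjoint_left]
    intro x hx hx'
    exact Set.disjoint_left.1 h (Finset.mem_filter.1 hx).2 (Finset.mem_filter.1 hx').2
  have h2 : (B.filter (· ∈ S)).card + (B.filter (· ∈ S')).card ≤ B.card := by
    rw [← Finset.card_union_of_disjoint h1]
    apply Finset.card_le_card
    intro x hx
    rcases Finset.mem_union.1 hx with h | h <;> exact (Finset.mem_filter.1 h).1
  have e1 : (B.filter (· ∈ S)).card = (@Finset.filter W (· ∈ S) (fun _ => Classical.propDecidable _) B).card := by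
    congr
  have e2 : (B.filter (· ∈ S')).card = (@Finset.filter W (· ∈ S') (fun _ => Classical.propDecidable _) B).card := by
    congr
  omega

theorem Maj.swap {S : Set W} {e : W ≃ W} (he : ∀ b, e b ∈ S ↔ b ∉ S) {B : Finset W}
    (hB : Odd B.card) : B.map e.toEmbedding ∈ Maj S ↔ B ∉ Maj S := by
  classical
  simp only [Maj, mem_ofPred_eq, Finset.card_map, Finset.filter_map, not_lt]
  have h1 : (B.filter (fun b => b ∈ S)).card + (B.filter (fun b => ¬ b ∈ S)).card = B.card := by
    rw [Finset.card_filter_add_card_filter_not]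
  have h2 : (B.filter ((fun x => x ∈ S) ∘ e.toEmbedding)).card = (B.filter (fun b => ¬ b ∈ S)).card := by
    congr 1
    apply Finset.filter_congr
    intro x _
    simp [he]
  obtain ⟨k, hk⟩ := hB
  rw [h2]
  omega

section Field

variable {D : ℕ}

/-- The weight of a finite set. -/
noncomputable def lam (f : (W → Bool) → EuclideanSpace ℝ (Fin D)) (B : Finset W) : ℝ :=
  ∑ j, coef (fun v => f v j) B ^ 2

theorem lam_nonneg (f : (W → Bool) → EuclideanSpace ℝ (Fin D)) (B : Finset W) : 0 ≤ lam f B :=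
  Finset.sum_nonneg fun _ _ => sq_nonneg _

theorem measurable_comp_apply {f : (W → Bool) → EuclideanSpace ℝ (Fin D)} (hf : Measurable f)
    (j : Fin D) : Measurable fun v => f v j :=
  (EuclideanSpace.proj (𝕜 := ℝ) j).continuous.measurable.comp hf

theorem abs_apply_le {y : EuclideanSpace ℝ (Fin D)} (hy : ‖y‖ = 1) (j : Fin D) : |y j| ≤ 1 := by
  have := EuclideanSpace.norm_sq_eq y
  have h2 : ‖y j‖ ^ 2 ≤ ∑ i, ‖y i‖ ^ 2 :=
    Finset.single_le_sum (f := fun i => ‖y i‖ ^ 2) (fun i _ => sq_nonneg _) (Finset.mem_univ j)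
  rw [← this, hy] at h2
  rw [Real.norm_eq_abs] at h2
  nlinarith [abs_nonneg (y j)]

variable [Countable W]

/-- Parseval for vector fields. -/
theorem hasSum_inner {f g : (W → Bool) → EuclideanSpace ℝ (Fin D)} (hf : Measurable f)
    (hg : Measurable g) (nf : ∀ v, ‖f v‖ = 1) (ng : ∀ v, ‖g v‖ = 1) :
    HasSum (fun B => ∑ j, coef (fun v => f v j) B * coef (fun v => g v j) B)
      (∫ v, inner ℝ (f v) (g v) ∂(cube W)) := by
  have h : ∀ j : Fin D, HasSum (fun B => coef (fun v => f v j) B * coef (fun v => g v j) B)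
      (∫ v, f v j * g v j ∂(cube W)) := fun j =>
    hasSum_coef_mul (measurable_comp_apply hf j) (measurable_comp_apply hg j)
      (fun v => abs_apply_le (nf v) j) (fun v => abs_apply_le (ng v) j)
  have h2 := hasSum_sum (s := Finset.univ) fun j _ => h j
  convert h2 using 1
  rw [← integral_finsetSum]
  · apply integral_congr_ae
    refine Filter.Eventually.of_forall fun v => ?_
    simp [PiLp.inner_apply, mul_comm]
  · intro j _
    refine Integrable.of_bound (C := 1)
      ((measurable_comp_apply hf j).mul (measurable_comp_apply hg j)).aestronglyMeasurable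
      (Filter.Eventually.of_forall fun v => ?_)
    rw [Real.norm_eq_abs, abs_mul]
    exact mul_le_one₀ (abs_apply_le (nf v) j) (abs_nonneg _) (abs_apply_le (ng v) j)

theorem hasSum_lam {f : (W → Bool) → EuclideanSpace ℝ (Fin D)} (hf : Measurable f)
    (nf : ∀ v, ‖f v‖ = 1) : HasSum (lam f) 1 := by
  have h := hasSum_inner hf hf nf nf
  have h1 : ∫ v, inner ℝ (f v) (f v) ∂(cube W) = 1 := by
    simp [nf]
  rw [h1] at h
  convert h using 2 with B
  simp [lam, sq]

/-- The weight of a set of finite sets. -/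
noncomputable def wt (f : (W → Bool) → EuclideanSpace ℝ (Fin D)) (S : Set (Finset W)) : ℝ :=
  ∑' B, S.indicator (lam f) B

theorem hasSum_wt {f : (W → Bool) → EuclideanSpace ℝ (Fin D)} (hf : Measurable f)
    (nf : ∀ v, ‖f v‖ = 1) (S : Set (Finset W)) : HasSum (S.indicator (lam f)) (wt f S) :=
  ((hasSum_lam hf nf).summable.indicator S).hasSum

theorem hasSum_wt_compl {f : (W → Bool) → EuclideanSpace ℝ (Fin D)} (hf : Measurable f)
    (nf : ∀ v, ‖f v‖ = 1) (S : Set (Finset W)) : HasSum (Sᶜ.indicator (lam f)) (1 - wt f S) := by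
  rw [indicator_compl]
  exact (hasSum_lam hf nf).sub (hasSum_wt hf nf S)

omit [Countable W] in
theorem wt_nonneg (f : (W → Bool) → EuclideanSpace ℝ (Fin D)) (S : Set (Finset W)) : 0 ≤ wt f S :=
  tsum_nonneg fun B => indicator_nonneg (fun _ _ => lam_nonneg f _) B

theorem wt_le_one {f : (W → Bool) → EuclideanSpace ℝ (Fin D)} (hf : Measurable f)
    (nf : ∀ v, ‖f v‖ = 1) (S : Set (Finset W)) : wt f S ≤ 1 :=
  hasSum_le (fun B => indicator_le_self' (fun _ _ => lam_nonneg f _) B) (hasSum_wt hf nf S)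
    (hasSum_lam hf nf)

/-- The flow estimate for one edge. -/
theorem flow_edge {f g : (W → Bool) → EuclideanSpace ℝ (Fin D)} (hf : Measurable f)
    (hg : Measurable g) (nf : ∀ v, ‖f v‖ = 1) (ng : ∀ v, ‖g v‖ = 1)
    (og : ∀ v, g (fun w => !v w) = - g v) {S : Set W} {e : W ≃ W} (hinv : ∀ w, e (e w) = w)
    (he : ∀ b, e b ∈ S ↔ b ∉ S) {sig : ℝ} (hs0 : 0 ≤ sig)
    (hc : sig ≤ ∫ v, inner ℝ (f v) (g (v ∘ e)) ∂(cube W)) :
    (wt f (Maj S) - (1 - wt g (Maj S))) ^ 2 ≤ 1 - sig ^ 2 := by
  have hge : Measurable (fun v : W → Bool => g (v ∘ e)) := hg.comp (perm_preserving e).measurable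
  have h := hasSum_inner hf hge nf (fun v => ng _)
  set φ : Finset W ≃ Finset W := e.finsetCongr with hφ
  have hφφ : ∀ B, φ (φ B) = B := by
    intro B
    ext x
    simp only [hφ, Equiv.finsetCongr_apply, Finset.mem_map_equiv]
    have : e.symm (e.symm x) = x := by
      rw [Equiv.symm_apply_eq, Equiv.symm_apply_eq, hinv]
    rw [this]
  have hesymm : e.symm = e := by
    ext w
    rw [Equiv.symm_apply_eq, hinv]
  have hlam : ∀ B, lam (fun v => g (v ∘ e)) B = lam g (φ B) := by
    intro B
    unfold lam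
    apply Finset.sum_congr rfl
    intro j _
    rw [coef_comp e (f := fun v => g v j) (measurable_comp_apply hg j), hesymm]
    rfl
  -- the coefficients
  set c : Finset W → ℝ := fun B =>
    ∑ j, coef (fun v => f v j) B * coef (fun v => g (v ∘ e) j) B with hcdef
  have hcle : ∀ B, c B ≤ Real.sqrt (lam f B) * Real.sqrt (lam g (φ B)) := by
    intro B
    rw [← hlam B]
    exact Real.sum_mul_le_sqrt_mul_sqrt _ _ _
  have hswap : (Maj S).indicator (fun B => lam g (φ B)) =
      fun B => (Maj S)ᶜ.indicator (lam g) (φ B) := by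
    funext B
    by_cases hodd : Odd B.card
    · have hsw : φ B ∈ Maj S ↔ B ∉ Maj S := Maj.swap he hodd
      by_cases hB : B ∈ Maj S
      · have h1 : φ B ∈ (Maj S)ᶜ := fun h' => (hsw.1 h') hB
        rw [indicator_of_mem hB, indicator_of_mem h1]
      · have h1 : φ B ∉ (Maj S)ᶜ := fun h' => h' (hsw.2 hB)
        rw [indicator_of_notMem hB, indicator_of_notMem h1]
    · have hev : Even (φ B).card := by
        rw [hφ, Equiv.finsetCongr_apply, Finset.card_map]
        exact Nat.not_odd_iff_even.1 hodd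
      have h0 : lam g (φ B) = 0 := by
        unfold lam
        apply Finset.sum_eq_zero
        intro j _
        rw [coef_even (measurable_comp_apply hg j) _ hev]
        · simp
        · intro v
          rw [og v]; rfl
      have h1 : (Maj S).indicator (fun B => lam g (φ B)) B = 0 := by
        by_cases hB : B ∈ Maj S
        · rw [indicator_of_mem hB, h0]
        · rw [indicator_of_notMem hB]
      have h2 : (Maj S)ᶜ.indicator (lam g) (φ B) = 0 := by
        by_cases hB : φ B ∈ (Maj S)ᶜ
        · rw [indicator_of_mem hB, h0]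
        · rw [indicator_of_notMem hB]
      rw [h1, h2]
  have hswap' : (Maj S)ᶜ.indicator (fun B => lam g (φ B)) =
      fun B => (Maj S).indicator (lam g) (φ B) := by
    funext B
    have h1 := congrFun hswap B
    have h2 : (Maj S)ᶜ.indicator (fun B => lam g (φ B)) B =
        lam g (φ B) - (Maj S).indicator (fun B => lam g (φ B)) B := by
      rw [indicator_compl]; rfl
    have h3 : (Maj S)ᶜ.indicator (lam g) (φ B) = lam g (φ B) - (Maj S).indicator (lam g) (φ B) := by
      rw [indicator_compl]; rfl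
    rw [h2, h1, h3]; ring
  have hq : HasSum ((Maj S).indicator (fun B => lam g (φ B))) (1 - wt g (Maj S)) := by
    rw [hswap]
    exact hasSum_comp_equiv φ (hasSum_wt_compl hg ng (Maj S))
  have hq' : HasSum ((Maj S)ᶜ.indicator (fun B => lam g (φ B))) (wt g (Maj S)) := by
    rw [hswap']
    exact hasSum_comp_equiv φ (hasSum_wt hg ng (Maj S))
  have hcS : ∀ (M : Set (Finset W)) (B : Finset W), M.indicator c B ≤
      Real.sqrt (M.indicator (lam f) B) * Real.sqrt (M.indicator (fun B => lam g (φ B)) B) := by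
    intro M B
    by_cases hB : B ∈ M
    · simp only [indicator_of_mem hB]; exact hcle B
    · simp [indicator_of_notMem hB]
  have hs1 : Summable ((Maj S).indicator c) := h.summable.indicator _
  have hs2 : HasSum ((Maj S)ᶜ.indicator c)
      (∫ v, inner ℝ (f v) (g (v ∘ e)) ∂(cube W) - ∑' B, (Maj S).indicator c B) := by
    rw [indicator_compl]
    exact h.sub hs1.hasSum
  have b1 := hasSum_le_sqrt (fun B => indicator_nonneg (fun _ _ => lam_nonneg f _) B)
    (fun B => indicator_nonneg (fun _ _ => lam_nonneg g _) B) (hcS (Maj S))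
    (hasSum_wt hf nf (Maj S)) hq hs1.hasSum
  have b2 := hasSum_le_sqrt (fun B => indicator_nonneg (fun _ _ => lam_nonneg f _) B)
    (fun B => indicator_nonneg (fun _ _ => lam_nonneg g _) B) (hcS (Maj S)ᶜ)
    (hasSum_wt_compl hf nf (Maj S)) hq' hs2
  have hw := wt_nonneg g (Maj S)
  have hw1 := wt_le_one hg ng (Maj S)
  apply tv_num (wt_nonneg f _) (wt_le_one hf nf _) (by linarith) (by linarith) hs0
  have : (1 : ℝ) - (1 - wt g (Maj S)) = wt g (Maj S) := by ring
  rw [this]
  linarith

/-- The weights of disjoint sets add up to at most one. -/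
theorem wt_sum_le {f : (W → Bool) → EuclideanSpace ℝ (Fin D)} (hf : Measurable f)
    (nf : ∀ v, ‖f v‖ = 1) (st : Fin 3 → Set W)
    (hd : ∀ i j, i ≠ j → Disjoint (st i) (st j)) :
    ∑ i, wt f (Maj (st i)) ≤ 1 := by
  classical
  have h := hasSum_sum (s := (Finset.univ : Finset (Fin 3)))
    fun i _ => hasSum_wt hf nf (Maj (st i))
  refine hasSum_le (fun B => ?_) h (hasSum_lam hf nf)
  by_cases hB : ∃ i, B ∈ Maj (st i)
  · obtain ⟨i, hi⟩ := hB
    rw [Finset.sum_eq_single i]
    · rw [indicator_of_mem hi]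
    · intro j _ hji
      exact indicator_of_notMem (Maj.disjoint (hd i j (Ne.symm hji)) hi) _
    · intro h; exact absurd (Finset.mem_univ i) h
  · rw [Finset.sum_eq_zero]
    · exact lam_nonneg f B
    · intro i _
      exact indicator_of_notMem (fun h => hB ⟨i, h⟩) _

end Field

/-- Measurability of the weights. -/
theorem measurable_wt {X : Type*} [MeasurableSpace X] [Countable W] {D : ℕ}
    {F : X → (W → Bool) → EuclideanSpace ℝ (Fin D)} (hF : Measurable (Function.uncurry F))
    (nF : ∀ x v, ‖F x v‖ = 1) (S : Set (Finset W)) : Measurable fun x => wt (F x) S := by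
  classical
  have hFx : ∀ x, Measurable (F x) := fun x => hF.comp measurable_prodMk_left
  have hl : ∀ B, Measurable fun x => lam (F x) B := by
    intro B
    unfold lam
    refine Finset.measurable_sum _ fun j _ => ?_
    have : Measurable (Function.uncurry fun (x : X) (v : W → Bool) => F x v j) :=
      (EuclideanSpace.proj (𝕜 := ℝ) j).continuous.measurable.comp hF
    exact (measurable_coef this B).pow_const 2
  have hl2 : ∀ B, Measurable fun x => S.indicator (lam (F x)) B := by
    intro B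
    by_cases hB : B ∈ S
    · simp only [indicator_of_mem hB]; exact hl B
    · simp only [indicator_of_notMem hB]; exact measurable_const
  refine measurable_of_tendsto_metrizable' (Filter.atTop : Filter (Finset (Finset W)))
    (f := fun s x => ∑ B ∈ s, S.indicator (lam (F x)) B) (fun s => ?_) ?_
  · exact Finset.measurable_sum _ fun B _ => hl2 B
  · rw [tendsto_pi_nhds]
    intro x
    exact hasSum_wt (hFx x) (nF x) S

/-- **The analytic half.** -/
theorem exists_choice {X : Type*} [MeasurableSpace X] [Countable W] (D : ℕ)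
    (e : Fin 3 → W ≃ W) (hinv : ∀ i w, e i (e i w) = w) (st : Fin 3 → Set W)
    (hd : ∀ i j, i ≠ j → Disjoint (st i) (st j)) (hst : ∀ i b, e i b ∈ st i ↔ b ∉ st i)
    (α : Fin 3 → X → X) (hα : ∀ i x, α i (α i x) = x) (hαm : ∀ i, Measurable (α i))
    (F : X → (W → Bool) → EuclideanSpace ℝ (Fin D)) (hF : Measurable (Function.uncurry F))
    (nF : ∀ x v, ‖F x v‖ = 1) (oF : ∀ x v, F x (fun w => !v w) = - F x v)
    (sig : ℝ) (hs0 : 0 ≤ sig) (hs : 8 / 9 < sig ^ 2)
    (hc : ∀ i x, sig ≤ ∫ v, inner ℝ (F x v) (F (α i x) (v ∘ e i)) ∂(cube W)) :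
    ∃ c : X → Fin 3, Measurable c ∧ ∀ i x, ¬ (c x = i ∧ c (α i x) = i) := by
  classical
  have hFx : ∀ x, Measurable (F x) := fun x => hF.comp measurable_prodMk_left
  set L : Fin 3 → X → ℝ := fun i x => wt (F x) (Maj (st i)) with hL
  have hLm : ∀ i, Measurable (L i) := fun i => measurable_wt hF nF _
  have key : ∀ x, ∃ i, L i x < L i (α i x) := by
    intro x
    by_contra hcon
    have hcon' : ∀ i, L i (α i x) ≤ L i x := fun i => not_lt.1 fun h => hcon ⟨i, h⟩
    have hb : ∀ i, 1 / 3 < L i x := by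
      intro i
      have h := flow_edge (hFx x) (hFx (α i x)) (nF x) (nF (α i x)) (oF (α i x)) (hinv i)
        (hst i) hs0 (hc i x)
      have h2 : (L i x + L i (α i x) - 1) ^ 2 < (1 / 3 : ℝ) ^ 2 := by
        have : wt (F x) (Maj (st i)) - (1 - wt (F (α i x)) (Maj (st i))) =
            L i x + L i (α i x) - 1 := by simp only [hL]; ring
        rw [this] at h
        linarith
      have h3 := abs_lt_of_sq_lt_sq h2 (by norm_num)
      have h4 := (abs_lt.1 h3).1
      have h5 := hcon' i
      linarith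
    have hsum := wt_sum_le (hFx x) (nF x) st hd
    rw [Fin.sum_univ_three] at hsum
    have h0 := hb 0
    have h1 := hb 1
    have h2 := hb 2
    simp only [hL] at h0 h1 h2
    linarith
  refine ⟨fun x => if L 0 x < L 0 (α 0 x) then 0 else if L 1 x < L 1 (α 1 x) then 1 else 2,
    ?_, ?_⟩
  · refine Measurable.ite (measurableSet_lt (hLm 0) ((hLm 0).comp (hαm 0))) measurable_const ?_
    exact Measurable.ite (measurableSet_lt (hLm 1) ((hLm 1).comp (hαm 1))) measurable_const
      measurable_const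
  · have hspec : ∀ x i, (if L 0 x < L 0 (α 0 x) then (0 : Fin 3) else
        if L 1 x < L 1 (α 1 x) then 1 else 2) = i → L i x < L i (α i x) := by
      intro x i hi
      split_ifs at hi with h0 h1
      · subst hi; exact h0
      · subst hi; exact h1
      · subst hi
        obtain ⟨j, hj⟩ := key x
        fin_cases j
        · exact absurd hj h0
        · exact absurd hj h1
        · exact hj
    rintro i x ⟨h1, h2⟩
    have h3 := hspec x i h1
    have h4 := hspec (α i x) i h2
    rw [hα] at h4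
    exact lt_asymm h3 h4

end Pool.Agent.HypVec
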