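import Pool.Agent.Lib.HypVec.Union

/-!
# H2 / HypVec: the determinacy obstruction in full (THEOREM N) for the one forest `(uSys K).gr`

A Borel homomorphism from the forest to a finite graph gives three families of sets of vertices of
the finite graph: closed under supersets, every cover by three sets has a member in the
corresponding family, any two members of the same family are joined by an edge.
-/

namespace HypVec

/-- the base forest inside the union -/
def emb0 (K : Keys) (y : Y K) : UX K := (0, (y, fun _ => false))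

theorem measurable_emb0 (K : Keys) : Measurable (emb0 K) :=
  measurable_const.prodMk (measurable_id.prodMk measurable_const)

theorem emb0_alphaY (K : Keys) (i : Fin 3) (y : Y K) :
    emb0 K (alphaY K i y) = (uSys K).δ i (emb0 K y) := by
  refine Prod.ext rfl (Prod.ext ?_ rfl)
  have h : gword i (rsN 0 (fun _ : W × (Fin 3 × ℕ) => false)) = [i] := by
    have h1 : ∀ v : W, hwd (R := 0) i v (rsN 0 (fun _ : W × (Fin 3 × ℕ) => false)) = [i] := by
      intro v
      rfl
    unfold gword
    rw [h1, h1, if_pos rfl]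
  show alphaY K i y = wact (alphaY K) (gword i (rsN 0 (fun _ : W × (Fin 3 × ℕ) => false))) y
  rw [h]
  rfl

/-- Theorem N on the base space -/
theorem familiesY (K : Keys) {V : Type*} [Finite V] (f : Y K → V)
    (hf : ∀ S : Set V, MeasurableSet (f ⁻¹' S)) :
    ∃ F : Fin 3 → Set (Set V), (∀ i S S', S ∈ F i → S ⊆ S' → S' ∈ F i) ∧
      (∀ B : Fin 3 → Set V, (∀ a, ∃ i, a ∈ B i) → ∃ i, B i ∈ F i) ∧
      (∀ i S S', S ∈ F i → S' ∈ F i → ∃ x : Y K, f x ∈ S ∧ f (alphaY K i x) ∈ S') := by
  classical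
  obtain ⟨x0, hx0, -⟩ := no_choice K (c := fun _ => 0) measurable_const
  let f' : Conf → V := fun x => if h : x ∈ Y K then f ⟨x, h⟩ else f ⟨x0, hx0⟩
  have hf' : ∀ S : Set V, MeasurableSet (f' ⁻¹' S) := by
    let _ : MeasurableSpace V := ⊤
    have h1 : Measurable f := fun S _ => hf S
    have h2 : Measurable f' := by
      refine Measurable.dite (s := Y K) ?_ measurable_const (measurableSet_Y K)
      exact h1
    exact fun S => h2 (MeasurableSpace.measurableSet_top)
  obtain ⟨F, h1, h2, h3⟩ := Pool.Agent.HypVec.exists_families (E := E) hd (fun e => e.1.length)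
    tau ed
    tau_tau tau_ed hd_ed (fun i => by simp [ed])
    (fun e => List.length_pos_iff.2 e.2.1) hd_tau hd_tau_down K.typ K.key
    (fun s i => K.dense s i) (fun e x => OK K x e) (measurableSet_OK K)
    (fun i e x h => by
      show OK K x (tau i e) ↔ OK K (alpha i x) e
      rw [tau_of_hd_ne i e h]
      have := OK_consE K i e h (alpha i x)
      rwa [alpha_alpha] at this)
    (fun i x h1 h2 => (OK_ed K i x).2 ⟨h1, h2⟩) f' hf'
  refine ⟨F, h1, h2, fun i S S' hS hS' => ?_⟩
  obtain ⟨x, hx, hxS, hxS'⟩ := h3 i S S' hS hS'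
  have hxY : x ∈ Y K := (mem_Y_iff K x).2 hx
  refine ⟨⟨x, hxY⟩, ?_, ?_⟩
  · simpa [f', hxY] using hxS
  · have h4 := alpha_mem_Y hxY i
    have h5 : (if h : alpha i x ∈ Y K then f ⟨alpha i x, h⟩ else f ⟨x0, hx0⟩) ∈ S' := hxS'
    rw [dif_pos h4] at h5
    exact h5

/-- **Theorem N** for the one forest. -/
theorem uSys_families (K : Keys) {V : Type*} [Finite V] (adj : V → V → Prop) (f : UX K → V)
    (hf : ∀ a, MeasurableSet (f ⁻¹' {a}))
    (h : ∀ z z', (uSys K).gr.Adj z z' → adj (f z) (f z')) :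
    ∃ F : Fin 3 → Set (Set V), (∀ i S S', S ∈ F i → S ⊆ S' → S' ∈ F i) ∧
      (∀ B : Fin 3 → Set V, (∀ a, ∃ i, a ∈ B i) → ∃ i, B i ∈ F i) ∧
      (∀ i S S', S ∈ F i → S' ∈ F i → ∃ a ∈ S, ∃ b ∈ S', adj a b) := by
  have hf' : ∀ S : Set V, MeasurableSet ((fun y => f (emb0 K y)) ⁻¹' S) := by
    intro S
    have e : (fun y => f (emb0 K y)) ⁻¹' S = ⋃ a ∈ S, emb0 K ⁻¹' (f ⁻¹' {a}) := by
      ext y
      simp
    rw [e]
    exact MeasurableSet.biUnion (Set.to_countable S) fun a _ => measurable_emb0 K (hf a)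
  obtain ⟨F, h1, h2, h3⟩ := familiesY K (fun y => f (emb0 K y)) hf'
  refine ⟨F, h1, h2, fun i S S' hS hS' => ?_⟩
  obtain ⟨x, hx, hx'⟩ := h3 i S S' hS hS'
  refine ⟨_, hx, _, hx', h _ _ ⟨i, ?_⟩⟩
  exact (emb0_alphaY K i x).symm

end HypVec
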