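import Pool.Agent.Lib.HypVec.Space

/-!
# H2 / HypVec: components of the edges with coordinate `≤ N` are finite (page, section 3)

The labels agree above `N` along such a component, and two points of it with the same label are equal
(`exists_red`, `freeX_label`): the map (bits `0..N` of the label) is injective on it.
-/

namespace HypVec

variable {K : Keys}

private theorem finClass_key (N : ℕ) (p q : X K)
    (hq : Relation.ReflTransGen (fun a b => ∃ i, co i a ≤ N ∧ b = alphaX i a) p q) :
    (∃ w : L3, q = actX w p) ∧ ∀ m, N < m → q.1.1.1 m = p.1.1.1 m := by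
  induction hq with
  | refl => exact ⟨⟨[], rfl⟩, fun _ _ => rfl⟩
  | tail _ hbc ih =>
    obtain ⟨i, hi, rfl⟩ := hbc
    obtain ⟨⟨w, hw⟩, h2⟩ := ih
    refine ⟨⟨w ++ [i], by rw [actX_append, ← hw]; rfl⟩, fun m hm => ?_⟩
    rw [← h2 m hm]
    exact flip_ne (Nat.ne_of_gt (lt_of_le_of_lt hi hm)) _

private theorem finClass_actX_reverse (w : L3) (p : X K) : actX w.reverse (actX w p) = p := by
  induction w generalizing p with
  | nil => rfl
  | cons i w ih =>
    rw [List.reverse_cons, actX_append, actX_cons i w p, ih]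
    simp

theorem finite_class (N : ℕ) (p : X K) :
    {q : X K | Relation.ReflTransGen (fun a b => ∃ i, co i a ≤ N ∧ b = alphaX i a) p q}.Finite := by
  refine Set.Finite.of_finite_image
    (f := fun q : X K => fun m : Fin (N + 1) => q.1.1.1 m.1) (Set.toFinite _) ?_
  intro q hq q' hq' h
  obtain ⟨⟨w, hw⟩, h1⟩ := finClass_key N p q hq
  obtain ⟨⟨w', hw'⟩, h1'⟩ := finClass_key N p q' hq'
  have hlab : q'.1.1.1 = q.1.1.1 := by
    funext m
    by_cases hm : N < m
    · rw [h1 m hm, h1' m hm]
    · exact (congrFun h ⟨m, by omega⟩).symm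
  have hp : p = actX w.reverse q := by rw [hw, finClass_actX_reverse]
  have hq2 : q' = actX (w.reverse ++ w') q := by rw [actX_append, ← hp, hw']
  obtain ⟨r, hr⟩ := exists_red (K := K) (w.reverse ++ w')
  rw [hr] at hq2
  by_cases h0 : r.1 = []
  · rw [h0] at hq2
    exact hq2.symm
  · exact absurd (by rw [← hq2]; exact hlab) (freeX_label q r.2 h0)

end HypVec
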