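import Pool.Agent.Lib.HypVec.FinalGraph
import Pool.Agent.Lib.HypVec.FinClass

/-!
# H2 / HypVec: the components of `GN N` are finite (page, section 3)

Component of `z = (p, g)` in `GN N`: every point of it is `(q, g')` with `q` in the finite class of `p`
(`finite_class`) and the depth of `g'` (length of `t` for `hang i t`, 0 otherwise) at most
`max N (depth of g)`.
-/

namespace HypVec

variable {K : Keys}

/-- depth of a tag -/
def depT : Tag → ℕ
  | .base => 0
  | .mid _ => 0
  | .hang _ t => t.length

theorem finite_depT (M : ℕ) : {g : Tag | depT g ≤ M}.Finite := by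
  have h1 : ({g : Tag | depT g ≤ M} : Set Tag) ⊆
      {Tag.base} ∪ Set.range Tag.mid ∪
        (fun x : Fin 3 × List Bool => Tag.hang x.1 x.2) '' (Set.univ ×ˢ {t : List Bool | t.length ≤ M}) := by
    intro g hg
    cases g with
    | base => left; left; rfl
    | mid i => left; right; exact ⟨i, rfl⟩
    | hang i t => right; exact ⟨(i, t), ⟨trivial, hg⟩, rfl⟩
  refine Set.Finite.subset ?_ h1
  refine ((Set.finite_singleton _).union (Set.finite_range _)).union ?_
  refine Set.Finite.image _ (Set.Finite.prod Set.finite_univ ?_)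
  exact List.finite_length_le Bool M

theorem step_component (N M : ℕ) (hNM : N ≤ M) (p : X K) {z : Z K} {k : Fin 3}
    (hz : Relation.ReflTransGen (fun a b => ∃ i, co i a ≤ N ∧ b = alphaX i a) p z.1.1)
    (hd : depT z.1.2 ≤ M) (hl : lev z k ≤ N) :
    Relation.ReflTransGen (fun a b => ∃ i, co i a ≤ N ∧ b = alphaX i a) p (nb z k).1.1 ∧
      depT (nb z k).1.2 ≤ M := by
  obtain ⟨⟨q, g⟩, hv⟩ := z
  have hmove : ∀ i, co i q ≤ N →
      Relation.ReflTransGen (fun a b => ∃ i, co i a ≤ N ∧ b = alphaX i a) p (alphaX i q) :=
    fun i hi => Relation.ReflTransGen.tail hz ⟨i, hi, rfl⟩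
  cases g with
  | base =>
    have hl' : co k q ≤ N := hl
    simp only [nb, nbR]
    split_ifs
    · exact ⟨hmove k hl', Nat.zero_le _⟩
    · exact ⟨hz, Nat.zero_le _⟩
    · exact ⟨hmove k hl', Nat.zero_le _⟩
  | mid i =>
    simp only [nb, nbR]
    simp only [lev, levR] at hl
    split_ifs with h0 h1
    · exact ⟨hz, Nat.zero_le _⟩
    · rw [if_neg h0, if_pos h1] at hl
      exact ⟨hmove i hl, Nat.zero_le _⟩
    · exact ⟨hz, Nat.zero_le _⟩
  | hang i t =>
    cases t with
    | nil =>
      simp only [nb, nbR]
      simp only [lev, levR] at hl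
      split_ifs with h0
      · exact ⟨hz, Nat.zero_le _⟩
      · rw [if_neg h0] at hl
        refine ⟨hz, ?_⟩
        simp only [depT, List.length_cons, List.length_nil] at hl ⊢
        omega
    | cons b t =>
      simp only [nb, nbR]
      simp only [lev, levR] at hl
      split_ifs with h0
      · refine ⟨hz, ?_⟩
        simp only [depT, List.length_cons] at hd ⊢
        omega
      · rw [if_neg h0] at hl
        refine ⟨hz, ?_⟩
        simp only [depT, List.length_cons] at hl ⊢
        omega

theorem finite_component (N : ℕ) (C : (GN K N).ConnectedComponent) : C.supp.Finite := by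
  induction C using SimpleGraph.ConnectedComponent.ind with
  | _ z0 =>
    set M := max N (depT z0.1.2) with hM
    set R : Set (X K) := {q : X K | Relation.ReflTransGen
      (fun a b => ∃ i, co i a ≤ N ∧ b = alphaX i a) z0.1.1 q} with hR
    have hfin : ((fun z : Z K => z.1) ⁻¹' (R ×ˢ {g : Tag | depT g ≤ M})).Finite := by
      refine Set.Finite.preimage ?_ ((finite_class N z0.1.1).prod (finite_depT M))
      exact Set.injOn_of_injective Subtype.val_injective
    refine hfin.subset ?_
    intro z hz
    have hreach : (GN K N).Reachable z z0 := by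
      rw [SimpleGraph.ConnectedComponent.mem_supp_iff] at hz
      exact SimpleGraph.ConnectedComponent.exact hz
    obtain ⟨w⟩ := hreach.symm
    have key : ∀ (a b : Z K), (GN K N).Walk a b →
        (a.1.1 ∈ R ∧ depT a.1.2 ≤ M) → (b.1.1 ∈ R ∧ depT b.1.2 ≤ M) := by
      intro a b w
      induction w with
      | nil => exact id
      | cons h w ih =>
        intro ha
        obtain ⟨k, hk, rfl⟩ := h
        exact ih (step_component N M (le_max_left _ _) z0.1.1 ha.1 ha.2 hk)
    have := key z0 z w ⟨Relation.ReflTransGen.refl, le_max_right _ _⟩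
    exact ⟨this.1, this.2⟩

end HypVec
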