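import Pool.Agent.Lib.HypVec.Space

/-!
# H2 / HypVec: the final graph `G*` (page, section 3)

Base points `(p, base)`; the edge `i` at `p` is kept if it is plain, otherwise it is subdivided by the point
`(p, mid i)` (`p` = the low end) which carries a hanging binary tree `(p, hang i t)`, `t : List Bool`.
-/

namespace HypVec

inductive Tag
  | base
  | mid (i : Fin 3)
  | hang (i : Fin 3) (t : List Bool)
  deriving DecidableEq

instance : MeasurableSpace Tag := ⊤

/-- a tag as a plain datum -/
def Tag.code : Tag → Option (Fin 3 × Option (List Bool))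
  | .base => none
  | .mid i => some (i, none)
  | .hang i t => some (i, some t)

theorem Tag.code_injective : Function.Injective Tag.code := by
  rintro (_ | i | ⟨i, t⟩) (_ | j | ⟨j, s⟩) h <;> simp_all [Tag.code]

instance : Countable Tag := Tag.code_injective.countable

variable {K : Keys}

def Valid (p : X K) : Tag → Prop
  | .base => True
  | .mid i => ¬ plain i p ∧ low i p
  | .hang i _ => ¬ plain i p ∧ low i p

/-- vertices of the final graph -/
abbrev Z (K : Keys) := {z : X K × Tag // Valid z.1 z.2}

/-- the three neighbours, without the proof of validity -/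
def nbR (p : X K) : Tag → Fin 3 → X K × Tag
  | .base, i => if plain i p then (alphaX i p, .base) else
      if low i p then (p, .mid i) else (alphaX i p, .mid i)
  | .mid i, k => if k = 0 then (p, .base) else if k = 1 then (alphaX i p, .base) else (p, .hang i [])
  | .hang i [], k => if k = 0 then (p, .mid i) else (p, .hang i [decide (k = 2)])
  | .hang i (b :: t), k => if k = 0 then (p, .hang i t) else (p, .hang i (decide (k = 2) :: b :: t))

theorem valid_nbR (p : X K) (g : Tag) (h : Valid p g) (k : Fin 3) : Valid (nbR p g k).1 (nbR p g k).2 := by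
  rcases g with _ | i | ⟨i, t⟩
  · by_cases h1 : plain k p
    · simp [nbR, h1, Valid]
    · by_cases h2 : low k p
      · simp [nbR, h1, h2, Valid]
      · simp [nbR, h1, h2, Valid, low_alphaX]
  · obtain ⟨h1, h2⟩ := h
    fin_cases k <;> simp [nbR, Valid, h1, h2]
  · obtain ⟨h1, h2⟩ := h
    rcases t with _ | ⟨b, t⟩ <;> fin_cases k <;> simp [nbR, Valid, h1, h2]

def nb (z : Z K) (k : Fin 3) : Z K := ⟨nbR z.1.1 z.1.2 k, valid_nbR _ _ z.2 k⟩

/-- level of the edge `k` at `(p, g)`; the edges of level `≤ N` form the `N`-th component finite graph -/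
def levR (p : X K) : Tag → Fin 3 → ℕ
  | .base, i => co i p
  | .mid i, k => if k = 0 then co i p else if k = 1 then co i p else 0
  | .hang _ t, k => if k = 0 then t.length else t.length + 1

def lev (z : Z K) (k : Fin 3) : ℕ := levR z.1.1 z.1.2 k

theorem nbR_symm (p : X K) (g : Tag) (h : Valid p g) (k : Fin 3) :
    ∃ k', nbR (nbR p g k).1 (nbR p g k).2 k' = (p, g) ∧
      levR (nbR p g k).1 (nbR p g k).2 k' = levR p g k := by
  rcases g with _ | i | ⟨i, t⟩
  · by_cases h1 : plain k p
    · exact ⟨k, by simp [nbR, h1], by simp [nbR, h1, levR]⟩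
    · by_cases h2 : low k p
      · exact ⟨0, by simp [nbR, h1, h2], by simp [nbR, h1, h2, levR]⟩
      · exact ⟨1, by simp [nbR, h1, h2], by simp [nbR, h1, h2, levR]⟩
  · obtain ⟨h1, h2⟩ := h
    fin_cases k
    · exact ⟨i, by simp [nbR, h1, h2], by simp [nbR, levR]⟩
    · refine ⟨i, ?_, by simp [nbR, levR]⟩
      have h3 : ¬ low i (alphaX i p) := by rw [low_alphaX]; exact not_not.mpr h2
      simp [nbR, h1, h3]
    · exact ⟨0, by simp [nbR], by simp [nbR, levR]⟩
  · rcases t with _ | ⟨b, t⟩
    · fin_cases k
      · exact ⟨2, by simp [nbR], by simp [nbR, levR]⟩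
      · exact ⟨0, by simp [nbR], by simp [nbR, levR]⟩
      · exact ⟨0, by simp [nbR], by simp [nbR, levR]⟩
    · fin_cases k
      · cases b
        · refine ⟨1, ?_, by simp [nbR, levR]⟩
          rcases t with _ | ⟨c, t⟩ <;> simp [nbR]
        · refine ⟨2, ?_, by simp [nbR, levR]⟩
          rcases t with _ | ⟨c, t⟩ <;> simp [nbR]
      · exact ⟨0, by simp [nbR], by simp [nbR, levR]⟩
      · exact ⟨0, by simp [nbR], by simp [nbR, levR]⟩

/-- every edge goes back -/
theorem nb_symm (z : Z K) (k : Fin 3) : ∃ k', nb (nb z k) k' = z ∧ lev (nb z k) k' = lev z k := by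
  obtain ⟨⟨p, g⟩, h⟩ := z
  obtain ⟨k', h1, h2⟩ := nbR_symm p g h k
  exact ⟨k', Subtype.ext h1, h2⟩

theorem nbR_ne (p : X K) (g : Tag) (k : Fin 3) : nbR p g k ≠ (p, g) := by
  intro h
  rcases g with _ | i | ⟨i, t⟩
  · by_cases h1 : plain k p
    · simp only [nbR, h1, if_true, Prod.mk.injEq, and_true] at h
      exact alphaX_ne k p h
    · by_cases h2 : low k p <;> simp [nbR, h1, h2] at h
  · fin_cases k <;> simp [nbR] at h
  · rcases t with _ | ⟨b, t⟩
    · fin_cases k <;> simp [nbR] at h
    · fin_cases k
      · simp [nbR] at h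
      · simp [nbR] at h
      · simp [nbR] at h

theorem nb_ne (z : Z K) (k : Fin 3) : nb z k ≠ z := by
  obtain ⟨⟨p, g⟩, h⟩ := z
  intro h1
  exact nbR_ne p g k (congrArg Subtype.val h1)

theorem nbR_inj (p : X K) (g : Tag) : Function.Injective (nbR p g) := by
  intro k l h
  rcases g with _ | i | ⟨i, t⟩
  · by_contra hkl
    by_cases h1 : plain k p
    · by_cases h2 : plain l p
      · simp only [nbR, h1, h2, if_true, Prod.mk.injEq, and_true] at h
        exact alphaX_ne_alphaX hkl p h
      · by_cases h3 : low l p <;> simp [nbR, h1, h2, h3] at h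
    · by_cases h2 : plain l p
      · by_cases h3 : low k p <;> simp [nbR, h1, h2, h3] at h
      · have hk : (nbR p Tag.base k).2 = .mid k := by
          by_cases h3 : low k p <;> simp [nbR, h1, h3]
        have hl : (nbR p Tag.base l).2 = .mid l := by
          by_cases h3 : low l p <;> simp [nbR, h2, h3]
        have := congrArg Prod.snd h
        rw [hk, hl] at this
        exact hkl (by simpa using this)
  · have hne := alphaX_ne i p
    fin_cases k <;> fin_cases l <;> simp [nbR] at h ⊢
    · exact hne h.symm
    · exact hne h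
  · rcases t with _ | ⟨b, t⟩
    · fin_cases k <;> fin_cases l <;> simp [nbR] at h ⊢
    · fin_cases k <;> fin_cases l <;> simp [nbR] at h ⊢
      · have := congrArg List.length h
        simp at this
        omega
      · have := congrArg List.length h
        simp at this
        omega
      · have := congrArg List.length h
        simp at this
        omega
      · have := congrArg List.length h
        simp at this
        omega

theorem nb_inj (z : Z K) : Function.Injective (nb z) := by
  obtain ⟨⟨p, g⟩, h⟩ := z
  intro k l hkl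
  exact nbR_inj p g (congrArg Subtype.val hkl)

/-- the final graph -/
def GS (K : Keys) : SimpleGraph (Z K) where
  Adj z z' := ∃ k, nb z k = z'
  symm := ⟨by
    rintro z z' ⟨k, rfl⟩
    obtain ⟨k', h, _⟩ := nb_symm z k
    exact ⟨k', h⟩⟩
  loopless := ⟨fun z ⟨k, h⟩ => nb_ne z k h⟩

/-- the edges of level at most `N` -/
def GN (K : Keys) (N : ℕ) : SimpleGraph (Z K) where
  Adj z z' := ∃ k, lev z k ≤ N ∧ nb z k = z'
  symm := ⟨by
    rintro z z' ⟨k, hk, rfl⟩
    obtain ⟨k', h, h'⟩ := nb_symm z k
    exact ⟨k', h' ▸ hk, h⟩⟩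
  loopless := ⟨fun z ⟨k, _, h⟩ => nb_ne z k h⟩

theorem ncard_neighborSet (z : Z K) : ((GS K).neighborSet z).ncard = 3 := by
  have h : (GS K).neighborSet z = nb z '' Set.univ := by
    ext z'
    simp [GS, SimpleGraph.neighborSet]
  rw [h, Set.ncard_image_of_injective _ (nb_inj z), Set.ncard_univ]
  simp

end HypVec
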