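import Pool.Agent.Lib.HypVec.Label

/-!
# H2 / HypVec: the labels of the points of `Y` are free (page, section 1, Lemma FREE)

KEYED WALKS: `l_0 : ℕ → Bool`, coordinates `m_1, …, m_k` (`k ≥ 1`), `l_j = flip m_j l_{j-1}`, `l_{j-1}` agrees with
`key m_j` below `m_j`, and `m_j ≠ m_{j+1}`. Then `l_k ≠ l_0`: strong induction on `k`. If `l_k = l_0`, every
coordinate occurs an even number of times; let `M` be the largest one and take two consecutive occurrences
`a < b` of `M`. `l_a` and `l_{b-1}` both agree with `key M` below `M`; all coordinates strictly between are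
`< M`, so bits `≥ M` are unchanged between: `l_{b-1} = l_a`. `b = a+1` contradicts `m_a ≠ m_{a+1}`; otherwise
`a+1 .. b-1` is a shorter keyed walk with equal ends.
For `w` reduced consecutive edges have different types (`typ m_j` = the `j`-th letter), so `m_j ≠ m_{j+1}`.
-/

namespace HypVec

/-- the end of the walk which flips the bits of a list, one after the other -/
def endw : List ℕ → (ℕ → Bool) → (ℕ → Bool)
  | [], l => l
  | m :: ms, l => endw ms (flip m l)

/-- keyed walks -/
def KW (key : ℕ → ℕ → Bool) : List ℕ → (ℕ → Bool) → Prop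
  | [], _ => True
  | m :: ms, l => (∀ j < m, l j = key m j) ∧ KW key ms (flip m l)

theorem endw_append (a b : List ℕ) (l : ℕ → Bool) : endw (a ++ b) l = endw b (endw a l) := by
  induction a generalizing l with
  | nil => rfl
  | cons m a ih => exact ih _

theorem KW_append {key : ℕ → ℕ → Bool} {a b : List ℕ} {l : ℕ → Bool}
    (h : KW key (a ++ b) l) : KW key a l ∧ KW key b (endw a l) := by
  induction a generalizing l with
  | nil => exact ⟨trivial, h⟩
  | cons m a ih =>
    obtain ⟨h1, h2⟩ := h
    obtain ⟨h3, h4⟩ := ih h2
    exact ⟨⟨h1, h3⟩, h4⟩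

theorem endw_of_notMem {ms : List ℕ} {j : ℕ} (h : j ∉ ms) (l : ℕ → Bool) :
    endw ms l j = l j := by
  induction ms generalizing l with
  | nil => rfl
  | cons m ms ih =>
    rw [List.mem_cons, not_or] at h
    show endw ms (flip m l) j = l j
    rw [ih h.2, flip_ne h.1]

theorem endw_ne (key : ℕ → ℕ → Bool) (n : ℕ) : ∀ (ms : List ℕ) (l : ℕ → Bool),
    ms.length = n → ms ≠ [] → ms.IsChain (· ≠ ·) → KW key ms l → endw ms l ≠ l := by
  induction n using Nat.strong_induction_on with
  | _ n ih =>
    intro ms l hn h0 hch hkw heq
    -- the largest coordinate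
    obtain ⟨M, hM, hmax⟩ : ∃ M ∈ ms, ∀ m ∈ ms, m ≤ M := by
      obtain ⟨M, hM⟩ : ∃ M, ms.max? = some M := by
        cases h : ms.max? with
        | none => exact absurd (List.max?_eq_none_iff.1 h) h0
        | some M => exact ⟨M, rfl⟩
      rw [List.max?_eq_some_iff] at hM
      exact ⟨M, hM.1, hM.2⟩
    obtain ⟨pre, rest, hms, hpre⟩ := List.eq_append_cons_of_mem hM
    have hrest : M ∈ rest := by
      by_contra hc
      have h1 := congrFun heq M
      rw [hms, endw_append] at h1
      have h2 : endw (M :: rest) (endw pre l) M = endw rest (flip M (endw pre l)) M := rfl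
      rw [h2, endw_of_notMem hc, flip_same, endw_of_notMem hpre] at h1
      cases h3 : l M <;> simp [h3] at h1
    obtain ⟨mid, post, hr, hmid⟩ := List.eq_append_cons_of_mem hrest
    rw [hms, hr] at hkw hch hn hmax
    obtain ⟨_, h1, h2⟩ := KW_append hkw
    obtain ⟨h3, h4, _⟩ := KW_append h2
    set la := flip M (endw pre l) with hla
    have hend : endw mid la = la := by
      funext j
      by_cases hj : j < M
      · rw [h4 j hj, hla, flip_ne (ne_of_lt hj), h1 j hj]
      · apply endw_of_notMem
        intro hjm
        have h5 : j ≤ M := hmax j (by simp [hjm])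
        have h6 : j = M := by omega
        rw [h6] at hjm
        exact hmid hjm
    have hch2 : (M :: (mid ++ M :: post)).IsChain (· ≠ ·) := (List.isChain_append.1 hch).2.1
    have hmid0 : mid ≠ [] := by
      rintro rfl
      exact (List.isChain_cons_cons.1 hch2).1 rfl
    have hch3 : mid.IsChain (· ≠ ·) := by
      have h7 : (mid ++ M :: post).IsChain (· ≠ ·) := hch2.tail
      exact (List.isChain_append.1 h7).1
    refine ih mid.length ?_ mid la rfl hmid0 hch3 h3 hend
    rw [← hn]
    simp only [List.length_append, List.length_cons]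
    omega

/-- the coordinates of the edges along a path starting at the root -/
def coords : L3 → Conf → List ℕ
  | [], _ => []
  | i :: w, x => x.2 (ed i) :: coords w (alpha i x)

theorem act_fst (w : L3) (x : Conf) : (act w x).1 = endw (coords w x) x.1 := by
  induction w generalizing x with
  | nil => rfl
  | cons i w ih => exact ih _

theorem KW_coords {K : Keys} {x : Conf} (hx : x ∈ Y K) (w : L3) :
    KW K.key (coords w x) x.1 := by
  induction w generalizing x with
  | nil => trivial
  | cons i w ih => exact ⟨(hx [] i).2, ih (alpha_mem_Y hx i)⟩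

theorem typ_coords {K : Keys} {x : Conf} (hx : x ∈ Y K) (w : L3) :
    (coords w x).map K.typ = w := by
  induction w generalizing x with
  | nil => rfl
  | cons i w ih =>
    show K.typ (x.2 (ed i)) :: (coords w (alpha i x)).map K.typ = i :: w
    have h1 : K.typ (x.2 (ed i)) = i := (hx [] i).1
    rw [ih (alpha_mem_Y hx i), h1]

theorem free {K : Keys} {x : Conf} (hx : x ∈ Y K) {w : L3} (hw : IsW w) (h0 : w ≠ []) :
    (act w x).1 ≠ x.1 := by
  rw [act_fst]
  refine endw_ne K.key _ (coords w x) x.1 rfl ?_ ?_ (KW_coords hx w)
  · intro h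
    have := typ_coords hx w
    rw [h] at this
    exact h0 this.symm
  · have h1 : ((coords w x).map K.typ).IsChain (· ≠ ·) := by
      rw [typ_coords hx w]
      exact hw
    rw [List.isChain_map] at h1
    exact h1.imp fun a b hab he => hab (congrArg K.typ he)

end HypVec
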