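import Mathlib

/-!
# H2 / HypVec: the graph of a free system of three involutions with labels

A `Sys X` consists of three involutions `δ i` of `X` and of labels `lab x : ℕ → Bool` such that the
labels of `x` and of its image under a nonempty reduced word always differ, while the labels of
neighbours agree from some coordinate on.  The graph `x ~ δ i x` is then 3-regular, acyclic and
hyperfinite.
-/

namespace HypVec

/-- moving along a word -/
def wact {X : Type*} (δ : Fin 3 → X → X) : List (Fin 3) → X → X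
  | [], x => x
  | i :: w, x => wact δ w (δ i x)

@[simp] theorem wact_nil {X : Type*} (δ : Fin 3 → X → X) (x : X) : wact δ [] x = x := rfl
@[simp] theorem wact_cons {X : Type*} (δ : Fin 3 → X → X) (i : Fin 3) (w : List (Fin 3)) (x : X) :
    wact δ (i :: w) x = wact δ w (δ i x) := rfl

theorem wact_append {X : Type*} (δ : Fin 3 → X → X) (v w : List (Fin 3)) (x : X) :
    wact δ (v ++ w) x = wact δ w (wact δ v x) := by
  induction v generalizing x with
  | nil => rfl
  | cons i v ih => exact ih _

/-- three involutions with labels -/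
structure Sys (X : Type*) where
  δ : Fin 3 → X → X
  inv : ∀ i x, δ i (δ i x) = x
  lab : X → ℕ → Bool
  free : ∀ w : List (Fin 3), w.IsChain (· ≠ ·) → w ≠ [] → ∀ x, lab (wact δ w x) ≠ lab x
  fin : ∀ i x, ∃ N, ∀ m, N ≤ m → lab (δ i x) m = lab x m

namespace Sys

variable {X : Type*} (S : Sys X)

theorem δ_ne (i : Fin 3) (x : X) : S.δ i x ≠ x := fun h =>
  S.free [i] (List.isChain_singleton _) (by simp) x (by simp [h])

theorem δ_inj (x : X) : Function.Injective fun i => S.δ i x := by
  intro i j h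
  by_contra hij
  have h' : S.δ i x = S.δ j x := h
  refine S.free [i, j] (by simp [hij]) (by simp) x ?_
  simp [h', S.inv]

/-- the graph -/
def gr : SimpleGraph X where
  Adj x y := ∃ i, S.δ i x = y
  symm := ⟨fun x y ⟨i, h⟩ => ⟨i, by rw [← h, S.inv]⟩⟩
  loopless := ⟨fun x ⟨i, h⟩ => S.δ_ne i x h⟩

theorem gr_adj (x y : X) : S.gr.Adj x y ↔ ∃ i, S.δ i x = y := Iff.rfl

theorem ncard_neighborSet (x : X) : (S.gr.neighborSet x).ncard = 3 := by
  have h : S.gr.neighborSet x = (fun i => S.δ i x) '' Set.univ := by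
    ext y
    simp [SimpleGraph.mem_neighborSet, gr_adj]
  rw [h, Set.ncard_image_of_injective _ (S.δ_inj x), Set.ncard_univ]
  simp

/-- the word of a trail -/
theorem exists_word {x y : X} (p : S.gr.Walk x y) (hp : p.IsTrail) :
    ∃ w : List (Fin 3), w.IsChain (· ≠ ·) ∧ w.length = p.length ∧ wact S.δ w x = y ∧
      ∀ j ∈ w.head?, s(x, S.δ j x) ∈ p.edges := by
  induction p with
  | nil => exact ⟨[], by simp, by simp, by simp, by simp⟩
  | @cons x z y h p ih =>
    rw [SimpleGraph.Walk.isTrail_cons] at hp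
    have hh : ∃ i, S.δ i x = z := h
    obtain ⟨i, hi⟩ := hh
    obtain ⟨w, h1, h2, h3, h4⟩ := ih hp.1
    refine ⟨i :: w, ?_, by simp [h2], by simp [hi, h3], ?_⟩
    · rw [List.isChain_cons]
      refine ⟨fun j hj hij => ?_, h1⟩
      subst hij
      apply hp.2
      have h5 := h4 i hj
      have h6 : S.δ i z = x := by rw [← hi, S.inv]
      rw [h6] at h5
      rw [Sym2.eq_swap]
      exact h5
    · intro j hj
      simp at hj
      subst hj
      simp [hi]

theorem isAcyclic : S.gr.IsAcyclic := by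
  intro v c hc
  obtain ⟨w, h1, h2, h3, -⟩ := S.exists_word c hc.1.1
  have h0 : w ≠ [] := by
    intro h
    have := hc.three_le_length
    rw [← h2, h] at this
    simp at this
  exact S.free w h1 h0 v (by rw [h3])

/-- two points of a component with the same label are equal -/
theorem eq_of_lab {x y : X} (h : S.gr.Reachable x y) (hl : S.lab x = S.lab y) : x = y := by
  classical
  obtain ⟨p, hp⟩ := h.exists_isPath
  obtain ⟨w, h1, h2, h3, -⟩ := S.exists_word p hp.isTrail
  by_cases h0 : w = []
  · rw [h0] at h3; exact h3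
  · exact absurd (by rw [h3, hl]) (S.free w h1 h0 x)

/-- the edges along which the labels agree from `N` on -/
def gN (N : ℕ) : SimpleGraph X where
  Adj x y := (∃ i, S.δ i x = y) ∧ ∀ m, N ≤ m → S.lab x m = S.lab y m
  symm := ⟨fun x y ⟨⟨i, h⟩, h'⟩ => ⟨⟨i, by rw [← h, S.inv]⟩, fun m hm => (h' m hm).symm⟩⟩
  loopless := ⟨fun x ⟨⟨i, h⟩, _⟩ => S.δ_ne i x h⟩

theorem gN_le (N : ℕ) : S.gN N ≤ S.gr := fun _ _ h => h.1

theorem gN_mono : Monotone S.gN := fun _ _ h _ _ h' =>
  ⟨h'.1, fun m hm => h'.2 m (h.trans hm)⟩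

theorem gr_iff (x y : X) : S.gr.Adj x y ↔ ∃ N, (S.gN N).Adj x y := by
  constructor
  · rintro ⟨i, hi⟩
    obtain ⟨N, hN⟩ := S.fin i x
    exact ⟨N, ⟨i, hi⟩, fun m hm => by rw [← hi, hN m hm]⟩
  · rintro ⟨N, h⟩
    exact h.1

theorem lab_of_reachable (N : ℕ) {x y : X} (h : (S.gN N).Reachable x y) (m : ℕ) (hm : N ≤ m) :
    S.lab x m = S.lab y m := by
  obtain ⟨p⟩ := h
  induction p with
  | nil => rfl
  | cons h _ ih => exact (h.2 m hm).trans ih

theorem finite_reachable (N : ℕ) (x : X) : {y | (S.gN N).Reachable x y}.Finite := by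
  let φ : X → (Fin N → Bool) := fun y m => S.lab y m
  refine Set.Finite.of_finite_image (f := φ) (Set.toFinite _) ?_
  intro y hy z hz hyz
  have h1 : S.gr.Reachable y z :=
    (SimpleGraph.Reachable.mono (S.gN_le N) hy).symm.trans
      (SimpleGraph.Reachable.mono (S.gN_le N) hz)
  refine S.eq_of_lab h1 ?_
  funext m
  by_cases hm : m < N
  · exact congrFun hyz ⟨m, hm⟩
  · have h2 := S.lab_of_reachable N hy m (by omega)
    have h3 := S.lab_of_reachable N hz m (by omega)
    rw [← h2, h3]

section Measurable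

variable [MeasurableSpace X] [StandardBorelSpace X]

theorem measurableSet_gr (hδ : ∀ i, Measurable (S.δ i)) :
    MeasurableSet {p : X × X | S.gr.Adj p.1 p.2} := by
  have h : {p : X × X | S.gr.Adj p.1 p.2} = ⋃ i, {p : X × X | S.δ i p.1 = p.2} := by
    ext p
    simp [gr_adj]
  rw [h]
  exact MeasurableSet.iUnion fun i =>
    measurableSet_eq_fun ((hδ i).comp measurable_fst) measurable_snd

theorem measurableSet_gN (hδ : ∀ i, Measurable (S.δ i)) (hl : Measurable S.lab) (N : ℕ) :
    MeasurableSet {p : X × X | (S.gN N).Adj p.1 p.2} := by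
  have h : {p : X × X | (S.gN N).Adj p.1 p.2} = {p : X × X | S.gr.Adj p.1 p.2} ∩
      ⋂ m, ⋂ (_ : N ≤ m), {p : X × X | S.lab p.1 m = S.lab p.2 m} := by
    ext p
    simp only [Set.mem_inter_iff, Set.mem_iInter]
    exact Iff.rfl
  rw [h]
  refine (S.measurableSet_gr hδ).inter (MeasurableSet.iInter fun m => MeasurableSet.iInter fun _ => ?_)
  exact measurableSet_eq_fun ((measurable_pi_apply m).comp (hl.comp measurable_fst))
    ((measurable_pi_apply m).comp (hl.comp measurable_snd))

end Measurable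

end Sys

end HypVec
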