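import Mathlib

/-!
# H2 / HypVec: GAP (compactness) for Theorem F

Finite probability vectors `Pi : V → V → ℝ` (symmetric), the functional
`FF φ m Pi = ∑ t, m t * (4 * Ent (φ_t Pi_1) - 3 * Ent ((φ_t × φ_t) Pi))` and the statement:
if `FF > 0` for every symmetric probability supported on the edges of a finite graph `H`, then there is
`δ > 0` with `FF ≥ δ` whenever the mass of the non-edges is `< δ`.
-/

namespace HypVec

open Finset

/-- entropy of a finite real vector -/
noncomputable def entV {C : Type*} [Fintype C] (q : C → ℝ) : ℝ := ∑ c, Real.negMulLog (q c)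

/-- law of `φ` (first coordinate) under `Pi` -/
noncomputable def law1 {V C : Type*} [Fintype V] [DecidableEq C] (φ : V → C) (Pi : V → V → ℝ) :
    C → ℝ := fun c => ∑ u, ∑ v, if φ u = c then Pi u v else 0

/-- law of `(φ, φ)` under `Pi` -/
noncomputable def law2 {V C : Type*} [Fintype V] [DecidableEq C] (φ : V → C) (Pi : V → V → ℝ) :
    C × C → ℝ := fun c => ∑ u, ∑ v, if φ u = c.1 ∧ φ v = c.2 then Pi u v else 0

/-- the first moment functional -/
noncomputable def FF {V T : Type*} {C : T → Type*} [Fintype V] [Fintype T] [∀ t, Fintype (C t)]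
    [∀ t, DecidableEq (C t)] (φ : ∀ t, V → C t) (m : T → ℝ) (Pi : V → V → ℝ) : ℝ :=
  ∑ t, m t * (4 * entV (law1 (φ t) Pi) - 3 * entV (law2 (φ t) Pi))

/-- symmetric probability vectors on `V × V` -/
def SymP (V : Type*) [Fintype V] : Set (V → V → ℝ) :=
  {Pi | (∀ u v, 0 ≤ Pi u v) ∧ ∑ u, ∑ v, Pi u v = 1 ∧ ∀ u v, Pi u v = Pi v u}

/-- mass of the non-edges -/
noncomputable def nonE {V : Type*} [Fintype V] (H : SimpleGraph V) [DecidableRel H.Adj]
    (Pi : V → V → ℝ) : ℝ := ∑ u, ∑ v, if H.Adj u v then 0 else Pi u v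

theorem continuous_entV {C : Type*} [Fintype C] : Continuous (entV : (C → ℝ) → ℝ) := by
  unfold entV
  exact continuous_finsetSum _ fun c _ => Real.continuous_negMulLog.comp (continuous_apply c)

theorem continuous_law1 {V C : Type*} [Fintype V] [DecidableEq C] (φ : V → C) :
    Continuous (law1 φ) := by
  refine continuous_pi fun c => ?_
  refine continuous_finsetSum _ fun u _ => continuous_finsetSum _ fun v _ => ?_
  split_ifs
  · exact (continuous_apply v).comp (continuous_apply u)
  · exact continuous_const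

theorem continuous_law2 {V C : Type*} [Fintype V] [DecidableEq C] (φ : V → C) :
    Continuous (law2 φ) := by
  refine continuous_pi fun c => ?_
  refine continuous_finsetSum _ fun u _ => continuous_finsetSum _ fun v _ => ?_
  split_ifs
  · exact (continuous_apply v).comp (continuous_apply u)
  · exact continuous_const

theorem continuous_FF {V T : Type*} {C : T → Type*} [Fintype V] [Fintype T] [∀ t, Fintype (C t)]
    [∀ t, DecidableEq (C t)] (φ : ∀ t, V → C t) (m : T → ℝ) : Continuous (FF φ m) := by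
  refine continuous_finsetSum _ fun t _ => ?_
  refine continuous_const.mul ?_
  exact (continuous_const.mul (continuous_entV.comp (continuous_law1 (φ t)))).sub
    (continuous_const.mul (continuous_entV.comp (continuous_law2 (φ t))))

theorem continuous_nonE {V : Type*} [Fintype V] (H : SimpleGraph V) [DecidableRel H.Adj] :
    Continuous (nonE H) := by
  refine continuous_finsetSum _ fun u _ => continuous_finsetSum _ fun v _ => ?_
  split_ifs
  · exact continuous_const
  · exact (continuous_apply v).comp (continuous_apply u)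

theorem isCompact_SymP (V : Type*) [Fintype V] : IsCompact (SymP V) := by
  have hbox : IsCompact (Set.pi Set.univ fun _ : V => Set.pi Set.univ fun _ : V => Set.Icc (0:ℝ) 1) :=
    isCompact_univ_pi fun _ => isCompact_univ_pi fun _ => isCompact_Icc
  refine hbox.of_isClosed_subset ?_ ?_
  · have c2 : ∀ u v : V, Continuous fun Pi : V → V → ℝ => Pi u v := fun u v =>
      (continuous_apply v).comp (continuous_apply u)
    have h1 : IsClosed {Pi : V → V → ℝ | ∀ u v, 0 ≤ Pi u v} := by
      have : {Pi : V → V → ℝ | ∀ u v, 0 ≤ Pi u v} = ⋂ u, ⋂ v, {Pi : V → V → ℝ | 0 ≤ Pi u v} := by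
        ext; simp
      rw [this]
      exact isClosed_iInter fun u => isClosed_iInter fun v => isClosed_le continuous_const (c2 u v)
    have h2 : IsClosed {Pi : V → V → ℝ | ∑ u, ∑ v, Pi u v = 1} :=
      isClosed_eq (continuous_finsetSum _ fun u _ => continuous_finsetSum _ fun v _ => c2 u v)
        continuous_const
    have h3 : IsClosed {Pi : V → V → ℝ | ∀ u v, Pi u v = Pi v u} := by
      have : {Pi : V → V → ℝ | ∀ u v, Pi u v = Pi v u} =
          ⋂ u, ⋂ v, {Pi : V → V → ℝ | Pi u v = Pi v u} := by ext; simp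
      rw [this]
      exact isClosed_iInter fun u => isClosed_iInter fun v => isClosed_eq (c2 u v) (c2 v u)
    exact h1.inter (h2.inter h3)
  · rintro Pi ⟨h0, h1, -⟩
    simp only [Set.mem_pi, Set.mem_univ, true_implies, Set.mem_Icc]
    intro u v
    refine ⟨h0 u v, ?_⟩
    rw [← h1]
    calc Pi u v ≤ ∑ v', Pi u v' :=
          Finset.single_le_sum (f := fun v' => Pi u v') (fun v' _ => h0 u v') (Finset.mem_univ v)
      _ ≤ ∑ u', ∑ v', Pi u' v' :=
          Finset.single_le_sum (f := fun u' => ∑ v', Pi u' v')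
            (fun u' _ => Finset.sum_nonneg fun v' _ => h0 u' v') (Finset.mem_univ u)

theorem nonE_nonneg {V : Type*} [Fintype V] (H : SimpleGraph V) [DecidableRel H.Adj]
    {Pi : V → V → ℝ} (h0 : ∀ u v, 0 ≤ Pi u v) : 0 ≤ nonE H Pi := by
  refine Finset.sum_nonneg fun u _ => Finset.sum_nonneg fun v _ => ?_
  split_ifs
  · exact le_rfl
  · exact h0 u v

theorem nonE_eq_zero {V : Type*} [Fintype V] (H : SimpleGraph V) [DecidableRel H.Adj]
    {Pi : V → V → ℝ} (h0 : ∀ u v, 0 ≤ Pi u v) (h : nonE H Pi = 0) :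
    ∀ u v, ¬ H.Adj u v → Pi u v = 0 := by
  intro u v huv
  have hu : ∀ u' ∈ Finset.univ, 0 ≤ ∑ v', if H.Adj u' v' then 0 else Pi u' v' := fun u' _ =>
    Finset.sum_nonneg fun v' _ => by
      split_ifs
      · exact le_rfl
      · exact h0 u' v'
  have h1 := (Finset.sum_eq_zero_iff_of_nonneg hu).1 h u (Finset.mem_univ u)
  have hv : ∀ v' ∈ Finset.univ, 0 ≤ if H.Adj u v' then 0 else Pi u v' := fun v' _ => by
    split_ifs
    · exact le_rfl
    · exact h0 u v'
  have h2 := (Finset.sum_eq_zero_iff_of_nonneg hv).1 h1 v (Finset.mem_univ v)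
  simpa [huv] using h2

/-- general compactness gap -/
theorem gap_compact {X : Type*} [TopologicalSpace X] {K : Set X} (hK : IsCompact K) {N F : X → ℝ}
    (hN : ContinuousOn N K) (hF : ContinuousOn F K) (hN0 : ∀ x ∈ K, 0 ≤ N x)
    (h : ∀ x ∈ K, N x = 0 → 0 < F x) : ∃ δ > 0, ∀ x ∈ K, N x < δ → δ ≤ F x := by
  rcases K.eq_empty_or_nonempty with rfl | hne
  · exact ⟨1, one_pos, by simp⟩
  obtain ⟨x0, hx0, hmin⟩ := hK.exists_isMinOn hne (hN.sup hF)
  refine ⟨max (N x0) (F x0), ?_, ?_⟩
  · rcases (hN0 x0 hx0).lt_or_eq with hlt | heq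
    · exact lt_max_of_lt_left hlt
    · exact lt_max_of_lt_right (h x0 hx0 heq.symm)
  · intro x hx hlt
    have h1 : max (N x0) (F x0) ≤ max (N x) (F x) := hmin hx
    rcases le_max_iff.1 h1 with h2 | h2
    · exact absurd hlt (not_lt.2 h2)
    · exact h2

/-- **GAP.** -/
theorem gap {V T : Type*} {C : T → Type*} [Fintype V] [Fintype T] [∀ t, Fintype (C t)]
    [∀ t, DecidableEq (C t)] (H : SimpleGraph V) [DecidableRel H.Adj]
    (φ : ∀ t, V → C t) (m : T → ℝ)
    (h : ∀ Pi : V → V → ℝ, (∀ u v, 0 ≤ Pi u v) → ∑ u, ∑ v, Pi u v = 1 → (∀ u v, Pi u v = Pi v u) →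
      (∀ u v, ¬ H.Adj u v → Pi u v = 0) → 0 < FF φ m Pi) :
    ∃ δ > 0, ∀ Pi : V → V → ℝ, (∀ u v, 0 ≤ Pi u v) → ∑ u, ∑ v, Pi u v = 1 →
      (∀ u v, Pi u v = Pi v u) → nonE H Pi < δ → δ ≤ FF φ m Pi := by
  obtain ⟨δ, hδ, hall⟩ := gap_compact (isCompact_SymP V) (continuous_nonE H).continuousOn
    (continuous_FF φ m).continuousOn (fun Pi hPi => nonE_nonneg H hPi.1)
    (fun Pi hPi h0 => h Pi hPi.1 hPi.2.1 hPi.2.2 (nonE_eq_zero H hPi.1 h0))
  exact ⟨δ, hδ, fun Pi h0 h1 h2 h3 => hall Pi ⟨h0, h1, h2⟩ h3⟩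

/-! ### The law of a pair of random variables -/

open MeasureTheory

/-- entropy of a random variable with values in a finite type -/
noncomputable def entM {Om C : Type*} [MeasurableSpace Om] [Fintype C] (mu : Measure Om)
    (X : Om → C) : ℝ := ∑ c, Real.negMulLog (mu.real {o | X o = c})

/-- law of a pair -/
noncomputable def lawPair {Om V : Type*} [MeasurableSpace Om] (mu : Measure Om) (G G' : Om → V) :
    V → V → ℝ := fun u v => mu.real {o | G o = u ∧ G' o = v}

theorem sum_measureReal_fiber {Om V : Type*} [MeasurableSpace Om] [Fintype V] (mu : Measure Om)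
    [IsFiniteMeasure mu] (G : Om → V) (hG : ∀ u, MeasurableSet {o | G o = u}) (s : Set Om)
    (hs : MeasurableSet s) : ∑ u, mu.real (s ∩ {o | G o = u}) = mu.real s := by
  have h1 : s = ⋃ u ∈ (Finset.univ : Finset V), (s ∩ {o | G o = u}) := by
    ext o; simp
  conv_rhs => rw [h1]
  rw [measureReal_biUnion_finset]
  · intro u _ v _ huv
    refine Set.disjoint_left.2 ?_
    rintro o ⟨-, h2⟩ ⟨-, h3⟩
    exact huv (h2.symm.trans h3)
  · exact fun u _ => hs.inter (hG u)

theorem lawPair_sum {Om V : Type*} [MeasurableSpace Om] [Fintype V] (mu : Measure Om)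
    [IsProbabilityMeasure mu] (G G' : Om → V) (hG : ∀ u, MeasurableSet {o | G o = u})
    (hG' : ∀ u, MeasurableSet {o | G' o = u}) : ∑ u, ∑ v, lawPair mu G G' u v = 1 := by
  have h1 : ∀ u, ∑ v, lawPair mu G G' u v = mu.real {o | G o = u} := by
    intro u
    rw [← sum_measureReal_fiber mu G' hG' {o | G o = u} (hG u)]
    rfl
  simp only [h1]
  have h2 := sum_measureReal_fiber mu G hG Set.univ MeasurableSet.univ
  simpa using h2

/-- marginal of `φ ∘ G` -/
theorem law1_lawPair {Om V C : Type*} [MeasurableSpace Om] [Fintype V] [DecidableEq C]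
    (mu : Measure Om) [IsProbabilityMeasure mu] (G G' : Om → V)
    (hG : ∀ u, MeasurableSet {o | G o = u}) (hG' : ∀ u, MeasurableSet {o | G' o = u})
    (φ : V → C) (c : C) : law1 φ (lawPair mu G G') c = mu.real {o | φ (G o) = c} := by
  unfold law1
  have hm : MeasurableSet {o | φ (G o) = c} := by
    have : {o | φ (G o) = c} = ⋃ u : V, ⋃ _ : φ u = c, {o | G o = u} := by ext o; simp
    rw [this]
    exact MeasurableSet.iUnion fun u => MeasurableSet.iUnion fun _ => hG u
  rw [← sum_measureReal_fiber mu G hG {o | φ (G o) = c} hm]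
  refine Finset.sum_congr rfl fun u _ => ?_
  by_cases hu : φ u = c
  · simp only [hu, if_true]
    have h1 : {o | φ (G o) = c} ∩ {o | G o = u} = {o | G o = u} := by
      ext o
      simp only [Set.mem_inter_iff, Set.mem_ofPred_eq, and_iff_right_iff_imp]
      rintro rfl
      exact hu
    rw [h1, ← sum_measureReal_fiber mu G' hG' {o | G o = u} (hG u)]
    rfl
  · simp only [hu, if_false, Finset.sum_const_zero]
    have h1 : {o | φ (G o) = c} ∩ {o | G o = u} = ∅ := by
      ext o
      simp only [Set.mem_inter_iff, Set.mem_ofPred_eq, Set.mem_empty_iff_false, iff_false, not_and]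
      rintro h rfl
      exact hu h
    rw [h1]; simp

/-- law of `(φ ∘ G, φ ∘ G')` -/
theorem law2_lawPair {Om V C : Type*} [MeasurableSpace Om] [Fintype V] [DecidableEq C]
    (mu : Measure Om) [IsProbabilityMeasure mu] (G G' : Om → V)
    (hG : ∀ u, MeasurableSet {o | G o = u}) (hG' : ∀ u, MeasurableSet {o | G' o = u})
    (φ : V → C) (c : C × C) :
    law2 φ (lawPair mu G G') c = mu.real {o | (φ (G o), φ (G' o)) = c} := by
  obtain ⟨c, c'⟩ := c
  unfold law2
  have hm1 : MeasurableSet {o | φ (G o) = c} := by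
    have : {o | φ (G o) = c} = ⋃ u : V, ⋃ _ : φ u = c, {o | G o = u} := by ext o; simp
    rw [this]
    exact MeasurableSet.iUnion fun u => MeasurableSet.iUnion fun _ => hG u
  have hm2 : MeasurableSet {o | φ (G' o) = c'} := by
    have : {o | φ (G' o) = c'} = ⋃ u : V, ⋃ _ : φ u = c', {o | G' o = u} := by ext o; simp
    rw [this]
    exact MeasurableSet.iUnion fun u => MeasurableSet.iUnion fun _ => hG' u
  have he : {o | (φ (G o), φ (G' o)) = (c, c')} = {o | φ (G o) = c} ∩ {o | φ (G' o) = c'} := by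
    ext o; simp
  have hm : MeasurableSet {o | (φ (G o), φ (G' o)) = (c, c')} := he ▸ hm1.inter hm2
  rw [← sum_measureReal_fiber mu G hG _ hm]
  refine Finset.sum_congr rfl fun u _ => ?_
  rw [← sum_measureReal_fiber mu G' hG' _ (hm.inter (hG u))]
  refine Finset.sum_congr rfl fun v _ => ?_
  by_cases huv : φ u = c ∧ φ v = c'
  · simp only [huv, and_self, if_true]
    unfold lawPair
    congr 1
    ext o
    simp only [Set.mem_ofPred_eq, Set.mem_inter_iff, Prod.mk.injEq]
    constructor
    · rintro ⟨rfl, rfl⟩; exact ⟨⟨huv, rfl⟩, rfl⟩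
    · rintro ⟨⟨-, h1⟩, h2⟩; exact ⟨h1, h2⟩
  · rw [if_neg huv]
    have h1 : {o | (φ (G o), φ (G' o)) = (c, c')} ∩ {o | G o = u} ∩ {o | G' o = v} = ∅ := by
      ext o
      simp only [Set.mem_inter_iff, Set.mem_ofPred_eq, Prod.mk.injEq, Set.mem_empty_iff_false,
        iff_false, not_and]
      rintro ⟨h1, rfl⟩ rfl
      exact huv h1
    rw [h1]; simp

/-- mass of the non-edges of the law of a pair -/
theorem nonE_lawPair {Om V : Type*} [MeasurableSpace Om] [Fintype V] (mu : Measure Om)
    [IsProbabilityMeasure mu] (H : SimpleGraph V) [DecidableRel H.Adj] (G G' : Om → V)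
    (hG : ∀ u, MeasurableSet {o | G o = u}) (hG' : ∀ u, MeasurableSet {o | G' o = u}) :
    nonE H (lawPair mu G G') = mu.real {o | ¬ H.Adj (G o) (G' o)} := by
  unfold nonE
  have hm : MeasurableSet {o | ¬ H.Adj (G o) (G' o)} := by
    have : {o | ¬ H.Adj (G o) (G' o)} =
        ⋃ u : V, ⋃ v : V, ⋃ _ : ¬ H.Adj u v, ({o | G o = u} ∩ {o | G' o = v}) := by
      ext o; simp
    rw [this]
    exact MeasurableSet.iUnion fun u => MeasurableSet.iUnion fun v =>
      MeasurableSet.iUnion fun _ => (hG u).inter (hG' v)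
  rw [← sum_measureReal_fiber mu G hG _ hm]
  refine Finset.sum_congr rfl fun u _ => ?_
  rw [← sum_measureReal_fiber mu G' hG' _ (hm.inter (hG u))]
  refine Finset.sum_congr rfl fun v _ => ?_
  by_cases huv : H.Adj u v
  · rw [if_pos huv]
    have h1 : {o | ¬ H.Adj (G o) (G' o)} ∩ {o | G o = u} ∩ {o | G' o = v} = ∅ := by
      ext o
      simp only [Set.mem_inter_iff, Set.mem_ofPred_eq, Set.mem_empty_iff_false,
        iff_false, not_and]
      rintro ⟨h1, rfl⟩ rfl
      exact h1 huv
    rw [h1]; simp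
  · rw [if_neg huv]
    unfold lawPair
    congr 1
    ext o
    simp only [Set.mem_ofPred_eq, Set.mem_inter_iff]
    constructor
    · rintro ⟨rfl, rfl⟩; exact ⟨⟨huv, rfl⟩, rfl⟩
    · rintro ⟨⟨-, h1⟩, h2⟩; exact ⟨h1, h2⟩

/-- **GAP**, random variable form: `G, G'` exchangeable, adjacent up to probability `< δ`. -/
theorem gap_rv {V T : Type*} {C : T → Type*} [Fintype V] [Fintype T] [∀ t, Fintype (C t)]
    [∀ t, DecidableEq (C t)] (H : SimpleGraph V)
    (φ : ∀ t, V → C t) (m : T → ℝ)
    (h : ∀ Pi : V → V → ℝ, (∀ u v, 0 ≤ Pi u v) → ∑ u, ∑ v, Pi u v = 1 → (∀ u v, Pi u v = Pi v u) →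
      (∀ u v, ¬ H.Adj u v → Pi u v = 0) → 0 < FF φ m Pi) :
    ∃ δ > 0, ∀ {Om : Type} [MeasurableSpace Om] (mu : Measure Om) [IsProbabilityMeasure mu]
      (G G' : Om → V), (∀ u, MeasurableSet {o | G o = u}) → (∀ u, MeasurableSet {o | G' o = u}) →
      (∀ u v, mu.real {o | G o = u ∧ G' o = v} = mu.real {o | G o = v ∧ G' o = u}) →
      mu.real {o | ¬ H.Adj (G o) (G' o)} < δ →
      δ ≤ ∑ t, m t * (4 * entM mu (fun o => φ t (G o)) -
        3 * entM mu (fun o => (φ t (G o), φ t (G' o)))) := by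
  classical
  obtain ⟨δ, hδ, hall⟩ := gap H φ m h
  refine ⟨δ, hδ, ?_⟩
  intro Om _ mu _ G G' hG hG' hsym hne
  have h1 := hall (lawPair mu G G') (fun u v => measureReal_nonneg) (lawPair_sum mu G G' hG hG')
    hsym (by rw [nonE_lawPair mu H G G' hG hG']; exact hne)
  refine h1.trans_eq ?_
  unfold FF
  refine Finset.sum_congr rfl fun t _ => ?_
  have e1 : law1 (φ t) (lawPair mu G G') = fun c => mu.real {o | φ t (G o) = c} :=
    funext fun c => law1_lawPair mu G G' hG hG' (φ t) c
  have e2 : law2 (φ t) (lawPair mu G G') = fun c => mu.real {o | (φ t (G o), φ t (G' o)) = c} :=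
    funext fun c => law2_lawPair mu G G' hG hG' (φ t) c
  rw [e1, e2]
  rfl

end HypVec
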