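import Pool.Agent.Lib.HypVec.InfCat

/-!
# Games in which the players build a configuration: the two combinatorial lemmas

`E` is the set of edges of the rooted 3-regular tree, `fst e` the first letter of the edge `e`,
`lev e` its level, `tau i` the re-rooting at the neighbour `i`, `root i` the edge `[i]`.
A configuration consists of an infinite bit string and of a natural number for each edge.
-/

namespace Pool.Agent.HypVec

/-- A move: a nonempty bit string and numbers for all edges. -/
structure Move (E : Type) where
  /-- first bit -/
  hd : Bool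
  /-- the other bits -/
  tl : List Bool
  /-- the numbers of the edges -/
  lab : E → ℕ

instance (E : Type) : Nonempty (Move E) := ⟨⟨false, [], fun _ => 0⟩⟩

instance (E : Type) : TopologicalSpace (Move E) := ⊥

instance (E : Type) : DiscreteTopology (Move E) := ⟨rfl⟩

/-- The bit string of a move. -/
def ext {E : Type} (m : Move E) : List Bool := m.hd :: m.tl

theorem ext_ne_nil {E : Type} (m : Move E) : ext m ≠ [] := by simp [ext]

/-- A move with given bit string and numbers. -/
def mkMove {E : Type} (l : List Bool) (f : E → ℕ) : Move E := ⟨l.headD false, l.tail, f⟩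

theorem ext_mkMove {E : Type} {l : List Bool} (hl : l ≠ []) (f : E → ℕ) :
    ext (mkMove l f) = l := by
  cases l with
  | nil => exact absurd rfl hl
  | cons a t => rfl

@[simp] theorem lab_mkMove {E : Type} (l : List Bool) (f : E → ℕ) : (mkMove l f).lab = f := rfl

/-- Configurations. -/
abbrev Conf (E : Type) : Type := (ℕ → Bool) × (E → ℕ)

/-- Change one bit. -/
def flip (m : ℕ) (l : ℕ → Bool) : ℕ → Bool := Function.update l m (!l m)

/-- The configuration of a run: label `s ++ ext (r 0) ++ ext (r 1) ++ ...`; the player with the
even stages gives the numbers of the edges with first letter `i`, level by level, the other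
player the numbers of the other edges. -/
def conf {E : Type} (fst : E → Fin 3) (lev : E → ℕ) (i : Fin 3) (s : List Bool)
    (r : ℕ → Move E) : Conf E :=
  (infl s (fun k => ext (r k)),
    fun e => if fst e = i then (r (2 * (lev e - 1))).lab e else (r (2 * (lev e - 1) + 1)).lab e)

section CaseB

variable {E : Type} (fst : E → Fin 3) (lev : E → ℕ)

/-- The run of the game number `i` inside the joint play `p` of three strategies. -/
def runB (i : ℕ) (p : ℕ → Move E) (j : ℕ) : Move E :=
  if j % 2 = 0 then p (3 * (j / 2) + i)
  else mkMove (ext (p (3 * (j / 2) + i + 1)) ++ ext (p (3 * (j / 2) + i + 2)))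
    (fun e => (p (3 * (j / 2) + (fst e : ℕ))).lab e)

theorem runB_even (i : ℕ) (p : ℕ → Move E) (k : ℕ) : runB fst i p (2 * k) = p (3 * k + i) := by
  unfold runB
  rw [if_pos (by omega)]
  congr 2
  omega

theorem runB_odd (i : ℕ) (p : ℕ → Move E) (k : ℕ) : runB fst i p (2 * k + 1) =
    mkMove (ext (p (3 * k + i + 1)) ++ ext (p (3 * k + i + 2)))
    (fun e => (p (3 * k + (fst e : ℕ))).lab e) := by
  unfold runB
  have h : (2 * k + 1) / 2 = k := by omega
  rw [if_neg (by omega), h]

theorem runB_congr {i n k : ℕ} (hn : n = 3 * k + i) {p p' : ℕ → Move E}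
    (h : ∀ m, m < n → p m = p' m) {j : ℕ} (hj : j < 2 * k) :
    runB fst i p j = runB fst i p' j := by
  unfold runB
  have h1 : 3 * (j / 2) + i + 2 < n := by omega
  by_cases hc : j % 2 = 0
  · rw [if_pos hc, if_pos hc]
    exact h _ (by omega)
  · rw [if_neg hc, if_neg hc, h (3 * (j / 2) + i + 1) (by omega), h _ h1]
    congr 1
    funext e
    rw [h (3 * (j / 2) + (fst e : ℕ)) (by have := (fst e).2; omega)]

/-- **Joint play of three strategies.**  If `σ i s` are strategies of the first player in the games
with type `i` and initial string `s`, there are a configuration `x` and, for every `i`, a run of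
the game of type `i` (for some initial string extending `s0`) in which the first player follows
his strategy and whose configuration is `x`. -/
theorem exists_joint (s0 : List Bool) (σ : Fin 3 → List Bool → List (Move E) → Move E) :
    ∃ x : Conf E, ∀ i : Fin 3, ∃ (u : List Bool) (r : ℕ → Move E),
      (∀ k, r (2 * k) = σ i (s0 ++ u) ((List.range (2 * k)).map r)) ∧
      conf fst lev i (s0 ++ u) r = x := by
  classical
  -- the joint play
  obtain ⟨p, hp⟩ := exists_rec (M := Move E)
    (fun n p => σ ⟨n % 3, Nat.mod_lt _ (by norm_num)⟩ (s0 ++ cat (fun k => ext (p k)) (n % 3))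
      ((List.range (2 * (n / 3))).map (runB fst (n % 3) p)))
    (by
      intro n p p' h
      have h1 : cat (fun k => ext (p k)) (n % 3) = cat (fun k => ext (p' k)) (n % 3) :=
        cat_congr fun m hm => by
          have : m < n := lt_of_lt_of_le hm (Nat.mod_le _ _)
          simp only [h m this]
      have h2 : (List.range (2 * (n / 3))).map (runB fst (n % 3) p) =
          (List.range (2 * (n / 3))).map (runB fst (n % 3) p') := by
        apply List.map_congr_left
        intro j hj
        exact runB_congr fst (k := n / 3) (by omega) h (List.mem_range.1 hj)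
      simp only [h1, h2])
  set f : ℕ → List Bool := fun k => ext (p k) with hf
  have hfne : ∀ k, f k ≠ [] := fun k => ext_ne_nil _
  refine ⟨(infl s0 f, fun e => (p (3 * (lev e - 1) + (fst e : ℕ))).lab e), fun i => ?_⟩
  refine ⟨cat f i, runB fst i p, fun k => ?_, ?_⟩
  · rw [runB_even, hp (3 * k + i)]
    have h1 : (3 * k + (i : ℕ)) % 3 = i := by have := i.2; omega
    have h2 : (3 * k + (i : ℕ)) / 3 = k := by have := i.2; omega
    simp only [h1, h2]
  · have hcat : ∀ k, s0 ++ cat f i ++ cat (fun j => ext (runB fst i p j)) (2 * k) =
        s0 ++ cat f (3 * k + i) := by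
      intro k
      induction k with
      | zero => simp
      | succ k ih =>
        have e1 : 2 * (k + 1) = (2 * k + 1) + 1 := by ring
        have e2 : 3 * (k + 1) + (i : ℕ) = ((3 * k + i + 1) + 1) + 1 := by ring
        rw [e1, e2, cat_succ, cat_succ, cat_succ, cat_succ, cat_succ, runB_even, runB_odd,
          ext_mkMove (by simp [ext_ne_nil])]
        simp only [← List.append_assoc]
        rw [ih]
    have hne : ∀ j, ext (runB fst i p j) ≠ [] := fun j => ext_ne_nil _
    unfold conf
    refine Prod.ext ?_ ?_
    · show infl (s0 ++ cat f i) (fun k => ext (runB fst i p k)) = infl s0 f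
      apply Pre.eq
      intro m
      refine ⟨s0 ++ cat f (3 * (m + 1) + i), ?_, ?_, ?_⟩
      · rw [List.length_append]
        have := le_length_cat hfne (3 * (m + 1) + i)
        omega
      · rw [← hcat]
        exact pre_infl _ hne _
      · exact pre_infl s0 hfne (3 * (m + 1) + i)
    · funext e
      show (if fst e = i then (runB fst i p (2 * (lev e - 1))).lab e
        else (runB fst i p (2 * (lev e - 1) + 1)).lab e) =
          (p (3 * (lev e - 1) + (fst e : ℕ))).lab e
      by_cases h : fst e = i
      · rw [if_pos h, runB_even, h]
      · rw [if_neg h, runB_odd, lab_mkMove]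

end CaseB

section CaseA

variable {E : Type} (fst : E → Fin 3) (lev : E → ℕ) (tau : Fin 3 → E → E) (root : Fin 3 → E)

/-- The involution of the configurations: re-rooting at the neighbour `i`. -/
def alpha (i : Fin 3) (x : Conf E) : Conf E :=
  (flip (x.2 (root i)) x.1, fun e => x.2 (tau i e))

/-- First run: `P` starts with `pad 0`, the opponent plays `b 0, b 2, b 4, ...`. -/
def runA0 (i : Fin 3) (pad : List Bool) (N : ℕ) (b : ℕ → Move E) (j : ℕ) : Move E :=
  if j = 0 then mkMove (pad ++ [false]) (fun _ => N)
  else if j % 2 = 1 then b (j - 1)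
  else mkMove (ext (b (j - 1))) (fun e => (b (j - 1)).lab (tau i e))

/-- Second run: `P` starts with `pad 1 (b 0)`, the opponent plays `b 1, b 3, b 5, ...`. -/
def runA1 (i : Fin 3) (pad : List Bool) (N : ℕ) (b : ℕ → Move E) (j : ℕ) : Move E :=
  if j = 0 then mkMove (pad ++ [true] ++ ext (b 0)) (fun _ => N)
  else if j % 2 = 1 then b j
  else mkMove (ext (b j)) (fun e => (b (j - 2)).lab (tau i e))

theorem runA0_zero (i : Fin 3) (pad : List Bool) (N : ℕ) (b : ℕ → Move E) :
    runA0 tau i pad N b 0 = mkMove (pad ++ [false]) (fun _ => N) := rfl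

theorem runA0_odd (i : Fin 3) (pad : List Bool) (N : ℕ) (b : ℕ → Move E) (k : ℕ) :
    runA0 tau i pad N b (2 * k + 1) = b (2 * k) := by
  unfold runA0
  rw [if_neg (by omega), if_pos (by omega)]
  rfl

theorem runA0_even (i : Fin 3) (pad : List Bool) (N : ℕ) (b : ℕ → Move E) (k : ℕ) :
    runA0 tau i pad N b (2 * k + 2) =
      mkMove (ext (b (2 * k + 1))) (fun e => (b (2 * k + 1)).lab (tau i e)) := by
  unfold runA0
  rw [if_neg (by omega), if_neg (by omega)]
  rfl

theorem runA1_zero (i : Fin 3) (pad : List Bool) (N : ℕ) (b : ℕ → Move E) :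
    runA1 tau i pad N b 0 = mkMove (pad ++ [true] ++ ext (b 0)) (fun _ => N) := rfl

theorem runA1_odd (i : Fin 3) (pad : List Bool) (N : ℕ) (b : ℕ → Move E) (k : ℕ) :
    runA1 tau i pad N b (2 * k + 1) = b (2 * k + 1) := by
  unfold runA1
  rw [if_neg (by omega), if_pos (by omega)]

theorem runA1_even (i : Fin 3) (pad : List Bool) (N : ℕ) (b : ℕ → Move E) (k : ℕ) :
    runA1 tau i pad N b (2 * k + 2) =
      mkMove (ext (b (2 * k + 2))) (fun e => (b (2 * k)).lab (tau i e)) := by
  unfold runA1
  rw [if_neg (by omega), if_neg (by omega)]
  rfl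

theorem runA0_congr (i : Fin 3) (pad : List Bool) (N : ℕ) {k : ℕ} {b b' : ℕ → Move E}
    (h : ∀ m, m < 2 * k → b m = b' m) {j : ℕ} (hj : j < 2 * k + 1) :
    runA0 tau i pad N b j = runA0 tau i pad N b' j := by
  unfold runA0
  by_cases h0 : j = 0
  · rw [if_pos h0, if_pos h0]
  · rw [if_neg h0, if_neg h0, h (j - 1) (by omega)]

theorem runA1_congr (i : Fin 3) (pad : List Bool) (N : ℕ) {k : ℕ} {b b' : ℕ → Move E}
    (h : ∀ m, m < 2 * k + 1 → b m = b' m) {j : ℕ} (hj : j < 2 * k + 1) :
    runA1 tau i pad N b j = runA1 tau i pad N b' j := by
  unfold runA1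
  by_cases h0 : j = 0
  · rw [if_pos h0, if_pos h0, h 0 (by omega)]
  · rw [if_neg h0, if_neg h0, h j (by omega), h (j - 2) (by omega)]

/-- **Playing two strategies of the second player against each other.**  `N` is the coordinate of the
edge `[i]` in both runs, the label begins with `s` followed by zeros below `N`, and the second
configuration is obtained from the first one by `alpha i`. -/
theorem exists_mirror
    (htau : ∀ i e, tau i (tau i e) = e) (hroot : ∀ i, tau i (root i) = root i)
    (hfst : ∀ i, fst (root i) = i) (hlev : ∀ i, lev (root i) = 1) (hlev1 : ∀ e, 1 ≤ lev e)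
    (hup : ∀ i e, fst e ≠ i → fst (tau i e) = i ∧ lev (tau i e) = lev e + 1)
    (hdown : ∀ i e, fst e = i → e ≠ root i → fst (tau i e) ≠ i)
    (i : Fin 3) (s : List Bool) (N : ℕ) (hN : s.length ≤ N)
    (t t' : List (Move E) → Move E) :
    ∃ r r' : ℕ → Move E,
      (∀ k, r (2 * k + 1) = t ((List.range (2 * k + 1)).map r)) ∧
      (∀ k, r' (2 * k + 1) = t' ((List.range (2 * k + 1)).map r')) ∧
      conf fst lev i s r' = alpha tau root i (conf fst lev i s r) ∧
      (conf fst lev i s r).2 (root i) = N ∧
      ∀ m, m < N → (conf fst lev i s r).1 m = s.getD m false := by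
  classical
  set pad : List Bool := List.replicate (N - s.length) false with hpad
  obtain ⟨b, hb⟩ := exists_rec (M := Move E)
    (fun n b => if n % 2 = 0 then t ((List.range (n + 1)).map (runA0 tau i pad N b))
      else t' ((List.range n).map (runA1 tau i pad N b)))
    (by
      intro n b b' h
      by_cases hn : n % 2 = 0
      · simp only [if_pos hn]
        congr 1
        apply List.map_congr_left
        intro j hj
        have := List.mem_range.1 hj
        exact runA0_congr tau i pad N (k := n / 2) (fun m hm => h m (by omega)) (by omega)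
      · simp only [if_neg hn]
        congr 1
        apply List.map_congr_left
        intro j hj
        have := List.mem_range.1 hj
        exact runA1_congr tau i pad N (k := n / 2) (fun m hm => h m (by omega)) (by omega))
  set r := runA0 tau i pad N b with hr
  set r' := runA1 tau i pad N b with hr'
  set g : ℕ → List Bool := fun k => ext (b k) with hg
  have hgne : ∀ k, g k ≠ [] := fun k => ext_ne_nil _
  have hne : ∀ j, ext (r j) ≠ [] := fun j => ext_ne_nil _
  have hne' : ∀ j, ext (r' j) ≠ [] := fun j => ext_ne_nil _
  -- the two labels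
  have hc : ∀ k, s ++ cat (fun j => ext (r j)) (2 * k + 1) =
      (s ++ pad) ++ false :: cat g (2 * k) := by
    intro k
    induction k with
    | zero =>
      show s ++ ([] ++ ext (r 0)) = _
      rw [hr, runA0_zero, ext_mkMove (by simp)]
      simp
    | succ k ih =>
      have e1 : 2 * (k + 1) + 1 = ((2 * k + 1) + 1) + 1 := by ring
      have e2 : 2 * (k + 1) = (2 * k + 1) + 1 := by ring
      rw [e1, cat_succ, cat_succ, ← List.append_assoc, ← List.append_assoc, ih, e2, cat_succ,
        cat_succ, hr, runA0_odd, runA0_even, ext_mkMove (ext_ne_nil _)]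
      simp only [List.append_assoc, List.cons_append, hg]
  have hc' : ∀ k, s ++ cat (fun j => ext (r' j)) (2 * k + 1) =
      (s ++ pad) ++ true :: cat g (2 * k + 1) := by
    intro k
    induction k with
    | zero =>
      show s ++ ([] ++ ext (r' 0)) = _
      rw [hr', runA1_zero, ext_mkMove (by simp)]
      simp [cat, hg]
    | succ k ih =>
      have e1 : 2 * (k + 1) + 1 = ((2 * k + 1) + 1) + 1 := by ring
      have e3 : cat g (((2 * k + 1) + 1) + 1) =
          (cat g (2 * k + 1) ++ g (2 * k + 1)) ++ g (2 * k + 2) := by
        rw [cat_succ, cat_succ]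
      rw [e1, e3, cat_succ, cat_succ, ← List.append_assoc, ← List.append_assoc, ih, hr',
        runA1_odd, runA1_even, ext_mkMove (ext_ne_nil _)]
      simp only [List.append_assoc, List.cons_append, hg]
  have hlen : (s ++ pad).length = N := by
    rw [List.length_append, hpad, List.length_replicate]
    omega
  have hP : ∀ k, Pre ((s ++ pad) ++ false :: cat g (2 * k)) (infl s (fun j => ext (r j))) := by
    intro k
    rw [← hc]
    exact pre_infl s hne _
  have hP' : ∀ k, Pre ((s ++ pad) ++ true :: cat g (2 * k))
      (infl s (fun j => ext (r' j))) := by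
    intro k
    have h1 := pre_infl s hne' (2 * k + 1)
    rw [hc'] at h1
    apply h1.of_prefix
    rw [cat_succ]
    exact ⟨g (2 * k), by simp⟩
  have hlab : infl s (fun j => ext (r' j)) = flip N (infl s (fun j => ext (r j))) := by
    apply Pre.eq
    intro m
    refine ⟨(s ++ pad) ++ true :: cat g (2 * m), ?_, hP' m, ?_⟩
    · rw [List.length_append, List.length_cons]
      have := le_length_cat hgne (2 * m)
      omega
    · intro j hj
      have h1 := hP m j (by
        rw [List.length_append, List.length_cons] at hj ⊢
        exact hj)
      have h0 := hP 0 N (by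
        rw [List.length_append, List.length_cons, hlen]
        omega)
      unfold flip
      rcases lt_trichotomy j N with hjN | rfl | hjN
      · rw [Function.update_of_ne (by omega), h1]
        simp only [List.getD_eq_getElem?_getD]
        rw [List.getElem?_append_left (l₁ := s ++ pad) (by omega),
          List.getElem?_append_left (l₁ := s ++ pad) (by omega)]
      · rw [Function.update_self, h0]
        simp only [List.getD_eq_getElem?_getD]
        rw [List.getElem?_append_right (by omega), List.getElem?_append_right (by omega), hlen]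
        simp
      · rw [Function.update_of_ne (by omega), h1]
        simp only [List.getD_eq_getElem?_getD]
        rw [List.getElem?_append_right (by omega), List.getElem?_append_right (by omega), hlen]
        obtain ⟨d, hd⟩ : ∃ d, j - N = d + 1 := ⟨j - N - 1, by omega⟩
        rw [hd]
        simp
  refine ⟨r, r', fun k => ?_, fun k => ?_, ?_, ?_, ?_⟩
  · rw [hr, runA0_odd, hb (2 * k), if_pos (by omega)]
  · rw [hr', runA1_odd, hb (2 * k + 1), if_neg (by omega)]
  · refine Prod.ext ?_ ?_
    · show infl s (fun j => ext (r' j)) = flip _ (infl s (fun j => ext (r j)))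
      have : (conf fst lev i s r).2 (root i) = N := by
        show (if fst (root i) = i then (r (2 * (lev (root i) - 1))).lab (root i)
          else (r (2 * (lev (root i) - 1) + 1)).lab (root i)) = N
        rw [if_pos (hfst i), hlev i]
        rfl
      rw [this]
      exact hlab
    · funext e
      show (if fst e = i then (r' (2 * (lev e - 1))).lab e
          else (r' (2 * (lev e - 1) + 1)).lab e) =
        (if fst (tau i e) = i then (r (2 * (lev (tau i e) - 1))).lab (tau i e)
          else (r (2 * (lev (tau i e) - 1) + 1)).lab (tau i e))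
      by_cases h : fst e = i
      · by_cases he : e = root i
        · subst he
          rw [hroot, if_pos h, if_pos h, hlev]
          rfl
        · have h1 := hdown i e h he
          have h2 := hup i (tau i e) h1
          rw [htau] at h2
          rw [if_pos h, if_neg h1, hr, runA0_odd, h2.2]
          obtain ⟨k, hk⟩ : ∃ k, lev (tau i e) = k + 1 :=
            ⟨lev (tau i e) - 1, by have := hlev1 (tau i e); omega⟩
          have e1 : 2 * (lev (tau i e) + 1 - 1) = 2 * k + 2 := by omega
          have e2 : lev (tau i e) - 1 = k := by omega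
          rw [e1, e2, hr', runA1_even]
          rfl
      · have h1 := hup i e h
        rw [if_neg h, if_pos h1.1, hr', runA1_odd, h1.2]
        obtain ⟨k, hk⟩ : ∃ k, lev e = k + 1 := ⟨lev e - 1, by have := hlev1 e; omega⟩
        have e1 : 2 * (lev e + 1 - 1) = 2 * k + 2 := by omega
        have e2 : lev e - 1 = k := by omega
        rw [e1, e2, hr, runA0_even]
        show _ = (b (2 * k + 1)).lab (tau i (tau i e))
        rw [htau]
  · show (if fst (root i) = i then (r (2 * (lev (root i) - 1))).lab (root i)
          else (r (2 * (lev (root i) - 1) + 1)).lab (root i)) = N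
    rw [if_pos (hfst i), hlev i]
    rfl
  · intro m hm
    show infl s (fun j => ext (r j)) m = _
    rw [hP 0 m (by rw [List.length_append, hlen]; omega)]
    simp only [List.getD_eq_getElem?_getD]
    rw [List.getElem?_append_left (l₁ := s ++ pad) (by omega)]
    by_cases hms : m < s.length
    · rw [List.getElem?_append_left hms]
    · rw [List.getElem?_append_right (by omega), hpad, List.getElem?_replicate]
      rw [if_pos (by omega), List.getElem?_eq_none (by omega)]
      rfl

end CaseA

end Pool.Agent.HypVec
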