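import Pool.Agent.Lib.HypVec.Tree
import Pool.Agent.Lib.HypVec.FreeGraph

/-!
# H2 / HypVec: half words

`hw i bs` is the reduced word with first letter `i` coded by the bits `bs`.  The composite of a half
word and of the reverse of a different half word (same first letter, same length) has a reduced form
which starts and ends with `i`.
-/

namespace HypVec

/-- the next letter: one of the two letters different from `i` -/
def nx (i : Fin 3) (b : Bool) : Fin 3 := if b then i + 2 else i + 1

theorem nx_ne (i : Fin 3) (b : Bool) : i ≠ nx i b := by
  revert i b; decide

theorem nx_inj (i : Fin 3) : Function.Injective (nx i) := by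
  revert i; decide

/-- half words -/
def hw : Fin 3 → List Bool → L3
  | i, [] => [i]
  | i, b :: bs => i :: hw (nx i b) bs

theorem hw_ne_nil (i : Fin 3) (bs : List Bool) : hw i bs ≠ [] := by
  cases bs <;> simp [hw]

theorem hw_head (i : Fin 3) (bs : List Bool) : (hw i bs).head? = some i := by
  cases bs <;> simp [hw]

theorem hw_length (i : Fin 3) (bs : List Bool) : (hw i bs).length = bs.length + 1 := by
  induction bs generalizing i with
  | nil => rfl
  | cons b bs ih => simp [hw, ih]

theorem isW_hw (i : Fin 3) (bs : List Bool) : IsW (hw i bs) := by
  induction bs generalizing i with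
  | nil => exact isW_single i
  | cons b bs ih =>
    unfold IsW
    rw [hw, List.isChain_cons]
    refine ⟨fun j hj => ?_, ih _⟩
    rw [hw_head] at hj
    cases hj
    exact nx_ne i b

theorem hw_inj (i : Fin 3) {bs bs' : List Bool} (h : hw i bs = hw i bs') : bs = bs' := by
  induction bs generalizing i bs' with
  | nil =>
    cases bs' with
    | nil => rfl
    | cons b' bs' =>
      have := congrArg List.length h
      simp [hw, hw_length] at this
  | cons b bs ih =>
    cases bs' with
    | nil =>
      have := congrArg List.length h
      simp [hw, hw_length] at this
    | cons b' bs' =>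
      simp only [hw, List.cons.injEq, true_and] at h
      have h1 := congrArg List.head? h
      rw [hw_head, hw_head] at h1
      have h2 : b = b' := nx_inj i (Option.some.inj h1)
      subst h2
      rw [ih _ h]

section Cancel

variable {X : Type*} (δ : Fin 3 → X → X)

theorem wact_reverse (hδ : ∀ i x, δ i (δ i x) = x) (w : L3) (x : X) :
    wact δ w.reverse (wact δ w x) = x := by
  induction w generalizing x with
  | nil => rfl
  | cons i w ih =>
    rw [List.reverse_cons, wact_append, wact_cons, wact_cons, wact_nil, ih]
    exact hδ i x

theorem wact_reverse' (hδ : ∀ i x, δ i (δ i x) = x) (w : L3) (x : X) :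
    wact δ w (wact δ w.reverse x) = x := by
  have := wact_reverse δ hδ w.reverse x
  rwa [List.reverse_reverse] at this

/-- the reduced form of `u ++ reverse v` starts and ends with `i` -/
theorem exists_red (hδ : ∀ i x, δ i (δ i x) = x) (i : Fin 3) (n : ℕ) :
    ∀ u v : L3, u.length = n → v.length = n → IsW u → IsW v → u.head? = some i →
      v.head? = some i → u ≠ v →
      ∃ r : L3, IsW r ∧ r.head? = some i ∧ r.getLast? = some i ∧
        ∀ x, wact δ r x = wact δ (u ++ v.reverse) x := by
  induction n with
  | zero =>
    intro u v hu _ _ _ hui
    rw [List.length_eq_zero_iff] at hu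
    subst hu
    simp at hui
  | succ n ih =>
    intro u v hu hv hwu hwv hui hvi hne
    rcases List.eq_nil_or_concat' u with rfl | ⟨u', a, rfl⟩
    · simp at hu
    rcases List.eq_nil_or_concat' v with rfl | ⟨v', b, rfl⟩
    · simp at hv
    by_cases hab : a = b
    · subst hab
      have hne' : u' ≠ v' := fun h => hne (by rw [h])
      have hul : u'.length = n := by simpa using hu
      have hvl : v'.length = n := by simpa using hv
      have hu' : u' ≠ [] := by
        intro h
        rw [h, List.length_nil] at hul
        rw [← hul] at hvl
        exact hne' (h.trans (List.length_eq_zero_iff.1 hvl).symm)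
      have hv' : v' ≠ [] := by
        intro h
        rw [h, List.length_nil] at hvl
        rw [← hvl] at hul
        exact hne' ((List.length_eq_zero_iff.1 hul).trans h.symm)
      obtain ⟨r, h1, h2, h3, h4⟩ := ih u' v' (by simpa using hu) (by simpa using hv)
        (by unfold IsW at *; exact (List.isChain_append.1 hwu).1)
        (by unfold IsW at *; exact (List.isChain_append.1 hwv).1)
        (by rw [List.head?_append_of_ne_nil _ hu'] at hui; exact hui)
        (by rw [List.head?_append_of_ne_nil _ hv'] at hvi; exact hvi) hne'
      refine ⟨r, h1, h2, h3, fun x => ?_⟩
      rw [h4, List.reverse_append, wact_append, wact_append, wact_append, wact_append]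
      simp [hδ]
    · refine ⟨(u' ++ [a]) ++ (v' ++ [b]).reverse, ?_, ?_, ?_, fun x => rfl⟩
      · unfold IsW at *
        rw [List.isChain_append]
        refine ⟨hwu, ?_, ?_⟩
        · rw [List.isChain_reverse]
          exact hwv.imp fun _ _ h => h.symm
        · intro x hx y hy
          simp at hx hy
          subst hx; subst hy
          exact hab
      · rw [List.head?_append_of_ne_nil _ (by simp)]
        exact hui
      · rw [List.getLast?_append_of_ne_nil _ (by simp), List.getLast?_reverse]
        exact hvi

end Cancel

end HypVec
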