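import Pool.Agent.Lib.HypVec.FinalGraph

/-!
# H2 / HypVec: Borel structure and hyperfiniteness of the final graph (page, section 3)
-/

namespace HypVec

variable {K : Keys}

instance : DiscreteMeasurableSpace Tag := ⟨fun _ => trivial⟩

theorem measurableSet_not_plain (i : Fin 3) : MeasurableSet {p : X K | ¬ plain i p} :=
  (measurableSet_plain i).compl

theorem measurableSet_Valid_tag (g : Tag) : MeasurableSet {p : X K | Valid p g} := by
  cases g with
  | base => simp [Valid]
  | mid i => exact (measurableSet_not_plain i).inter (measurableSet_low i)
  | hang i t => exact (measurableSet_not_plain i).inter (measurableSet_low i)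

theorem measurableSet_Valid : MeasurableSet {z : X K × Tag | Valid z.1 z.2} := by
  have h : {z : X K × Tag | Valid z.1 z.2} =
      ⋃ g : Tag, {p : X K | Valid p g} ×ˢ ({g} : Set Tag) := by
    ext ⟨p, g⟩
    simp
  rw [h]
  exact MeasurableSet.iUnion fun g => (measurableSet_Valid_tag g).prod (measurableSet_singleton g)

instance : StandardBorelSpace (Z K) := measurableSet_Valid.standardBorel

theorem measurable_nbR_tag (g : Tag) (k : Fin 3) : Measurable fun p : X K => nbR p g k := by
  cases g with
  | base =>
    simp only [nbR]
    refine Measurable.ite (measurableSet_plain k) ((measurable_alphaX k).prodMk measurable_const) ?_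
    exact Measurable.ite (measurableSet_low k) (measurable_id.prodMk measurable_const)
      ((measurable_alphaX k).prodMk measurable_const)
  | mid i =>
    simp only [nbR]
    split_ifs
    · exact measurable_id.prodMk measurable_const
    · exact (measurable_alphaX i).prodMk measurable_const
    · exact measurable_id.prodMk measurable_const
  | hang i t =>
    cases t with
    | nil =>
      simp only [nbR]
      split_ifs
      · exact measurable_id.prodMk measurable_const
      · exact measurable_id.prodMk measurable_const
    | cons b t =>
      simp only [nbR]
      split_ifs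
      · exact measurable_id.prodMk measurable_const
      · exact measurable_id.prodMk measurable_const

theorem measurable_nb (k : Fin 3) : Measurable fun z : Z K => nb z k := by
  have h : Measurable fun q : X K × Tag => nbR q.1 q.2 k :=
    measurable_from_prod_countable_left fun g => measurable_nbR_tag g k
  exact Measurable.subtype_mk (h.comp measurable_subtype_coe)

theorem measurable_levR_tag (g : Tag) (k : Fin 3) : Measurable fun p : X K => levR p g k := by
  cases g with
  | base => exact measurable_co k
  | mid i =>
    simp only [levR]
    split_ifs
    · exact measurable_co i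
    · exact measurable_co i
    · exact measurable_const
  | hang i t =>
    simp only [levR]
    split_ifs
    · exact measurable_const
    · exact measurable_const

theorem measurable_lev (k : Fin 3) : Measurable fun z : Z K => lev z k := by
  have h : Measurable fun q : X K × Tag => levR q.1 q.2 k :=
    measurable_from_prod_countable_left fun g => measurable_levR_tag g k
  exact h.comp measurable_subtype_coe

theorem measurableSet_GS : MeasurableSet {p : Z K × Z K | (GS K).Adj p.1 p.2} := by
  have h : {p : Z K × Z K | (GS K).Adj p.1 p.2} = ⋃ k : Fin 3, {p : Z K × Z K | nb p.1 k = p.2} := by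
    ext p
    simp [GS]
  rw [h]
  exact MeasurableSet.iUnion fun k =>
    measurableSet_eq_fun ((measurable_nb k).comp measurable_fst) measurable_snd

theorem measurableSet_GN (N : ℕ) : MeasurableSet {p : Z K × Z K | (GN K N).Adj p.1 p.2} := by
  have h : {p : Z K × Z K | (GN K N).Adj p.1 p.2} =
      ⋃ k : Fin 3, ({p : Z K × Z K | lev p.1 k ≤ N} ∩ {p : Z K × Z K | nb p.1 k = p.2}) := by
    ext p
    simp [GN]
  rw [h]
  exact MeasurableSet.iUnion fun k =>
    (((measurable_lev k).comp measurable_fst) (measurableSet_Iic (a := N))).inter
      (measurableSet_eq_fun ((measurable_nb k).comp measurable_fst) measurable_snd)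

theorem GN_le (N : ℕ) : GN K N ≤ GN K (N + 1) := by
  rintro z z' ⟨k, h, h'⟩
  exact ⟨k, h.trans (Nat.le_succ N), h'⟩

theorem GS_iff (z z' : Z K) : (GS K).Adj z z' ↔ ∃ N, (GN K N).Adj z z' := by
  constructor
  · rintro ⟨k, h⟩
    exact ⟨lev z k, k, le_refl _, h⟩
  · rintro ⟨_, k, _, h⟩
    exact ⟨k, h⟩

end HypVec
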