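import Mathlib

/-!
# Infinite concatenations and recursive definition of sequences
-/

namespace Pool.Agent.HypVec

universe u

/-- A sequence defined by recursion on all previous values. -/
theorem exists_rec {M : Type u} [Nonempty M] (G : ℕ → (ℕ → M) → M)
    (hG : ∀ n b b', (∀ m, m < n → b m = b' m) → G n b = G n b') :
    ∃ b : ℕ → M, ∀ n, b n = G n b := by
  classical
  let d : M := Classical.arbitrary M
  let F : ∀ n : ℕ, (∀ m : ℕ, m < n → M) → M :=
    fun n ih => G n (fun m => if h : m < n then ih m h else d)
  let b : ℕ → M := (Nat.lt_wfRel.wf).fix F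
  refine ⟨b, fun n => ?_⟩
  have h1 : b n = G n (fun m => if h : m < n then b m else d) :=
    (Nat.lt_wfRel.wf).fix_eq F n
  rw [h1]
  apply hG
  intro m hm
  simp [hm]

/-- Finite concatenations. -/
def cat (f : ℕ → List Bool) : ℕ → List Bool
  | 0 => []
  | k + 1 => cat f k ++ f k

@[simp] theorem cat_zero (f : ℕ → List Bool) : cat f 0 = [] := rfl

theorem cat_succ (f : ℕ → List Bool) (k : ℕ) : cat f (k + 1) = cat f k ++ f k := rfl

theorem cat_congr {f g : ℕ → List Bool} {k : ℕ} (h : ∀ m, m < k → f m = g m) :
    cat f k = cat g k := by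
  induction k with
  | zero => rfl
  | succ k ih => rw [cat_succ, cat_succ, ih fun m hm => h m (by omega), h k (by omega)]

theorem le_length_cat {f : ℕ → List Bool} (hf : ∀ k, f k ≠ []) (k : ℕ) :
    k ≤ (cat f k).length := by
  induction k with
  | zero => simp
  | succ k ih =>
    rw [cat_succ, List.length_append]
    have := List.length_pos_iff.2 (hf k)
    omega

theorem cat_prefix (f : ℕ → List Bool) {k m : ℕ} (h : k ≤ m) : cat f k <+: cat f m := by
  induction m, h using Nat.le_induction with
  | base => exact List.prefix_refl _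
  | succ m _ ih =>
    rw [cat_succ]
    exact ih.trans (List.prefix_append _ _)

/-- The finite string `p` is a beginning of the infinite string `l`. -/
def Pre (p : List Bool) (l : ℕ → Bool) : Prop := ∀ m, m < p.length → l m = p.getD m false

theorem Pre.of_prefix {p q : List Bool} {l : ℕ → Bool} (h : Pre q l) (hpq : p <+: q) :
    Pre p l := by
  obtain ⟨t, rfl⟩ := hpq
  intro m hm
  rw [h m (by rw [List.length_append]; omega)]
  simp only [List.getD_eq_getElem?_getD]
  rw [List.getElem?_append_left hm]

/-- Two infinite strings with arbitrarily long common beginnings are equal. -/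
theorem Pre.eq {l l' : ℕ → Bool} (h : ∀ m, ∃ p : List Bool, m < p.length ∧ Pre p l ∧ Pre p l') :
    l = l' := by
  funext m
  obtain ⟨p, hm, h1, h2⟩ := h m
  rw [h1 m hm, h2 m hm]

/-- The infinite string `s ++ f 0 ++ f 1 ++ ...`. -/
def infl (s : List Bool) (f : ℕ → List Bool) (m : ℕ) : Bool :=
  (s ++ cat f (m + 1)).getD m false

theorem infl_congr {s : List Bool} {f g : ℕ → List Bool} {m : ℕ}
    (h : ∀ k, k ≤ m → f k = g k) : infl s f m = infl s g m := by
  unfold infl
  rw [cat_congr fun k hk => h k (by omega)]

theorem pre_infl (s : List Bool) {f : ℕ → List Bool} (hf : ∀ k, f k ≠ []) (k : ℕ) :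
    Pre (s ++ cat f k) (infl s f) := by
  intro m hm
  have hl : m < (s ++ cat f (m + 1)).length := by
    rw [List.length_append]
    have := le_length_cat hf (m + 1)
    omega
  unfold infl
  simp only [List.getD_eq_getElem?_getD]
  congr 1
  rcases Nat.le_total k (m + 1) with h | h
  · obtain ⟨t, ht⟩ := cat_prefix f h
    rw [← ht, ← List.append_assoc, List.getElem?_append_left hm]
  · obtain ⟨t, ht⟩ := cat_prefix f h
    rw [← ht, ← List.append_assoc, List.getElem?_append_left hl]

theorem length_cat_ge (s : List Bool) {f : ℕ → List Bool} (hf : ∀ k, f k ≠ []) (m : ℕ) :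
    m < (s ++ cat f (m + 1)).length := by
  rw [List.length_append]
  have := le_length_cat hf (m + 1)
  omega

end Pool.Agent.HypVec
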