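import Pool.Agent.Lib.HypVec.Tree

/-!
# H2 / HypVec: labelled configurations (page, section 1)
-/

namespace HypVec

/-- Keys of the typed `G_0` graph: coordinate `n` may be flipped at `l` only if `l` agrees with
`key n` below `n`; every finite string `p` (continued by zeros) is a key of each type. -/
structure Keys where
  typ : ℕ → Fin 3
  key : ℕ → ℕ → Bool
  dense : ∀ (p : List Bool) (i : Fin 3), ∃ N, p.length ≤ N ∧ typ N = i ∧
    ∀ m < N, key N m = p.getD m false

abbrev Conf := (ℕ → Bool) × (E → ℕ)

def flip (m : ℕ) (l : ℕ → Bool) : ℕ → Bool := Function.update l m (!l m)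

theorem flip_same (m : ℕ) (l : ℕ → Bool) : flip m l m = !l m := by simp [flip]
theorem flip_ne {m k : ℕ} (h : k ≠ m) (l : ℕ → Bool) : flip m l k = l k := by simp [flip, h]
@[simp] theorem flip_flip (m : ℕ) (l : ℕ → Bool) : flip m (flip m l) = l := by
  funext k
  by_cases h : k = m
  · subst h; simp [flip]
  · rw [flip_ne h, flip_ne h]

/-- move the root to the neighbour `i` -/
def alpha (i : Fin 3) (x : Conf) : Conf := (flip (x.2 (ed i)) x.1, fun e => x.2 (tau i e))

@[simp] theorem alpha_alpha (i : Fin 3) (x : Conf) : alpha i (alpha i x) = x := by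
  ext1
  · simp [alpha]
  · funext e; simp [alpha]

/-- move the root along a list -/
def act : L3 → Conf → Conf
  | [], x => x
  | i :: w, x => act w (alpha i x)

@[simp] theorem act_nil (x : Conf) : act [] x = x := rfl
@[simp] theorem act_cons (i : Fin 3) (w : L3) (x : Conf) : act (i :: w) x = act w (alpha i x) := rfl
theorem act_append (v w : L3) (x : Conf) : act (v ++ w) x = act w (act v x) := by
  induction v generalizing x with
  | nil => rfl
  | cons i v ih => simp [ih]

/-- the edge `i` at the root is correctly keyed -/
def Loc (K : Keys) (i : Fin 3) (x : Conf) : Prop :=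
  K.typ (x.2 (ed i)) = i ∧ ∀ m < x.2 (ed i), x.1 m = K.key (x.2 (ed i)) m

theorem Loc_alpha (K : Keys) (i : Fin 3) (x : Conf) : Loc K i (alpha i x) ↔ Loc K i x := by
  simp only [Loc, alpha, tau_ed]
  constructor
  · rintro ⟨h1, h2⟩
    refine ⟨h1, fun m hm => ?_⟩
    rw [← h2 m hm, flip_ne (ne_of_lt hm)]
  · rintro ⟨h1, h2⟩
    refine ⟨h1, fun m hm => ?_⟩
    rw [flip_ne (ne_of_lt hm), h2 m hm]

/-- the hyperfinite space -/
def Y (K : Keys) : Set Conf := {x | ∀ (w : L3) (i : Fin 3), Loc K i (act w x)}

theorem alpha_mem_Y {K : Keys} {x : Conf} (h : x ∈ Y K) (i : Fin 3) : alpha i x ∈ Y K :=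
  fun w j => h (i :: w) j

theorem act_mem_Y {K : Keys} {x : Conf} (h : x ∈ Y K) (w : L3) : act w x ∈ Y K :=
  fun v j => by rw [← act_append]; exact h (w ++ v) j

/-- the edge `e` is correctly keyed -/
def OK (K : Keys) (x : Conf) (e : E) : Prop := Loc K (lst e) (act (pl e).1 x)

theorem OK_ed (K : Keys) (i : Fin 3) (x : Conf) : OK K x (ed i) ↔ Loc K i x := by
  simp [OK, pl, ed, lst]

/-- every list acts like a reduced one -/
private theorem act_red (w : L3) : ∃ w' : L3, IsW w' ∧ ∀ x : Conf, act w x = act w' x := by
  induction w with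
  | nil => exact ⟨[], isW_nil, fun _ => rfl⟩
  | cons i w ih =>
    obtain ⟨w', h1, h2⟩ := ih
    refine ⟨mvL i w', isW_mvL i h1, fun x => ?_⟩
    rw [act_cons, h2]
    cases w' with
    | nil => rfl
    | cons j t =>
      by_cases hj : j = i
      · subst hj
        simp [mvL]
      · simp [mvL, hj]

/-- `x ∈ Y` iff all edges are correctly keyed -/
theorem mem_Y_iff (K : Keys) (x : Conf) : x ∈ Y K ↔ ∀ e : E, OK K x e := by
  constructor
  · intro h e
    exact h (pl e).1 (lst e)
  · intro h w i
    obtain ⟨w', h1, h2⟩ := act_red w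
    rw [h2]
    rcases List.eq_nil_or_concat w' with h0 | ⟨v, k, hv⟩
    · subst h0
      have := h (ed i)
      rw [OK_ed] at this
      exact this
    · by_cases hk : k = i
      · subst hk
        have hne : w' ≠ [] := by rw [hv]; simp
        have h3 := h ⟨w', hne, h1⟩
        unfold OK at h3
        have e1 : (pl ⟨w', hne, h1⟩).1 = v := by
          simp only [pl, hv]
          simp
        have e2 : lst ⟨w', hne, h1⟩ = k := by
          simp only [lst, hv]
          simp
        rw [e1, e2] at h3
        rw [hv, List.concat_eq_append, act_append]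
        show Loc K k (alpha k (act v x))
        rw [Loc_alpha]
        exact h3
      · have hc : IsW (w' ++ [i]) := by
          unfold IsW at h1 ⊢
          rw [List.isChain_append]
          refine ⟨h1, List.isChain_singleton i, ?_⟩
          intro a ha b hb
          rw [hv, List.concat_eq_append] at ha
          simp only [List.getLast?_append, List.getLast?_singleton, Option.some_or,
            Option.mem_def, Option.some.injEq, List.head?_cons] at ha hb
          rw [← ha, ← hb]
          exact hk
        have hne : w' ++ [i] ≠ [] := by simp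
        have h3 := h ⟨w' ++ [i], hne, hc⟩
        unfold OK at h3
        have e1 : (pl ⟨w' ++ [i], hne, hc⟩).1 = w' := by
          simp [pl]
        have e2 : lst ⟨w' ++ [i], hne, hc⟩ = i := by
          simp [lst]
        rw [e1, e2] at h3
        exact h3

/-- compatibility of `OK` with re-rooting -/
theorem OK_consE (K : Keys) (i : Fin 3) (e : E) (h : hd e ≠ i) (x : Conf) :
    OK K (alpha i x) (consE i e h) ↔ OK K x e := by
  have e1 : (pl (consE i e h)).1 = i :: (pl e).1 := by
    simp only [pl, consE]
    exact List.dropLast_cons_of_ne_nil e.2.1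
  have e2 : lst (consE i e h) = lst e := by
    simp only [lst, consE]
    exact List.getLast_cons e.2.1
  unfold OK
  rw [e1, e2, act_cons, alpha_alpha]

theorem measurable_alpha (i : Fin 3) : Measurable (alpha i) := by
  refine Measurable.prodMk ?_ ?_
  · refine measurable_pi_iff.2 fun k => ?_
    have hm : Measurable (fun x : Conf => x.2 (ed i)) :=
      (measurable_pi_apply (ed i)).comp measurable_snd
    have hb : Measurable (fun x : Conf => x.1 k) :=
      (measurable_pi_apply k).comp measurable_fst
    have hs : MeasurableSet {x : Conf | x.2 (ed i) = k} := hm (measurableSet_singleton k)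
    have he : (fun x : Conf => flip (x.2 (ed i)) x.1 k) =
        fun x : Conf => if x.2 (ed i) = k then !x.1 k else x.1 k := by
      funext x
      by_cases h : x.2 (ed i) = k
      · rw [if_pos h, h, flip_same]
      · rw [if_neg h, flip_ne (Ne.symm h)]
    rw [he]
    exact Measurable.ite hs ((measurable_of_countable (fun b : Bool => !b)).comp hb) hb
  · exact measurable_pi_iff.2 fun e => (measurable_pi_apply (tau i e)).comp measurable_snd

theorem measurable_act (w : L3) : Measurable (act w) := by
  induction w with
  | nil => exact measurable_id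
  | cons i w ih => exact ih.comp (measurable_alpha i)

theorem measurableSet_Loc (K : Keys) (i : Fin 3) : MeasurableSet {x : Conf | Loc K i x} := by
  have hm : Measurable (fun x : Conf => x.2 (ed i)) :=
    (measurable_pi_apply (ed i)).comp measurable_snd
  have he : {x : Conf | Loc K i x} = ⋃ N : ℕ, ({x : Conf | x.2 (ed i) = N} ∩
      ({x : Conf | K.typ N = i} ∩ ⋂ m : ℕ, {x : Conf | m < N → x.1 m = K.key N m})) := by
    ext x
    simp only [Loc, Set.mem_ofPred_eq, Set.mem_iUnion, Set.mem_inter_iff, Set.mem_iInter]
    constructor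
    · rintro ⟨h1, h2⟩
      exact ⟨_, rfl, h1, h2⟩
    · rintro ⟨N, h0, h1, h2⟩
      subst h0
      exact ⟨h1, h2⟩
  rw [he]
  refine MeasurableSet.iUnion fun N => (hm (measurableSet_singleton N)).inter
    ((MeasurableSet.const _).inter (MeasurableSet.iInter fun m => ?_))
  by_cases h : m < N
  · have h2 : {x : Conf | m < N → x.1 m = K.key N m} = {x : Conf | x.1 m = K.key N m} := by
      ext x
      simp [h]
    rw [h2]
    have hb : Measurable (fun x : Conf => x.1 m) :=
      (measurable_pi_apply m).comp measurable_fst
    exact hb (measurableSet_singleton (K.key N m))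
  · have h2 : {x : Conf | m < N → x.1 m = K.key N m} = Set.univ := by
      ext x
      simp [h]
    rw [h2]
    exact MeasurableSet.univ

theorem measurableSet_Y (K : Keys) : MeasurableSet (Y K) := by
  have he : Y K = ⋂ w : L3, ⋂ i : Fin 3, (act w) ⁻¹' {x : Conf | Loc K i x} := by
    ext x
    simp [Y]
  rw [he]
  exact MeasurableSet.iInter fun w => MeasurableSet.iInter fun i =>
    measurable_act w (measurableSet_Loc K i)

theorem measurableSet_OK (K : Keys) (e : E) : MeasurableSet {x : Conf | OK K x e} :=
  measurable_act (pl e).1 (measurableSet_Loc K (lst e))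

theorem exists_keys : Nonempty Keys := by
  classical
  let dec : ℕ → List Bool × Fin 3 := fun N =>
    (Encodable.decode (α := List Bool × Fin 3) N.unpair.1).getD ([], 0)
  refine ⟨⟨fun N => (dec N).2, fun N m => (dec N).1.getD m false, ?_⟩⟩
  intro p i
  have hd : dec (Nat.pair (Encodable.encode (p, i)) p.length) = (p, i) := by
    simp [dec]
  refine ⟨Nat.pair (Encodable.encode (p, i)) p.length, Nat.right_le_pair _ _, ?_, ?_⟩
  · show (dec _).2 = i
    rw [hd]
  · intro m _
    show (dec _).1.getD m false = _
    rw [hd]

end HypVec
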