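import Pool.Agent.Lib.HypVec.Tree

/-!
# H2 / HypVec: majority sets (page, section 4)
-/

namespace HypVec

/-- finite sets of vertices with more than half of their points in the branch `i` -/
def Maj (i : Fin 3) : Set (Finset W) :=
  {B | B.card < 2 * (B.filter (fun w => w.1.head? = some i)).card}

theorem maj_disjoint {i j : Fin 3} (h : i ≠ j) {B : Finset W} (hi : B ∈ Maj i) : B ∉ Maj j := by
  intro hj
  simp only [Maj, Set.mem_ofPred_eq] at hi hj
  have hd : Disjoint (B.filter (fun w => w.1.head? = some i))
      (B.filter (fun w => w.1.head? = some j)) := by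
    rw [Finset.disjoint_filter]
    intro w _ h1 h2
    rw [h1] at h2
    exact h (Option.some.inj h2)
  have hsub : B.filter (fun w => w.1.head? = some i) ∪ B.filter (fun w => w.1.head? = some j) ⊆ B :=
    Finset.union_subset (Finset.filter_subset _ _) (Finset.filter_subset _ _)
  have hc := Finset.card_le_card hsub
  rw [Finset.card_union_of_disjoint hd] at hc
  omega

/-- image of a finite set under re-rooting -/
def mvF (i : Fin 3) (B : Finset W) : Finset W := B.map ⟨mv i, mv_inj i⟩

theorem mvF_mvF (i : Fin 3) (B : Finset W) : mvF i (mvF i B) = B := by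
  unfold mvF
  rw [Finset.map_map]
  have : (⟨mv i, mv_inj i⟩ : W ↪ W).trans ⟨mv i, mv_inj i⟩ = Function.Embedding.refl W := by
    ext w
    simp
  rw [this, Finset.map_refl]

theorem card_mvF (i : Fin 3) (B : Finset W) : (mvF i B).card = B.card := by
  simp [mvF]

/-- `mv i w` is in the branch `i` iff `w` is not -/
theorem head_mv (i : Fin 3) (w : W) : (mv i w).1.head? = some i ↔ ¬ w.1.head? = some i := by
  obtain ⟨w, hw⟩ := w
  cases w with
  | nil => simp [mv, mvL]
  | cons j t =>
    by_cases hj : j = i
    · subst hj
      cases t with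
      | nil => simp [mv, mvL]
      | cons k t =>
        have hk : j ≠ k := (List.isChain_cons_cons.1 hw).1
        simp [mv, mvL, hk.symm]
    · simp [mv, mvL, hj]

theorem maj_mvF (i : Fin 3) {B : Finset W} (hB : Odd B.card) : mvF i B ∈ Maj i ↔ B ∉ Maj i := by
  have h1 : ((mvF i B).filter (fun w => w.1.head? = some i)).card
      = (B.filter (fun w => ¬ w.1.head? = some i)).card := by
    unfold mvF
    rw [Finset.filter_map, Finset.card_map]
    congr 1
    apply Finset.filter_congr
    intro w _
    simp only [Function.comp_apply, Function.Embedding.coeFn_mk]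
    exact head_mv i w
  have h2 := Finset.card_filter_add_card_filter_not (s := B) (fun w => w.1.head? = some i)
  simp only [Maj, Set.mem_ofPred_eq, card_mvF, h1]
  obtain ⟨k, hk⟩ := hB
  omega

end HypVec
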