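import Pool.Agent.Lib.HypVec.Space
import Pool.Agent.Lib.HypVec.NoChoice
import Pool.Agent.Lib.HypVec.Avg

/-!
# H2 / HypVec: no near-antipodal unit vector map (page, section 4)

`F x v = (-1)^{v root} u (x, d v)`, `(d v) e = [v (far end of e) ≠ v (near end of e)]`; the
generic analytic half `exists_choice` gives a measurable choice `c` on `Y`, which contradicts
`no_choice`.
-/

open MeasureTheory
open scoped RealInnerProductSpace

namespace HypVec

/-- the edge bits of a vertex spin configuration -/
def dbit (v : W → Bool) : E → Bool := fun e => xor (v (toW e)) (v (pl e))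

theorem dbit_mv (i : Fin 3) (v : W → Bool) : dbit (fun w => v (mv i w)) = tauO i (dbit v) := by
  funext e
  simp only [dbit, tauO]
  rcases mv_ends i e with ⟨h1, h2⟩ | ⟨h1, h2⟩
  · rw [h1, h2]
  · rw [h1, h2, Bool.xor_comm]

theorem dbit_not (v : W → Bool) : dbit (fun w => !v w) = dbit v := by
  funext e
  simp only [dbit]
  cases v (toW e) <;> cases v (pl e) <;> rfl

theorem dbit_ed (i : Fin 3) (v : W → Bool) : dbit v (ed i) = xor (v (nbr i)) (v rt) := by
  simp only [dbit, pl_ed, toW_ed]

theorem measurable_dbit : Measurable dbit := by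
  refine measurable_pi_lambda _ fun e => ?_
  have h1 : Measurable (fun v : W → Bool => v (toW e)) := measurable_pi_apply _
  have h2 : Measurable (fun v : W → Bool => v (pl e)) := measurable_pi_apply _
  exact (measurable_of_countable (fun p : Bool × Bool => xor p.1 p.2)).comp (h1.prodMk h2)

/-- re-rooting as a permutation -/
def mvE (i : Fin 3) : W ≃ W := ⟨mv i, mv i, mv_mv i, mv_mv i⟩

theorem head_mvL (i : Fin 3) {w : L3} (hw : IsW w) :
    (mvL i w).head? = some i ↔ ¬ w.head? = some i := by
  cases w with
  | nil => simp [mvL]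
  | cons j t =>
    by_cases hj : j = i
    · subst hj
      cases t with
      | nil => simp [mvL]
      | cons k t =>
        have : j ≠ k := (List.isChain_cons_cons.1 hw).1
        simp [mvL, this.symm]
    · simp [mvL, hj]

theorem abs_inner_le_one {F : Type*} [NormedAddCommGroup F] [InnerProductSpace ℝ F] {a b : F}
    (ha : ‖a‖ = 1) (hb : ‖b‖ = 1) : |⟪a, b⟫| ≤ 1 := by
  have := abs_real_inner_le_norm a b
  rw [ha, hb] at this
  simpa using this

theorem no_vec (K : Keys) {D : ℕ} (u : Conf × (E → Bool) → EuclideanSpace ℝ (Fin D)) (hu : Measurable u)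
    (h1 : ∀ z, ‖u z‖ = 1)
    (hplain : ∀ x ∈ Y K, ∀ (i : Fin 3) (o : E → Bool), o (ed i) = true →
      ⟪u (x, o), u (alpha i x, tauO i o)⟫ ≤ - (977 / 1000))
    (hsub : ∀ x ∈ Y K, ∀ (i : Fin 3) (o : E → Bool), o (ed i) = false →
      2 * (977 / 1000) ^ 2 - 1 ≤ ⟪u (x, o), u (alpha i x, tauO i o)⟫) : False := by
  classical
  have hYm := measurableSet_Y K
  set α : Fin 3 → Y K → Y K := fun i x => ⟨alpha i x.1, alpha_mem_Y x.2 i⟩ with hαdef
  set F : Y K → (W → Bool) → EuclideanSpace ℝ (Fin D) :=
    fun x v => Pool.Agent.HypVec.sg (v rt) • u (x.1, dbit v) with hF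
  have hsgm : Measurable (fun v : W → Bool => Pool.Agent.HypVec.sg (v rt)) :=
    (measurable_of_countable Pool.Agent.HypVec.sg).comp (measurable_pi_apply rt)
  have hFm : Measurable (Function.uncurry F) := by
    apply Measurable.smul (hsgm.comp measurable_snd)
    exact hu.comp ((measurable_subtype_coe.comp measurable_fst).prodMk
      (measurable_dbit.comp measurable_snd))
  have nF : ∀ x v, ‖F x v‖ = 1 := by
    intro x v
    simp only [hF, norm_smul, h1, mul_one, Real.norm_eq_abs, Pool.Agent.HypVec.abs_sg]
  have oF : ∀ x v, F x (fun w => !v w) = - F x v := by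
    intro x v
    simp only [hF, dbit_not, Pool.Agent.HypVec.sg_not, neg_smul]
  obtain ⟨c, hcm, hc⟩ := Pool.Agent.HypVec.exists_choice (W := W) (X := Y K) D mvE
    (fun i w => mv_mv i w) (fun i => {w | w.1.head? = some i})
    (by
      intro i j hij
      rw [Set.disjoint_left]
      intro w hw hw'
      simp only [Set.mem_ofPred_eq] at hw hw'
      rw [hw] at hw'
      exact hij (Option.some.inj hw'))
    (by
      intro i w
      exact head_mvL i w.2)
    α (fun i x => Subtype.ext (alpha_alpha i x.1))
    (fun i => ((measurable_alpha i).comp measurable_subtype_coe).subtype_mk)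
    F hFm nF oF ((977 / 1000 + (2 * (977 / 1000) ^ 2 - 1)) / 2) (by norm_num) (by norm_num)
    (by
      intro i x
      have hne : rt ≠ nbr i := by
        intro h
        have := congrArg Subtype.val h
        simp [rt, nbr] at this
      have hval : ∀ v : W → Bool, inner ℝ (F x v) (F (α i x) (v ∘ mvE i)) =
          Pool.Agent.HypVec.sg (v rt) * Pool.Agent.HypVec.sg (v (nbr i)) *
            ⟪u (x.1, dbit v), u (alpha i x.1, tauO i (dbit v))⟫ := by
        intro v
        have e1 : F (α i x) (v ∘ mvE i) =
            Pool.Agent.HypVec.sg (v (nbr i)) • u (alpha i x.1, tauO i (dbit v)) := by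
          show Pool.Agent.HypVec.sg (v (mv i rt)) • u (alpha i x.1, dbit (fun w => v (mv i w))) = _
          rw [mv_rt, dbit_mv]
        rw [e1]
        simp only [hF]
        rw [real_inner_smul_left, real_inner_smul_right]
        ring
      refine Pool.Agent.HypVec.avg_ge hne (C := 1) ?_ ?_ ?_ ?_
      · have m1 : Measurable (F x) := hFm.comp measurable_prodMk_left
        have m2 : Measurable (fun v : W → Bool => F (α i x) (v ∘ mvE i)) :=
          (hFm.comp measurable_prodMk_left).comp
            (Pool.Agent.HypVec.perm_preserving (mvE i)).measurable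
        exact m1.inner m2
      · intro v
        exact abs_inner_le_one (nF _ _) (nF _ _)
      · intro v hv
        rw [hval v]
        have hd : dbit v (ed i) = true := by
          rw [dbit_ed]
          cases ha : v rt <;> cases hb : v (nbr i) <;> simp_all
        have hs : Pool.Agent.HypVec.sg (v rt) * Pool.Agent.HypVec.sg (v (nbr i)) = -1 := by
          cases ha : v rt <;> cases hb : v (nbr i) <;> simp_all
        rw [hs]
        have := hplain x.1 x.2 i (dbit v) hd
        linarith
      · intro v hv
        rw [hval v]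
        have hd : dbit v (ed i) = false := by
          rw [dbit_ed, hv]; simp
        have hs : Pool.Agent.HypVec.sg (v rt) * Pool.Agent.HypVec.sg (v (nbr i)) = 1 := by
          rw [hv, Pool.Agent.HypVec.sg_mul_self]
        rw [hs, one_mul]
        exact hsub x.1 x.2 i (dbit v) hd)
  -- extend the choice outside `Y`
  obtain ⟨x, hx, i, h2, h3⟩ := no_choice K
    (c := fun x => if h : x ∈ Y K then c ⟨x, h⟩ else 0)
    (Measurable.dite hcm measurable_const hYm)
  simp only [hx, alpha_mem_Y hx i, dif_pos] at h2 h3
  exact hc i ⟨x, hx⟩ ⟨h2, h3⟩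

end HypVec
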