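import Pool.Agent.Lib.HypVec.Hyper
import Pool.Agent.Lib.HypVec.NoVec

/-!
# H2 / HypVec: from the final graph to `no_vec`

Restrict `u : Z K → ℝ^D` to the base points, extend it by a constant unit vector outside `Y × O`.
(`D ≥ 1` because `Z K` is nonempty; `Z K` is nonempty because of `no_choice`.)
-/

open MeasureTheory
open scoped RealInnerProductSpace

namespace HypVec

/-- two steps -/
theorem inner_two_step {F : Type*} [NormedAddCommGroup F] [InnerProductSpace ℝ F] {a b c : F}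
    (ha : ‖a‖ = 1) (hb : ‖b‖ = 1) (hc : ‖c‖ = 1) {t : ℝ} (ht : 0 ≤ t) (h1 : ⟪a, b⟫ ≤ - t)
    (h2 : ⟪b, c⟫ ≤ - t) : 2 * t ^ 2 - 1 ≤ ⟪a, c⟫ := by
  have h0 : (0:ℝ) ≤ ⟪a + c - (⟪a, b⟫ + ⟪b, c⟫) • b, a + c - (⟪a, b⟫ + ⟪b, c⟫) • b⟫ :=
    real_inner_self_nonneg
  have haa : ⟪a, a⟫ = (1:ℝ) := by rw [real_inner_self_eq_norm_sq, ha]; norm_num
  have hbb : ⟪b, b⟫ = (1:ℝ) := by rw [real_inner_self_eq_norm_sq, hb]; norm_num
  have hcc : ⟪c, c⟫ = (1:ℝ) := by rw [real_inner_self_eq_norm_sq, hc]; norm_num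
  simp only [inner_sub_left, inner_sub_right, inner_add_left, inner_add_right, real_inner_smul_left,
    real_inner_smul_right, haa, hbb, hcc] at h0
  have e1 : ⟪b, a⟫ = ⟪a, b⟫ := real_inner_comm a b
  have e2 : ⟪c, b⟫ = ⟪b, c⟫ := real_inner_comm b c
  have e3 : ⟪c, a⟫ = ⟪a, c⟫ := real_inner_comm a c
  simp only [e1, e2, e3] at h0
  have h3 : (⟪a, b⟫ + ⟪b, c⟫) ^ 2 ≤ 2 + 2 * ⟪a, c⟫ := by nlinarith [h0]
  have h4 : (2 * t) ^ 2 ≤ (⟪a, b⟫ + ⟪b, c⟫) ^ 2 := by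
    have h5 : 2 * t ≤ -(⟪a, b⟫ + ⟪b, c⟫) := by linarith
    calc (2 * t) ^ 2 ≤ (-(⟪a, b⟫ + ⟪b, c⟫)) ^ 2 := pow_le_pow_left₀ (by linarith) h5 2
      _ = (⟪a, b⟫ + ⟪b, c⟫) ^ 2 := by ring
  nlinarith [h3, h4]

variable {K : Keys}

/-- the base point over `p` -/
def bs (p : X K) : Z K := ⟨(p, Tag.base), trivial⟩

theorem adj_bs_plain (i : Fin 3) (p : X K) (h : plain i p) : (GS K).Adj (bs p) (bs (alphaX i p)) :=
  ⟨i, Subtype.ext (by simp [nb, nbR, bs, h])⟩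

theorem adj_bs_low (i : Fin 3) (p : X K) (h : ¬ plain i p) (hl : low i p) :
    ∃ m, (GS K).Adj (bs p) m ∧ (GS K).Adj (bs (alphaX i p)) m := by
  refine ⟨⟨(p, Tag.mid i), ⟨h, hl⟩⟩, ⟨i, Subtype.ext ?_⟩, ⟨i, Subtype.ext ?_⟩⟩
  · simp [nb, nbR, bs, h, hl]
  · have h1 : ¬ plain i (alphaX i p) := by simpa using h
    have h2 : ¬ low i (alphaX i p) := by
      rw [low_alphaX]; exact not_not.2 hl
    simp [nb, nbR, bs, h1, h2]

theorem adj_bs_sub (i : Fin 3) (p : X K) (h : ¬ plain i p) :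
    ∃ m, (GS K).Adj (bs p) m ∧ (GS K).Adj (bs (alphaX i p)) m := by
  by_cases hl : low i p
  · exact adj_bs_low i p h hl
  · obtain ⟨m, h1, h2⟩ := adj_bs_low i (alphaX i p) (by simpa using h) ((low_alphaX i p).2 hl)
    rw [alphaX_alphaX] at h2
    exact ⟨m, h2, h1⟩

theorem measurable_bs : Measurable (bs (K := K)) :=
  Measurable.subtype_mk (measurable_id.prodMk measurable_const)

theorem no_vec_GS (K : Keys) {D : ℕ} (u : Z K → EuclideanSpace ℝ (Fin D)) (hu : Measurable u)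
    (h1 : ∀ z, ‖u z‖ = 1) (h : ∀ z z', (GS K).Adj z z' → ⟪u z, u z'⟫ ≤ - (977 / 1000)) : False := by
  obtain ⟨x0, hx0, -⟩ := no_choice K (c := fun _ => 0) measurable_const
  have hYm : MeasurableSet {z : Conf × (E → Bool) | z.1 ∈ Y K} :=
    measurable_fst (measurableSet_Y K)
  classical
  refine no_vec K (fun z => if hz : z.1 ∈ Y K then u (bs ⟨z, hz⟩)
    else u (bs ⟨(x0, fun _ => false), hx0⟩)) ?_ ?_ ?_ ?_
  · exact Measurable.dite (f := fun z : {z : Conf × (E → Bool) // z.1 ∈ Y K} => u (bs z))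
      (hu.comp measurable_bs) measurable_const hYm
  · intro z
    by_cases hz : z.1 ∈ Y K
    · simp only [hz, dif_pos, h1]
    · simp only [hz, dif_neg, h1, not_false_eq_true]
  · intro x hx i o ho
    have hx' : alpha i x ∈ Y K := alpha_mem_Y hx i
    simp only [hx, hx', dif_pos]
    exact h _ _ (adj_bs_plain i ⟨(x, o), hx⟩ ho)
  · intro x hx i o ho
    have hx' : alpha i x ∈ Y K := alpha_mem_Y hx i
    simp only [hx, hx', dif_pos]
    obtain ⟨m, ha, hb⟩ := adj_bs_sub i (⟨(x, o), hx⟩ : X K) (by simp [plain, ho])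
    exact inner_two_step (h1 _) (h1 m) (h1 _) (by norm_num) (h _ _ ha) (h _ _ hb.symm)

end HypVec
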