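import Pool.Agent.Lib.HypVec.Free

/-!
# H2 / HypVec: the space `X = Y × (E → Bool)` with the three involutions (page, section 3)
-/

namespace HypVec

/-- re-rooting of edge bits -/
def tauO (i : Fin 3) (o : E → Bool) : E → Bool := fun e => o (tau i e)

@[simp] theorem tauO_tauO (i : Fin 3) (o : E → Bool) : tauO i (tauO i o) = o := by
  funext e; simp [tauO]

@[simp] theorem tauO_ed (i : Fin 3) (o : E → Bool) : tauO i o (ed i) = o (ed i) := by simp [tauO]

/-- the space of rooted labelled trees with edge bits -/
abbrev X (K : Keys) := {p : Conf × (E → Bool) // p.1 ∈ Y K}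

variable {K : Keys}

def alphaX (i : Fin 3) (p : X K) : X K :=
  ⟨(alpha i p.1.1, tauO i p.1.2), alpha_mem_Y p.2 i⟩

@[simp] theorem alphaX_alphaX (i : Fin 3) (p : X K) : alphaX i (alphaX i p) = p := by
  apply Subtype.ext
  simp [alphaX]

def actX : L3 → X K → X K
  | [], p => p
  | i :: w, p => actX w (alphaX i p)

@[simp] theorem actX_nil (p : X K) : actX [] p = p := rfl
@[simp] theorem actX_cons (i : Fin 3) (w : L3) (p : X K) : actX (i :: w) p = actX w (alphaX i p) := rfl

theorem actX_append (v w : L3) (p : X K) : actX (v ++ w) p = actX w (actX v p) := by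
  induction v generalizing p with
  | nil => rfl
  | cons i v ih => simp [ih]

theorem actX_fst (w : L3) (p : X K) : (actX w p).1.1 = act w p.1.1 := by
  induction w generalizing p with
  | nil => rfl
  | cons i w ih => simp [ih, alphaX]

/-- every list acts like a reduced one -/
theorem exists_red (w : L3) : ∃ w' : W, ∀ p : X K, actX w p = actX w'.1 p := by
  induction w with
  | nil => exact ⟨rt, fun p => rfl⟩
  | cons i w ih =>
    obtain ⟨w', hw'⟩ := ih
    refine ⟨mv i w', fun p => ?_⟩
    rw [actX_cons, hw']
    obtain ⟨l, hl⟩ := w'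
    cases l with
    | nil => rfl
    | cons j t =>
      by_cases hj : j = i
      · subst hj
        simp [mv, mvL]
      · simp [mv, mvL, hj]

theorem freeX_label (p : X K) {w : L3} (hw : IsW w) (h0 : w ≠ []) : (actX w p).1.1.1 ≠ p.1.1.1 := by
  rw [actX_fst]
  exact free p.2 hw h0

theorem freeX (p : X K) {w : L3} (hw : IsW w) (h0 : w ≠ []) : actX w p ≠ p := fun h =>
  freeX_label p hw h0 (by rw [h])

theorem alphaX_ne (i : Fin 3) (p : X K) : alphaX i p ≠ p :=
  freeX p (w := [i]) (isW_single i) (by simp)

theorem alphaX_ne_alphaX {i j : Fin 3} (h : i ≠ j) (p : X K) : alphaX i p ≠ alphaX j p := by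
  intro hh
  have hw : IsW [i, j] := by simp [IsW, h]
  refine freeX p hw (by simp) ?_
  show alphaX j (alphaX i p) = p
  rw [hh, alphaX_alphaX]

/-- the coordinate of the edge `i` at `p` -/
def co (i : Fin 3) (p : X K) : ℕ := p.1.1.2 (ed i)

@[simp] theorem co_alphaX (i : Fin 3) (p : X K) : co i (alphaX i p) = co i p := by
  simp [co, alphaX, alpha]

/-- `p` is the low end of its edge `i` -/
def low (i : Fin 3) (p : X K) : Prop := p.1.1.1 (co i p) = false

instance (i : Fin 3) (p : X K) : Decidable (low i p) := by unfold low; infer_instance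

theorem low_alphaX (i : Fin 3) (p : X K) : low i (alphaX i p) ↔ ¬ low i p := by
  have h : (alphaX i p).1.1.1 (co i p) = !(p.1.1.1 (co i p)) := flip_same _ _
  unfold low
  rw [co_alphaX, h]
  cases p.1.1.1 (co i p) <;> simp

/-- the edge `i` at `p` is plain (not subdivided) -/
def plain (i : Fin 3) (p : X K) : Prop := p.1.2 (ed i) = true

instance (i : Fin 3) (p : X K) : Decidable (plain i p) := by unfold plain; infer_instance

@[simp] theorem plain_alphaX (i : Fin 3) (p : X K) : plain i (alphaX i p) ↔ plain i p := by
  simp [plain, alphaX]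

instance : StandardBorelSpace (X K) :=
  MeasurableSet.standardBorel (s := {p : Conf × (E → Bool) | p.1 ∈ Y K})
    (measurable_fst (measurableSet_Y K))

theorem measurable_tauO (i : Fin 3) : Measurable (tauO i) :=
  measurable_pi_iff.2 fun e => measurable_pi_apply (tau i e)

theorem measurable_alphaX (i : Fin 3) : Measurable (alphaX (K := K) i) :=
  Measurable.subtype_mk
    (((measurable_alpha i).comp (measurable_fst.comp measurable_subtype_coe)).prodMk
      ((measurable_tauO i).comp (measurable_snd.comp measurable_subtype_coe)))

theorem measurable_co (i : Fin 3) : Measurable (co (K := K) i) :=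
  (measurable_pi_apply (ed i)).comp
    (measurable_snd.comp (measurable_fst.comp measurable_subtype_coe))

theorem measurable_bit (n : ℕ) : Measurable (fun p : X K => p.1.1.1 n) :=
  (measurable_pi_apply n).comp
    (measurable_fst.comp (measurable_fst.comp measurable_subtype_coe))

theorem measurableSet_low (i : Fin 3) : MeasurableSet {p : X K | low i p} := by
  have : {p : X K | low i p} = ⋃ n : ℕ, {p : X K | co i p = n} ∩ {p : X K | p.1.1.1 n = false} := by
    ext p
    simp [low]
  rw [this]
  exact MeasurableSet.iUnion fun n =>
    (measurable_co i (measurableSet_singleton n)).inter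
      (measurable_bit n (measurableSet_singleton false))

theorem measurableSet_plain (i : Fin 3) : MeasurableSet {p : X K | plain i p} := by
  have h : Measurable (fun p : X K => p.1.2 (ed i)) :=
    (measurable_pi_apply (ed i)).comp (measurable_snd.comp measurable_subtype_coe)
  exact h (measurableSet_singleton true)

end HypVec
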