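import Pool.Agent.Lib.HypVec.Spectral
import Pool.Agent.Lib.HypVec.Transport
import Pool.Agent.Lib.HypVec.Forest

/-!
# H2 / HypVec: T2, the spectral theorem on the randomised forest

If `u` is a Borel unit vector map on `Conf × Mk R` with inner products at most `- c0` along the edges
over `Y K`, then `c' = c0 - (1 + c0) / 2 ^ R` satisfies `c' < 0` or `c' ^ 2 ≤ 8 / 9`.
-/

open MeasureTheory Pool.Agent.HypVec
open scoped RealInnerProductSpace

namespace HypVec

namespace SpecFlow

theorem act_eq_wact (w : L3) (x : Conf) : act w x = wact alpha w x := by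
  induction w generalizing x with
  | nil => rfl
  | cons i w ih => simp [ih]

theorem act_act_reverse (w : L3) (x : Conf) : act w (act w.reverse x) = x := by
  rw [act_eq_wact, act_eq_wact]
  exact wact_reverse' alpha alpha_alpha w x

variable {R : ℕ}

/-- the bits of the root -/
def Nr (R : ℕ) : Finset (Bt R) :=
  Finset.univ.map ⟨fun q : Fin 3 × Fin R => ((rt, q) : Bt R), fun _ _ h => (Prod.mk.inj h).2⟩

theorem mem_Nr (b : Bt R) : b ∈ Nr R ↔ b.1 = rt := by
  obtain ⟨w, q⟩ := b
  simp only [Nr, Finset.mem_map, Finset.mem_univ, true_and]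
  constructor
  · rintro ⟨a, h⟩
    exact (Prod.mk.inj h).1.symm
  · intro h
    subst h
    exact ⟨q, rfl⟩

/-- the bits in the branch `i` -/
def Br (R : ℕ) (i : Fin 3) : Set (Bt R) := {b | b.1.1.head? = some i}

theorem Br_disjoint (i j : Fin 3) (h : i ≠ j) : Disjoint (Br R i) (Br R j) := by
  rw [Set.disjoint_left]
  intro b hb hb'
  simp only [Br, Set.mem_ofPred_eq] at hb hb'
  rw [hb] at hb'
  exact h (Option.some.inj hb')

theorem not_mem_Br {b : Bt R} (hb : b ∈ Nr R) (i : Fin 3) : b ∉ Br R i := by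
  rw [mem_Nr] at hb
  simp only [Br, Set.mem_ofPred_eq, hb, rt]
  simp

/-- re-rooting of the bits as a permutation -/
def reE (R : ℕ) (i : Fin 3) : Bt R ≃ Bt R := ⟨reB R i, reB R i, reB_reB R i, reB_reB R i⟩

theorem head_mvL' (i : Fin 3) {w : L3} (hw : IsW w) :
    (mvL i w).head? = some i ↔ ¬ w.head? = some i := by
  cases w with
  | nil => simp [mvL]
  | cons j t =>
    by_cases hj : j = i
    · subst hj
      cases t with
      | nil => simp [mvL]
      | cons k t =>
        have : j ≠ k := (List.isChain_cons_cons.1 hw).1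
        simp [mvL, this.symm]
    · simp [mvL, hj]

theorem reE_mem_Br (i : Fin 3) (b : Bt R) : reE R i b ∈ Br R i ↔ b ∉ Br R i :=
  head_mvL' i b.1.2

theorem nbr_ne_rt (i : Fin 3) : nbr i ≠ rt := by
  intro h
  have := congrArg Subtype.val h
  simp [rt, nbr] at this

/-- the conflict event -/
def Cf (R : ℕ) (i : Fin 3) : Set (Mk R) := {o | hwd i rt o = hwd i (nbr i) o}

theorem mem_Cf (i : Fin 3) (o : Mk R) :
    o ∈ Cf R i ↔ ∀ k, o (rt, (i, k)) = o (nbr i, (i, k)) := by
  simp only [Cf, Set.mem_ofPred_eq, hwd]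
  constructor
  · intro h k
    exact congrFun (List.ofFn_injective (hw_inj i h)) k
  · intro h
    congr 1
    congr 1
    funext k
    exact h k

theorem measurableSet_Cf (i : Fin 3) : MeasurableSet (Cf R i) := by
  have : Cf R i = ⋂ k, {o : Mk R | o (rt, (i, k)) = o (nbr i, (i, k))} := by
    ext o
    rw [mem_Cf]
    simp
  rw [this]
  exact MeasurableSet.iInter fun k =>
    measurableSet_eq_fun (measurable_pi_apply _) (measurable_pi_apply _)

/-- the bits to be flipped -/
def Fl (i : Fin 3) (s : Fin R → Bool) : Set (Bt R) := {b | ∃ k, s k = true ∧ b = (rt, (i, k))}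

theorem flip_mem_Cf (i : Fin 3) (s : Fin R → Bool) (o : Mk R) :
    flipOn (Fl i s) o ∈ Cf R i ↔ s = fun k => xor (o (rt, (i, k))) (o (nbr i, (i, k))) := by
  classical
  rw [mem_Cf]
  have h1 : ∀ k, flipOn (Fl i s) o (rt, (i, k)) = xor (o (rt, (i, k))) (s k) := by
    intro k
    have : ((rt, (i, k)) : Bt R) ∈ Fl i s ↔ s k = true := by
      constructor
      · rintro ⟨k', h, h'⟩
        have := (Prod.mk.inj (Prod.mk.inj h').2).2
        rw [this]; exact h
      · intro h; exact ⟨k, h, rfl⟩
    by_cases hs : s k = true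
    · simp only [flipOn, this, hs, if_true]
      cases o (rt, (i, k)) <;> rfl
    · simp only [Bool.not_eq_true] at hs
      simp [flipOn, this, hs]
  have h2 : ∀ k, flipOn (Fl i s) o (nbr i, (i, k)) = o (nbr i, (i, k)) := by
    intro k
    have : ((nbr i, (i, k)) : Bt R) ∉ Fl i s := by
      rintro ⟨k', _, h'⟩
      exact nbr_ne_rt i (Prod.mk.inj h').1
    simp only [flipOn, this, if_false]
  simp only [h1, h2]
  constructor
  · intro h
    funext k
    rw [← h k]
    cases o (rt, (i, k)) <;> cases s k <;> rfl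
  · intro h k
    rw [h]
    show xor (o (rt, (i, k))) (xor (o (rt, (i, k))) (o (nbr i, (i, k)))) = o (nbr i, (i, k))
    cases o (rt, (i, k)) <;> cases o (nbr i, (i, k)) <;> rfl

/-- the conflict event has probability `2 ^ (-R)` -/
theorem integral_Cf (i : Fin 3) :
    ∫ o, (Cf R i).indicator (fun _ => (1 : ℝ)) o ∂(cube (Bt R)) = ((2 : ℝ) ^ R)⁻¹ := by
  classical
  set k : Mk R → ℝ := (Cf R i).indicator (fun _ => (1 : ℝ)) with hk
  have hm : Measurable k := measurable_const.indicator (measurableSet_Cf i)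
  have hb : ∀ o, |k o| ≤ 1 := by
    intro o
    rw [hk]
    by_cases h : o ∈ Cf R i
    · rw [Set.indicator_of_mem h]; simp
    · rw [Set.indicator_of_notMem h]; simp
  have hs : ∀ o, ∑ s : Fin R → Bool, k (flipOn (Fl i s) o) = 1 := by
    intro o
    rw [Finset.sum_eq_single (fun k => xor (o (rt, (i, k))) (o (nbr i, (i, k))))]
    · rw [hk, Set.indicator_of_mem]
      exact (flip_mem_Cf i _ o).2 rfl
    · intro s _ hs
      rw [hk, Set.indicator_of_notMem]
      intro h
      exact hs ((flip_mem_Cf i s o).1 h)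
    · intro h; exact absurd (Finset.mem_univ _) h
  have h1 : ∫ o, ∑ s : Fin R → Bool, k (flipOn (Fl i s) o) ∂(cube (Bt R)) = 1 := by
    simp only [hs]; simp
  rw [integral_finsetSum] at h1
  · have h2 : ∀ s : Fin R → Bool, ∫ o, k (flipOn (Fl i s) o) ∂(cube (Bt R)) =
        ∫ o, k o ∂(cube (Bt R)) := fun s => integral_comp_preserving (flipOn_preserving _) hm
    simp only [h2, Finset.sum_const, nsmul_eq_mul] at h1
    have h3 : ((Finset.univ : Finset (Fin R → Bool)).card : ℝ) = (2 : ℝ) ^ R := by
      rw [Finset.card_univ, Fintype.card_fun, Fintype.card_bool, Fintype.card_fin]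
      push_cast; rfl
    rw [h3] at h1
    exact (eq_inv_of_mul_eq_one_right h1)
  · intro s _
    exact Integrable.of_bound (hm.comp (measurable_flipOn _)).aestronglyMeasurable 1
      (Filter.Eventually.of_forall fun o => hb _)

/-- the half word coded by a set of bits of the root -/
noncomputable def pw (i : Fin 3) (U : Finset (Bt R)) : L3 :=
  open Classical in hw i (List.ofFn fun k => decide (((rt, (i, k)) : Bt R) ∈ U))

theorem hwd_setOn (i : Fin 3) (U : Finset (Bt R)) (o : Mk R) :
    hwd i rt (setOn (Nr R) U o) = pw i U := by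
  classical
  unfold hwd pw
  congr 2
  funext k
  have : ((rt, (i, k)) : Bt R) ∈ Nr R := (mem_Nr _).2 rfl
  simp only [setOn, this, if_true]
  congr

theorem abs_inner_le {F : Type*} [NormedAddCommGroup F] [InnerProductSpace ℝ F] {a b : F}
    (ha : ‖a‖ = 1) (hb : ‖b‖ = 1) : |⟪a, b⟫| ≤ 1 := by
  have := abs_real_inner_le_norm a b
  rw [ha, hb] at this
  simpa using this

end SpecFlow

open SpecFlow

/-- **T2.** -/
theorem no_vec_spec (K : Keys) {R D : ℕ} (u : Conf × Mk R → EuclideanSpace ℝ (Fin D))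
    (hu : Measurable u) (h1 : ∀ z, ‖u z‖ = 1) {c0 : ℝ}
    (hadj : ∀ x ∈ Y K, ∀ (o : Mk R) (i : Fin 3),
      ⟪u (x, o), u (act (gword i o) x, re i o)⟫ ≤ - c0)
    (hpos : 0 ≤ c0 - (1 + c0) * ((2 : ℝ) ^ R)⁻¹)
    (h89 : 8 / 9 < (c0 - (1 + c0) * ((2 : ℝ) ^ R)⁻¹) ^ 2) : False := by
  classical
  set c' := c0 - (1 + c0) * ((2 : ℝ) ^ R)⁻¹ with hc'
  -- the frozen fields
  set g : Fin 3 → Finset (Bt R) → Conf → ℝ := fun i U y =>
    ((2 : ℝ) ^ (Nr R).card)⁻¹ * tw (Br R i) (fun o => u (y, setOn (Nr R) U o)) with hg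
  have huy : ∀ (U : Finset (Bt R)), Measurable (Function.uncurry fun (y : Conf) (o : Mk R) =>
      u (y, setOn (Nr R) U o)) := fun U =>
    hu.comp (measurable_fst.prodMk ((measurable_setOn _ U).comp measurable_snd))
  have hgm : ∀ i U, Measurable (g i U) := fun i U =>
    (measurable_tw (huy U) (fun _ _ => h1 _) (Br R i)).const_mul _
  have hdiv : Div (fun x => ∑ i : Fin 3, ∑ U ∈ (Nr R).powerset,
      (g i U (act (pw i U).reverse x) - g i U x)) :=
    Div.sum _ fun i _ => Div.sum _ fun U _ => Div.act (hgm i U) _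
  obtain ⟨x, hx, hle⟩ := hdiv.exists_nonpos K
  -- the outgoing part
  have hcard : (((2 : ℝ) ^ (Nr R).card)⁻¹) * ((Nr R).powerset.card : ℝ) = 1 := by
    rw [Finset.card_powerset]
    push_cast
    exact inv_mul_cancel₀ (by positivity)
  have hout : ∑ i : Fin 3, ∑ U ∈ (Nr R).powerset, g i U x ≤ 1 := by
    rw [Finset.sum_comm]
    have h2 : ∀ U ∈ (Nr R).powerset, ∑ i, g i U x ≤ ((2 : ℝ) ^ (Nr R).card)⁻¹ := by
      intro U _
      simp only [hg]
      rw [← Finset.mul_sum]
      apply mul_le_of_le_one_right (by positivity)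
      exact spec_sum ((huy U).comp measurable_prodMk_left) (fun o => h1 _) Br_disjoint
    calc _ ≤ ∑ U ∈ (Nr R).powerset, ((2 : ℝ) ^ (Nr R).card)⁻¹ := Finset.sum_le_sum h2
      _ = 1 := by
        rw [Finset.sum_const, nsmul_eq_mul, mul_comm]
        exact hcard
  -- the incoming part
  have hin : ∀ i : Fin 3, (1 - Real.sqrt (1 - c' ^ 2)) / 2 ≤
      ∑ U ∈ (Nr R).powerset, g i U (act (pw i U).reverse x) := by
    intro i
    set Φ : Mk R → EuclideanSpace ℝ (Fin D) := fun o => u (act (hwd i rt o).reverse x, o) with hΦ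
    have hΦm : Measurable Φ := by
      refine hu.comp (Measurable.prodMk ?_ measurable_id)
      let _ : MeasurableSpace L3 := ⊤
      have h2 : Measurable (fun o : Mk R => hwd i rt o) := by
        refine measurable_to_countable' fun p => ?_
        exact measurableSet_hwd R i rt p
      have h3 : Measurable (fun p : L3 => act p.reverse x) := fun _ _ => trivial
      exact h3.comp h2
    have hΦn : ∀ o, ‖Φ o‖ = 1 := fun o => h1 _
    have hΦe : ∀ o : Mk R, ⟪Φ o, Φ (o ∘ reE R i)⟫ ≤
        - c0 + (1 + c0) * (Cf R i).indicator (fun _ => (1 : ℝ)) o := by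
      intro o
      by_cases hcf : o ∈ Cf R i
      · rw [Set.indicator_of_mem hcf]
        have := (abs_le.1 (abs_inner_le (hΦn o) (hΦn (o ∘ reE R i)))).2
        linarith
      · rw [Set.indicator_of_notMem hcf]
        have hy : act (hwd i rt o).reverse x ∈ Y K := act_mem_Y hx _
        have h2 := hadj _ hy o i
        have h3 : act (gword i o) (act (hwd i rt o).reverse x) =
            act (hwd i (nbr i) o).reverse x := by
          have hne : ¬ hwd i rt o = hwd i (nbr i) o := hcf
          unfold gword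
          rw [if_neg hne, act_append, act_act_reverse]
        rw [h3] at h2
        have h4 : Φ (o ∘ reE R i) = u (act (hwd i (nbr i) o).reverse x, re i o) := by
          show u (act (hwd i rt (re i o)).reverse x, re i o) = _
          rw [hwd_re, mv_rt]
        rw [h4]
        linarith
    have hint : ∫ o, ⟪Φ o, Φ (o ∘ reE R i)⟫ ∂(cube (Bt R)) ≤ - c' := by
      have hΦ2 : Measurable (fun o : Mk R => Φ (o ∘ reE R i)) :=
        hΦm.comp (perm_preserving (reE R i)).measurable
      have hi1 : Integrable (fun o : Mk R => ⟪Φ o, Φ (o ∘ reE R i)⟫) (cube (Bt R)) :=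
        Integrable.of_bound (hΦm.inner hΦ2).aestronglyMeasurable 1
          (Filter.Eventually.of_forall fun o => abs_inner_le (hΦn o) (hΦn _))
      have hi2 : Integrable ((Cf R i).indicator (fun _ => (1 : ℝ))) (cube (Bt R)) :=
        (integrable_const _).indicator (measurableSet_Cf i)
      have h2 := integral_mono hi1 ((integrable_const (- c0)).add (hi2.const_mul (1 + c0))) hΦe
      have h3 : ∫ o, (- c0 + (1 + c0) *
          (Cf R i).indicator (fun _ => (1 : ℝ)) o) ∂(cube (Bt R)) = - c' := by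
        rw [integral_add (integrable_const (- c0)) (hi2.const_mul (1 + c0)),
          integral_const_mul, integral_Cf]
        simp [hc']
        ring
      exact h2.trans (le_of_eq h3)
    have hA := spec_edge hΦm hΦn (B := Br R i) (e := reE R i) (fun b => reB_reB R i b)
      (reE_mem_Br i) hpos hint
    have hB := spec_near hΦm hΦn (B := Br R i) (Nr R) (fun b hb => not_mem_Br hb i)
    refine hA.trans (hB.trans (le_of_eq ?_))
    rw [Finset.mul_sum]
    apply Finset.sum_congr rfl
    intro U _
    simp only [hg, hΦ, hwd_setOn]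
  -- conclusion
  have hsq : Real.sqrt (1 - c' ^ 2) < 1 / 3 := by
    rw [Real.sqrt_lt' (by norm_num)]
    linarith
  have hsum : ∑ i : Fin 3, ∑ U ∈ (Nr R).powerset, (g i U (act (pw i U).reverse x) - g i U x) =
      (∑ i : Fin 3, ∑ U ∈ (Nr R).powerset, g i U (act (pw i U).reverse x)) -
        ∑ i : Fin 3, ∑ U ∈ (Nr R).powerset, g i U x := by
    simp only [Finset.sum_sub_distrib]
  have hsum3 : ∑ i : Fin 3, (1 - Real.sqrt (1 - c' ^ 2)) / 2 ≤
      ∑ i : Fin 3, ∑ U ∈ (Nr R).powerset, g i U (act (pw i U).reverse x) :=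
    Finset.sum_le_sum fun i _ => hin i
  rw [Finset.sum_const, Finset.card_univ, Fintype.card_fin, nsmul_eq_mul] at hsum3
  rw [hsum] at hle
  push_cast at hsum3
  linarith

end HypVec
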