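import Pool.Agent.Lib.HypVec.SpecFlow
import Pool.Agent.Lib.HypVec.Base

/-!
# H2 / HypVec: T2 for the graphs of the systems `ySys K R`
-/

open MeasureTheory
open scoped RealInnerProductSpace

namespace HypVec

/-- the numerics: the conflict probability can be made small enough -/
theorem exists_R {c : ℝ} (h : 2 * Real.sqrt 2 / 3 < c) :
    ∃ R : ℕ, 0 ≤ c - (1 + c) * ((2 : ℝ) ^ R)⁻¹ ∧ 8 / 9 < (c - (1 + c) * ((2 : ℝ) ^ R)⁻¹) ^ 2 := by
  have h0 : 0 ≤ 2 * Real.sqrt 2 / 3 := by positivity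
  have hc : 0 < c := lt_of_le_of_lt h0 h
  have hd : 0 < (c - 2 * Real.sqrt 2 / 3) / (1 + c) := div_pos (by linarith) (by linarith)
  obtain ⟨R, hR⟩ := exists_pow_lt_of_lt_one hd (by norm_num : (1 / 2 : ℝ) < 1)
  have h1 : ((2 : ℝ) ^ R)⁻¹ < (c - 2 * Real.sqrt 2 / 3) / (1 + c) := by
    have : ((2 : ℝ) ^ R)⁻¹ = (1 / 2 : ℝ) ^ R := by
      rw [one_div, inv_pow]
    rw [this]
    exact hR
  rw [lt_div_iff₀ (by linarith)] at h1
  have h2 : 2 * Real.sqrt 2 / 3 < c - (1 + c) * ((2 : ℝ) ^ R)⁻¹ := by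
    rw [mul_comm] at h1
    linarith
  refine ⟨R, h0.trans h2.le, ?_⟩
  have h3 : (2 * Real.sqrt 2 / 3) ^ 2 = 8 / 9 := by
    rw [div_pow, mul_pow, Real.sq_sqrt (by norm_num)]
    norm_num
  rw [← h3]
  exact pow_lt_pow_left₀ h2 h0 (by norm_num)

theorem ySys_fst (K : Keys) (R : ℕ) (i : Fin 3) (z : Y K × Mk R) :
    ((ySys K R).δ i z).1.1 = act (gword i z.2) z.1.1 := wact_alphaY K (gword i z.2) z.1

theorem ySys_snd (K : Keys) (R : ℕ) (i : Fin 3) (z : Y K × Mk R) :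
    ((ySys K R).δ i z).2 = re i z.2 := rfl

theorem nonempty_Y (K : Keys) : Nonempty (Y K) := by
  obtain ⟨x, hx, _⟩ := no_choice K (c := fun _ => 0) measurable_const
  exact ⟨⟨x, hx⟩⟩

/-- **T2 on the graph of `ySys K R`.** -/
theorem ySys_no_vec (K : Keys) (R : ℕ) {D : ℕ} (u : Y K × Mk R → EuclideanSpace ℝ (Fin D))
    (hu : Measurable u) (h1 : ∀ z, ‖u z‖ = 1) {c : ℝ}
    (hpos : 0 ≤ c - (1 + c) * ((2 : ℝ) ^ R)⁻¹)
    (h89 : 8 / 9 < (c - (1 + c) * ((2 : ℝ) ^ R)⁻¹) ^ 2) :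
    ¬ ∀ z z', (ySys K R).gr.Adj z z' → ⟪u z, u z'⟫ ≤ - c := by
  classical
  intro hadj
  obtain ⟨y0⟩ := nonempty_Y K
  set w0 : EuclideanSpace ℝ (Fin D) := u (y0, fun _ => false) with hw0
  set u' : Conf × Mk R → EuclideanSpace ℝ (Fin D) :=
    fun p => if h : p.1 ∈ Y K then u (⟨p.1, h⟩, p.2) else w0 with hu'
  have hm : Measurable u' := by
    have hS : MeasurableSet {p : Conf × Mk R | p.1 ∈ Y K} := measurable_fst (measurableSet_Y K)
    have hg : Measurable (fun p : {p : Conf × Mk R | p.1 ∈ Y K} =>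
        u (⟨p.1.1, p.2⟩, p.1.2)) := by
      refine hu.comp (Measurable.prodMk ?_ (measurable_snd.comp measurable_subtype_coe))
      exact Measurable.subtype_mk (measurable_fst.comp measurable_subtype_coe)
    exact Measurable.dite hg measurable_const hS
  have hn : ∀ z, ‖u' z‖ = 1 := by
    intro z
    by_cases h : z.1 ∈ Y K
    · simp only [hu', h, dif_pos, h1]
    · simp only [hu', h, dif_neg, not_false_eq_true, hw0, h1]
  refine no_vec_spec K (R := R) u' hm hn (c0 := c) ?_ hpos h89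
  intro x hx o i
  have hx' : act (gword i o) x ∈ Y K := act_mem_Y hx _
  have e1 : u' (x, o) = u (⟨x, hx⟩, o) := by simp only [hu', hx, dif_pos]
  have e2 : u' (act (gword i o) x, re i o) = u ((ySys K R).δ i (⟨x, hx⟩, o)) := by
    simp only [hu', hx', dif_pos]
    congr 1
    refine Prod.ext (Subtype.ext ?_) rfl
    exact (ySys_fst K R i (⟨x, hx⟩, o)).symm
  rw [e1, e2]
  exact hadj _ _ ⟨i, rfl⟩

end HypVec
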