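import Pool.Agent.Lib.HypVec.Choice

/-!
# Fractional spectral weights of branches

`beta B S = |S ∩ B| / |S|` and `tw B G = ∑_S |coef_S G|² beta B S`.  Estimates for unit vector
fields `G` on `P → Bool`: correlation under an involution exchanging `B` and its complement,
freezing of finitely many bits outside `B`, and additivity over disjoint `B`.
-/

namespace Pool.Agent.HypVec

open MeasureTheory Set
open scoped symmDiff

variable {P : Type*}

/-- The fraction of the points of `S` in `B`. -/
noncomputable def beta (B : Set P) (S : Finset P) : ℝ :=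
  open Classical in ((S.filter (· ∈ B)).card : ℝ) / S.card

theorem beta_nonneg (B : Set P) (S : Finset P) : 0 ≤ beta B S := by unfold beta; positivity

theorem beta_le_one (B : Set P) (S : Finset P) : beta B S ≤ 1 := by
  classical
  unfold beta
  apply div_le_one_of_le₀ _ (Nat.cast_nonneg _)
  exact_mod_cast Finset.card_filter_le _ _

@[simp] theorem beta_empty (B : Set P) : beta B ∅ = 0 := by simp [beta]

theorem beta_map {B : Set P} {e : P ≃ P} (he : ∀ x, e x ∈ B ↔ x ∉ B) {S : Finset P} (hS : S ≠ ∅) :
    beta B (S.map e.toEmbedding) = 1 - beta B S := by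
  classical
  unfold beta
  have h1 : (S.filter (fun b => b ∈ B)).card + (S.filter (fun b => ¬ b ∈ B)).card = S.card := by
    rw [Finset.card_filter_add_card_filter_not]
  have h2 : ((S.map e.toEmbedding).filter (· ∈ B)).card = (S.filter (fun b => ¬ b ∈ B)).card := by
    rw [Finset.filter_map, Finset.card_map]
    congr 1
    apply Finset.filter_congr
    intro x _
    simp [he]
  have h3 : (S.card : ℝ) ≠ 0 := by
    have := Finset.card_pos.2 (Finset.nonempty_iff_ne_empty.2 hS)
    positivity
  rw [h2, Finset.card_map, eq_sub_iff_add_eq, ← add_div, div_eq_one_iff_eq h3, ← h1]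
  push_cast
  ring

theorem beta_insert_le [DecidableEq P] {B : Set P} {x : P} (hx : x ∉ B) {S : Finset P} (hxS : x ∉ S) :
    beta B (insert x S) ≤ beta B S := by
  classical
  unfold beta
  have h1 : (insert x S).filter (· ∈ B) = S.filter (· ∈ B) := by
    rw [Finset.filter_insert, if_neg hx]
  rw [h1, Finset.card_insert_of_notMem hxS]
  rcases S.eq_empty_or_nonempty with h | h
  · subst h; simp
  · have h3 : 0 < (S.card : ℝ) := by exact_mod_cast Finset.card_pos.2 h
    apply div_le_div_of_nonneg_left (Nat.cast_nonneg _) h3
    push_cast; linarith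

theorem beta_sum_le {B : Fin 3 → Set P} (hd : ∀ i j, i ≠ j → Disjoint (B i) (B j)) (S : Finset P) :
    ∑ i, beta (B i) S ≤ 1 := by
  classical
  unfold beta
  rw [← Finset.sum_div]
  apply div_le_one_of_le₀ _ (Nat.cast_nonneg _)
  have h : (Finset.univ : Finset (Fin 3)).card • 1 = 3 := by simp
  have h1 : (Finset.univ.biUnion fun i => S.filter (· ∈ B i)).card =
      ∑ i, (S.filter (· ∈ B i)).card := by
    apply Finset.card_biUnion
    intro i _ j _ hij
    rw [Function.onFun, Finset.disjoint_left]
    intro x hx hx'
    exact Set.disjoint_left.1 (hd i j hij) (Finset.mem_filter.1 hx).2 (Finset.mem_filter.1 hx').2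
  have h2 : (Finset.univ.biUnion fun i => S.filter (· ∈ B i)).card ≤ S.card := by
    apply Finset.card_le_card
    intro x hx
    obtain ⟨i, _, hi⟩ := Finset.mem_biUnion.1 hx
    exact (Finset.mem_filter.1 hi).1
  rw [h1] at h2
  exact_mod_cast h2

variable {D : ℕ}

/-- The fractional weight of the branch `B`. -/
noncomputable def tw (B : Set P) (G : (P → Bool) → EuclideanSpace ℝ (Fin D)) : ℝ :=
  ∑' S, lam G S * beta B S

section

variable [Countable P]

theorem summable_tw {G : (P → Bool) → EuclideanSpace ℝ (Fin D)} (hG : Measurable G)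
    (nG : ∀ o, ‖G o‖ = 1) (B : Set P) : Summable fun S => lam G S * beta B S := by
  refine Summable.of_nonneg_of_le (fun S => mul_nonneg (lam_nonneg G S) (beta_nonneg B S))
    (fun S => ?_) (hasSum_lam hG nG).summable
  exact mul_le_of_le_one_right (lam_nonneg G S) (beta_le_one B S)

theorem hasSum_tw {G : (P → Bool) → EuclideanSpace ℝ (Fin D)} (hG : Measurable G)
    (nG : ∀ o, ‖G o‖ = 1) (B : Set P) : HasSum (fun S => lam G S * beta B S) (tw B G) :=
  (summable_tw hG nG B).hasSum

omit [Countable P] in
theorem tw_nonneg (B : Set P) (G : (P → Bool) → EuclideanSpace ℝ (Fin D)) : 0 ≤ tw B G :=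
  tsum_nonneg fun S => mul_nonneg (lam_nonneg G S) (beta_nonneg B S)

/-- (C) additivity -/
theorem spec_sum {G : (P → Bool) → EuclideanSpace ℝ (Fin D)} (hG : Measurable G)
    (nG : ∀ o, ‖G o‖ = 1) {B : Fin 3 → Set P} (hd : ∀ i j, i ≠ j → Disjoint (B i) (B j)) :
    ∑ i, tw (B i) G ≤ 1 := by
  have h := hasSum_sum (s := (Finset.univ : Finset (Fin 3))) fun i _ => hasSum_tw hG nG (B i)
  refine hasSum_le (fun S => ?_) h (hasSum_lam hG nG)
  rw [← Finset.mul_sum]
  exact mul_le_of_le_one_right (lam_nonneg G S) (beta_sum_le hd S)

/-- (M) measurability in a parameter -/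
theorem measurable_tw {X : Type*} [MeasurableSpace X]
    {F : X → (P → Bool) → EuclideanSpace ℝ (Fin D)} (hF : Measurable (Function.uncurry F))
    (nF : ∀ x v, ‖F x v‖ = 1) (B : Set P) : Measurable fun x => tw B (F x) := by
  classical
  have hFx : ∀ x, Measurable (F x) := fun x => hF.comp measurable_prodMk_left
  have hl : ∀ S, Measurable fun x => lam (F x) S * beta B S := by
    intro S
    refine Measurable.mul_const ?_ _
    unfold lam
    refine Finset.measurable_sum _ fun j _ => ?_
    have : Measurable (Function.uncurry fun (x : X) (v : P → Bool) => F x v j) :=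
      (EuclideanSpace.proj (𝕜 := ℝ) j).continuous.measurable.comp hF
    exact (measurable_coef this S).pow_const 2
  refine measurable_of_tendsto_metrizable' (Filter.atTop : Filter (Finset (Finset P)))
    (f := fun s x => ∑ S ∈ s, lam (F x) S * beta B S) (fun s => ?_) ?_
  · exact Finset.measurable_sum _ fun S _ => hl S
  · rw [tendsto_pi_nhds]
    intro x
    exact hasSum_tw (hFx x) (nF x) B

omit [Countable P] in
theorem hesymm {e : P ≃ P} (hinv : ∀ x, e (e x) = x) : e.symm = e := by
  ext w
  rw [Equiv.symm_apply_eq, hinv]

/-- (A) the edge estimate -/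
theorem spec_edge {G : (P → Bool) → EuclideanSpace ℝ (Fin D)} (hG : Measurable G)
    (nG : ∀ o, ‖G o‖ = 1) {B : Set P} {e : P ≃ P} (hinv : ∀ x, e (e x) = x)
    (he : ∀ x, e x ∈ B ↔ x ∉ B) {c : ℝ} (hc0 : 0 ≤ c)
    (hc : ∫ o, inner ℝ (G o) (G (o ∘ e)) ∂(cube P) ≤ - c) :
    (1 - Real.sqrt (1 - c ^ 2)) / 2 ≤ tw B G := by
  classical
  have hGe : Measurable (fun o : P → Bool => G (o ∘ e)) := hG.comp (perm_preserving e).measurable
  have hI := hasSum_inner hG hGe nG (fun o => nG _)
  set φ : Finset P ≃ Finset P := e.finsetCongr with hφ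
  have hφa : ∀ S, φ S = S.map e.toEmbedding := fun S => rfl
  have hco : ∀ (j : Fin D) (S : Finset P), coef (fun o => G (o ∘ e) j) S =
      coef (fun o => G o j) (φ S) := by
    intro j S
    rw [coef_comp e (f := fun o => G o j) (measurable_comp_apply hG j), hesymm hinv]
    rfl
  set p : Finset P → ℝ := lam G with hp
  have hp0 : ∀ S, 0 ≤ p S := lam_nonneg G
  have hps : HasSum p 1 := hasSum_lam hG nG
  have hqs : HasSum (fun S => p (φ S)) 1 := hasSum_comp_equiv φ hps
  set c1 : Finset P → ℝ := fun S =>
    ∑ j, coef (fun o => G o j) S * coef (fun o => G (o ∘ e) j) S with hc1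
  have hcle : ∀ S, - c1 S ≤ Real.sqrt (p S) * Real.sqrt (p (φ S)) := by
    intro S
    have h1 : - c1 S = ∑ j, (- coef (fun o => G o j) S) * coef (fun o => G o j) (φ S) := by
      rw [hc1, ← Finset.sum_neg_distrib]
      apply Finset.sum_congr rfl
      intro j _
      rw [hco]; ring
    rw [h1]
    have h2 := Real.sum_mul_le_sqrt_mul_sqrt Finset.univ
      (fun j => - coef (fun o => G o j) S) (fun j => coef (fun o => G o j) (φ S))
    simp only [neg_sq] at h2
    exact h2
  have hcempty : 0 ≤ c1 ∅ := by
    apply Finset.sum_nonneg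
    intro j _
    rw [hco, hφa, Finset.map_empty]
    exact mul_self_nonneg _
  -- the nonempty part
  set N : Set (Finset P) := {S | S ≠ ∅} with hN
  have hφN : ∀ S, φ S ∈ N ↔ S ∈ N := by
    intro S
    simp only [hN, Set.mem_ofPred_eq, hφa, ne_eq, Finset.map_eq_empty]
  set mn : Finset P → ℝ := N.indicator fun S => min (p S) (p (φ S)) with hmn
  set mx : Finset P → ℝ := N.indicator fun S => max (p S) (p (φ S)) with hmx
  have hmn0 : ∀ S, 0 ≤ mn S := fun S => indicator_nonneg (fun _ _ => le_min (hp0 _) (hp0 _)) S
  have hmx0 : ∀ S, 0 ≤ mx S := fun S => indicator_nonneg (fun _ _ => le_max_of_le_left (hp0 _)) S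
  have hsum2 : Summable fun S => p S + p (φ S) := hps.summable.add hqs.summable
  have hmns : Summable mn := by
    refine Summable.of_nonneg_of_le hmn0 (fun S => ?_) hsum2
    by_cases hS : S ∈ N
    · rw [hmn, indicator_of_mem hS]
      exact (min_le_left _ _).trans (le_add_of_nonneg_right (hp0 _))
    · rw [hmn, indicator_of_notMem hS]; exact add_nonneg (hp0 _) (hp0 _)
  have hmxs : Summable mx := by
    refine Summable.of_nonneg_of_le hmx0 (fun S => ?_) hsum2
    by_cases hS : S ∈ N
    · rw [hmx, indicator_of_mem hS]
      exact max_le (le_add_of_nonneg_right (hp0 _)) (le_add_of_nonneg_left (hp0 _))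
    · rw [hmx, indicator_of_notMem hS]; exact add_nonneg (hp0 _) (hp0 _)
  set a := ∑' S, mn S with ha
  set b := ∑' S, mx S with hb
  have hab : a + b ≤ 2 := by
    have h1 : HasSum (fun S => mn S + mx S) (a + b) := hmns.hasSum.add hmxs.hasSum
    have h2 : HasSum (fun S => p S + p (φ S)) (1 + 1) := hps.add hqs
    have h3 : a + b ≤ 1 + 1 := by
      refine hasSum_le (fun S => ?_) h1 h2
      by_cases hS : S ∈ N
      · rw [hmn, hmx, indicator_of_mem hS, indicator_of_mem hS, min_add_max]
      · rw [hmn, hmx, indicator_of_notMem hS, indicator_of_notMem hS, add_zero]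
        exact add_nonneg (hp0 _) (hp0 _)
    linarith
  have ha0 : 0 ≤ a := tsum_nonneg hmn0
  have hb0 : 0 ≤ b := tsum_nonneg hmx0
  -- Cauchy-Schwarz
  have hcs : c ≤ Real.sqrt a * Real.sqrt b := by
    have hs1 : HasSum (N.indicator fun S => - c1 S) (∑' S, (N.indicator fun S => - c1 S) S) :=
      ((hI.summable.neg).indicator N).hasSum
    have hle : ∑' S, (N.indicator fun S => - c1 S) S ≤ Real.sqrt a * Real.sqrt b := by
      refine hasSum_le_sqrt hmn0 hmx0 (fun S => ?_) hmns.hasSum hmxs.hasSum hs1
      by_cases hS : S ∈ N
      · rw [hmn, hmx, indicator_of_mem hS, indicator_of_mem hS, indicator_of_mem hS,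
          ← Real.sqrt_mul (le_min (hp0 _) (hp0 _)), min_mul_max, Real.sqrt_mul (hp0 _)]
        exact hcle S
      · rw [hmn, hmx, indicator_of_notMem hS, indicator_of_notMem hS, indicator_of_notMem hS]
        simp
    have hs2 : HasSum (fun S => - c1 S) (- ∫ o, inner ℝ (G o) (G (o ∘ e)) ∂(cube P)) := hI.neg
    have hs3 : - ∫ o, inner ℝ (G o) (G (o ∘ e)) ∂(cube P) ≤
        ∑' S, (N.indicator fun S => - c1 S) S := by
      refine hasSum_le (fun S => ?_) hs2 hs1
      by_cases hS : S ∈ N
      · rw [indicator_of_mem hS]
      · rw [indicator_of_notMem hS]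
        have : S = ∅ := by simpa [hN] using hS
        rw [this]; linarith
    linarith
  have hkey : c ^ 2 ≤ a * (2 - a) := by
    have h1 : c ^ 2 ≤ (Real.sqrt a * Real.sqrt b) ^ 2 := pow_le_pow_left₀ hc0 hcs 2
    rw [mul_pow, Real.sq_sqrt ha0, Real.sq_sqrt hb0] at h1
    nlinarith
  have haux : 1 - a ≤ Real.sqrt (1 - c ^ 2) := by
    apply Real.le_sqrt_of_sq_le
    nlinarith
  -- the weight
  have ht1 := hasSum_tw hG nG B
  have ht2 : HasSum (fun S => p (φ S) * beta B (φ S)) (tw B G) :=
    hasSum_comp_equiv φ (k := fun S => lam G S * beta B S) ht1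
  have ht : a ≤ tw B G + tw B G := by
    refine hasSum_le (fun S => ?_) hmns.hasSum (ht1.add ht2)
    by_cases hS : S ∈ N
    · rw [hmn, indicator_of_mem hS, hφa S, beta_map he hS, ← hφa S]
      have h1 := beta_nonneg B S
      have h2 := beta_le_one B S
      have h3 := min_le_left (p S) (p (φ S))
      have h4 := min_le_right (p S) (p (φ S))
      have h5 : min (p S) (p (φ S)) = min (p S) (p (φ S)) * beta B S +
          min (p S) (p (φ S)) * (1 - beta B S) := by ring
      rw [h5]
      exact add_le_add (mul_le_mul_of_nonneg_right h3 h1)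
        (mul_le_mul_of_nonneg_right h4 (by linarith))
    · rw [hmn, indicator_of_notMem hS]
      exact add_nonneg (mul_nonneg (hp0 _) (beta_nonneg _ _)) (mul_nonneg (hp0 _) (beta_nonneg _ _))
  linarith

/-! ### Freezing one bit -/

/-- Set the bit `x` to `b`. -/
noncomputable def setBit (x : P) (b : Bool) (o : P → Bool) : P → Bool :=
  open Classical in fun y => if y = x then b else o y

omit [Countable P] in
theorem measurable_setBit (x : P) (b : Bool) : Measurable (setBit x b) := by
  classical
  refine measurable_pi_lambda _ fun y => ?_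
  by_cases h : y = x
  · simp only [setBit, h, if_true]; exact measurable_const
  · simp only [setBit, h, if_false]; exact measurable_pi_apply y

omit [Countable P] in
theorem add_flip (x : P) (k : (P → Bool) → ℝ) (o : P → Bool) :
    k o + k (flipOn {x} o) = k (setBit x false o) + k (setBit x true o) := by
  classical
  have h1 : setBit x (o x) o = o := by
    funext y
    by_cases h : y = x
    · subst h; simp [setBit]
    · simp [setBit, h]
  have h2 : setBit x (!o x) o = flipOn {x} o := by
    funext y
    by_cases h : y = x
    · subst h; simp [setBit, flipOn]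
    · simp [setBit, flipOn, h]
  cases hx : o x
  · rw [hx] at h1 h2
    rw [← h2, Bool.not_false]
    nth_rewrite 1 [← h1]
    rfl
  · rw [hx] at h1 h2
    rw [← h2, Bool.not_true]
    nth_rewrite 1 [← h1]
    exact add_comm _ _

omit [Countable P] in
theorem integral_setBit (x : P) {k : (P → Bool) → ℝ} (hk : Measurable k) {C : ℝ}
    (hC : ∀ o, |k o| ≤ C) : ∫ o, k o ∂(cube P) =
      (∫ o, k (setBit x false o) ∂(cube P) + ∫ o, k (setBit x true o) ∂(cube P)) / 2 := by
  have hi : ∀ g : (P → Bool) → (P → Bool), Measurable g → Integrable (fun o => k (g o)) (cube P) :=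
    fun g hg => Integrable.of_bound (hk.comp hg).aestronglyMeasurable C
      (Filter.Eventually.of_forall fun o => hC _)
  have h1 := integral_comp_preserving (flipOn_preserving ({x} : Set P)) hk
  have h2 : ∫ o, (k o + k (flipOn {x} o)) ∂(cube P) =
      ∫ o, (k (setBit x false o) + k (setBit x true o)) ∂(cube P) :=
    integral_congr_ae (Filter.Eventually.of_forall fun o => add_flip x k o)
  have i0 : Integrable (fun o => k o) (cube P) := hi (fun o => o) measurable_id
  rw [integral_add i0 (hi _ (measurable_flipOn _)),
    integral_add (hi _ (measurable_setBit x false)) (hi _ (measurable_setBit x true)), h1] at h2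
  linarith

omit [Countable P] in
theorem wal_setBit_of_notMem {S : Finset P} {x : P} (hx : x ∉ S) (b : Bool) (o : P → Bool) :
    wal S (setBit x b o) = wal S o := by
  unfold wal
  apply Finset.prod_congr rfl
  intro y hy
  have : y ≠ x := fun h => hx (h ▸ hy)
  simp [setBit, this]

omit [Countable P] in
theorem wal_insert_setBit [DecidableEq P] {S : Finset P} {x : P} (hx : x ∉ S) (b : Bool)
    (o : P → Bool) : wal (insert x S) (setBit x b o) = sg b * wal S o := by
  have h : wal (insert x S) (setBit x b o) = sg (setBit x b o x) * wal S (setBit x b o) := by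
    unfold wal; rw [Finset.prod_insert hx]
  rw [h, wal_setBit_of_notMem hx]
  simp [setBit]

omit [Countable P] in
theorem coef_of_notMem {f : (P → Bool) → ℝ} (hf : Measurable f) {C : ℝ} (hC : ∀ o, |f o| ≤ C)
    {S : Finset P} {x : P} (hx : x ∉ S) : coef f S =
      (coef (fun o => f (setBit x false o)) S + coef (fun o => f (setBit x true o)) S) / 2 := by
  unfold coef
  rw [integral_setBit x (k := fun o => wal S o * f o) ((measurable_wal S).mul hf) (C := C)
    (fun o => by rw [abs_mul, abs_wal, one_mul]; exact hC o)]
  simp only [wal_setBit_of_notMem hx]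

omit [Countable P] in
theorem coef_insert [DecidableEq P] {f : (P → Bool) → ℝ} (hf : Measurable f) {C : ℝ}
    (hC : ∀ o, |f o| ≤ C) {S : Finset P} {x : P} (hx : x ∉ S) : coef f (insert x S) =
      (coef (fun o => f (setBit x false o)) S - coef (fun o => f (setBit x true o)) S) / 2 := by
  unfold coef
  rw [integral_setBit x (k := fun o => wal (insert x S) o * f o)
    ((measurable_wal _).mul hf) (C := C)
    (fun o => by rw [abs_mul, abs_wal, one_mul]; exact hC o)]
  simp only [wal_insert_setBit hx, sg_false, sg_true, one_mul, neg_mul, integral_neg]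
  ring

omit [Countable P] in
theorem coef_setBit_of_mem [DecidableEq P] {f : (P → Bool) → ℝ} (hf : Measurable f)
    {S : Finset P} {x : P} (hx : x ∈ S) (b : Bool) :
    coef (fun o => f (setBit x b o)) S = 0 := by
  have hm : Measurable fun o : P → Bool => wal S o * f (setBit x b o) :=
    (measurable_wal S).mul (hf.comp (measurable_setBit x b))
  have h := integral_comp_preserving (flipOn_preserving ({x} : Set P)) hm
  have h2 : ∀ o : P → Bool, setBit x b (flipOn {x} o) = setBit x b o := by
    intro o
    funext y
    by_cases h : y = x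
    · simp [setBit, h]
    · simp [setBit, flipOn, h]
  simp only [wal_flip S hx, h2, neg_mul, integral_neg] at h
  unfold coef
  linarith

omit [Countable P] in
theorem lam_add_insert [DecidableEq P] {G : (P → Bool) → EuclideanSpace ℝ (Fin D)}
    (hG : Measurable G) (nG : ∀ o, ‖G o‖ = 1) {S : Finset P} {x : P} (hx : x ∉ S) :
    lam G S + lam G (insert x S) =
      (lam (fun o => G (setBit x false o)) S + lam (fun o => G (setBit x true o)) S) / 2 := by
  unfold lam
  rw [← Finset.sum_add_distrib, ← Finset.sum_add_distrib, Finset.sum_div]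
  apply Finset.sum_congr rfl
  intro j _
  rw [coef_of_notMem (measurable_comp_apply hG j) (fun o => abs_apply_le (nG o) j) hx,
    coef_insert (measurable_comp_apply hG j) (fun o => abs_apply_le (nG o) j) hx]
  ring

omit [Countable P] in
theorem lam_setBit_of_mem [DecidableEq P] {G : (P → Bool) → EuclideanSpace ℝ (Fin D)}
    (hG : Measurable G) {S : Finset P} {x : P} (hx : x ∈ S) (b : Bool) :
    lam (fun o => G (setBit x b o)) S = 0 := by
  unfold lam
  apply Finset.sum_eq_zero
  intro j _
  rw [coef_setBit_of_mem (measurable_comp_apply hG j) hx b]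
  simp

/-- Toggle the membership of `x`. -/
def toggle [DecidableEq P] (x : P) : Finset P ≃ Finset P where
  toFun S := if x ∈ S then S.erase x else insert x S
  invFun S := if x ∈ S then S.erase x else insert x S
  left_inv S := by
    by_cases h : x ∈ S
    · simp [h]
    · simp [h]
  right_inv S := by
    by_cases h : x ∈ S
    · simp [h]
    · simp [h]

omit [Countable P] in
theorem toggle_apply [DecidableEq P] (x : P) (S : Finset P) :
    toggle x S = if x ∈ S then S.erase x else insert x S := rfl

/-- freezing one bit outside `B` -/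
theorem tw_setBit {G : (P → Bool) → EuclideanSpace ℝ (Fin D)} (hG : Measurable G)
    (nG : ∀ o, ‖G o‖ = 1) {B : Set P} {x : P} (hx : x ∉ B) :
    tw B G ≤ (tw B (fun o => G (setBit x false o)) + tw B (fun o => G (setBit x true o))) / 2 := by
  classical
  have hm : ∀ b, Measurable (fun o => G (setBit x b o)) := fun b => hG.comp (measurable_setBit x b)
  have h0 := hasSum_tw hG nG B
  have h0' := hasSum_comp_equiv (toggle x) h0
  have h1 := hasSum_tw (hm false) (fun o => nG _) B
  have h1' := hasSum_comp_equiv (toggle x) h1
  have h2 := hasSum_tw (hm true) (fun o => nG _) B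
  have h2' := hasSum_comp_equiv (toggle x) h2
  have hA := h0.add h0'
  have hB := ((h1.add h1').add (h2.add h2')).mul_left (1 / 2)
  have hle : tw B G + tw B G ≤ 1 / 2 * ((tw B (fun o => G (setBit x false o)) +
      tw B (fun o => G (setBit x false o))) + (tw B (fun o => G (setBit x true o)) +
      tw B (fun o => G (setBit x true o)))) := by
    refine hasSum_le (fun S => ?_) hA hB
    -- reduce to a set not containing `x`
    have key : ∀ R : Finset P, x ∉ R →
        lam G R * beta B R + lam G (insert x R) * beta B (insert x R) ≤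
        1 / 2 * ((lam (fun o => G (setBit x false o)) R * beta B R +
          lam (fun o => G (setBit x false o)) (insert x R) * beta B (insert x R)) +
          (lam (fun o => G (setBit x true o)) R * beta B R +
          lam (fun o => G (setBit x true o)) (insert x R) * beta B (insert x R))) := by
      intro R hR
      rw [lam_setBit_of_mem hG (Finset.mem_insert_self x R) false,
        lam_setBit_of_mem hG (Finset.mem_insert_self x R) true]
      have e1 := lam_add_insert hG nG hR
      have e2 := beta_insert_le hx hR
      have e3 := lam_nonneg G (insert x R)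
      have e4 : lam G (insert x R) * beta B (insert x R) ≤ lam G (insert x R) * beta B R :=
        mul_le_mul_of_nonneg_left e2 e3
      have e5 : (lam G R + lam G (insert x R)) * beta B R =
          (lam (fun o => G (setBit x false o)) R + lam (fun o => G (setBit x true o)) R) / 2 *
            beta B R := by rw [e1]
      linarith
    by_cases hS : x ∈ S
    · have h3 := key (S.erase x) (Finset.notMem_erase x S)
      rw [Finset.insert_erase hS] at h3
      simp only [toggle_apply, hS, if_true]
      linarith
    · have h3 := key S hS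
      simp only [toggle_apply, hS, if_false]
      linarith
  linarith

/-! ### Freezing finitely many bits -/

/-- Set the bits of `N` to the indicator of `U`. -/
noncomputable def setOn (N U : Finset P) (o : P → Bool) : P → Bool :=
  open Classical in fun y => if y ∈ N then decide (y ∈ U) else o y

omit [Countable P] in
theorem measurable_setOn (N U : Finset P) : Measurable (setOn N U) := by
  classical
  refine measurable_pi_lambda _ fun y => ?_
  by_cases h : y ∈ N
  · simp only [setOn, h, if_true]; exact measurable_const
  · simp only [setOn, h, if_false]; exact measurable_pi_apply y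

omit [Countable P] in
theorem setBit_setOn [DecidableEq P] {N U : Finset P} {x : P} (hN : x ∉ N) (hU : U ⊆ N)
    (o : P → Bool) : setBit x false (setOn N U o) = setOn (insert x N) U o ∧
      setBit x true (setOn N U o) = setOn (insert x N) (insert x U) o := by
  have hxU : x ∉ U := fun h => hN (hU h)
  constructor
  · funext y
    by_cases h : y = x
    · subst h; simp [setBit, setOn, hxU]
    · simp [setBit, setOn, h]
  · funext y
    by_cases h : y = x
    · subst h; simp [setBit, setOn]
    · by_cases h' : y ∈ N
      · simp [setBit, setOn, h, h']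
      · simp [setBit, setOn, h, h']

/-- (B) freezing finitely many bits outside `B` -/
theorem spec_near {G : (P → Bool) → EuclideanSpace ℝ (Fin D)} (hG : Measurable G)
    (nG : ∀ o, ‖G o‖ = 1) {B : Set P} (N : Finset P) (hN : ∀ x ∈ N, x ∉ B) :
    tw B G ≤ ((2 : ℝ) ^ N.card)⁻¹ * ∑ U ∈ N.powerset, tw B (fun o => G (setOn N U o)) := by
  classical
  induction N using Finset.induction_on generalizing G with
  | empty =>
    have h : ∀ o : P → Bool, setOn (∅ : Finset P) ∅ o = o := by
      intro o; funext y; simp [setOn]
    simp [h]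
  | insert x N hx ih =>
    have hNx : ∀ y ∈ N, y ∉ B := fun y hy => hN y (Finset.mem_insert_of_mem hy)
    have hxB : x ∉ B := hN x (Finset.mem_insert_self x N)
    have h1 := tw_setBit hG nG hxB
    have h2 := ih (G := fun o => G (setBit x false o)) (hG.comp (measurable_setBit x false))
      (fun o => nG _) hNx
    have h3 := ih (G := fun o => G (setBit x true o)) (hG.comp (measurable_setBit x true))
      (fun o => nG _) hNx
    rw [Finset.sum_powerset_insert hx, Finset.card_insert_of_notMem hx]
    have e2 : ∑ U ∈ N.powerset, tw B (fun o => G (setBit x false (setOn N U o))) =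
        ∑ U ∈ N.powerset, tw B (fun o => G (setOn (insert x N) U o)) := by
      apply Finset.sum_congr rfl
      intro U hU
      congr 1
      funext o
      rw [(setBit_setOn hx (Finset.mem_powerset.1 hU) o).1]
    have e3 : ∑ U ∈ N.powerset, tw B (fun o => G (setBit x true (setOn N U o))) =
        ∑ U ∈ N.powerset, tw B (fun o => G (setOn (insert x N) (insert x U) o)) := by
      apply Finset.sum_congr rfl
      intro U hU
      congr 1
      funext o
      rw [(setBit_setOn hx (Finset.mem_powerset.1 hU) o).2]
    rw [e2] at h2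
    rw [e3] at h3
    have e4 : ((2 : ℝ) ^ (N.card + 1))⁻¹ = ((2 : ℝ) ^ N.card)⁻¹ / 2 := by
      rw [pow_succ, mul_inv]; ring
    rw [e4]
    calc tw B G ≤ _ := h1
      _ ≤ (((2 : ℝ) ^ N.card)⁻¹ * ∑ U ∈ N.powerset, tw B (fun o => G (setOn (insert x N) U o)) +
          ((2 : ℝ) ^ N.card)⁻¹ *
            ∑ U ∈ N.powerset, tw B (fun o => G (setOn (insert x N) (insert x U) o))) / 2 := by
          linarith
      _ = _ := by ring

end

end Pool.Agent.HypVec
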