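import Mathlib

/-!
# H2 / HypVec: Hellinger affinity controls total variation (page, section 4, Lemma TV)

With `x = p(S)`, `y = q(S)` Cauchy-Schwarz on `S` and on its complement gives
`s ≤ √(x y) + √((1 - x) (1 - y))`, and the square of the right hand side is at most `1 - (x - y)²`.
-/

namespace HypVec

/-- the square roots of the products are summable -/
theorem summable_sqrt_mul {ι : Type*} (p q : ι → ℝ) (hp : ∀ b, 0 ≤ p b) (hq : ∀ b, 0 ≤ q b)
    (hps : Summable p) (hqs : Summable q) : Summable fun b => Real.sqrt (p b * q b) := by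
  refine Summable.of_nonneg_of_le (fun b => Real.sqrt_nonneg _) (fun b => ?_)
    ((hps.add hqs).mul_left (1 / 2))
  rw [Real.sqrt_le_left (by have := hp b; have := hq b; positivity)]
  nlinarith [sq_nonneg (p b - q b), hp b, hq b]

/-- Cauchy-Schwarz for sums of square roots -/
theorem tsum_sqrt_mul_le {ι : Type*} (p q : ι → ℝ) (hp : ∀ b, 0 ≤ p b) (hq : ∀ b, 0 ≤ q b)
    (hps : Summable p) (hqs : Summable q) :
    ∑' b, Real.sqrt (p b * q b) ≤ Real.sqrt (∑' b, p b) * Real.sqrt (∑' b, q b) := by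
  refine (summable_sqrt_mul p q hp hq hps hqs).tsum_le_of_sum_le (fun t => ?_)
  have h1 : ∑ b ∈ t, Real.sqrt (p b * q b) = ∑ b ∈ t, Real.sqrt (p b) * Real.sqrt (q b) :=
    Finset.sum_congr rfl fun b _ => Real.sqrt_mul (hp b) _
  rw [h1]
  refine (Real.sum_sqrt_mul_sqrt_le t hp hq).trans ?_
  have h2 : ∑ b ∈ t, p b ≤ ∑' b, p b := hps.sum_le_tsum t fun b _ => hp b
  have h3 : ∑ b ∈ t, q b ≤ ∑' b, q b := hqs.sum_le_tsum t fun b _ => hq b
  exact mul_le_mul (Real.sqrt_le_sqrt h2) (Real.sqrt_le_sqrt h3) (Real.sqrt_nonneg _)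
    (Real.sqrt_nonneg _)

theorem two_point {x y : ℝ} (hx : 0 ≤ x) (hx1 : x ≤ 1) (hy : 0 ≤ y) (hy1 : y ≤ 1) :
    (Real.sqrt x * Real.sqrt y + Real.sqrt (1 - x) * Real.sqrt (1 - y)) ^ 2 ≤ 1 - (x - y) ^ 2 := by
  have a2 : Real.sqrt x ^ 2 = x := Real.sq_sqrt hx
  have b2 : Real.sqrt y ^ 2 = y := Real.sq_sqrt hy
  have c2 : Real.sqrt (1 - x) ^ 2 = 1 - x := Real.sq_sqrt (by linarith)
  have d2 : Real.sqrt (1 - y) ^ 2 = 1 - y := Real.sq_sqrt (by linarith)
  set a := Real.sqrt x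
  set b := Real.sqrt y
  set c := Real.sqrt (1 - x)
  set d := Real.sqrt (1 - y)
  have h : (a * b + c * d) ^ 2 = a ^ 2 * b ^ 2 + c ^ 2 * d ^ 2 + 2 * ((a * c) * (b * d)) := by ring
  have h' : 2 * ((a * c) * (b * d)) ≤ (a * c) ^ 2 + (b * d) ^ 2 := by
    nlinarith [sq_nonneg (a * c - b * d)]
  rw [h]
  have h3 : (a * c) ^ 2 = x * (1 - x) := by rw [mul_pow, a2, c2]
  have h4 : (b * d) ^ 2 = y * (1 - y) := by rw [mul_pow, b2, d2]
  rw [a2, b2, c2, d2]
  nlinarith

theorem tv_bound {ι : Type*} (p q : ι → ℝ) (hp : ∀ b, 0 ≤ p b) (hq : ∀ b, 0 ≤ q b)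
    (hps : HasSum p 1) (hqs : HasSum q 1) (s : ℝ) (hs : 0 ≤ s)
    (h : s ≤ ∑' b, Real.sqrt (p b * q b)) (S : Set ι) :
    |∑' b, S.indicator p b - ∑' b, S.indicator q b| ≤ Real.sqrt (1 - s ^ 2) := by
  classical
  have hpS := hps.summable.indicator S
  have hqS := hqs.summable.indicator S
  have hpC := hps.summable.indicator Sᶜ
  have hqC := hqs.summable.indicator Sᶜ
  have e1 : ∀ b, S.indicator p b + Sᶜ.indicator p b = p b := fun b => by simp
  have e2 : ∀ b, S.indicator q b + Sᶜ.indicator q b = q b := fun b => by simp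
  have e3 : ∀ b, Real.sqrt (p b * q b)
      = Real.sqrt (S.indicator p b * S.indicator q b)
        + Real.sqrt (Sᶜ.indicator p b * Sᶜ.indicator q b) := fun b => by
    by_cases hb : b ∈ S
    · simp [hb]
    · simp [hb]
  have n1 : ∀ b, 0 ≤ S.indicator p b := fun b => Set.indicator_nonneg (fun b _ => hp b) b
  have n2 : ∀ b, 0 ≤ S.indicator q b := fun b => Set.indicator_nonneg (fun b _ => hq b) b
  have n3 : ∀ b, 0 ≤ Sᶜ.indicator p b := fun b => Set.indicator_nonneg (fun b _ => hp b) b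
  have n4 : ∀ b, 0 ≤ Sᶜ.indicator q b := fun b => Set.indicator_nonneg (fun b _ => hq b) b
  have hx : 0 ≤ ∑' b, S.indicator p b := tsum_nonneg n1
  have hy : 0 ≤ ∑' b, S.indicator q b := tsum_nonneg n2
  have hx' : 0 ≤ ∑' b, Sᶜ.indicator p b := tsum_nonneg n3
  have hy' : 0 ≤ ∑' b, Sᶜ.indicator q b := tsum_nonneg n4
  have s1 : ∑' b, S.indicator p b + ∑' b, Sᶜ.indicator p b = 1 := by
    rw [← hpS.tsum_add hpC, ← hps.tsum_eq]
    exact tsum_congr e1
  have s2 : ∑' b, S.indicator q b + ∑' b, Sᶜ.indicator q b = 1 := by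
    rw [← hqS.tsum_add hqC, ← hqs.tsum_eq]
    exact tsum_congr e2
  have s3 : ∑' b, Real.sqrt (p b * q b)
      = ∑' b, Real.sqrt (S.indicator p b * S.indicator q b)
        + ∑' b, Real.sqrt (Sᶜ.indicator p b * Sᶜ.indicator q b) := by
    rw [← (summable_sqrt_mul _ _ n1 n2 hpS hqS).tsum_add (summable_sqrt_mul _ _ n3 n4 hpC hqC)]
    exact tsum_congr e3
  have c1 := tsum_sqrt_mul_le _ _ n1 n2 hpS hqS
  have c2 := tsum_sqrt_mul_le _ _ n3 n4 hpC hqC
  set x := ∑' b, S.indicator p b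
  set y := ∑' b, S.indicator q b
  have ex : ∑' b, Sᶜ.indicator p b = 1 - x := by linarith
  have ey : ∑' b, Sᶜ.indicator q b = 1 - y := by linarith
  rw [ex, ey] at c2
  have key := two_point hx (by linarith) hy (by linarith)
  apply Real.abs_le_sqrt
  have hle : s ≤ Real.sqrt x * Real.sqrt y + Real.sqrt (1 - x) * Real.sqrt (1 - y) := by
    rw [s3] at h
    linarith
  have hsq : s ^ 2 ≤ (Real.sqrt x * Real.sqrt y + Real.sqrt (1 - x) * Real.sqrt (1 - y)) ^ 2 :=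
    pow_le_pow_left₀ hs hle 2
  linarith

end HypVec
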