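import Pool.Agent.Lib.HypVec.Families

/-!
# H2 / HypVec: thin sets

A finite graph whose vertex set is the union of three thin sets has no three families as in
`uSys_families`, so it receives no Borel homomorphism from the forest `(uSys K).gr`.
-/

namespace HypVec

/-- Thin sets of vertices: independent sets are thin, and `P` is thin if all neighbours of the
vertices of `P` lie in the union of two thin sets. -/
inductive Thin {W : Type*} (H : SimpleGraph W) : Set W → Prop
  | indep (S : Set W) : (∀ a ∈ S, ∀ b ∈ S, ¬ H.Adj a b) → Thin H S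
  | sep (A B P : Set W) : Thin H A → Thin H B → (∀ a ∈ P, ∀ b, H.Adj a b → b ∈ A ∪ B) → Thin H P

/-- The vertex set is the union of three thin sets. -/
def ThinCover {W : Type*} (H : SimpleGraph W) : Prop :=
  ∃ A B C : Set W, Thin H A ∧ Thin H B ∧ Thin H C ∧ ∀ a, a ∈ A ∨ a ∈ B ∨ a ∈ C

theorem Thin.mono {W : Type*} {H : SimpleGraph W} {S T : Set W} (hT : Thin H T) (h : S ⊆ T) :
    Thin H S := by
  cases hT with
  | indep _ hi => exact .indep S fun a ha b hb => hi a (h ha) b (h hb)
  | sep A B _ hA hB hs => exact .sep A B S hA hB fun a ha => hs a (h ha)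

/-- If `A` and `B` are in no family and `A`, `B`, `C` cover, then `C` is in all families. -/
theorem mem_of_cover {W : Type*} {F : Fin 3 → Set (Set W)}
    (h : ∀ B : Fin 3 → Set W, (∀ a, ∃ i, a ∈ B i) → ∃ i, B i ∈ F i) {A B C : Set W}
    (hA : ∀ i, A ∉ F i) (hB : ∀ i, B ∉ F i) (hc : ∀ a, a ∈ A ∨ a ∈ B ∨ a ∈ C) (i : Fin 3) :
    C ∈ F i := by
  obtain ⟨j, hj⟩ := h (fun j => if j = i then C else if j = i + 1 then A else B) (by
    intro a
    rcases hc a with h1 | h1 | h1
    · refine ⟨i + 1, ?_⟩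
      have h2 : i + 1 ≠ i := by revert i; decide
      simpa [h2] using h1
    · refine ⟨i + 2, ?_⟩
      have h2 : i + 2 ≠ i := by revert i; decide
      have h3 : i + 2 ≠ i + 1 := by revert i; decide
      simpa [h2, h3] using h1
    · exact ⟨i, by simpa using h1⟩)
  by_cases h1 : j = i
  · rw [if_pos h1] at hj
    rwa [h1] at hj
  · rw [if_neg h1] at hj
    by_cases h2 : j = i + 1
    · rw [if_pos h2] at hj
      exact absurd hj (hA j)
    · rw [if_neg h2] at hj
      exact absurd hj (hB j)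

/-- Thin sets are in no family. -/
theorem Thin.not_mem {W : Type*} {H : SimpleGraph W} {F : Fin 3 → Set (Set W)}
    (h2 : ∀ B : Fin 3 → Set W, (∀ a, ∃ i, a ∈ B i) → ∃ i, B i ∈ F i)
    (h3 : ∀ i S S', S ∈ F i → S' ∈ F i → ∃ a ∈ S, ∃ b ∈ S', H.Adj a b) {S : Set W}
    (hS : Thin H S) (i : Fin 3) : S ∉ F i := by
  induction hS generalizing i with
  | indep S h =>
    intro hS
    obtain ⟨a, ha, b, hb, hab⟩ := h3 i S S hS hS
    exact h a ha b hb hab
  | sep A B P _ _ h ihA ihB =>
    intro hP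
    have hC : (A ∪ B)ᶜ ∈ F i := mem_of_cover h2 ihA ihB (fun a => by
      by_cases h1 : a ∈ A
      · exact Or.inl h1
      · by_cases h4 : a ∈ B
        · exact Or.inr (Or.inl h4)
        · exact Or.inr (Or.inr fun h5 => h5.elim h1 h4)) i
    obtain ⟨a, ha, b, hb, hab⟩ := h3 i P _ hP hC
    exact hb (h a ha b hab)

/-- No Borel homomorphism from the forest to a finite graph with a thin cover. -/
theorem ThinCover.no_hom {W : Type*} [Finite W] {H : SimpleGraph W} (h : ThinCover H) (K : Keys)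
    (f : UX K → W) (hf : ∀ a, MeasurableSet (f ⁻¹' {a})) :
    ¬ ∀ z z', (uSys K).gr.Adj z z' → H.Adj (f z) (f z') := by
  intro hadj
  obtain ⟨F, -, h2, h3⟩ := uSys_families K H.Adj f hf hadj
  obtain ⟨A, B, C, hA, hB, hC, hc⟩ := h
  exact hC.not_mem h2 h3 0 (mem_of_cover h2 (hA.not_mem h2 h3) (hB.not_mem h2 h3) hc 0)

end HypVec
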