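import Pool.Agent.Lib.HypVec.Thin

/-!
# Colourings without short odd walks between vertices of the same colour

If `H` has a colouring with at most `3 * 2 ^ r` colours such that no walk of length `2 * r + 1`
joins two vertices of the same colour, then the vertex set is covered by three thin sets.
-/

namespace HypVec

variable {W : Type*}

/-- the set of neighbours of a set -/
def nbs (H : SimpleGraph W) (S : Set W) : Set W := {y | ∃ x ∈ S, H.Adj x y}

theorem mem_iterate_nbs (H : SimpleGraph W) (k : ℕ) (S : Set W) (y : W) :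
    y ∈ (nbs H)^[k] S ↔ ∃ x ∈ S, ∃ p : H.Walk x y, p.length = k := by
  induction k generalizing y with
  | zero =>
    simp only [Function.iterate_zero, id_eq]
    constructor
    · intro h
      exact ⟨y, h, SimpleGraph.Walk.nil, rfl⟩
    · rintro ⟨x, hx, p, hp⟩
      obtain rfl := SimpleGraph.Walk.eq_of_length_eq_zero hp
      exact hx
  | succ k ih =>
    rw [Function.iterate_succ_apply']
    constructor
    · rintro ⟨z, hz, hzy⟩
      obtain ⟨x, hx, p, hp⟩ := (ih z).1 hz
      exact ⟨x, hx, p.concat hzy, by rw [SimpleGraph.Walk.length_concat, hp]⟩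
    · rintro ⟨x, hx, p, hp⟩
      have hnil : ¬ p.Nil := by
        intro h
        have := SimpleGraph.Walk.length_eq_zero_iff.2 h
        omega
      refine ⟨p.penultimate, (ih _).2 ⟨x, hx, p.dropLast, ?_⟩, p.adj_penultimate hnil⟩
      have h1 := congrArg SimpleGraph.Walk.length (p.concat_dropLast (p.adj_penultimate hnil))
      rw [SimpleGraph.Walk.length_concat] at h1
      omega

/-- unions of `2 ^ j` colour classes -/
theorem thin_iterate (H : SimpleGraph W) {m : ℕ} (c : W → Fin m) (r : ℕ)
    (hc : ∀ x y (p : H.Walk x y), p.length = 2 * r + 1 → c x ≠ c y) :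
    ∀ j k : ℕ, j + k = r → ∀ J : Finset (Fin m), J.card ≤ 2 ^ j →
      Thin H ((nbs H)^[k] {x | c x ∈ J}) := by
  intro j
  induction j with
  | zero =>
    intro k hk J hJ
    refine Thin.indep _ ?_
    intro u hu v hv huv
    obtain ⟨x, hx, p, hp⟩ := (mem_iterate_nbs H k _ u).1 hu
    obtain ⟨y, hy, q, hq⟩ := (mem_iterate_nbs H k _ v).1 hv
    refine hc x y ((p.concat huv).append q.reverse) ?_ ?_
    · rw [SimpleGraph.Walk.length_append, SimpleGraph.Walk.length_concat,
        SimpleGraph.Walk.length_reverse]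
      omega
    · have h1 : J.card ≤ 1 := by simpa using hJ
      exact Finset.card_le_one.1 h1 _ hx _ hy
  | succ j ih =>
    intro k hk J hJ
    obtain ⟨J1, h1, h2⟩ := Finset.exists_subset_card_eq (s := J) (n := min J.card (2 ^ j))
      (min_le_left _ _)
    have hJ1 : J1.card ≤ 2 ^ j := by rw [h2]; exact min_le_right _ _
    have hJ2 : (J \ J1).card ≤ 2 ^ j := by
      rw [Finset.card_sdiff_of_subset h1, h2]
      have : 2 ^ (j + 1) = 2 ^ j + 2 ^ j := by ring
      omega
    refine Thin.sep _ _ _ (ih (k + 1) (by omega) J1 hJ1) (ih (k + 1) (by omega) _ hJ2) ?_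
    intro x hx y hxy
    obtain ⟨z, hz, p, hp⟩ := (mem_iterate_nbs H k _ x).1 hx
    by_cases hz1 : c z ∈ J1
    · left
      exact (mem_iterate_nbs H (k + 1) _ y).2
        ⟨z, hz1, p.concat hxy, by rw [SimpleGraph.Walk.length_concat, hp]⟩
    · right
      exact (mem_iterate_nbs H (k + 1) _ y).2
        ⟨z, Finset.mem_sdiff.2 ⟨hz, hz1⟩, p.concat hxy,
          by rw [SimpleGraph.Walk.length_concat, hp]⟩

/-- If `H` has a colouring with at most `3 * 2 ^ r` colours such that no walk of length `2 * r + 1`
joins two vertices of the same colour, then the vertex set is covered by three thin sets. -/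
theorem thinCover_of_coloring (H : SimpleGraph W) (r m : ℕ) (c : W → Fin m)
    (hm : m ≤ 3 * 2 ^ r) (hc : ∀ a b (p : H.Walk a b), p.length = 2 * r + 1 → c a ≠ c b) :
    ThinCover H := by
  classical
  have key : ∀ t : ℕ, ((Finset.univ : Finset (Fin m)).filter fun i =>
      t * 2 ^ r ≤ i.val ∧ i.val < (t + 1) * 2 ^ r).card ≤ 2 ^ r := by
    intro t
    calc _ = (((Finset.univ : Finset (Fin m)).filter fun i =>
      t * 2 ^ r ≤ i.val ∧ i.val < (t + 1) * 2 ^ r).map Fin.valEmbedding).card := by
          rw [Finset.card_map]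
      _ ≤ (Finset.Ico (t * 2 ^ r) ((t + 1) * 2 ^ r)).card := by
          apply Finset.card_le_card
          intro x hx
          simp only [Finset.mem_map, Finset.mem_filter, Finset.mem_univ, true_and,
            Fin.valEmbedding_apply] at hx
          obtain ⟨i, hi, rfl⟩ := hx
          exact Finset.mem_Ico.2 hi
      _ = 2 ^ r := by
          rw [Nat.card_Ico]
          have : (t + 1) * 2 ^ r = t * 2 ^ r + 2 ^ r := by ring
          omega
  refine ⟨_, _, _, thin_iterate H c r hc r 0 (by omega) _ (key 0),
    thin_iterate H c r hc r 0 (by omega) _ (key 1),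
    thin_iterate H c r hc r 0 (by omega) _ (key 2), ?_⟩
  intro a
  have ha := (c a).isLt
  simp only [Function.iterate_zero, id_eq, Set.mem_ofPred_eq, Finset.mem_filter, Finset.mem_univ,
    true_and]
  have e1 : (0 + 1) * 2 ^ r = 2 ^ r := by ring
  have e2 : (1 + 1) * 2 ^ r = 2 * 2 ^ r := by ring
  have e3 : (2 + 1) * 2 ^ r = 3 * 2 ^ r := by ring
  rw [e1, e2, e3]
  omega

end HypVec
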