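import Pool.Agent.Lib.HypVec.Base

/-!
# H2 / HypVec: a 3-regular acyclic hyperfinite Borel graph without Borel 3-colouring, in every universe
-/

open MeasureTheory

namespace HypVec

universe u

theorem wact_up {X : Type*} (δ : Fin 3 → X → X) (w : List (Fin 3)) (x : ULift.{u} X) :
    (wact (fun i y => (⟨δ i y.down⟩ : ULift.{u} X)) w x).down = wact δ w x.down := by
  induction w generalizing x with
  | nil => rfl
  | cons i w ih => exact ih _

/-- the same system in another universe -/
def Sys.up {X : Type*} (S : Sys X) : Sys (ULift.{u} X) where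
  δ i x := ⟨S.δ i x.down⟩
  inv i x := ULift.ext _ _ (S.inv i x.down)
  lab x := S.lab x.down
  free w hw h0 x := by
    rw [wact_up]
    exact S.free w hw h0 x.down
  fin i x := S.fin i x.down

theorem standardBorelSpace_ulift {X : Type*} [MeasurableSpace X] [StandardBorelSpace X] :
    StandardBorelSpace (ULift.{u} X) := by
  let _ := upgradeStandardBorel X
  have : PolishSpace (ULift.{u} X) := Homeomorph.ulift.isClosedEmbedding.polishSpace
  exact ⟨inferInstance, inferInstance, inferInstance⟩

/-- There is a 3-regular acyclic hyperfinite Borel graph which has no Borel homomorphism to any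
finite 3-colourable graph. -/
theorem exists_graph_no_three_colouring : ∃ (V : Type u) (_ : MeasurableSpace V)
    (_ : StandardBorelSpace V) (G : SimpleGraph V) (G' : ℕ → SimpleGraph V),
    MeasurableSet {p : V × V | G.Adj p.1 p.2} ∧ (∀ x, (G.neighborSet x).ncard = 3) ∧
    G.IsAcyclic ∧ (∀ n, MeasurableSet {p : V × V | (G' n).Adj p.1 p.2}) ∧
    (∀ n, G' n ≤ G' (n + 1)) ∧ (∀ n (C : (G' n).ConnectedComponent), C.supp.Finite) ∧
    (∀ x y, G.Adj x y ↔ ∃ n, (G' n).Adj x y) ∧
    ∀ c : V → Fin 3, (∀ i, MeasurableSet (c ⁻¹' {i})) → ∃ x y, G.Adj x y ∧ c x = c y := by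
  obtain ⟨K⟩ := exists_keys
  let S : Sys (ULift.{u} (Y K)) := (baseSys K).up
  have hSt : StandardBorelSpace (ULift.{u} (Y K)) := standardBorelSpace_ulift
  have hδ : ∀ i, Measurable (S.δ i) := fun i =>
    measurable_up.comp ((measurable_alphaY K i).comp measurable_down)
  have hl : Measurable S.lab := (measurable_baseSys_lab K).comp measurable_down
  refine ⟨ULift.{u} (Y K), inferInstance, hSt, S.gr, S.gN, S.measurableSet_gr hδ,
    S.ncard_neighborSet, S.isAcyclic, S.measurableSet_gN hδ hl, ?_, ?_, S.gr_iff, ?_⟩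
  · intro n
    exact S.gN_mono (Nat.le_succ n)
  · intro n C
    induction C using SimpleGraph.ConnectedComponent.ind with
    | _ x =>
      refine (S.finite_reachable n x).subset ?_
      intro y hy
      exact (SimpleGraph.ConnectedComponent.exact hy).symm
  · intro c hc
    have hcm : Measurable c := measurable_to_countable' hc
    obtain ⟨x, i, h1, h2⟩ := no_choiceY K (c := fun y => c ⟨y⟩) (hcm.comp measurable_up)
    refine ⟨⟨x⟩, ⟨alphaY K i x⟩, ⟨i, rfl⟩, ?_⟩
    exact h1.trans h2.symm

end HypVec
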