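import Mathlib

/-!
# H2 / HypVec: the rooted 3-regular tree as reduced lists

`W` = vertices (reduced lists over `Fin 3`), `E` = edges (nonempty reduced lists; the edge `e` joins
`pl e` (drop the last letter) to `toW e`).  `mv i` re-roots the tree at the neighbour `i` of the root,
`tau i` is the induced map on edges.  Everything here is elementary.
-/

namespace HypVec

abbrev L3 := List (Fin 3)

/-- reduced list -/
def IsW (w : L3) : Prop := w.IsChain (· ≠ ·)

instance (w : L3) : Decidable (IsW w) := by unfold IsW; infer_instance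

abbrev W := {w : L3 // IsW w}
abbrev E := {w : L3 // w ≠ [] ∧ IsW w}

/-- re-rooting on lists -/
def mvL (i : Fin 3) : L3 → L3
  | [] => [i]
  | j :: t => if j = i then t else i :: j :: t

theorem isW_nil : IsW [] := by simp [IsW]
theorem isW_single (i : Fin 3) : IsW [i] := by simp [IsW]

theorem isW_mvL (i : Fin 3) {w : L3} (h : IsW w) : IsW (mvL i w) := by
  cases w with
  | nil => simp [mvL, IsW]
  | cons j t =>
    simp only [mvL]
    split_ifs with hj
    · exact h.tail
    · simp only [IsW, List.isChain_cons_cons]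
      exact ⟨fun e => hj e.symm, h⟩

theorem mvL_mvL (i : Fin 3) {w : L3} (h : IsW w) : mvL i (mvL i w) = w := by
  cases w with
  | nil => simp [mvL]
  | cons j t =>
    simp only [mvL]
    split_ifs with hj
    · subst hj
      cases t with
      | nil => simp [mvL]
      | cons k t =>
        have : j ≠ k := (List.isChain_cons_cons.1 h).1
        simp [mvL, this.symm]
    · simp [mvL]

def mv (i : Fin 3) (w : W) : W := ⟨mvL i w.1, isW_mvL i w.2⟩

@[simp] theorem mv_mv (i : Fin 3) (w : W) : mv i (mv i w) = w := Subtype.ext (mvL_mvL i w.2)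

theorem mv_inj (i : Fin 3) : Function.Injective (mv i) :=
  Function.LeftInverse.injective (mv_mv i)

/-- the root -/
def rt : W := ⟨[], isW_nil⟩
/-- the neighbours of the root -/
def nbr (i : Fin 3) : W := ⟨[i], isW_single i⟩

@[simp] theorem mv_rt (i : Fin 3) : mv i rt = nbr i := by simp [mv, rt, nbr, mvL]
@[simp] theorem mv_nbr (i : Fin 3) : mv i (nbr i) = rt := by simp [mv, rt, nbr, mvL]

theorem mvL_ne_nil (i : Fin 3) {w : L3} (h0 : w ≠ [i]) : mvL i w ≠ [] := by
  cases w with
  | nil => simp [mvL]
  | cons j t =>
    simp only [mvL]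
    split_ifs with hj
    · subst hj; intro h; exact h0 (by rw [h])
    · simp

def tau (i : Fin 3) (e : E) : E :=
  if h : e.1 = [i] then e else ⟨mvL i e.1, mvL_ne_nil i h, isW_mvL i e.2.2⟩

/-- the edge from the root to its neighbour `i` -/
def ed (i : Fin 3) : E := ⟨[i], by simp, isW_single i⟩

@[simp] theorem tau_ed (i : Fin 3) : tau i (ed i) = ed i := by simp [tau, ed]

theorem mvL_ne_single (i : Fin 3) {w : L3} (hw : IsW w) (h0 : w ≠ []) : mvL i w ≠ [i] := by
  intro h
  have := mvL_mvL i hw
  rw [h] at this
  simp [mvL] at this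
  exact h0 this

@[simp] theorem tau_tau (i : Fin 3) (e : E) : tau i (tau i e) = e := by
  by_cases h : e.1 = [i]
  · simp [tau, h]
  · have h2 : mvL i e.1 ≠ [i] := mvL_ne_single i e.2.2 e.2.1
    simp only [tau, h, h2, dite_false]
    exact Subtype.ext (mvL_mvL i e.2.2)

/-- near end (towards the root) of an edge -/
def pl (e : E) : W := ⟨e.1.dropLast, by
  have := e.2.2
  unfold IsW at *
  exact this.dropLast⟩
/-- far end of an edge -/
def toW (e : E) : W := ⟨e.1, e.2.2⟩

/-- first letter of an edge -/
def hd (e : E) : Fin 3 := e.1.head e.2.1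
/-- last letter = type of an edge -/
def lst (e : E) : Fin 3 := e.1.getLast e.2.1

@[simp] theorem hd_ed (i : Fin 3) : hd (ed i) = i := by simp [hd, ed]
@[simp] theorem lst_ed (i : Fin 3) : lst (ed i) = i := by simp [lst, ed]

/-- `i :: e` for an edge not starting with `i` -/
def consE (i : Fin 3) (e : E) (h : hd e ≠ i) : E := ⟨i :: e.1, by simp, by
  obtain ⟨w, hne, hw⟩ := e
  cases w with
  | nil => exact absurd rfl hne
  | cons j t =>
    simp only [IsW, List.isChain_cons_cons]
    exact ⟨fun hh => h (by simp [hd, hh]), hw⟩⟩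

/-- every edge starting with `i` is `ed i` or `consE i e'` -/
theorem eq_ed_or_consE (i : Fin 3) (e : E) (h : hd e = i) :
    e = ed i ∨ ∃ (e' : E) (h' : hd e' ≠ i), e = consE i e' h' ∧ e.1.length = e'.1.length + 1 := by
  obtain ⟨w, hne, hw⟩ := e
  cases w with
  | nil => exact absurd rfl hne
  | cons j t =>
    simp [hd] at h
    subst h
    cases t with
    | nil => left; rfl
    | cons k t =>
      right
      have hk : j ≠ k := (List.isChain_cons_cons.1 hw).1
      refine ⟨⟨k :: t, by simp, (List.isChain_cons_cons.1 hw).2⟩, ?_, ?_, ?_⟩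
      · simp [hd]; exact hk.symm
      · rfl
      · rfl

theorem tau_consE (i : Fin 3) (e : E) (h : hd e ≠ i) : tau i (consE i e h) = e := by
  have h1 : (consE i e h).1 ≠ [i] := by
    simp [consE]; exact e.2.1
  simp only [tau, h1, dite_false]
  apply Subtype.ext
  simp [consE, mvL]

theorem tau_of_hd_ne (i : Fin 3) (e : E) (h : hd e ≠ i) : tau i e = consE i e h := by
  have := congrArg (tau i) (tau_consE i e h)
  rw [tau_tau] at this
  exact this.symm

/-- adjacency is preserved by re-rooting -/
theorem mv_ends (i : Fin 3) (e : E) :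
    (mv i (pl e) = pl (tau i e) ∧ mv i (toW e) = toW (tau i e)) ∨
    (mv i (pl e) = toW (tau i e) ∧ mv i (toW e) = pl (tau i e)) := by
  by_cases h : e.1 = [i]
  · right
    have he : e = ed i := Subtype.ext h
    subst he
    rw [tau_ed]
    constructor <;> (apply Subtype.ext; simp [mv, toW, ed, pl, mvL])
  · left
    obtain ⟨w, hne, hw⟩ := e
    have ht : tau i ⟨w, hne, hw⟩ = ⟨mvL i w, mvL_ne_nil i h, isW_mvL i hw⟩ := by
      simp only [tau]
      rw [dif_neg h]
    rw [ht]
    refine ⟨Subtype.ext ?_, rfl⟩
    show mvL i w.dropLast = (mvL i w).dropLast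
    cases w with
    | nil => exact absurd rfl hne
    | cons j t =>
      cases t with
      | nil =>
        have hj : j ≠ i := by
          intro hh
          subst hh
          exact h rfl
        simp [mvL, hj]
      | cons k t =>
        by_cases hj : j = i
        · subst hj
          simp [mvL]
        · simp [mvL, hj]

theorem pl_ed (i : Fin 3) : pl (ed i) = rt := by simp [pl, ed, rt]
theorem toW_ed (i : Fin 3) : toW (ed i) = nbr i := rfl

end HypVec
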