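import Mathlib

/-!
# The graph `U27`: chromatic number 5

`U27` is the universal graph on the triples `(a, b, c)` over `{0, 1, 2}` for a vertex set which is
covered by three thin sets with two separation steps: the parts `a = 2`, `b = 1`, `b = 2`, `c = 1`,
`c = 2` are independent, there is no edge between the parts `a = 0` and `b = 0`, and there is no
edge between the parts `a = 1` and `c = 0`; all other pairs are adjacent.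
-/

namespace HypVec

namespace U27G

/-- the vertices -/
abbrev V27 := Fin 3 × Fin 3 × Fin 3

/-- forbidden (ordered) pairs -/
def Bad (u v : V27) : Prop :=
  (u.1 = 2 ∧ v.1 = 2) ∨ (u.2.1 = 1 ∧ v.2.1 = 1) ∨ (u.2.1 = 2 ∧ v.2.1 = 2) ∨
    (u.2.2 = 1 ∧ v.2.2 = 1) ∨ (u.2.2 = 2 ∧ v.2.2 = 2) ∨ (u.1 = 0 ∧ v.2.1 = 0) ∨
    (u.1 = 1 ∧ v.2.2 = 0)

instance (u v : V27) : Decidable (Bad u v) := by unfold Bad; infer_instance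

/-- the universal graph with 27 vertices (26 of them not isolated) -/
def U27 : SimpleGraph V27 where
  Adj u v := ¬ Bad u v ∧ ¬ Bad v u
  symm := ⟨fun _ _ h => ⟨h.2, h.1⟩⟩
  loopless := ⟨by decide⟩

instance : DecidableRel U27.Adj := fun u v => inferInstanceAs (Decidable (¬ Bad u v ∧ ¬ Bad v u))

/-- decoding -/
def dec (v : ℕ) : V27 :=
  (⟨v / 9 % 3, Nat.mod_lt _ (by norm_num)⟩, ⟨v / 3 % 3, Nat.mod_lt _ (by norm_num)⟩,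
    ⟨v % 3, Nat.mod_lt _ (by norm_num)⟩)

/-- refutation trees: `n v t0 t1 t2 t3` branches on the colour of `v`, `x w` is a clash with the
coloured neighbour `w` -/
inductive Tr
  | x : ℕ → Tr
  | n : ℕ → Tr → Tr → Tr → Tr → Tr

/-- check a refutation tree below the decision that `v` has colour `c` -/
def chk : Tr → List (ℕ × ℕ) → ℕ → ℕ → Bool
  | .x w, as, v, c => decide (U27.Adj (dec v) (dec w)) && as.elem (w, c)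
  | .n v' t0 t1 t2 t3, as, v, c =>
    chk t0 ((v, c) :: as) v' 0 && (chk t1 ((v, c) :: as) v' 1 &&
      (chk t2 ((v, c) :: as) v' 2 && chk t3 ((v, c) :: as) v' 3))

theorem chk_sound (F : V27 → Fin 4) (hF : ∀ u v, U27.Adj u v → F u ≠ F v) :
    ∀ (t : Tr) (as : List (ℕ × ℕ)) (v c : ℕ), chk t as v c = true →
      (∀ p ∈ as, (F (dec p.1)).val = p.2) → (F (dec v)).val ≠ c := by
  intro t
  induction t with
  | x w =>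
    intro as v c h hs hc
    simp only [chk, Bool.and_eq_true, decide_eq_true_eq, List.elem_iff] at h
    have h2 := hs _ h.2
    apply hF _ _ h.1
    apply Fin.ext
    rw [hc]
    exact h2.symm
  | n v' t0 t1 t2 t3 i0 i1 i2 i3 =>
    intro as v c h hs hc
    simp only [chk, Bool.and_eq_true] at h
    obtain ⟨h0, h1, h2, h3⟩ := h
    have hs' : ∀ p ∈ (v, c) :: as, (F (dec p.1)).val = p.2 := by
      intro p hp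
      rcases List.mem_cons.1 hp with rfl | hp
      · exact hc
      · exact hs p hp
    have e0 := i0 _ _ _ h0 hs'
    have e1 := i1 _ _ _ h1 hs'
    have e2 := i2 _ _ _ h2 hs'
    have e3 := i3 _ _ _ h3 hs'
    have := (F (dec v')).isLt
    omega

open Tr in
/-- the refutation tree -/
def tree : Tr :=
  (n 15 (x 1) (n 23 (x 1) (x 15) (n 7 (n 3 (x 7) (n 6 (n 4 (x 6) (x 15) (x 26) (n 24 (x 1) (x 3)
  (n 5 (x 6) (x 15) (x 24) (n 22 (x 6) (x 15) (n 17 (x 1) (n 8 (n 13 (x 8) (x 17) (x 26) (n 2 (n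
  25 (x 2) (x 3) (n 16 (x 2) (n 11 (n 14 (x 1) (x 16) (x 25) (n 10 (x 11) (x 17) (x 23) (x 14)))
  (x 16) (x 22) (x 13)) (x 23) (x 5)) (x 5)) (x 12) (x 22) (x 13))) (x 3) (x 22) (x 4)) (x 22) (x
  4)) (n 2 (n 25 (x 2) (x 3) (n 16 (x 2) (n 11 (n 14 (x 1) (x 16) (x 25) (n 19 (x 11) (x 12) (n 10
  (x 11) (n 17 (x 1) (x 10) (x 19) (x 4)) (x 23) (x 14)) (x 14))) (x 16) (x 25) (x 22)) (x 23) (x
  5)) (x 5)) (x 12) (x 24) (x 22)))) (x 4))) (x 3) (x 23) (n 5 (x 7) (x 15) (n 24 (x 1) (x 3) (x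
  5) (n 4 (n 22 (n 2 (x 22) (x 12) (n 21 (x 1) (n 0 (x 22) (x 21) (x 23) (x 24)) (x 2) (x 6)) (x
  24)) (x 15) (n 2 (n 25 (x 2) (x 3) (x 5) (n 8 (x 4) (x 3) (x 22) (n 13 (x 2) (n 11 (n 17 (x 1)
  (x 13) (x 22) (n 19 (x 11) (x 12) (n 10 (x 11) (n 14 (x 1) (x 10) (x 19) (x 25)) (x 23) (x 17))
  (x 17))) (x 13) (x 22) (x 25)) (x 26) (x 8)))) (x 12) (x 22) (x 24)) (x 6)) (x 15) (x 26) (x
  6))) (x 6))) (x 26) (n 25 (n 2 (x 25) (x 12) (n 24 (x 1) (n 0 (x 25) (x 24) (x 23) (n 22 (n 8 (x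
  22) (x 12) (n 6 (x 22) (n 21 (x 1) (x 6) (x 2) (x 0)) (x 23) (x 3)) (x 3)) (x 15) (x 2) (x 0)))
  (x 2) (x 3)) (n 22 (n 8 (x 22) (x 12) (n 6 (x 22) (n 21 (x 1) (x 6) (x 8) (x 2)) (x 23) (x 3))
  (x 3)) (x 15) (n 8 (n 4 (x 8) (x 15) (x 26) (n 13 (x 8) (n 17 (x 1) (x 13) (x 22) (x 4)) (x 26)
  (x 2))) (x 12) (x 22) (x 3)) (x 2))) (x 12) (n 5 (x 7) (x 15) (x 25) (n 2 (n 16 (x 2) (n 14 (x
  1) (x 16) (x 25) (n 22 (x 2) (x 15) (n 8 (n 4 (x 8) (x 15) (x 26) (n 17 (x 1) (n 10 (n 13 (x 2)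
  (x 17) (x 26) (n 11 (x 10) (x 16) (x 22) (x 13))) (x 17) (x 23) (x 14)) (x 22) (x 4))) (x 12) (x
  22) (x 3)) (n 11 (n 10 (x 11) (n 17 (x 1) (x 10) (n 19 (x 11) (x 12) (x 17) (x 14)) (x 22)) (x
  23) (x 14)) (x 16) (x 25) (x 22)))) (x 23) (x 5)) (x 12) (x 25) (n 22 (n 8 (x 22) (x 12) (n 6 (x
  22) (n 21 (x 1) (x 6) (x 8) (x 2)) (x 23) (x 3)) (x 3)) (x 15) (n 8 (n 4 (x 8) (x 15) (x 26) (n
  17 (x 1) (n 13 (x 8) (x 17) (x 26) (x 2)) (x 22) (x 4))) (x 12) (x 22) (x 3)) (x 2)))) (x 3)))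
  (x 12) (x 23) (n 4 (n 5 (n 25 (x 5) (x 12) (n 14 (x 1) (n 16 (x 5) (x 14) (x 23) (n 2 (n 22 (x
  2) (x 15) (n 8 (x 4) (x 12) (x 22) (n 13 (x 2) (n 11 (n 17 (x 1) (x 13) (x 22) (n 10 (x 11) (x
  14) (x 23) (x 17))) (x 13) (x 22) (x 16)) (x 26) (x 8))) (n 8 (x 4) (x 12) (n 6 (x 4) (n 21 (x
  1) (x 6) (x 8) (x 7)) (x 23) (x 22)) (x 22))) (x 12) (x 25) (x 16))) (x 25) (x 7)) (n 2 (n 22 (x
  2) (x 15) (n 8 (x 4) (x 12) (x 22) (n 13 (x 2) (n 11 (n 17 (x 1) (x 13) (x 22) (n 19 (x 11) (x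
  12) (n 10 (x 11) (n 14 (x 1) (x 10) (x 19) (x 7)) (x 23) (x 17)) (x 17))) (x 13) (x 22) (x 25))
  (x 26) (x 8))) (n 8 (x 4) (x 12) (n 21 (x 1) (n 6 (x 4) (x 21) (x 23) (x 22)) (x 8) (x 7)) (x
  22))) (x 12) (n 21 (x 1) (n 6 (x 4) (x 21) (x 23) (n 22 (n 0 (x 22) (x 21) (x 23) (x 25)) (x 15)
  (x 2) (x 6))) (x 2) (x 7)) (x 25))) (x 15) (n 25 (n 3 (x 25) (n 6 (x 4) (x 3) (x 5) (n 24 (x 1)
  (x 3) (x 5) (n 2 (x 25) (x 12) (n 22 (n 21 (x 1) (n 0 (x 22) (x 21) (x 23) (x 24)) (x 2) (x 6))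
  (x 15) (x 2) (x 6)) (x 24)))) (x 26) (x 7)) (x 12) (x 5) (n 2 (n 22 (x 2) (x 15) (n 8 (x 4) (x
  12) (x 22) (n 13 (x 2) (n 11 (n 17 (x 1) (x 13) (x 22) (n 10 (x 11) (n 19 (x 11) (x 12) (n 14 (x
  1) (x 10) (x 19) (x 7)) (x 17)) (x 23) (x 17))) (x 13) (x 22) (x 25)) (x 26) (x 8))) (n 8 (x 4)
  (x 12) (n 6 (x 4) (n 21 (x 1) (x 6) (x 8) (x 7)) (x 5) (x 22)) (x 22))) (x 12) (n 21 (x 1) (n 0
  (n 22 (x 0) (x 15) (x 2) (n 6 (x 4) (x 21) (x 5) (x 22))) (x 21) (x 23) (x 25)) (x 2) (x 7)) (x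
  25))) (x 7)) (x 15) (x 26) (n 3 (n 6 (x 3) (n 21 (x 1) (x 6) (n 8 (x 3) (x 12) (x 21) (x 4)) (x
  7)) (x 23) (x 4)) (n 6 (n 5 (x 6) (x 15) (n 24 (x 1) (x 3) (x 5) (x 4)) (x 7)) (x 3) (x 23) (x
  4)) (x 26) (x 7)))) (n 7 (n 3 (x 7) (n 24 (x 1) (x 3) (n 5 (x 7) (x 15) (x 24) (n 2 (n 25 (x 2)
  (x 3) (n 22 (x 2) (x 15) (n 6 (n 4 (x 6) (x 15) (x 24) (n 17 (x 1) (n 13 (x 2) (x 17) (x 26) (n
  10 (n 20 (x 10) (x 12) (n 11 (x 10) (n 16 (x 2) (x 11) (x 20) (x 5)) (x 22) (x 13)) (x 13)) (x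
  17) (x 26) (x 23))) (x 22) (x 4))) (x 3) (x 22) (x 5)) (n 10 (n 11 (x 10) (n 13 (x 2) (x 11) (x
  26) (n 16 (x 2) (x 11) (n 20 (x 10) (x 12) (x 16) (x 13)) (x 5))) (x 25) (x 22)) (n 17 (x 1) (x
  10) (n 11 (n 14 (x 1) (x 10) (x 25) (n 19 (x 11) (x 12) (x 17) (x 14))) (x 10) (x 25) (x 22)) (x
  22)) (x 26) (x 23))) (x 5)) (x 12) (x 24) (n 22 (n 9 (x 22) (n 6 (x 22) (x 3) (n 0 (x 22) (n 21
  (x 1) (x 0) (x 6) (x 2)) (x 24) (x 23)) (x 5)) (x 26) (x 23)) (x 15) (n 6 (n 4 (x 6) (x 15) (x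
  24) (n 17 (x 1) (n 13 (n 8 (x 13) (x 3) (x 22) (x 4)) (x 17) (x 26) (x 2)) (x 22) (x 4))) (x 3)
  (x 22) (x 5)) (x 2)))) (n 5 (x 7) (x 15) (n 4 (n 6 (x 4) (x 3) (x 5) (x 23)) (x 15) (x 26) (x
  24)) (x 24))) (x 26) (n 25 (n 9 (x 25) (n 0 (x 25) (n 24 (x 1) (x 0) (n 2 (x 25) (x 12) (x 24)
  (n 5 (x 7) (x 15) (x 24) (n 21 (x 1) (x 0) (n 8 (n 22 (x 8) (x 0) (n 13 (x 8) (n 11 (x 25) (x
  13) (x 22) (n 17 (x 1) (x 13) (x 22) (n 4 (x 8) (x 15) (x 24) (x 17)))) (x 26) (x 2)) (x 2)) (x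
  12) (x 21) (x 3)) (x 2)))) (x 3)) (x 26) (x 23)) (x 26) (x 23)) (x 12) (n 5 (x 7) (x 15) (x 25)
  (n 2 (n 22 (x 2) (x 15) (n 8 (n 4 (x 8) (x 15) (x 26) (n 17 (x 1) (n 10 (n 13 (x 2) (x 17) (x
  26) (n 20 (x 10) (x 12) (n 11 (x 10) (n 16 (x 2) (x 11) (x 20) (x 5)) (x 22) (x 13)) (x 13))) (x
  17) (x 26) (x 23)) (x 22) (x 4))) (x 12) (x 22) (x 3)) (n 10 (n 11 (x 10) (n 13 (x 2) (x 11) (x
  26) (n 16 (x 2) (x 11) (n 20 (x 10) (x 12) (x 16) (x 13)) (x 5))) (x 25) (x 22)) (n 11 (n 17 (x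
  1) (x 10) (n 14 (x 1) (x 10) (x 25) (n 19 (x 11) (x 12) (x 17) (x 14))) (x 22)) (x 10) (x 25) (x
  22)) (x 26) (x 23))) (x 12) (x 25) (n 22 (n 8 (x 22) (x 12) (n 0 (x 22) (n 21 (x 1) (x 0) (x 8)
  (x 2)) (x 25) (x 23)) (x 3)) (x 15) (n 8 (n 13 (x 8) (n 17 (x 1) (x 13) (x 22) (n 4 (x 8) (x 15)
  (x 26) (x 17))) (x 26) (x 2)) (x 12) (x 22) (x 3)) (x 2)))) (x 3))) (x 12) (n 14 (x 1) (n 10 (n
  16 (n 5 (x 16) (x 15) (x 7) (n 25 (n 9 (x 25) (n 0 (x 25) (n 21 (x 1) (x 0) (x 7) (n 24 (x 1) (x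
  0) (n 2 (x 16) (x 12) (x 24) (x 21)) (x 5))) (x 26) (x 23)) (x 26) (x 23)) (x 12) (n 2 (x 16) (x
  12) (x 25) (n 21 (x 1) (n 0 (n 22 (x 0) (x 15) (n 6 (n 4 (x 6) (x 15) (x 26) (n 8 (n 13 (x 8) (n
  17 (x 1) (x 13) (x 22) (x 4)) (x 26) (x 2)) (x 12) (x 22) (x 4))) (x 21) (x 22) (x 5)) (x 2)) (x
  21) (x 25) (x 23)) (x 7) (x 2))) (x 5))) (x 14) (n 20 (x 10) (x 12) (x 16) (n 2 (n 13 (x 2) (n
  11 (x 10) (x 13) (x 16) (n 22 (x 2) (x 15) (n 25 (x 2) (x 12) (n 17 (x 1) (x 13) (x 22) (n 4 (n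
  6 (x 4) (n 8 (x 4) (x 12) (x 22) (n 21 (x 1) (x 6) (x 7) (x 8))) (x 22) (x 23)) (x 15) (x 26) (x
  17))) (x 11)) (x 11))) (x 26) (x 20)) (x 12) (x 16) (n 21 (x 1) (n 0 (n 22 (x 0) (x 15) (n 25 (x
  0) (x 12) (n 6 (n 4 (x 6) (x 15) (x 26) (n 17 (x 1) (n 13 (n 8 (x 13) (x 12) (x 22) (x 4)) (x
  17) (x 26) (x 2)) (x 22) (x 4))) (x 21) (x 22) (x 23)) (x 2)) (x 2)) (x 21) (x 26) (x 23)) (x 7)
  (x 2)))) (x 23)) (x 14) (x 26) (x 23)) (x 7) (n 25 (n 9 (x 25) (n 5 (x 25) (x 15) (x 7) (n 0 (x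
  25) (n 24 (x 1) (x 0) (n 2 (x 25) (x 12) (x 24) (n 21 (x 1) (x 0) (x 7) (x 2))) (x 5)) (x 26) (x
  23))) (x 26) (x 23)) (x 12) (n 2 (n 22 (x 2) (x 15) (n 4 (n 6 (x 4) (n 8 (x 4) (x 12) (x 22) (n
  21 (x 1) (x 6) (x 7) (x 8))) (x 22) (x 23)) (x 15) (x 26) (n 17 (x 1) (n 8 (n 10 (n 13 (x 2) (x
  17) (x 26) (n 11 (x 10) (n 20 (x 10) (x 12) (n 16 (x 2) (x 11) (x 20) (x 14)) (x 13)) (x 22) (x
  13))) (x 17) (x 26) (x 14)) (x 12) (x 22) (x 4)) (x 22) (x 4))) (n 8 (n 4 (x 8) (x 15) (x 26) (n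
  11 (n 19 (x 11) (x 12) (n 17 (x 1) (n 10 (x 11) (x 17) (x 26) (x 14)) (x 19) (x 4)) (x 14)) (n
  10 (n 13 (x 2) (x 11) (x 26) (n 20 (x 10) (x 12) (n 16 (x 2) (x 11) (x 20) (x 14)) (x 13))) (x
  11) (x 26) (x 14)) (x 25) (x 22))) (x 12) (n 17 (x 1) (n 13 (x 2) (x 17) (x 8) (n 10 (n 20 (x
  10) (x 12) (n 16 (x 2) (n 11 (x 10) (x 16) (x 25) (x 13)) (x 20) (x 14)) (x 13)) (x 17) (x 26)
  (x 14))) (n 19 (n 11 (x 19) (n 16 (x 2) (x 11) (n 10 (n 20 (x 10) (x 12) (x 16) (n 13 (x 2) (x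
  11) (x 8) (x 20))) (x 11) (x 17) (x 14)) (x 14)) (x 25) (x 22)) (x 12) (x 17) (x 14)) (x 22)) (x
  22))) (x 12) (x 25) (n 21 (x 1) (n 0 (n 22 (x 0) (x 15) (n 6 (n 4 (x 6) (x 15) (x 26) (n 17 (x
  1) (n 13 (n 8 (x 13) (x 12) (x 22) (x 4)) (x 17) (x 26) (x 2)) (x 22) (x 4))) (x 21) (x 22) (x
  23)) (x 2)) (x 21) (x 25) (x 23)) (x 7) (x 2))) (x 14))) (x 23))) (n 2 (n 22 (x 2) (n 25 (x 2)
  (x 12) (n 23 (x 1) (n 13 (x 2) (n 16 (x 2) (x 23) (n 19 (n 11 (x 19) (x 13) (x 16) (n 10 (n 9 (x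
  19) (x 22) (x 25) (n 20 (x 10) (x 12) (x 15) (x 9))) (x 23) (x 26) (x 11))) (x 12) (x 15) (n 17
  (x 1) (x 13) (n 14 (x 1) (n 9 (n 20 (x 9) (x 12) (x 15) (n 11 (n 10 (x 11) (x 14) (x 17) (x 20))
  (x 13) (x 16) (x 19))) (x 22) (x 25) (x 19)) (x 16) (x 19)) (x 19))) (n 14 (x 1) (n 11 (n 20 (n
  19 (x 11) (x 12) (x 15) (n 9 (x 20) (x 22) (x 25) (x 19))) (x 12) (x 15) (x 16)) (x 13) (x 25)
  (x 16)) (x 25) (x 16))) (x 26) (n 20 (n 17 (x 1) (x 22) (n 11 (n 19 (x 11) (x 12) (x 15) (n 9 (x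
  20) (x 22) (x 25) (x 19))) (x 22) (x 25) (x 13)) (x 13)) (x 12) (x 15) (x 13))) (x 15) (n 9 (n
  20 (x 9) (x 12) (x 15) (n 19 (x 9) (x 12) (x 15) (n 11 (n 17 (x 1) (x 22) (n 14 (x 1) (n 10 (x
  11) (x 14) (x 17) (x 20)) (x 25) (x 19)) (x 19)) (x 22) (x 25) (x 19)))) (x 22) (x 25) (x 23)))
  (n 9 (n 0 (n 20 (x 9) (x 12) (x 15) (n 13 (x 2) (n 19 (x 9) (x 12) (x 15) (n 17 (x 1) (x 13) (n
  23 (x 0) (n 16 (x 2) (x 23) (n 10 (n 11 (x 10) (x 13) (x 16) (x 19)) (x 23) (x 17) (x 20)) (x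
  20)) (x 15) (n 5 (n 6 (x 5) (x 22) (n 7 (x 5) (x 12) (n 14 (x 1) (n 10 (n 11 (x 10) (x 13) (n 16
  (x 2) (x 14) (x 11) (x 20)) (x 19)) (x 14) (x 17) (x 20)) (x 7) (x 19)) (x 23)) (x 23)) (n 16 (x
  2) (x 5) (n 14 (x 1) (n 11 (n 10 (x 11) (x 14) (x 17) (x 20)) (x 13) (x 16) (x 19)) (x 16) (x
  19)) (x 20)) (x 15) (x 25))) (x 19))) (x 26) (x 20))) (x 22) (x 26) (x 25)) (x 22) (x 26) (x
  25))) (x 15) (n 23 (x 1) (n 9 (n 20 (x 9) (x 12) (x 15) (n 13 (x 2) (n 0 (n 16 (x 2) (x 23) (n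
  10 (n 11 (x 10) (x 13) (x 16) (x 22)) (x 23) (x 26) (x 20)) (x 20)) (x 23) (x 26) (x 22)) (x 26)
  (x 20))) (x 23) (x 26) (x 22)) (x 15) (n 25 (x 2) (x 12) (n 14 (x 1) (n 10 (n 16 (x 2) (x 14) (n
  11 (x 10) (n 13 (x 2) (x 11) (x 26) (n 20 (x 10) (x 12) (x 15) (x 13))) (x 16) (x 22)) (x 23))
  (x 14) (x 26) (x 23)) (x 25) (n 19 (n 11 (x 19) (n 13 (x 2) (x 11) (x 26) (n 20 (n 10 (x 20) (x
  11) (x 26) (x 14)) (x 12) (x 15) (x 13))) (x 25) (x 22)) (x 12) (x 15) (x 14))) (n 16 (x 2) (n 5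
  (n 14 (x 1) (x 16) (n 7 (x 5) (x 12) (x 14) (x 23)) (x 25)) (x 16) (x 15) (x 25)) (n 14 (x 1) (n
  10 (n 20 (x 10) (x 12) (x 15) (n 13 (x 2) (n 11 (x 10) (x 13) (x 16) (x 22)) (x 26) (x 20))) (x
  14) (x 26) (x 23)) (x 16) (x 25)) (x 23))))) (x 12) (x 15) (n 23 (x 1) (n 25 (n 0 (x 25) (x 23)
  (x 26) (n 9 (x 25) (x 23) (x 26) (n 20 (n 10 (x 20) (x 23) (x 26) (n 19 (n 16 (x 20) (x 23) (n
  13 (x 20) (n 11 (x 19) (x 13) (x 16) (x 10)) (x 26) (x 2)) (x 2)) (x 12) (x 15) (x 9))) (x 12)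
  (x 15) (x 9)))) (x 12) (n 22 (n 0 (x 22) (x 23) (x 25) (n 9 (x 22) (x 23) (x 25) (n 19 (n 20 (n
  13 (x 20) (n 16 (x 20) (x 23) (n 10 (x 20) (x 23) (x 26) (n 11 (x 19) (x 13) (x 16) (x 10))) (x
  2)) (x 26) (x 2)) (x 12) (x 15) (x 9)) (x 12) (x 15) (x 9)))) (n 17 (x 1) (x 22) (n 20 (n 16 (x
  20) (x 23) (n 10 (x 20) (x 23) (x 17) (n 11 (n 14 (x 1) (n 9 (x 20) (x 22) (x 25) (n 19 (x 11)
  (x 12) (x 15) (x 9))) (x 16) (x 10)) (x 22) (x 16) (x 10))) (x 2)) (x 12) (x 15) (n 10 (n 11 (x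
  10) (x 22) (x 25) (n 19 (n 9 (x 19) (x 22) (x 25) (x 20)) (x 12) (x 15) (x 11))) (x 23) (x 17)
  (x 20))) (n 10 (n 19 (n 20 (x 10) (x 12) (x 15) (n 9 (x 19) (x 22) (x 25) (x 20))) (x 12) (x 15)
  (x 17)) (x 23) (x 26) (x 17))) (x 15) (x 2)) (x 2)) (x 15) (n 25 (n 0 (x 25) (n 22 (n 21 (x 1)
  (x 0) (n 6 (x 22) (n 8 (x 22) (x 12) (x 21) (n 3 (x 25) (x 6) (x 26) (x 8))) (x 21) (x 23)) (x
  2)) (x 0) (x 15) (x 2)) (x 26) (x 23)) (x 12) (n 22 (n 9 (x 22) (n 0 (x 22) (n 24 (x 1) (x 0) (n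
  21 (x 1) (x 0) (n 7 (n 8 (x 22) (x 12) (x 21) (n 6 (x 22) (n 3 (x 7) (x 6) (x 24) (x 8)) (x 21)
  (x 23))) (x 12) (x 21) (x 23)) (x 2)) (x 2)) (x 25) (x 23)) (x 25) (x 23)) (n 9 (n 19 (x 9) (x
  12) (x 15) (n 11 (n 14 (x 1) (n 10 (x 11) (x 14) (x 26) (x 23)) (x 25) (x 19)) (x 22) (x 25) (x
  19))) (x 22) (x 25) (x 23)) (x 15) (x 2)) (x 2)))) (n 2 (n 23 (x 1) (n 22 (x 2) (n 25 (x 2) (x
  12) (n 10 (n 20 (x 10) (x 12) (n 16 (x 2) (x 23) (x 20) (n 11 (x 10) (x 22) (x 25) (x 16))) (x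
  15)) (x 23) (x 26) (n 11 (n 17 (x 1) (x 22) (n 19 (x 11) (x 12) (x 17) (x 15)) (x 10)) (x 22) (x
  25) (x 10))) (n 9 (n 20 (x 9) (x 12) (n 16 (x 2) (x 23) (x 20) (n 19 (x 9) (x 12) (n 17 (x 1) (x
  22) (x 19) (n 13 (x 2) (n 10 (n 11 (x 10) (x 13) (x 19) (x 16)) (x 23) (x 20) (x 17)) (x 20) (x
  17))) (x 15))) (x 15)) (x 22) (x 26) (x 25))) (n 25 (x 2) (x 12) (n 20 (n 10 (x 20) (x 23) (x
  26) (n 17 (x 1) (n 14 (x 1) (n 4 (n 8 (x 4) (x 12) (x 22) (n 13 (x 2) (x 17) (x 26) (x 8))) (x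
  17) (x 26) (x 15)) (x 25) (x 10)) (x 22) (x 10))) (x 12) (n 16 (x 2) (x 23) (x 20) (n 14 (x 1)
  (n 8 (n 4 (x 8) (n 17 (x 1) (x 4) (x 22) (n 10 (n 11 (x 10) (n 13 (x 2) (x 11) (x 20) (x 17)) (x
  22) (x 16)) (x 14) (x 20) (x 17))) (x 26) (x 15)) (x 12) (x 22) (n 13 (x 2) (n 17 (x 1) (x 13)
  (x 22) (n 11 (n 10 (x 11) (x 14) (x 20) (x 17)) (x 13) (x 22) (x 16))) (x 20) (x 8))) (x 25) (x
  16))) (x 15)) (n 9 (n 19 (x 9) (x 12) (n 20 (x 9) (x 12) (n 16 (x 2) (x 23) (x 20) (n 14 (x 1)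
  (n 0 (n 3 (n 8 (x 3) (x 12) (x 22) (n 6 (x 3) (x 23) (x 22) (n 13 (x 2) (n 17 (x 1) (x 13) (x
  19) (n 11 (n 10 (x 11) (x 14) (x 20) (x 17)) (x 13) (x 19) (x 16))) (x 20) (x 8)))) (n 4 (n 6 (x
  4) (x 3) (x 22) (n 8 (x 4) (x 3) (x 22) (n 13 (x 2) (n 11 (n 17 (x 1) (x 13) (x 19) (n 10 (x 11)
  (x 14) (x 20) (x 17))) (x 13) (x 19) (x 16)) (x 20) (x 8)))) (n 17 (x 1) (x 4) (x 19) (n 13 (x
  2) (n 11 (n 10 (x 11) (x 14) (x 20) (x 17)) (x 13) (x 19) (x 16)) (x 20) (x 17))) (x 26) (x 15))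
  (x 26) (x 25)) (x 23) (x 22) (x 25)) (x 19) (x 16))) (x 15)) (x 15)) (x 23) (x 22) (x 25))) (x
  15)) (n 25 (x 2) (x 12) (n 22 (x 2) (n 19 (n 11 (x 19) (x 22) (x 25) (n 16 (x 2) (n 5 (n 7 (x 5)
  (x 12) (x 23) (n 14 (x 1) (x 16) (x 25) (x 7))) (x 16) (x 25) (x 15)) (x 23) (x 11))) (x 12) (n
  17 (x 1) (x 22) (x 19) (n 13 (x 2) (n 5 (n 7 (x 5) (x 12) (x 23) (n 6 (x 5) (x 22) (x 23) (n 14
  (x 1) (n 16 (x 2) (x 14) (x 23) (n 10 (n 11 (x 10) (x 13) (x 19) (x 16)) (x 14) (x 23) (x 17)))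
  (x 19) (x 7)))) (n 16 (x 2) (x 5) (x 23) (n 14 (x 1) (n 10 (n 11 (x 10) (x 13) (x 19) (x 16)) (x
  14) (x 23) (x 17)) (x 19) (x 16))) (x 25) (x 15)) (x 26) (x 17))) (x 15)) (n 16 (x 2) (n 14 (x
  1) (x 16) (x 25) (n 7 (n 5 (x 7) (x 16) (x 25) (x 15)) (x 12) (x 23) (x 14))) (x 23) (n 14 (x 1)
  (n 4 (n 8 (x 4) (x 12) (x 22) (n 13 (x 2) (n 17 (x 1) (x 13) (x 22) (n 10 (n 11 (x 10) (x 13) (x
  22) (x 16)) (x 14) (x 23) (x 17))) (x 26) (x 8))) (n 17 (x 1) (x 4) (x 22) (n 13 (x 2) (n 10 (n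
  11 (x 10) (x 13) (x 22) (x 16)) (x 14) (x 23) (x 17)) (x 26) (x 17))) (x 26) (x 15)) (x 25) (x
  16))) (x 15)) (n 22 (x 2) (n 0 (n 9 (n 20 (x 9) (x 12) (n 19 (x 9) (x 12) (n 14 (x 1) (n 17 (x
  1) (x 22) (x 19) (n 11 (n 10 (x 11) (x 14) (x 20) (x 17)) (x 22) (x 19) (x 25))) (x 19) (x 25))
  (x 15)) (x 15)) (x 22) (x 23) (x 25)) (x 22) (x 23) (x 25)) (n 17 (x 1) (n 13 (x 2) (x 17) (x
  26) (n 8 (n 4 (x 8) (x 17) (x 26) (x 15)) (x 12) (x 22) (x 13))) (x 22) (n 13 (x 2) (n 11 (n 10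
  (x 11) (n 14 (x 1) (x 10) (n 19 (x 11) (x 12) (x 14) (x 15)) (x 25)) (x 23) (x 17)) (x 13) (x
  22) (x 25)) (x 26) (x 17))) (x 15))) (x 15)) (x 12) (n 22 (n 25 (n 23 (x 1) (n 0 (x 22) (x 23)
  (x 26) (n 21 (x 1) (n 24 (x 1) (n 4 (n 5 (x 25) (x 24) (n 3 (x 25) (x 24) (x 26) (n 6 (x 4) (x
  21) (x 5) (x 3))) (x 15)) (x 24) (x 26) (x 15)) (x 2) (x 0)) (x 2) (x 0))) (n 8 (x 22) (x 12) (n
  6 (x 22) (n 5 (x 25) (x 6) (n 3 (x 25) (x 6) (x 8) (n 7 (n 4 (n 21 (x 1) (x 6) (x 2) (n 24 (x 1)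
  (n 0 (x 22) (x 24) (x 23) (x 21)) (x 2) (x 3))) (x 6) (x 8) (x 15)) (x 12) (x 5) (x 3))) (x 15))
  (x 23) (n 3 (x 25) (n 24 (x 1) (x 3) (x 2) (n 21 (x 1) (n 0 (x 22) (x 21) (x 23) (x 24)) (x 2)
  (x 6))) (x 8) (x 6))) (n 3 (x 25) (n 24 (x 1) (x 3) (x 2) (n 21 (x 1) (n 0 (x 22) (x 21) (x 23)
  (x 24)) (x 2) (x 8))) (x 26) (x 8))) (x 15)) (x 12) (x 2) (n 9 (x 22) (n 23 (x 1) (x 9) (n 0 (x
  22) (n 21 (x 1) (x 0) (x 2) (n 6 (x 22) (n 4 (n 3 (n 7 (x 3) (x 12) (x 23) (x 21)) (x 6) (x 26)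
  (x 25)) (x 6) (x 26) (x 15)) (x 23) (x 21))) (x 23) (x 25)) (x 15)) (x 26) (x 25))) (n 25 (n 0
  (x 25) (x 22) (x 26) (n 9 (x 25) (x 22) (x 26) (n 21 (x 1) (n 24 (x 1) (n 3 (x 25) (x 24) (x 26)
  (n 5 (x 25) (x 24) (n 4 (n 6 (x 4) (x 21) (x 5) (x 3)) (x 24) (x 26) (x 15)) (x 15))) (x 2) (x
  0)) (x 2) (x 0)))) (x 12) (x 2) (n 9 (n 0 (n 19 (x 9) (x 12) (n 20 (x 9) (x 12) (n 11 (n 17 (x
  1) (x 22) (x 19) (n 14 (x 1) (n 10 (x 11) (x 14) (x 20) (x 17)) (x 19) (x 25))) (x 22) (x 19) (x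
  25)) (x 15)) (x 15)) (x 22) (x 26) (x 25)) (x 22) (x 26) (x 25))) (x 2) (x 15)) (x 15)))

theorem chk_tree : chk tree [(12, 1), (1, 0)] 26 2 = true := by decide +kernel

/-- recolouring which puts three given colours first -/
def rec3 (a b c x : Fin 4) : Fin 4 := if x = a then 0 else if x = b then 1 else if x = c then 2 else 3

theorem rec3_inj : ∀ a b c : Fin 4, a ≠ b → a ≠ c → b ≠ c → ∀ x y, rec3 a b c x = rec3 a b c y →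
    x = y := by decide

theorem rec3_val : ∀ a b c : Fin 4, a ≠ b → a ≠ c → b ≠ c →
    (rec3 a b c a).val = 0 ∧ (rec3 a b c b).val = 1 ∧ (rec3 a b c c).val = 2 := by decide

/-- the chromatic number of `U27` is at least 5 -/
theorem not_colorable_four : ¬ U27.Colorable 4 := by
  rintro ⟨C⟩
  have h1 : U27.Adj (dec 1) (dec 12) := by decide
  have h2 : U27.Adj (dec 1) (dec 26) := by decide
  have h3 : U27.Adj (dec 12) (dec 26) := by decide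
  have n1 := C.valid h1
  have n2 := C.valid h2
  have n3 := C.valid h3
  set F : V27 → Fin 4 := fun v => rec3 (C (dec 1)) (C (dec 12)) (C (dec 26)) (C v) with hFdef
  have hF : ∀ u v, U27.Adj u v → F u ≠ F v := fun u v h e =>
    C.valid h (rec3_inj _ _ _ n1 n2 n3 _ _ e)
  obtain ⟨v1, v2, v3⟩ := rec3_val _ _ _ n1 n2 n3
  refine chk_sound F hF tree _ _ _ chk_tree ?_ v3
  intro p hp
  simp only [List.mem_cons, List.not_mem_nil, or_false] at hp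
  rcases hp with rfl | rfl
  · exact v2
  · exact v1

theorem adj_tri : U27.Adj (0, 0, 1) (1, 1, 0) ∧ U27.Adj (0, 0, 1) (2, 2, 2) ∧
    U27.Adj (1, 1, 0) (2, 2, 2) := by decide

/-- `U27` contains a triangle -/
theorem not_cliqueFree_three : ¬ U27.CliqueFree 3 := by
  intro h
  apply h {(0, 0, 1), (1, 1, 0), (2, 2, 2)}
  rw [SimpleGraph.is3Clique_triple_iff]
  exact adj_tri

/-- A graph which is almost 3-colourable (two sets `R`, `R'` without edges between them, both with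
bipartite complement) is 4-colourable. -/
theorem colorable_four_of_almost {W : Type*} (H : SimpleGraph W) (R R' : Set W)
    (h : ∀ x ∈ R, ∀ y ∈ R', ¬ H.Adj x y)
    (hR : (H.induce Rᶜ).Colorable 2) (hR' : (H.induce R'ᶜ).Colorable 2) : H.Colorable 4 := by
  classical
  obtain ⟨C⟩ := hR
  obtain ⟨C'⟩ := hR'
  refine ⟨SimpleGraph.Coloring.mk (fun v =>
    if hv : v ∈ R then (if hv' : v ∈ R' then 2 else (C' ⟨v, hv'⟩).castAdd 2 + 2)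
    else (C ⟨v, hv⟩).castAdd 2) ?_⟩
  intro u v huv
  have key : ∀ a b : Fin 2, (a.castAdd 2 : Fin (2 + 2)) ≠ (b.castAdd 2 : Fin (2 + 2)) + 2 := by
    decide
  have key2 : ∀ a b : Fin 2, a ≠ b → (a.castAdd 2 : Fin (2 + 2)) ≠ b.castAdd 2 := by decide
  have key3 : ∀ a b : Fin 2, a ≠ b → (a.castAdd 2 + 2 : Fin (2 + 2)) ≠ b.castAdd 2 + 2 := by decide
  have key4 : ∀ a : Fin 2, (a.castAdd 2 : Fin (2 + 2)) ≠ 2 := by decide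
  by_cases hu : u ∈ R <;> by_cases hv : v ∈ R
  · have hu' : u ∉ R' := fun h' => h v hv u h' huv.symm
    have hv' : v ∉ R' := fun h' => h u hu v h' huv
    simp only [hu, hv, hu', hv', dif_pos, dif_neg, not_false_eq_true]
    exact key3 _ _ (C'.valid (by simpa using huv))
  · by_cases hu' : u ∈ R'
    · simp only [hu, hv, hu', dif_pos, dif_neg, not_false_eq_true]
      exact (key4 _).symm
    · simp only [hu, hv, hu', dif_pos, dif_neg, not_false_eq_true]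
      exact (key _ _).symm
  · by_cases hv' : v ∈ R'
    · simp only [hu, hv, hv', dif_pos, dif_neg, not_false_eq_true]
      exact key4 _
    · simp only [hu, hv, hv', dif_pos, dif_neg, not_false_eq_true]
      exact key _ _
  · simp only [hu, hv, dif_neg, not_false_eq_true]
    exact key2 _ _ (C.valid (by simpa using huv))

/-- `U27` is not almost 3-colourable -/
theorem not_almost : ¬ ∃ R R' : Set V27, (∀ x ∈ R, ∀ y ∈ R', ¬ U27.Adj x y) ∧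
    (U27.induce Rᶜ).Colorable 2 ∧ (U27.induce R'ᶜ).Colorable 2 := by
  rintro ⟨R, R', h, hR, hR'⟩
  exact not_colorable_four (colorable_four_of_almost U27 R R' h hR hR')

end U27G

end HypVec
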