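import Pool.Agent.Lib.HypVec.Thin
import Pool.Agent.Lib.HypVec.U27

/-!
# `U27` is covered by three thin sets
-/

namespace HypVec

namespace U27G

theorem thin0 : Thin U27 {v | v.1 = 0} := by
  refine Thin.sep {v | v.2.1 = 1} {v | v.2.1 = 2} _ (Thin.indep _ ?_) (Thin.indep _ ?_) ?_
  · intro x hx y hy h
    exact h.1 (Or.inr (Or.inl ⟨hx, hy⟩))
  · intro x hx y hy h
    exact h.1 (Or.inr (Or.inr (Or.inl ⟨hx, hy⟩)))
  · intro x hx y h
    have h3 : ∀ a : Fin 3, a ≠ 0 → a = 1 ∨ a = 2 := by decide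
    exact h3 y.2.1 fun hy0 =>
      h.1 (Or.inr (Or.inr (Or.inr (Or.inr (Or.inr (Or.inl ⟨hx, hy0⟩))))))

theorem thin1 : Thin U27 {v | v.1 = 1} := by
  refine Thin.sep {v | v.2.2 = 1} {v | v.2.2 = 2} _ (Thin.indep _ ?_) (Thin.indep _ ?_) ?_
  · intro x hx y hy h
    exact h.1 (Or.inr (Or.inr (Or.inr (Or.inl ⟨hx, hy⟩))))
  · intro x hx y hy h
    exact h.1 (Or.inr (Or.inr (Or.inr (Or.inr (Or.inl ⟨hx, hy⟩)))))
  · intro x hx y h
    have h3 : ∀ a : Fin 3, a ≠ 0 → a = 1 ∨ a = 2 := by decide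
    exact h3 y.2.2 fun hy0 =>
      h.1 (Or.inr (Or.inr (Or.inr (Or.inr (Or.inr (Or.inr ⟨hx, hy0⟩))))))

theorem thin2 : Thin U27 {v | v.1 = 2} :=
  Thin.indep _ fun _ hx _ hy h => h.1 (Or.inl ⟨hx, hy⟩)

/-- the vertex set of `U27` is covered by three thin sets -/
theorem thinCover_U27 : ThinCover U27 := by
  refine ⟨_, _, _, thin0, thin1, thin2, ?_⟩
  intro a
  have h3 : ∀ a : Fin 3, a = 0 ∨ a = 1 ∨ a = 2 := by decide
  exact h3 a.1

end U27G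

end HypVec
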