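import Pool.Agent.Lib.HypVec.Union
import Pool.Agent.Lib.HypVec.SpecGraph

/-!
# H2 / HypVec: T2 for the one forest `(uSys K).gr`
-/

open scoped RealInnerProductSpace

namespace HypVec

/-- **T2**: the forest `(uSys K).gr` has no Borel unit vector colouring beyond the Kesten
constant. -/
theorem uSys_no_vec (K : Keys) {D : ℕ} (u : UX K → EuclideanSpace ℝ (Fin D)) (hu : Measurable u)
    (h1 : ∀ z, ‖u z‖ = 1) {c : ℝ} (hc : 2 * Real.sqrt 2 / 3 < c) :
    ¬ ∀ z z', (uSys K).gr.Adj z z' → ⟪u z, u z'⟫ ≤ - c := by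
  intro h
  obtain ⟨R, hpos, h89⟩ := exists_R hc
  exact ySys_no_vec K R (fun z => u (emb K R z)) (hu.comp (measurable_emb K R)) (fun z => h1 _)
    hpos h89 fun z z' hz => h _ _ (emb_adj K R hz)

end HypVec
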