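import Pool.Agent.Lib.HypVec.Majority

/-!
# H2 / HypVec: Walsh expansion on `W → Bool` (page, section 4)

`mu` = product of fair coins on `V = W → Bool` (`W` countable). `chi B v = ∏_{b ∈ B} (-1)^{v b}`, a Hilbert
basis of `L²(mu; ℝ)`. Everything is needed only for bounded measurable vector valued functions.
-/

open MeasureTheory
open scoped RealInnerProductSpace

namespace HypVec

abbrev V := W → Bool

/-- the fair coin -/
noncomputable def coin : Measure Bool := (PMF.uniformOfFintype Bool).toMeasure

instance : IsProbabilityMeasure coin := by unfold coin; infer_instance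

/-- product of fair coins -/
noncomputable def mu : Measure V := Measure.infinitePi (fun _ => coin)

instance : IsProbabilityMeasure mu := by unfold mu; infer_instance

def sg (b : Bool) : ℝ := if b then -1 else 1

def chi (B : Finset W) (v : V) : ℝ := ∏ b ∈ B, sg (v b)

theorem coin_not (t : Set Bool) : coin ((fun b => !b) ⁻¹' t) = coin t := by
  classical
  unfold coin
  rw [PMF.toMeasure_uniformOfFintype_apply _ (DiscreteMeasurableSpace.forall_measurableSet _),
    PMF.toMeasure_uniformOfFintype_apply _ (DiscreteMeasurableSpace.forall_measurableSet _)]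
  congr 2
  exact Fintype.card_congr ⟨fun x => ⟨!x.1, x.2⟩, fun x => ⟨!x.1, by simpa using x.2⟩,
    fun x => by simp, fun x => by simp⟩

/-- coordinate permutation composed with measure preserving maps of the coin -/
theorem mp_gen (σ : W → W) (hσ : Function.Injective σ) (φ : W → Bool → Bool)
    (hφ : ∀ w (t : Set Bool), coin (φ w ⁻¹' t) = coin t) :
    MeasurePreserving (fun (v : V) (w : W) => φ w (v (σ w))) mu mu := by
  have hm : Measurable (fun (v : V) (w : W) => φ w (v (σ w))) := by
    refine measurable_pi_lambda _ fun w => ?_
    exact (measurable_of_countable (φ w)).comp (measurable_pi_apply (σ w))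
  refine ⟨hm, ?_⟩
  unfold mu
  refine Measure.eq_infinitePi (fun _ => coin) ?_
  intro s t ht
  rw [Measure.map_apply hm (MeasurableSet.pi s.countable_toSet fun i _ => ht i)]
  have hpre : (fun (v : V) (w : W) => φ w (v (σ w))) ⁻¹' (Set.pi (s : Set W) t) =
      Set.pi ((s.map ⟨σ, hσ⟩ : Finset W) : Set W)
        (Function.extend σ (fun w => φ w ⁻¹' t w) (fun _ => Set.univ)) := by
    ext v
    simp only [Set.mem_preimage, Set.mem_pi, Finset.coe_map, Function.Embedding.coeFn_mk,
      Set.mem_image, Finset.mem_coe]
    constructor
    · rintro h _ ⟨w, hw, rfl⟩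
      rw [hσ.extend_apply]
      exact h w hw
    · intro h w hw
      have := h (σ w) ⟨w, hw, rfl⟩
      rw [hσ.extend_apply] at this
      exact this
  rw [hpre, Measure.infinitePi_pi]
  · rw [Finset.prod_map]
    refine Finset.prod_congr rfl fun w _ => ?_
    simp only [Function.Embedding.coeFn_mk]
    rw [hσ.extend_apply]
    exact hφ w (t w)
  · intro i _
    exact DiscreteMeasurableSpace.forall_measurableSet _

theorem mp_mv (i : Fin 3) : MeasurePreserving (fun (v : V) (w : W) => v (mv i w)) mu mu :=
  mp_gen (mv i) (mv_inj i) (fun _ b => b) (fun _ _ => rfl)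

theorem mp_not : MeasurePreserving (fun (v : V) (w : W) => !v w) mu mu :=
  mp_gen id Function.injective_id (fun _ b => !b) (fun _ t => coin_not t)

theorem mp_flipAt (a : W) : MeasurePreserving (fun (v : V) => Function.update v a (!v a)) mu mu := by
  have h := mp_gen id Function.injective_id (fun w b => if w = a then !b else b) (by
    intro w t
    by_cases h : w = a
    · simp only [h, if_true]
      exact coin_not t
    · simp only [h, if_false]
      rfl)
  have e : (fun (v : V) => Function.update v a (!v a)) =
      (fun (v : V) (w : W) => (fun w b => if w = a then !b else b) w (v (id w))) := by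
    funext v w
    by_cases h : w = a
    · subst h; simp
    · simp [h]
  rw [e]
  exact h

/-- half of the points have `v a ≠ v b` -/
theorem avg_ge {a b : W} (hab : a ≠ b) (f : V → ℝ) (hf : Measurable f) (C : ℝ) (hC : ∀ v, |f v| ≤ C)
    (s t : ℝ) (hs : ∀ v, v a ≠ v b → s ≤ f v) (ht : ∀ v, v a = v b → t ≤ f v) :
    (s + t) / 2 ≤ ∫ v, f v ∂mu := by
  have hT := mp_flipAt a
  have hi : Integrable f mu :=
    Integrable.of_bound hf.aestronglyMeasurable C (Filter.Eventually.of_forall fun v => by
      rw [Real.norm_eq_abs]; exact hC v)
  have hi2 : Integrable (fun v : V => f (Function.update v a (!v a))) mu :=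
    hT.integrable_comp_of_integrable hi
  have e2 : ∫ v : V, f (Function.update v a (!v a)) ∂mu = ∫ v, f v ∂mu := by
    have h := integral_map (μ := mu) hT.measurable.aemeasurable (f := f)
      hf.aestronglyMeasurable
    rw [hT.map_eq] at h
    exact h.symm
  have key : ∀ v : V, s + t ≤ f v + f (Function.update v a (!v a)) := by
    intro v
    have hb : Function.update v a (!v a) b = v b := Function.update_of_ne hab.symm _ _
    have ha : Function.update v a (!v a) a = !v a := Function.update_self _ _ _
    by_cases h : v a = v b
    · have h1 := ht v h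
      have h2 := hs (Function.update v a (!v a)) (by
        rw [ha, hb, h]
        cases v b <;> simp)
      linarith
    · have h1 := hs v h
      have h2 := ht (Function.update v a (!v a)) (by
        rw [ha, hb]
        revert h
        cases v a <;> cases v b <;> simp)
      linarith
  have h3 : ∫ _v : V, (s + t) ∂mu ≤ ∫ v : V, (f v + f (Function.update v a (!v a))) ∂mu :=
    integral_mono (integrable_const _) (hi.add hi2) key
  rw [integral_add hi hi2, e2] at h3
  simp at h3
  linarith

/-- Walsh coefficient -/
noncomputable def coef {D : ℕ} (f : V → EuclideanSpace ℝ (Fin D)) (B : Finset W) :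
    EuclideanSpace ℝ (Fin D) := ∫ v, chi B v • f v ∂mu

theorem chi_mv (i : Fin 3) (B : Finset W) (v : V) :
    chi (mvF i B) (fun w => v (mv i w)) = chi B v := by
  unfold chi mvF
  rw [Finset.prod_map]
  refine Finset.prod_congr rfl fun b _ => ?_
  simp

theorem chi_not (B : Finset W) (v : V) (hB : Even B.card) : chi B (fun w => !v w) = chi B v := by
  unfold chi
  have h : ∀ b ∈ B, sg (!v b) = (-1) * sg (v b) := by
    intro b _
    unfold sg
    cases v b <;> simp
  rw [Finset.prod_congr rfl h, Finset.prod_mul_distrib, Finset.prod_const, hB.neg_one_pow, one_mul]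

/-- measurable involutions are measurable embeddings -/
theorem emb_of_inv {T : V → V} (hT : Measurable T) (h : ∀ v, T (T v) = v) : MeasurableEmbedding T :=
  (⟨⟨T, T, h, h⟩, hT, hT⟩ : V ≃ᵐ V).measurableEmbedding

theorem coef_mv {D : ℕ} (i : Fin 3) (f : V → EuclideanSpace ℝ (Fin D)) (hf : Measurable f)
    (B : Finset W) : coef (fun v => f (fun w => v (mv i w))) B = coef f (mvF i B) := by
  unfold coef
  have hT := mp_mv i
  have hE : MeasurableEmbedding (fun (v : V) (w : W) => v (mv i w)) :=
    emb_of_inv hT.measurable (fun v => by funext w; simp)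
  rw [← hT.integral_comp hE (fun v => chi (mvF i B) v • f v)]
  congr 1
  funext v
  rw [chi_mv]

theorem coef_even {D : ℕ} (f : V → EuclideanSpace ℝ (Fin D)) (hf : ∀ v, f (fun w => !v w) = - f v)
    (B : Finset W) (hB : Even B.card) : coef f B = 0 := by
  have hT := mp_not
  have hE : MeasurableEmbedding (fun (v : V) (w : W) => !v w) :=
    emb_of_inv hT.measurable (fun v => by funext w; simp)
  have h : coef f B = - coef f B := by
    unfold coef
    conv_lhs => rw [← hT.integral_comp hE (fun v => chi B v • f v)]
    rw [← integral_neg]
    congr 1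
    funext v
    rw [chi_not B v hB, hf, smul_neg]
  have h2 : coef f B + coef f B = 0 := by
    nth_rewrite 2 [h]
    exact add_neg_cancel _
  rw [← two_smul ℝ] at h2
  simpa using h2

end HypVec
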