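import Mathlib

/-!
Walsh functions on the product space `W → Bool` (`W` countable), Parseval for vector valued
functions, behaviour under permutations and under the complement.
-/

namespace Pool.Agent.HypVec

open MeasureTheory Set Submodule
open scoped ENNReal symmDiff

variable {W : Type*}

/-- the fair coin -/
noncomputable def coin : Measure Bool :=
  (2⁻¹ : ℝ≥0∞) • (Measure.dirac false + Measure.dirac true)

instance : IsProbabilityMeasure coin := by
  constructor
  simp only [coin, Measure.smul_apply, Measure.add_apply, measure_univ, smul_eq_mul]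
  rw [one_add_one_eq_two]
  exact ENNReal.inv_mul_cancel (by norm_num) (by norm_num)

theorem coin_map_not : coin.map not = coin := by
  unfold coin
  rw [Measure.map_smul, Measure.map_add _ _ (by fun_prop)]
  simp [Measure.map_dirac' (f := not) (by fun_prop), add_comm]

/-- the product of fair coins -/
noncomputable def mu (W : Type*) : Measure (W → Bool) := Measure.infinitePi fun _ => coin

instance : IsProbabilityMeasure (mu W) := by unfold mu; infer_instance

/-- translation by `s` preserves `mu` -/
theorem measurePreserving_xor (s : W → Bool) :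
    MeasurePreserving (fun (v : W → Bool) w => xor (v w) (s w)) (mu W) (mu W) := by
  refine ⟨by fun_prop, ?_⟩
  unfold mu
  rw [Measure.infinitePi_map_pi (μ := fun _ : W => coin)
    (f := fun w b => xor b (s w)) (fun _ => by fun_prop)]
  congr 1
  funext w
  cases s w
  · simp
  · have : (fun b : Bool => b ^^ true) = not := by funext b; simp
    rw [this, coin_map_not]

theorem measurePreserving_comp (e : Equiv.Perm W) :
    MeasurePreserving (fun (v : W → Bool) w => v (e w)) (mu W) (mu W) := by
  refine ⟨by fun_prop, ?_⟩
  unfold mu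
  have h := Measure.infinitePi_map_piCongrLeft (μ := fun _ : W => coin) e.symm
  convert h using 2
  funext v w
  have := Equiv.piCongrLeft_apply (P := fun _ : W => Bool) e.symm v w
  exact (show v (e w) = (Equiv.piCongrLeft (fun _ : W => Bool) e.symm) v w by simpa using this.symm)

/-- the sign of a bit -/
def sgn (b : Bool) : ℝ := if b then -1 else 1

theorem sgn_mul_self (b : Bool) : sgn b * sgn b = 1 := by cases b <;> simp [sgn]

theorem sgn_not (b : Bool) : sgn (!b) = - sgn b := by cases b <;> simp [sgn]

theorem sgn_xor (a b : Bool) : sgn (xor a b) = sgn a * sgn b := by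
  cases a <;> cases b <;> simp [sgn]

/-- Walsh functions -/
def chi (B : Finset W) (v : W → Bool) : ℝ := ∏ b ∈ B, sgn (v b)

theorem abs_sgn (b : Bool) : |sgn b| = 1 := by cases b <;> simp [sgn]

theorem abs_chi (B : Finset W) (v : W → Bool) : |chi B v| = 1 := by
  unfold chi
  rw [Finset.abs_prod]
  exact Finset.prod_eq_one fun b _ => abs_sgn _

theorem chi_mul_self (B : Finset W) (v : W → Bool) : chi B v * chi B v = 1 := by
  rw [← abs_mul_abs_self, abs_chi, one_mul]

theorem chi_mul [DecidableEq W] (B C : Finset W) (v : W → Bool) :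
    chi B v * chi C v = chi (B ∆ C) v := by
  unfold chi
  have h1 : ∏ b ∈ B, sgn (v b) = (∏ b ∈ B \ C, sgn (v b)) * ∏ b ∈ B ∩ C, sgn (v b) := by
    rw [← Finset.prod_union (Finset.disjoint_sdiff_inter B C), Finset.sdiff_union_inter]
  have h2 : ∏ b ∈ C, sgn (v b) = (∏ b ∈ C \ B, sgn (v b)) * ∏ b ∈ B ∩ C, sgn (v b) := by
    rw [Finset.inter_comm, ← Finset.prod_union (Finset.disjoint_sdiff_inter C B),
      Finset.sdiff_union_inter]
  have h3 : (∏ b ∈ B ∩ C, sgn (v b)) * ∏ b ∈ B ∩ C, sgn (v b) = 1 := by
    rw [← Finset.prod_mul_distrib]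
    exact Finset.prod_eq_one fun b _ => sgn_mul_self _
  have h4 : ∏ b ∈ B ∆ C, sgn (v b) = (∏ b ∈ B \ C, sgn (v b)) * ∏ b ∈ C \ B, sgn (v b) := by
    rw [← Finset.prod_union]
    · rfl
    · exact disjoint_sdiff_sdiff
  rw [h1, h2, h4]
  calc _ = (∏ b ∈ B \ C, sgn (v b)) * (∏ b ∈ C \ B, sgn (v b)) *
        ((∏ b ∈ B ∩ C, sgn (v b)) * ∏ b ∈ B ∩ C, sgn (v b)) := by ring
    _ = _ := by rw [h3, mul_one]

@[simp] theorem chi_empty (v : W → Bool) : chi ∅ v = 1 := by simp [chi]

@[simp] theorem chi_singleton (w : W) (v : W → Bool) : chi {w} v = sgn (v w) := by simp [chi]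

theorem chi_xor (B : Finset W) (v s : W → Bool) :
    chi B (fun w => xor (v w) (s w)) = chi B v * chi B s := by
  simp [chi, sgn_xor, Finset.prod_mul_distrib]

theorem chi_not (B : Finset W) (v : W → Bool) :
    chi B (fun w => !(v w)) = (-1) ^ B.card * chi B v := by
  unfold chi
  rw [← Finset.prod_const, ← Finset.prod_mul_distrib]
  exact Finset.prod_congr rfl fun b _ => by rw [sgn_not]; ring

theorem chi_comp (B : Finset W) (v : W → Bool) (e : Equiv.Perm W) :
    chi B (fun w => v (e w)) = chi (B.map e.toEmbedding) v := by
  simp [chi]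

theorem continuous_sgn : Continuous sgn := continuous_of_discreteTopology

theorem continuous_chi (B : Finset W) : Continuous (chi B) := by
  unfold chi
  exact continuous_finsetProd _ fun b _ => continuous_sgn.comp (continuous_apply b)

theorem measurable_chi (B : Finset W) : Measurable (chi B) := by
  unfold chi
  exact Finset.measurable_prod _ fun b _ => (measurable_of_countable sgn).comp
    (measurable_pi_apply b)

theorem integral_chi (B : Finset W) (hB : B.Nonempty) : ∫ v, chi B v ∂(mu W) = 0 := by
  classical
  obtain ⟨w, hw⟩ := hB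
  let s : W → Bool := fun x => decide (x = w)
  have hs : chi B s = -1 := by
    unfold chi
    rw [Finset.prod_eq_single w]
    · simp [s, sgn]
    · intro b _ hb
      simp [s, sgn, hb]
    · intro h
      exact absurd hw h
  have h1 : ∫ v, chi B v ∂(mu W) = ∫ v, chi B (fun w => xor (v w) (s w)) ∂(mu W) := by
    have h := measurePreserving_xor s
    conv_lhs => rw [← h.map_eq]
    exact integral_map h.measurable.aemeasurable (measurable_chi B).aestronglyMeasurable
  rw [show (fun v => chi B (fun w => xor (v w) (s w))) = fun v => chi B v * chi B s from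
    funext fun v => chi_xor B v s, integral_mul_const, hs] at h1
  linarith

/-- Walsh functions as continuous maps -/
def chiC (B : Finset W) : C(W → Bool, ℝ) := ⟨chi B, continuous_chi B⟩

private theorem span_chiC_closure : (span ℝ (range (chiC (W := W)))).topologicalClosure = ⊤ := by
  classical
  have hsub : ∃ A : Subalgebra ℝ C(W → Bool, ℝ), Subalgebra.toSubmodule A =
      span ℝ (range (chiC (W := W))) := by
    refine ⟨Submodule.toSubalgebra (span ℝ (range (chiC (W := W)))) ?_ ?_, rfl⟩
    · refine subset_span ⟨∅, ?_⟩
      ext v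
      simp [chiC]
    · intro x y hx hy
      induction hx using span_induction with
      | mem x hx =>
        obtain ⟨B, rfl⟩ := hx
        induction hy using span_induction with
        | mem y hy =>
          obtain ⟨C, rfl⟩ := hy
          refine subset_span ⟨B ∆ C, ?_⟩
          ext v
          exact (chi_mul B C v).symm
        | zero => simp
        | add y z _ _ h1 h2 => rw [mul_add]; exact add_mem h1 h2
        | smul a y _ h => rw [mul_smul_comm]; exact smul_mem _ _ h
      | zero => simp
      | add x z _ _ h1 h2 => rw [add_mul]; exact add_mem h1 h2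
      | smul a x _ h => rw [smul_mul_assoc]; exact smul_mem _ _ h
  obtain ⟨A, hA⟩ := hsub
  have hsep : A.SeparatesPoints := by
    intro v v' hne
    obtain ⟨w, hw⟩ := Function.ne_iff.1 hne
    refine ⟨chi {w}, ⟨chiC {w}, ?_, rfl⟩, ?_⟩
    · show chiC {w} ∈ A
      rw [← Subalgebra.mem_toSubmodule, hA]
      exact subset_span ⟨_, rfl⟩
    · simp only [chi_singleton]
      intro h
      apply hw
      cases h1 : v w <;> cases h2 : v' w <;> simp_all [sgn] <;> norm_num at h
  have h := ContinuousMap.subalgebra_topologicalClosure_eq_top_of_separatesPoints A hsep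
  rw [← hA]
  exact congr_arg Subalgebra.toSubmodule h

section

variable [Countable W]

private noncomputable abbrev chiLp (B : Finset W) : Lp ℝ 2 (mu W) :=
  ContinuousMap.toLp (E := ℝ) 2 (mu W) ℝ (chiC B)

private theorem span_chiLp_closure :
    (span ℝ (range (chiLp (W := W)))).topologicalClosure = ⊤ := by
  convert!
    (ContinuousMap.toLp_denseRange ℝ (mu W) ℝ
      (p := 2) (by norm_num)).topologicalClosure_map_submodule
      (span_chiC_closure (W := W))
  rw [map_span]
  unfold chiLp
  rw [range_comp']
  simp only [ContinuousLinearMap.coe_coe]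

private theorem orthonormal_chiLp : Orthonormal ℝ (chiLp (W := W)) := by
  classical
  rw [orthonormal_iff_ite]
  intro B C
  rw [ContinuousMap.inner_toLp (mu W) (chiC B) (chiC C)]
  have h1 : ∀ v, chiC C v * starRingEnd ℝ (chiC B v) = chi (B ∆ C) v := by
    intro v
    have : chiC C v * starRingEnd ℝ (chiC B v) = chi C v * chi B v := rfl
    rw [this, mul_comm, chi_mul]
  simp_rw [h1]
  split_ifs with h
  · simp [h]
  · exact integral_chi _ (Finset.nonempty_iff_ne_empty.2 fun h2 => h (symmDiff_eq_bot.1 h2))

private noncomputable def basis : HilbertBasis (Finset W) ℝ (Lp ℝ 2 (mu W)) :=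
  HilbertBasis.mk orthonormal_chiLp span_chiLp_closure.ge

private theorem coe_basis (B : Finset W) : basis B = chiLp B := by
  unfold basis
  rw [HilbertBasis.coe_mk]

private theorem parseval_real {f g : (W → Bool) → ℝ} (hf : MemLp f 2 (mu W))
    (hg : MemLp g 2 (mu W)) :
    HasSum (fun B : Finset W => (∫ v, chi B v * f v ∂(mu W)) * ∫ v, chi B v * g v ∂(mu W))
      (∫ v, f v * g v ∂(mu W)) := by
  have h := (basis (W := W)).hasSum_inner_mul_inner (hf.toLp f) (hg.toLp g)
  have hin : ∀ {f g : (W → Bool) → ℝ} (hf : MemLp f 2 (mu W)) (hg : MemLp g 2 (mu W)),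
      inner ℝ (hf.toLp f) (hg.toLp g) = ∫ v, f v * g v ∂(mu W) := by
    intro f g hf hg
    rw [L2.inner_def]
    refine integral_congr_ae ?_
    filter_upwards [hf.coeFn_toLp, hg.coeFn_toLp] with v h1 h2
    rw [h1, h2]
    simp [mul_comm]
  have hb : ∀ B : Finset W, ∃ hB : MemLp (chi B) 2 (mu W), chiLp B = hB.toLp (chi B) := by
    intro B
    have hB : MemLp (chi B) 2 (mu W) := by
      refine MemLp.of_bound (measurable_chi B).aestronglyMeasurable 1 ?_
      exact Filter.Eventually.of_forall fun v => by rw [Real.norm_eq_abs, abs_chi]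
    refine ⟨hB, ?_⟩
    apply Lp.ext
    refine (ContinuousMap.coeFn_toLp (mu W) (chiC B)).trans ?_
    exact hB.coeFn_toLp.symm
  rw [hin hf hg] at h
  have h2 : (fun B : Finset W => (∫ v, chi B v * f v ∂(mu W)) * ∫ v, chi B v * g v ∂(mu W)) =
      fun B => inner ℝ (hf.toLp f) (basis B) * inner ℝ (basis B) (hg.toLp g) := by
    funext B
    obtain ⟨hB, hB'⟩ := hb B
    rw [coe_basis, hB', hin hf hB, hin hB hg]
    congr 1
    exact integral_congr_ae (Filter.Eventually.of_forall fun v => mul_comm _ _)
  rw [h2]
  exact h

end

/-- Walsh coefficient of a vector valued function -/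
noncomputable def coef {E : Type*} [NormedAddCommGroup E] [NormedSpace ℝ E]
    (f : (W → Bool) → E) (B : Finset W) : E :=
  ∫ v, chi B v • f v ∂(mu W)

/-- coefficients of a function composed with a permutation of the coordinates -/
theorem coef_comp {E : Type*} [NormedAddCommGroup E] [NormedSpace ℝ E] [MeasurableSpace E]
    [BorelSpace E] [SecondCountableTopology E]
    {f : (W → Bool) → E} (hf : Measurable f) (e : Equiv.Perm W) (B : Finset W) :
    coef (fun v => f (fun w => v (e w))) B = coef f (B.map e.symm.toEmbedding) := by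
  have h := measurePreserving_comp e
  have hm : Measurable fun v => chi (B.map e.symm.toEmbedding) v • f v :=
    (measurable_chi _).smul hf
  unfold coef
  conv_rhs => rw [← h.map_eq]
  rw [integral_map h.measurable.aemeasurable hm.aestronglyMeasurable]
  refine integral_congr_ae (Filter.Eventually.of_forall fun v => ?_)
  simp only
  rw [chi_comp]
  congr 2
  ext w
  simp

/-- the complement as a measurable equivalence -/
def notEquiv (W : Type*) : (W → Bool) ≃ᵐ (W → Bool) where
  toFun v w := !(v w)
  invFun v w := !(v w)
  left_inv v := by funext w; simp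
  right_inv v := by funext w; simp
  measurable_toFun := by
    refine measurable_pi_lambda _ fun w => ?_
    exact (measurable_of_countable not).comp (measurable_pi_apply w)
  measurable_invFun := by
    refine measurable_pi_lambda _ fun w => ?_
    exact (measurable_of_countable not).comp (measurable_pi_apply w)

theorem measurePreserving_not : MeasurePreserving (notEquiv W) (mu W) (mu W) := by
  have h := measurePreserving_xor (fun _ : W => true)
  convert h using 1
  funext v w
  simp [notEquiv]

/-- coefficients of an odd function -/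
theorem coef_odd {E : Type*} [NormedAddCommGroup E] [NormedSpace ℝ E]
    {f : (W → Bool) → E} (hodd : ∀ v, f (fun w => !(v w)) = - f v)
    (B : Finset W) (hB : Even B.card) : coef f B = 0 := by
  have h1 : coef f B = - coef f B := by
    conv_lhs => unfold coef
    rw [← (measurePreserving_not (W := W)).integral_comp (notEquiv W).measurableEmbedding]
    unfold coef
    rw [← integral_neg]
    refine integral_congr_ae (Filter.Eventually.of_forall fun v => ?_)
    have : notEquiv W v = fun w => !(v w) := rfl
    simp only [this]
    rw [hodd, chi_not, hB.neg_one_pow, one_mul, smul_neg]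
  have h2 : (2 : ℝ) • coef f B = 0 := by
    rw [two_smul]
    nth_rewrite 1 [h1]
    exact neg_add_cancel _
  simpa using h2

/-- Parseval -/
theorem hasSum_inner_coef [Countable W] {ι : Type*} [Fintype ι]
    {f g : (W → Bool) → EuclideanSpace ℝ ι} (hf : Measurable f) (hg : Measurable g)
    {C : ℝ} (hfC : ∀ v, ‖f v‖ ≤ C) (hgC : ∀ v, ‖g v‖ ≤ C) :
    HasSum (fun B : Finset W => inner ℝ (coef f B) (coef g B))
      (∫ v, inner ℝ (f v) (g v) ∂(mu W)) := by
  have hco : ∀ {f : (W → Bool) → EuclideanSpace ℝ ι} (hf : Measurable f)
      (hfC : ∀ v, ‖f v‖ ≤ C) (B : Finset W) (i : ι),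
      coef f B i = ∫ v, chi B v * f v i ∂(mu W) := by
    intro f hf hfC B i
    have hint : Integrable (fun v => chi B v • f v) (mu W) := by
      refine Integrable.of_bound ((measurable_chi _).smul hf).aestronglyMeasurable C ?_
      refine Filter.Eventually.of_forall fun v => ?_
      rw [norm_smul, Real.norm_eq_abs, abs_chi, one_mul]
      exact hfC v
    exact ((EuclideanSpace.proj (𝕜 := ℝ) i).integral_comp_comm hint).symm
  have hm : ∀ {f : (W → Bool) → EuclideanSpace ℝ ι} (hf : Measurable f)
      (hfC : ∀ v, ‖f v‖ ≤ C) (i : ι), MemLp (fun v => f v i) 2 (mu W) := by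
    intro f hf hfC i
    refine MemLp.of_bound ?_ C ?_
    · exact ((EuclideanSpace.proj (𝕜 := ℝ) i).continuous.measurable.comp hf).aestronglyMeasurable
    · exact Filter.Eventually.of_forall fun v => (PiLp.norm_apply_le (f v) i).trans (hfC v)
  have h1 : HasSum (fun B : Finset W => ∑ i, coef f B i * coef g B i)
      (∑ i, ∫ v, f v i * g v i ∂(mu W)) := by
    apply hasSum_sum
    intro i _
    have := parseval_real (hm hf hfC i) (hm hg hgC i)
    simpa only [hco hf hfC, hco hg hgC] using this
  have h2 : ∫ v, inner ℝ (f v) (g v) ∂(mu W) = ∑ i, ∫ v, f v i * g v i ∂(mu W) := by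
    rw [← integral_finsetSum]
    · refine integral_congr_ae (Filter.Eventually.of_forall fun v => ?_)
      simp only [PiLp.inner_apply]
      exact Finset.sum_congr rfl fun i _ => by simp [mul_comm]
    · intro i _
      exact (hm hf hfC i).integrable_mul (hm hg hgC i)
  rw [h2]
  convert h1 using 2 with B
  simp only [PiLp.inner_apply]
  exact Finset.sum_congr rfl fun i _ => by simp [mul_comm]

end Pool.Agent.HypVec
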